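import Mathlib
import Pool.Agent.Y822.CTu
import Pool.Agent.Y822.Main0
import Pool.Agent.Y822.Sel
import Pool.Agent.TH891.SG.Gal4

/-! Counting integers in a residue class all of whose shifts by a set are rough, with a relative
error (after `Pool.Agent.Y822.cnt`). -/

set_option autoImplicit false

namespace Pool.Agent.J4.H38.SR

open Finset
open Pool.Agent.Y822
open Pool.Agent.W41 (JJ)
open Pool.Agent.H373R2.T7 (pz Vz mem_pz)
open Pool.Agent.H387R2.Uni (nuT Adm locT CT)

/-- all shifts by elements of `T` are rough -/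
noncomputable def rT (T : Finset ℕ) (y n : ℕ) : ℝ := ∏ t ∈ T, ro y (n + t)

lemma rT_nonneg (T : Finset ℕ) (y n : ℕ) : 0 ≤ rT T y n := prod_nonneg fun _ _ => ro_nonneg _ _

lemma rT_le_one (T : Finset ℕ) (y n : ℕ) : rT T y n ≤ 1 :=
  prod_le_one (fun _ _ => ro_nonneg _ _) fun _ _ => ro_le_one _ _

lemma rT_insert {T : Finset ℕ} {t : ℕ} (ht : t ∉ T) (y n : ℕ) :
    rT (insert t T) y n = ro y (n + t) * rT T y n := by
  unfold rT
  rw [prod_insert ht]

open Classical in
lemma rT_eq (T : Finset ℕ) (y n : ℕ) :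
    rT T y n = if (∀ t ∈ T, Ro y (n + t)) then 1 else 0 := by
  unfold rT
  split_ifs with h
  · refine prod_eq_one fun t ht => ?_
    unfold ro
    rw [if_pos (h t ht)]
  · push Not at h
    obtain ⟨t, ht, hn⟩ := h
    refine prod_eq_zero ht ?_
    unfold ro
    rw [if_neg hn]

lemma rT_sq (T : Finset ℕ) (y n : ℕ) : rT T y n * rT T y n = rT T y n := by
  classical
  rw [rT_eq]
  split_ifs <;> norm_num

/-- number of classes modulo `p` forbidden by the shifts -/
def fT (T : Finset ℕ) (p : ℕ) : ℕ := ((range p).filter (fun r => ∃ t ∈ T, p ∣ r + t)).card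

lemma fT_eq (T : Finset ℕ) {p : ℕ} (hp0 : 0 < p) : fT T p = nuT T p := by
  classical
  unfold fT nuT
  have himg : (range p).filter (fun r => ∃ t ∈ T, p ∣ r + t) =
      (T.image (· % p)).image (fun c => (p - c) % p) := by
    ext r
    rw [mem_filter, mem_range, mem_image]
    constructor
    · rintro ⟨hr, s, hs, hd⟩
      refine ⟨s % p, mem_image.2 ⟨s, hs, rfl⟩, ?_⟩
      have e2 : (p - s % p) % p + s ≡ 0 [MOD p] := by
        have h1 : (p - s % p) % p + s ≡ (p - s % p) + s % p [MOD p] :=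
          Nat.ModEq.add (Nat.mod_modEq _ _) (Nat.mod_modEq _ _).symm
        have h2 : p - s % p + s % p = p := by
          have := Nat.mod_lt s hp0
          omega
        rw [h2] at h1
        exact h1.trans (by simp [Nat.ModEq])
      have e3 : (p - s % p) % p ≡ r [MOD p] :=
        Nat.ModEq.add_right_cancel' s (e2.trans ((Nat.modEq_zero_iff_dvd).2 hd).symm)
      exact Nat.ModEq.eq_of_lt_of_lt e3 (Nat.mod_lt _ hp0) hr
    · rintro ⟨c, hc, rfl⟩
      rw [mem_image] at hc
      obtain ⟨s, hs, rfl⟩ := hc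
      refine ⟨Nat.mod_lt _ hp0, s, hs, ?_⟩
      have h1 : (p - s % p) % p + s ≡ (p - s % p) + s % p [MOD p] :=
        Nat.ModEq.add (Nat.mod_modEq _ _) (Nat.mod_modEq _ _).symm
      have h2 : p - s % p + s % p = p := by
        have := Nat.mod_lt s hp0
        omega
      rw [h2] at h1
      exact (Nat.modEq_zero_iff_dvd).1 (h1.trans (by simp [Nat.ModEq]))
  rw [himg, card_image_of_injOn]
  intro c hc c' hc' h
  rw [mem_coe, mem_image] at hc hc'
  obtain ⟨s, _, rfl⟩ := hc
  obtain ⟨s', _, rfl⟩ := hc'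
  have h2 : p - s % p ≡ p - s' % p [MOD p] := h
  have l1 := Nat.mod_lt s hp0
  have l2 := Nat.mod_lt s' hp0
  have h3 : (p - s % p) + (s % p + s' % p) ≡ (p - s' % p) + (s % p + s' % p) [MOD p] :=
    Nat.ModEq.add_right _ h2
  have e1 : (p - s % p) + (s % p + s' % p) = p + s' % p := by omega
  have e2 : (p - s' % p) + (s % p + s' % p) = p + s % p := by omega
  rw [e1, e2] at h3
  have h4 : s' % p ≡ s % p [MOD p] := Nat.ModEq.add_left_cancel' p h3
  exact (Nat.ModEq.eq_of_lt_of_lt h4 l2 l1).symm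

/-- local density of the shifts being rough -/
noncomputable def VT (y : ℕ) (T : Finset ℕ) : ℝ :=
  ∏ p ∈ (Icc 1 y).filter Nat.Prime, (1 - (fT T p : ℝ) / p)

lemma pz_eq (y : ℕ) : (Icc 1 y).filter Nat.Prime = pz y := by
  ext p
  rw [mem_pz, mem_filter, mem_Icc]
  constructor
  · rintro ⟨h2, h3⟩
    exact ⟨h2.2, h3⟩
  · rintro ⟨h2, h3⟩
    exact ⟨⟨h3.one_lt.le, h2⟩, h3⟩

lemma fT_le_p (T : Finset ℕ) (p : ℕ) : fT T p ≤ p := (card_filter_le _ _).trans (card_range p).le

lemma VT_nonneg (y : ℕ) (T : Finset ℕ) : 0 ≤ VT y T := by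
  refine prod_nonneg fun p _ => ?_
  rw [sub_nonneg]
  apply div_le_one_of_le₀ _ (Nat.cast_nonneg _)
  exact_mod_cast fT_le_p T p

lemma VT_le_one (y : ℕ) (T : Finset ℕ) : VT y T ≤ 1 := by
  refine prod_le_one (fun p _ => ?_) (fun p _ => ?_)
  · rw [sub_nonneg]
    apply div_le_one_of_le₀ _ (Nat.cast_nonneg _)
    exact_mod_cast fT_le_p T p
  · have : 0 ≤ (fT T p : ℝ) / p := by positivity
    linarith

lemma Vz_pos' (z : ℕ) : 0 < Vz z := by
  unfold Vz
  refine prod_pos fun p hp => ?_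
  have : (2 : ℝ) ≤ p := by exact_mod_cast (mem_pz.1 hp).2.two_le
  rw [sub_pos, div_lt_one (by linarith)]
  linarith

lemma VT_eq (y : ℕ) (T : Finset ℕ) : VT y T = PT T y * Vz y ^ T.card := by
  unfold VT PT Vz
  rw [pz_eq, ← prod_pow, ← prod_mul_distrib]
  refine prod_congr rfl fun p hp => ?_
  have hpp := (mem_pz.1 hp).2
  rw [fT_eq T hpp.pos]
  unfold locT
  have hp2 : (2 : ℝ) ≤ p := by exact_mod_cast hpp.two_le
  have h1 : 0 < 1 - 1 / (p : ℝ) := by
    rw [sub_pos, div_lt_one (by linarith)]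
    linarith
  rw [div_mul_cancel₀]
  exact (pow_pos h1 _).ne'

/-- counting in one residue class -/
theorem cntT (m : ℕ) : ∃ C0 K0 : ℕ, 1 ≤ C0 ∧ 1 ≤ K0 ∧ ∀ b : ℕ, C0 ≤ b → ∀ y : ℕ, 2 ≤ y →
    ∀ (T : Finset ℕ), T.card ≤ m →
    ∀ N a a' d d' : ℕ, 1 ≤ d → 1 ≤ d' → Ro y d → Ro y d' → Nat.Coprime d d' →
    |∑ n ∈ Icc 1 N, rT T y n *
        ((if d ∣ n + a then 1 else 0) * (if d' ∣ n + a' then 1 else 0)) -
      (N : ℝ) / (d * d') * VT y T| ≤
      (1 / 2) ^ b * ((N : ℝ) / (d * d') * VT y T) + 2 + Ad C0 K0 b y := by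
  obtain ⟨C0, K0, hC0, hK0, hfl⟩ := Pool.Agent.TH892.SW.fl_set m
  refine ⟨C0, K0, hC0, hK0, ?_⟩
  intro b hb y hy T hTm N a a' d d' hd hd' hrd hrd' hcop
  classical
  set q := d * d' with hq
  have hq1 : 1 ≤ q := Nat.mul_pos hd hd'
  -- the residue class
  obtain ⟨c0, hc01, hc0q, hc0⟩ : ∃ c0 : ℕ, 1 ≤ c0 ∧ c0 ≤ q ∧
      ∀ n : ℕ, (d ∣ n + a ∧ d' ∣ n + a') ↔ n ≡ c0 [MOD q] := by
    obtain ⟨c, hc1, hc2⟩ := Nat.chineseRemainder hcop (d * a - a + 0) (d' * a' - a' + 0)
    have hca : d ∣ c + a := by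
      have h1 : c + a ≡ d * a - a + 0 + a [MOD d] := Nat.ModEq.add_right a hc1
      have h2 : d * a - a + 0 + a = d * a := by
        have : a ≤ d * a := Nat.le_mul_of_pos_left a hd
        omega
      rw [h2] at h1
      exact (Nat.modEq_zero_iff_dvd).1 (h1.trans ((Nat.modEq_zero_iff_dvd).2 (Dvd.intro _ rfl)))
    have hca' : d' ∣ c + a' := by
      have h1 : c + a' ≡ d' * a' - a' + 0 + a' [MOD d'] := Nat.ModEq.add_right a' hc2
      have h2 : d' * a' - a' + 0 + a' = d' * a' := by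
        have : a' ≤ d' * a' := Nat.le_mul_of_pos_left a' hd'
        omega
      rw [h2] at h1
      exact (Nat.modEq_zero_iff_dvd).1 (h1.trans ((Nat.modEq_zero_iff_dvd).2 (Dvd.intro _ rfl)))
    have hiff : ∀ n : ℕ, (d ∣ n + a ∧ d' ∣ n + a') ↔ n ≡ c [MOD q] := by
      intro n
      constructor
      · rintro ⟨h1, h2⟩
        rw [hq]
        refine (Nat.modEq_and_modEq_iff_modEq_mul hcop).1 ⟨?_, ?_⟩
        · exact Nat.ModEq.add_right_cancel' a (((Nat.modEq_zero_iff_dvd).2 h1).trans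
            ((Nat.modEq_zero_iff_dvd).2 hca).symm)
        · exact Nat.ModEq.add_right_cancel' a' (((Nat.modEq_zero_iff_dvd).2 h2).trans
            ((Nat.modEq_zero_iff_dvd).2 hca').symm)
      · intro h
        rw [hq] at h
        obtain ⟨h1, h2⟩ := (Nat.modEq_and_modEq_iff_modEq_mul hcop).2 h
        exact ⟨(Nat.modEq_zero_iff_dvd).1 ((Nat.ModEq.add_right a h1).trans
            ((Nat.modEq_zero_iff_dvd).2 hca)),
          (Nat.modEq_zero_iff_dvd).1 ((Nat.ModEq.add_right a' h2).trans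
            ((Nat.modEq_zero_iff_dvd).2 hca'))⟩
    by_cases h0 : c % q = 0
    · refine ⟨q, hq1, le_rfl, fun n => (hiff n).trans ?_⟩
      have : c ≡ q [MOD q] := by
        show c % q = q % q
        rw [h0, Nat.mod_self]
      exact ⟨fun h => h.trans this, fun h => h.trans this.symm⟩
    · refine ⟨c % q, Nat.pos_of_ne_zero h0, (Nat.mod_lt _ hq1).le, fun n => (hiff n).trans ?_⟩
      have : c ≡ c % q [MOD q] := (Nat.mod_modEq c q).symm
      exact ⟨fun h => h.trans this, fun h => h.trans this.symm⟩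
  set X := (N + q - c0) / q with hX
  set P := (Icc 1 y).filter Nat.Prime with hP
  have hPq : ∀ p ∈ P, Nat.Coprime p q := by
    intro p hp
    rw [hP, mem_filter, mem_Icc] at hp
    rw [hq]
    exact Nat.Coprime.mul_right ((Nat.Prime.coprime_iff_not_dvd hp.2).2 (hrd p hp.2 hp.1.2))
      ((Nat.Prime.coprime_iff_not_dvd hp.2).2 (hrd' p hp.2 hp.1.2))
  obtain ⟨R, hR⟩ : ∃ R : ℕ → ℕ → Prop, ∀ p x, R p x ↔
      (∃ t ∈ T, p ∣ (c0 + q * (p - 1) + q * x) % p + t) :=
    ⟨_, fun _ _ => Iff.rfl⟩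
  have hcard : ∀ p ∈ P, ((range p).filter (fun x => R p x)).card = fT T p := by
    intro p hp
    have hp0 : 0 < p := by
      rw [hP, mem_filter] at hp
      exact hp.2.pos
    have h1 := card_affine p q (c0 + q * (p - 1)) (hPq p hp) hp0
      (fun r => ∃ t ∈ T, p ∣ r + t)
    unfold fT
    rw [← h1]
    exact congrArg card (filter_congr fun x _ => hR p x)
  have key := hfl b hb y hy X P R (fun p hp => by
    refine ⟨(mem_filter.1 hp).2, (mem_Icc.1 (mem_filter.1 hp).1).2, ?_⟩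
    rw [hcard p hp, fT_eq T (mem_filter.1 hp).2.pos]
    exact (nuT_le_card T p).trans hTm)
  have hprod : ∏ p ∈ P, (1 - (((range p).filter (fun a => R p a)).card : ℝ) / p) = VT y T := by
    unfold VT
    refine prod_congr rfl fun p hp => ?_
    rw [hcard p hp]
  rw [hprod] at key
  -- the count
  have hcount : ∑ n ∈ Icc 1 N, rT T y n *
        ((if d ∣ n + a then 1 else 0) * (if d' ∣ n + a' then 1 else 0)) =
      (((Icc 1 X).filter (fun n => ∀ p ∈ P, ¬ R p (n % p))).card : ℝ) := by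
    have h1 : ∀ n ∈ Icc 1 N, rT T y n *
        ((if d ∣ n + a then 1 else 0) * (if d' ∣ n + a' then 1 else 0)) =
        (if ((∀ t ∈ T, Ro y (n + t)) ∧ n ≡ c0 [MOD q]) then (1 : ℝ) else 0) := by
      intro n _
      rw [rT_eq]
      by_cases e1 : (∀ t ∈ T, Ro y (n + t)) <;> by_cases e3 : d ∣ n + a <;>
        by_cases e4 : d' ∣ n + a' <;> simp [e1, e3, e4, ← hc0 n]
    rw [sum_congr rfl h1, ← sum_filter, sum_const, nsmul_eq_mul, mul_one]
    congr 1
    symm
    refine card_bij (fun m _ => c0 + q * (m - 1)) ?_ ?_ ?_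
    · intro m hm
      rw [mem_filter, mem_Icc] at hm
      obtain ⟨⟨hm1, hmX⟩, hmR⟩ := hm
      have hN : c0 + q * (m - 1) ≤ N := by
        have h2 : q * m ≤ N + q - c0 := by
          calc q * m ≤ q * X := Nat.mul_le_mul_left q hmX
            _ ≤ N + q - c0 := by rw [hX]; exact Nat.mul_div_le _ _
        have h3 : q * (m - 1) = q * m - q := by rw [Nat.mul_sub, mul_one]
        have h4 : q ≤ q * m := Nat.le_mul_of_pos_right q hm1
        omega
      rw [mem_filter, mem_Icc]
      refine ⟨⟨by omega, hN⟩, ?_, ?_⟩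
      · intro t ht p hp hpy hdiv
        have hpP : p ∈ P := by
          rw [hP, mem_filter, mem_Icc]
          exact ⟨⟨hp.one_lt.le, hpy⟩, hp⟩
        have hp0 : 0 < p := hp.pos
        have hmod : (c0 + q * (p - 1) + q * (m % p)) % p = (c0 + q * (m - 1)) % p := by
          have e1 : c0 + q * (p - 1) + q * (m % p) ≡ c0 + q * (p - 1) + q * m [MOD p] :=
            Nat.ModEq.add_left _ (Nat.ModEq.mul_left q (Nat.mod_modEq m p))
          have e2 : c0 + q * (p - 1) + q * m = c0 + q * (m - 1) + q * p := by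
            obtain ⟨m', rfl⟩ : ∃ m', m = m' + 1 := ⟨m - 1, by omega⟩
            obtain ⟨p', rfl⟩ : ∃ p', p = p' + 1 := ⟨p - 1, by omega⟩
            simp only [Nat.add_sub_cancel]
            ring
          rw [e2] at e1
          have e3 : c0 + q * (m - 1) + q * p ≡ c0 + q * (m - 1) [MOD p] := by
            have : q * p ≡ 0 [MOD p] := (Nat.modEq_zero_iff_dvd).2 (Dvd.intro_left q rfl)
            simpa using Nat.ModEq.add_left (c0 + q * (m - 1)) this
          exact e1.trans e3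
        refine hmR p hpP ?_
        rw [hR, hmod]
        refine ⟨t, ht, ?_⟩
        have : (c0 + q * (m - 1)) % p + t ≡ c0 + q * (m - 1) + t [MOD p] :=
          Nat.ModEq.add_right t (Nat.mod_modEq _ p)
        exact (Nat.modEq_zero_iff_dvd).1 (this.trans ((Nat.modEq_zero_iff_dvd).2 hdiv))
      · have : q * (m - 1) ≡ 0 [MOD q] := (Nat.modEq_zero_iff_dvd).2 (Dvd.intro _ rfl)
        simpa using Nat.ModEq.add_left c0 this
    · intro m hm m' hm' h
      rw [mem_filter, mem_Icc] at hm hm'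
      have h2 : q * (m - 1) = q * (m' - 1) := by
        have h' : c0 + q * (m - 1) = c0 + q * (m' - 1) := h
        omega
      have h3 := Nat.eq_of_mul_eq_mul_left hq1 h2
      omega
    · intro n hn
      rw [mem_filter, mem_Icc] at hn
      obtain ⟨⟨hn1, hnN⟩, hr1, hmod⟩ := hn
      have hle : c0 ≤ n := by
        by_contra hlt
        push Not at hlt
        have h1 : n < q := lt_of_lt_of_le hlt hc0q
        have h2 : n % q = c0 % q := hmod
        rw [Nat.mod_eq_of_lt h1] at h2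
        rcases Nat.lt_or_ge c0 q with h3 | h3
        · rw [Nat.mod_eq_of_lt h3] at h2; omega
        · have : c0 = q := le_antisymm hc0q h3
          rw [this, Nat.mod_self] at h2
          omega
      obtain ⟨t, ht⟩ : q ∣ n - c0 := (Nat.modEq_iff_dvd' hle).1 hmod.symm
      have hnt : n = c0 + q * t := by omega
      refine ⟨t + 1, ?_, ?_⟩
      · rw [mem_filter, mem_Icc]
        refine ⟨⟨by omega, ?_⟩, ?_⟩
        · rw [hX, Nat.le_div_iff_mul_le hq1]
          have : (t + 1) * q = q * t + q := by ring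
          omega
        · intro p hp hRp
          have hpp : p.Prime := (mem_filter.1 hp).2
          have hpy : p ≤ y := (mem_Icc.1 (mem_filter.1 hp).1).2
          have hmod2 : (c0 + q * (p - 1) + q * ((t + 1) % p)) % p = n % p := by
            have e1 : c0 + q * (p - 1) + q * ((t + 1) % p) ≡ c0 + q * (p - 1) + q * (t + 1) [MOD p] :=
              Nat.ModEq.add_left _ (Nat.ModEq.mul_left q (Nat.mod_modEq (t + 1) p))
            have e2 : c0 + q * (p - 1) + q * (t + 1) = n + q * p := by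
              obtain ⟨p', rfl⟩ : ∃ p', p = p' + 1 := ⟨p - 1, by have := hpp.pos; omega⟩
              simp only [Nat.add_sub_cancel]
              rw [hnt]
              ring
            rw [e2] at e1
            have e3 : n + q * p ≡ n [MOD p] := by
              have : q * p ≡ 0 [MOD p] := (Nat.modEq_zero_iff_dvd).2 (Dvd.intro_left q rfl)
              simpa using Nat.ModEq.add_left n this
            exact e1.trans e3
          rw [hR, hmod2] at hRp
          obtain ⟨s, hs, h⟩ := hRp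
          have : n % p + s ≡ n + s [MOD p] := Nat.ModEq.add_right s (Nat.mod_modEq _ p)
          exact hr1 s hs p hpp hpy ((Nat.modEq_zero_iff_dvd).1 (this.symm.trans
              ((Nat.modEq_zero_iff_dvd).2 h)))
      · simp only [Nat.add_sub_cancel]
        exact hnt.symm
  rw [hcount]
  have hq0 : (0 : ℝ) < q := by exact_mod_cast hq1
  have hXq : |(X : ℝ) - N / q| ≤ 1 := by
    have h1 : ((N + q - c0 : ℕ) : ℝ) = (N : ℝ) + q - c0 := by
      rw [Nat.cast_sub (by omega)]
      push_cast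
      ring
    have h2 : (X : ℝ) ≤ ((N : ℝ) + q - c0) / q := by
      rw [hX, ← h1]
      exact Nat.cast_div_le
    have h3 : ((N : ℝ) + q - c0) / q < X + 1 := by
      rw [div_lt_iff₀ hq0, ← h1]
      have := Nat.lt_div_mul_add (a := N + q - c0) hq1
      rw [← hX] at this
      have h4 : ((N + q - c0 : ℕ) : ℝ) < ((X * q + q : ℕ) : ℝ) := by exact_mod_cast this
      push_cast at h4
      linarith
    have hc0' : (1 : ℝ) ≤ c0 := by exact_mod_cast hc01
    have hc0'' : (c0 : ℝ) ≤ q := by exact_mod_cast hc0q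
    have e : ((N : ℝ) + q - c0) / q = N / q + 1 - c0 / q := by field_simp
    have e2 : (c0 : ℝ) / q ≤ 1 := by rw [div_le_one hq0]; exact hc0''
    have e3 : 0 ≤ (c0 : ℝ) / q := by positivity
    rw [abs_le]
    constructor <;> linarith
  have hqc : (q : ℝ) = (d : ℝ) * d' := by rw [hq]; push_cast; rfl
  rw [← hqc]
  have hV0 := VT_nonneg y T
  have hV1 := VT_le_one y T
  have hX0 : (0 : ℝ) ≤ X := Nat.cast_nonneg _
  have hA : Ad C0 K0 b y = ((JJ y : ℝ) + 2) * ((y : ℝ) ^ (2 * (C0 * b)) *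
      (K0 * (y : ℝ) ^ (2 * (C0 * b)))) := rfl
  rw [← hA] at key
  have h2b : (0 : ℝ) < (1 / 2) ^ b := by positivity
  have h2b1 : ((1 : ℝ) / 2) ^ b ≤ 1 := pow_le_one₀ (by norm_num) (by norm_num)
  have hXle : (X : ℝ) ≤ N / q + 1 := by linarith [(abs_le.1 hXq).2]
  have hNq : 0 ≤ (N : ℝ) / q := by positivity
  have e1 : (1 / 2 : ℝ) ^ b * (X * VT y T) ≤ (1 / 2) ^ b * ((N : ℝ) / q * VT y T) + 1 := by
    have h5 : (X : ℝ) * VT y T ≤ (N / q + 1) * VT y T := mul_le_mul_of_nonneg_right hXle hV0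
    have h6 : (X : ℝ) * VT y T ≤ N / q * VT y T + 1 := by nlinarith
    calc (1 / 2 : ℝ) ^ b * (X * VT y T) ≤ (1 / 2 : ℝ) ^ b * (N / q * VT y T + 1) :=
          mul_le_mul_of_nonneg_left h6 h2b.le
      _ ≤ _ := by nlinarith
  have e2 : |(X : ℝ) * VT y T - N / q * VT y T| ≤ 1 := by
    rw [← sub_mul, abs_mul, abs_of_nonneg hV0]
    calc |(X : ℝ) - N / q| * VT y T ≤ 1 * 1 := mul_le_mul hXq hV1 hV0 zero_le_one
      _ = 1 := one_mul 1
  have e3 : ∀ x : ℝ, |x - X * VT y T| ≤ (1 / 2 : ℝ) ^ b * (X * VT y T) + Ad C0 K0 b y →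
      |x - N / q * VT y T| ≤ (1 / 2) ^ b * ((N : ℝ) / q * VT y T) + 2 + Ad C0 K0 b y := by
    intro x hx
    have := abs_sub_le x (X * VT y T) (N / q * VT y T)
    linarith
  exact e3 _ key

end Pool.Agent.J4.H38.SR
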