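import Mathlib
import Pool.Agent.TH891.SG.Cnt3
import Pool.Agent.J4.H38.SR.Cnt

/-! Averages of the singular series over the sets of shifts of an interval. -/

set_option autoImplicit false

namespace Pool.Agent.J4.H38.SR

open Finset
open Pool.Agent.Y822
open Pool.Agent.H387R2.Uni (nuT Adm locT CT CT_nonneg)
open Pool.Agent.H373R2.T7 (pz Vz mem_pz)

/-- moments over the sets of shifts -/
theorem sum_CTm (j m : ℕ) : ∃ C : ℝ, 0 < C ∧ ∀ H : ℕ,
    ∑ D ∈ (Icc 1 H).powersetCard j, CT (pat D) ^ m ≤ C * (H : ℝ) ^ j := by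
  classical
  obtain ⟨C, hC, h⟩ := Pool.Agent.TH891.SG.CT_mom j m
  refine ⟨C * 3 ^ (j + 1), by positivity, fun H => ?_⟩
  rcases Nat.eq_zero_or_pos H with rfl | hH
  · rcases j with _ | j
    · have e : ((Icc 1 0 : Finset ℕ).powersetCard 0) = {∅} := by simp
      rw [e, sum_singleton]
      have h1 := h 1
      have e1 : ((range 1).powersetCard (0 + 1)) = {{0}} := by decide
      rw [e1, sum_singleton] at h1
      have e2 : pat (∅ : Finset ℕ) = {0} := by unfold pat; simp
      rw [e2]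
      simp only [Nat.cast_one, one_pow, mul_one, pow_zero] at h1 ⊢
      refine h1.trans ?_
      norm_num
      linarith
    · have e : ((Icc 1 0 : Finset ℕ).powersetCard (j + 1)) = ∅ := by
        rw [show (Icc 1 0 : Finset ℕ) = ∅ from by simp]
        exact powersetCard_eq_empty.2 (by simp)
      rw [e, sum_empty]
      simp
  · have hH0 : (0 : ℝ) < H := by exact_mod_cast hH
    have hinj : ∀ x ∈ (range H) ×ˢ (Icc 1 H).powersetCard j, ∀ y ∈ (range H) ×ˢ (Icc 1 H).powersetCard j,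
        (pat x.2).image (· + x.1) = (pat y.2).image (· + y.1) → x = y := by
      rintro ⟨i, D⟩ hx ⟨i', D'⟩ hy he
      rw [mem_product, mem_powersetCard] at hx hy
      simp only at hx hy he
      have h0 : 0 ∉ D := fun h0 => by
        have := (mem_Icc.1 (hx.2.1 h0)).1
        omega
      have h0' : 0 ∉ D' := fun h0 => by
        have := (mem_Icc.1 (hy.2.1 h0)).1
        omega
      have e1 := Pool.Agent.TH891.SG.sInf_add (S := pat D) (by unfold pat; simp) i
      have e2 := Pool.Agent.TH891.SG.sInf_add (S := pat D') (by unfold pat; simp) i'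
      rw [he, e2] at e1
      subst e1
      have e3 : pat D = pat D' := by
        apply image_injective (f := fun t : ℕ => t + i') (fun _ _ h => Nat.add_right_cancel h)
        exact he
      have e4 : D = D' := by
        rw [← erase_pat h0, ← erase_pat h0', e3]
      rw [e4]
    have h1 : (H : ℝ) * ∑ D ∈ (Icc 1 H).powersetCard j, CT (pat D) ^ m =
        ∑ x ∈ (range H) ×ˢ (Icc 1 H).powersetCard j, CT ((pat x.2).image (· + x.1)) ^ m := by
      rw [sum_product]
      have : ∀ i ∈ range H, ∑ D ∈ (Icc 1 H).powersetCard j, CT ((pat D).image (· + i)) ^ m =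
          ∑ D ∈ (Icc 1 H).powersetCard j, CT (pat D) ^ m := by
        intro i _
        refine sum_congr rfl fun D _ => ?_
        rw [Pool.Agent.TH891.SG.CT_add]
      rw [sum_congr rfl this, sum_const, card_range, nsmul_eq_mul]
    have h2 : ∑ x ∈ (range H) ×ˢ (Icc 1 H).powersetCard j, CT ((pat x.2).image (· + x.1)) ^ m ≤
        ∑ T ∈ (range (2 * H + 1)).powersetCard (j + 1), CT T ^ m := by
      rw [← sum_image (f := fun T => CT T ^ m) (fun x hx y hy he =>
        hinj x (by simpa using hx) y (by simpa using hy) he)]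
      refine sum_le_sum_of_subset_of_nonneg ?_ fun T _ _ => pow_nonneg (CT_nonneg T) _
      intro T hT
      obtain ⟨⟨i, D⟩, hx, rfl⟩ := mem_image.1 hT
      rw [mem_product, mem_powersetCard] at hx
      simp only at hx
      have h0 : 0 ∉ D := fun h0 => by
        have := (mem_Icc.1 (hx.2.1 h0)).1
        omega
      rw [mem_powersetCard]
      refine ⟨?_, ?_⟩
      · intro t ht
        obtain ⟨s, hs, rfl⟩ := mem_image.1 ht
        have hi := mem_range.1 hx.1
        rw [mem_range]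
        unfold pat at hs
        rw [mem_insert] at hs
        simp only
        rcases hs with rfl | hs
        · omega
        · have := (mem_Icc.1 (hx.2.1 hs)).2
          omega
      · rw [Pool.Agent.TH891.SG.card_add, card_pat h0, hx.2.2]
    have h3 := h (2 * H + 1)
    have h4 : ((2 * H + 1 : ℕ) : ℝ) ^ (j + 1) ≤ (3 * (H : ℝ)) ^ (j + 1) := by
      refine pow_le_pow_left₀ (Nat.cast_nonneg _) ?_ _
      push_cast
      have : (1 : ℝ) ≤ H := by exact_mod_cast hH
      linarith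
    have h5 : (H : ℝ) * ∑ D ∈ (Icc 1 H).powersetCard j, CT (pat D) ^ m ≤
        H * (C * 3 ^ (j + 1) * (H : ℝ) ^ j) := by
      rw [h1]
      refine h2.trans (h3.trans ?_)
      calc C * ((2 * H + 1 : ℕ) : ℝ) ^ (j + 1) ≤ C * (3 * (H : ℝ)) ^ (j + 1) :=
            mul_le_mul_of_nonneg_left h4 hC.le
        _ = _ := by rw [mul_pow, pow_succ (H : ℝ) j]; ring
    exact le_of_mul_le_mul_left h5 hH0

/-- the case of the first moment -/
theorem sum_CT (j : ℕ) : ∃ C : ℝ, 0 < C ∧ ∀ H : ℕ,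
    ∑ D ∈ (Icc 1 H).powersetCard j, CT (pat D) ≤ C * (H : ℝ) ^ j := by
  obtain ⟨C, hC, h⟩ := sum_CTm j 1
  refine ⟨C, hC, fun H => ?_⟩
  simpa using h H

/-- one more shift -/
theorem sum_CT1 (j : ℕ) : ∃ C : ℝ, 0 < C ∧ ∀ H : ℕ,
    ∑ S ∈ (Icc 1 H).powersetCard j, ∑ a ∈ Icc 1 H \ S, CT (pat (insert a S)) ≤
      C * (H : ℝ) ^ (j + 1) := by
  obtain ⟨C, hC, h⟩ := sum_CT (j + 1)
  refine ⟨((j : ℝ) + 1) * C, by positivity, fun H => ?_⟩
  rw [← Pool.Agent.TH891.SG.sum_insert_pairs (Icc 1 H) j (fun D => CT (pat D))]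
  have := mul_le_mul_of_nonneg_left (h H) (by positivity : 0 ≤ (j : ℝ) + 1)
  linarith

/-- two more shifts -/
theorem sum_CT2 (j : ℕ) : ∃ C : ℝ, 0 < C ∧ ∀ H : ℕ,
    ∑ S ∈ (Icc 1 H).powersetCard j, ∑ b ∈ Icc 1 H \ S, ∑ a ∈ Icc 1 H \ (insert b S),
      CT (pat (insert a (insert b S))) ≤ C * (H : ℝ) ^ (j + 2) := by
  obtain ⟨C, hC, h⟩ := sum_CT1 (j + 1)
  refine ⟨((j : ℝ) + 1) * C, by positivity, fun H => ?_⟩
  rw [← Pool.Agent.TH891.SG.sum_insert_pairs (Icc 1 H) j
    (fun D => ∑ a ∈ Icc 1 H \ D, CT (pat (insert a D)))]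
  have := mul_le_mul_of_nonneg_left (h H) (by positivity : 0 ≤ (j : ℝ) + 1)
  linarith

/-- Mertens, upper bound -/
lemma Vz_le (y : ℕ) (hy : 2 ≤ y) : Vz y ≤ 1 / Real.log y := by
  classical
  have h := GG_low y y (by omega)
  have hl : 0 < Real.log y := Real.log_pos (by exact_mod_cast (by omega : 1 < y))
  have hG : Pool.Agent.W25.UB.GG (PP y y) y ≤ 1 := by
    unfold Pool.Agent.W25.UB.GG
    have h1 : Pool.Agent.W25.UB.sq (PP y y) y ⊆ {1} := by
      intro d hd
      simp only [Pool.Agent.W25.UB.sq, mem_filter, mem_Icc] at hd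
      rw [mem_singleton]
      by_contra hne
      obtain ⟨p, hp, hpd⟩ := Nat.exists_prime_and_dvd hne
      have := hd.2.2 p hp hpd
      rw [mem_PP] at this
      omega
    refine (sum_le_sum_of_subset_of_nonneg h1 fun d _ _ => by positivity).trans ?_
    simp
  rw [le_div_iff₀ hl]
  linarith

/-- local density against the singular series -/
lemma VT_le (y m : ℕ) (T : Finset ℕ) (hT : T.card ≤ m) (hy : 2 * m ^ 2 + 2 ≤ y) :
    VT y T ≤ 2 * CT T / Real.log y ^ T.card := by
  have hy2 : 2 ≤ y := by omega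
  have hl : 0 < Real.log y := Real.log_pos (by exact_mod_cast (by omega : 1 < y))
  have hT2 : T.card ^ 2 ≤ m ^ 2 := Nat.pow_le_pow_left hT 2
  have h1 := CT_tail T y (by omega) (by omega)
  have hy0 : (0 : ℝ) < y := by exact_mod_cast (by omega : 0 < y)
  have h2 : (T.card : ℝ) ^ 2 / y ≤ 1 / 2 := by
    rw [div_le_iff₀ hy0]
    have h3 : 2 * T.card ^ 2 ≤ y := by omega
    have h4 : (2 : ℝ) * (T.card : ℝ) ^ 2 ≤ y := by exact_mod_cast h3
    linarith
  have h3 : PT T y ≤ 2 * CT T := by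
    have h4 : (1 / 2 : ℝ) * PT T y ≤ (1 - (T.card : ℝ) ^ 2 / y) * PT T y :=
      mul_le_mul_of_nonneg_right (by linarith) (PT_nonneg T y)
    linarith
  rw [VT_eq]
  have h5 : Vz y ^ T.card ≤ (1 / Real.log y) ^ T.card := by
    refine pow_le_pow_left₀ ?_ (Vz_le y hy2) _
    exact (Vz_pos' y).le
  calc PT T y * Vz y ^ T.card ≤ (2 * CT T) * (1 / Real.log y) ^ T.card :=
        mul_le_mul h3 h5 (pow_nonneg (Vz_pos' y).le _)
          (mul_nonneg (by norm_num) (CT_nonneg T))
    _ = _ := by rw [div_pow, one_pow]; ring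

end Pool.Agent.J4.H38.SR
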