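import Mathlib
import Pool.Agent.J4.H38.SR.Cnt

/-! Correlations of centred rough divisor sums, weighted by the rough shifts of a set
(after `Pool.Agent.Y822.corr`). -/

set_option autoImplicit false

namespace Pool.Agent.J4.H38.SR

open Finset
open Pool.Agent.Y822

/-- bound for the correlations -/
noncomputable def KT (C0 K0 b y D N : ℕ) (V : ℝ) : ℝ :=
  4 * EE y D ^ 2 * ((1 / 2) ^ b * (N * V) + (2 + Ad C0 K0 b y) * D ^ 2) +
  (4 ^ Nat.log y (2 * N) + 3 * EE y D) ^ 2 *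
    (Nat.log y N * ((N : ℝ) / y + 1) + 3 * (N : ℝ) / y + 2 * (D : ℝ) / y)

/-- the counting hypothesis -/
def CntH (C0 K0 b y : ℕ) (T : Finset ℕ) : Prop :=
  ∀ N a a' d d' : ℕ, 1 ≤ d → 1 ≤ d' → Ro y d → Ro y d' → Nat.Coprime d d' →
    |∑ n ∈ Icc 1 N, rT T y n *
        ((if d ∣ n + a then 1 else 0) * (if d' ∣ n + a' then 1 else 0)) -
      (N : ℝ) / (d * d') * VT y T| ≤
      (1 / 2) ^ b * ((N : ℝ) / (d * d') * VT y T) + 2 + Ad C0 K0 b y

/-- the elementary sum -/
noncomputable def IT (T : Finset ℕ) (y N a a' d d' : ℕ) : ℝ :=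
  ∑ n ∈ Icc 1 N, rT T y n * (cen d (n + a) * cen d' (n + a'))

open Classical in
lemma rT_two (T : Finset ℕ) (y a a' n : ℕ) :
    rT T y n * (ro y (n + a) * ro y (n + a')) = rT (insert a (insert a' T)) y n := by
  rw [rT_eq, rT_eq]
  unfold ro
  by_cases h1 : ∀ t ∈ T, Ro y (n + t)
  · by_cases h2 : Ro y (n + a)
    · by_cases h3 : Ro y (n + a')
      · rw [if_pos h1, if_pos h2, if_pos h3, if_pos]
        · norm_num
        · intro t ht
          rw [mem_insert, mem_insert] at ht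
          rcases ht with rfl | rfl | ht
          · exact h2
          · exact h3
          · exact h1 t ht
      · have hn : ¬ ∀ t ∈ insert a (insert a' T), Ro y (n + t) := fun h =>
          h3 (h a' (by simp))
        rw [if_neg h3, if_neg hn, mul_zero, mul_zero]
    · have hn : ¬ ∀ t ∈ insert a (insert a' T), Ro y (n + t) := fun h => h2 (h a (by simp))
      rw [if_neg h2, if_neg hn, zero_mul, mul_zero]
  · have hn : ¬ ∀ t ∈ insert a (insert a' T), Ro y (n + t) := fun h =>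
      h1 (fun t ht => h t (by simp [ht]))
    rw [if_neg h1, if_neg hn, zero_mul]

open Classical in
lemma rT_one (T : Finset ℕ) (y a n : ℕ) :
    rT T y n * ro y (n + a) = rT (insert a T) y n := by
  have h := rT_two T y a a n
  rw [insert_idem] at h
  rw [← h]
  congr 1
  unfold ro
  split_ifs <;> norm_num

lemma corr_expandT {y D : ℕ} {c c' : ℕ → ℝ} (hc : Co y c) (hc' : Co y c') (T : Finset ℕ)
    (N a a' : ℕ) :
    ∑ n ∈ Icc 1 N, rT T y n * (GF y D c (n + a) * GF y D c' (n + a')) =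
      ∑ d ∈ SD y D, ∑ d' ∈ SD y D, c d * c' d' * IT (insert a (insert a' T)) y N a a' d d' := by
  have h : ∀ n ∈ Icc 1 N, rT T y n * (GF y D c (n + a) * GF y D c' (n + a')) =
      ∑ d ∈ SD y D, ∑ d' ∈ SD y D, c d * c' d' *
        (rT (insert a (insert a' T)) y n * (cen d (n + a) * cen d' (n + a'))) := by
    intro n _
    rw [← rT_two]
    unfold GF
    rw [sum_SD hc, sum_SD hc']
    calc _ = (rT T y n * (ro y (n + a) * ro y (n + a'))) * ((∑ d ∈ SD y D, c d * cen d (n + a)) *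
          ∑ d' ∈ SD y D, c' d' * cen d' (n + a')) := by ring
      _ = _ := by
        rw [sum_mul_sum, mul_sum]
        refine sum_congr rfl fun d _ => ?_
        rw [mul_sum]
        refine sum_congr rfl fun d' _ => ?_
        ring
  rw [sum_congr rfl h, sum_comm]
  refine sum_congr rfl fun d _ => ?_
  rw [sum_comm]
  refine sum_congr rfl fun d' _ => ?_
  unfold IT
  rw [mul_sum]

/-- off-diagonal coprime part -/
lemma IT_coprime {C0 K0 b y : ℕ} {T : Finset ℕ} (hcnt : CntH C0 K0 b y T)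
    (N a a' d d' : ℕ) (hd : 1 ≤ d) (hd' : 1 ≤ d') (hrd : Ro y d) (hrd' : Ro y d')
    (hcop : Nat.Coprime d d') :
    |IT T y N a a' d d'| ≤
      4 * ((1 / 2) ^ b * ((N : ℝ) / (d * d') * VT y T) + 2 + Ad C0 K0 b y) := by
  set A : ℕ → ℕ → ℝ := fun d d' => ∑ n ∈ Icc 1 N, rT T y n *
        ((if d ∣ n + a then 1 else 0) * (if d' ∣ n + a' then 1 else 0)) with hA
  have hI : IT T y N a a' d d' = A d d' - A d 1 / d' - A 1 d' / d + A 1 1 / (d * d') := by
    unfold IT
    rw [hA]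
    simp only
    rw [sum_div, sum_div, sum_div, ← sum_sub_distrib, ← sum_sub_distrib, ← sum_add_distrib]
    refine sum_congr rfl fun n _ => ?_
    unfold cen
    simp only [one_dvd, if_true]
    have h1 : (d : ℝ) ≠ 0 := by positivity
    have h2 : (d' : ℝ) ≠ 0 := by positivity
    field_simp
    ring
  set V := VT y T with hV
  have hV0 : 0 ≤ V := VT_nonneg y T
  have h11 := hcnt N a a' 1 1 le_rfl le_rfl (Ro_one y) (Ro_one y) (Nat.coprime_one_right 1)
  have hd1 := hcnt N a a' d 1 hd le_rfl hrd (Ro_one y) (Nat.coprime_one_right d)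
  have h1d := hcnt N a a' 1 d' le_rfl hd' (Ro_one y) hrd' (Nat.coprime_one_left d')
  have hdd := hcnt N a a' d d' hd hd' hrd hrd' hcop
  have e11 : |A 1 1 - N * V| ≤ (1 / 2) ^ b * ((N : ℝ) * V) + 2 + Ad C0 K0 b y := by
    simpa [hA] using h11
  have ed1 : |A d 1 - N / d * V| ≤ (1 / 2) ^ b * ((N : ℝ) / d * V) + 2 + Ad C0 K0 b y := by
    simpa [hA] using hd1
  have e1d : |A 1 d' - N / d' * V| ≤ (1 / 2) ^ b * ((N : ℝ) / d' * V) + 2 + Ad C0 K0 b y := by
    simpa [hA] using h1d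
  have edd : |A d d' - N / (d * d') * V| ≤
      (1 / 2) ^ b * ((N : ℝ) / (d * d') * V) + 2 + Ad C0 K0 b y := hdd
  have hdr : (1 : ℝ) ≤ d := by exact_mod_cast hd
  have hdr' : (1 : ℝ) ≤ d' := by exact_mod_cast hd'
  have hd0 : (0 : ℝ) < d := by linarith
  have hd0' : (0 : ℝ) < d' := by linarith
  have hAd := Ad_nonneg C0 K0 b y
  have e : IT T y N a a' d d' = (A d d' - N / (d * d') * V) -
      (A d 1 - N / d * V) / d' - (A 1 d' - N / d' * V) / d +
      (A 1 1 - N * V) / (d * d') := by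
    rw [hI]
    field_simp
    ring
  have hdiv : ∀ (x B q t : ℝ), 1 ≤ q → |x| ≤ B + 2 + Ad C0 K0 b y → B / q = t →
      |x / q| ≤ t + 2 + Ad C0 K0 b y := by
    intro x B q t hq hx ht
    have hq0 : 0 < q := by linarith
    rw [abs_div, abs_of_pos hq0]
    calc |x| / q ≤ (B + 2 + Ad C0 K0 b y) / q := div_le_div_of_nonneg_right hx hq0.le
      _ = B / q + (2 + Ad C0 K0 b y) / q := by ring
      _ ≤ t + (2 + Ad C0 K0 b y) := by
          rw [ht]
          have : (2 + Ad C0 K0 b y) / q ≤ 2 + Ad C0 K0 b y := div_le_self (by linarith) hq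
          linarith
      _ = _ := by ring
  have f1 := hdiv _ _ (d' : ℝ) ((1 / 2) ^ b * ((N : ℝ) / (d * d') * V)) hdr' ed1 (by field_simp)
  have f2 := hdiv _ _ (d : ℝ) ((1 / 2) ^ b * ((N : ℝ) / (d * d') * V)) hdr e1d (by field_simp)
  have f3 := hdiv _ _ ((d : ℝ) * d') ((1 / 2) ^ b * ((N : ℝ) / (d * d') * V)) (by nlinarith) e11
    (by field_simp)
  rw [e]
  set x0 := A d d' - N / (d * d') * V
  set x1 := (A d 1 - N / d * V) / d'
  set x2 := (A 1 d' - N / d' * V) / d
  set x3 := (A 1 1 - N * V) / (d * d')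
  rw [abs_le] at f1 f2 f3 edd ⊢
  constructor <;> linarith

/-- all pairs -/
lemma IT_le {C0 K0 b y D : ℕ} {T : Finset ℕ} (hcnt : CntH C0 K0 b y T)
    (N a a' d d' : ℕ) (hd : d ∈ SD y D) (hd' : d' ∈ SD y D) :
    |IT T y N a a' d d'| ≤
      4 * ((1 / 2) ^ b * ((N : ℝ) / (d * d') * VT y T) + (2 + Ad C0 K0 b y)) +
      ∑ p ∈ PP y D, ∑ n ∈ Icc 1 N, (if p ∣ d then acen d (n + a) else 0) *
        (if p ∣ d' then acen d' (n + a') else 0) := by
  have hnn : ∀ p n : ℕ, 0 ≤ (if p ∣ d then acen d (n + a) else 0) *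
        (if p ∣ d' then acen d' (n + a') else 0) := by
    intro p n
    refine mul_nonneg ?_ ?_
    · split_ifs
      · exact acen_nonneg _ _
      · exact le_rfl
    · split_ifs
      · exact acen_nonneg _ _
      · exact le_rfl
  have hs := mem_SD.1 hd
  have hs' := mem_SD.1 hd'
  by_cases hcop : Nat.Coprime d d'
  · have h1 := IT_coprime hcnt N a a' d d' hs.1.1 hs'.1.1 hs.2.2 hs'.2.2 hcop
    have h2 : 0 ≤ ∑ p ∈ PP y D, ∑ n ∈ Icc 1 N, (if p ∣ d then acen d (n + a) else 0) *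
        (if p ∣ d' then acen d' (n + a') else 0) :=
      sum_nonneg fun p _ => sum_nonneg fun n _ => hnn p n
    linarith
  · obtain ⟨p, hp, hpd, hpd'⟩ := Nat.Prime.not_coprime_iff_dvd.1 hcop
    have hpP : p ∈ PP y D := pf_sub hd (Nat.mem_primeFactors.2 ⟨hp, hpd, by omega⟩)
    have h1 : |IT T y N a a' d d'| ≤ ∑ n ∈ Icc 1 N, (if p ∣ d then acen d (n + a) else 0) *
        (if p ∣ d' then acen d' (n + a') else 0) := by
      unfold IT
      refine (abs_sum_le_sum_abs _ _).trans (sum_le_sum fun n _ => ?_)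
      rw [if_pos hpd, if_pos hpd', abs_mul, abs_mul (cen d _)]
      have h3 : |rT T y n| ≤ 1 := by
        rw [abs_of_nonneg (rT_nonneg _ _ _)]
        exact rT_le_one _ _ _
      have h4 : |cen d (n + a)| * |cen d' (n + a')| ≤ acen d (n + a) * acen d' (n + a') :=
        mul_le_mul (abs_cen_le _ _) (abs_cen_le _ _) (abs_nonneg _) (acen_nonneg _ _)
      calc _ ≤ 1 * (|cen d (n + a)| * |cen d' (n + a')|) :=
            mul_le_mul_of_nonneg_right h3 (mul_nonneg (abs_nonneg _) (abs_nonneg _))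
        _ ≤ _ := by rw [one_mul]; exact h4
    have h2 : ∑ n ∈ Icc 1 N, (if p ∣ d then acen d (n + a) else 0) *
        (if p ∣ d' then acen d' (n + a') else 0) ≤
        ∑ p ∈ PP y D, ∑ n ∈ Icc 1 N, (if p ∣ d then acen d (n + a) else 0) *
        (if p ∣ d' then acen d' (n + a') else 0) :=
      single_le_sum (f := fun p => ∑ n ∈ Icc 1 N, (if p ∣ d then acen d (n + a) else 0) *
        (if p ∣ d' then acen d' (n + a') else 0)) (fun p _ => sum_nonneg fun n _ => hnn p n) hpP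
    have h5 : 0 ≤ 4 * ((1 / 2 : ℝ) ^ b * ((N : ℝ) / (d * d') * VT y T) + (2 + Ad C0 K0 b y)) := by
      have := Ad_nonneg C0 K0 b y
      have := VT_nonneg y T
      positivity
    linarith

/-- **the correlation bound** -/
theorem corrT {C0 K0 b y : ℕ} (hy : 2 ≤ y) (D N : ℕ) {c c' : ℕ → ℝ} (hc : Co y c) (hc' : Co y c')
    {a a' : ℕ} (hne : a ≠ a') (ha : a ≤ N) (ha' : a' ≤ N) (T : Finset ℕ)
    (hcnt' : CntH C0 K0 b y (insert a (insert a' T))) :
    |∑ n ∈ Icc 1 N, rT T y n * (GF y D c (n + a) * GF y D c' (n + a'))| ≤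
      KT C0 K0 b y D N (VT y (insert a (insert a' T))) := by
  rw [corr_expandT hc hc']
  set T2 := insert a (insert a' T) with hT2
  set V := VT y T2 with hV
  have hV0 : 0 ≤ V := VT_nonneg y T2
  have hE := (EE_pos y D).le
  have hAd := Ad_nonneg C0 K0 b y
  have s1 : |∑ d ∈ SD y D, ∑ d' ∈ SD y D, c d * c' d' * IT T2 y N a a' d d'| ≤
      ∑ d ∈ SD y D, ∑ d' ∈ SD y D, (4 * (1 / 2) ^ b * (N * V) * ((|c d| / d) * (|c' d'| / d')) +
        4 * (2 + Ad C0 K0 b y) * (|c d| * |c' d'|) +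
        ∑ p ∈ PP y D, ∑ n ∈ Icc 1 N, (|c d| * (if p ∣ d then acen d (n + a) else 0)) *
          (|c' d'| * (if p ∣ d' then acen d' (n + a') else 0))) := by
    refine (abs_sum_le_sum_abs _ _).trans (sum_le_sum fun d hd => ?_)
    refine (abs_sum_le_sum_abs _ _).trans (sum_le_sum fun d' hd' => ?_)
    rw [abs_mul, abs_mul]
    have h1 := IT_le hcnt' N a a' d d' hd hd'
    have h2 := mul_le_mul_of_nonneg_left h1 (mul_nonneg (abs_nonneg (c d)) (abs_nonneg (c' d')))
    refine h2.trans (le_of_eq ?_)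
    have hd1 : (d : ℝ) ≠ 0 := by have := (mem_SD.1 hd).1.1; positivity
    have hd1' : (d' : ℝ) ≠ 0 := by have := (mem_SD.1 hd').1.1; positivity
    rw [mul_add]
    congr 1
    · rw [← hV]
      field_simp
    · rw [mul_sum]
      refine sum_congr rfl fun p _ => ?_
      rw [mul_sum]
      refine sum_congr rfl fun n _ => ?_
      ring
  refine s1.trans ?_
  have s2 : ∑ d ∈ SD y D, ∑ d' ∈ SD y D, (4 * (1 / 2) ^ b * (N * V) * ((|c d| / d) * (|c' d'| / d')) +
        4 * (2 + Ad C0 K0 b y) * (|c d| * |c' d'|) +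
        ∑ p ∈ PP y D, ∑ n ∈ Icc 1 N, (|c d| * (if p ∣ d then acen d (n + a) else 0)) *
          (|c' d'| * (if p ∣ d' then acen d' (n + a') else 0))) =
      4 * (1 / 2) ^ b * (N * V) * ((∑ d ∈ SD y D, |c d| / d) * (∑ d ∈ SD y D, |c' d| / d)) +
        4 * (2 + Ad C0 K0 b y) * ((∑ d ∈ SD y D, |c d|) * (∑ d ∈ SD y D, |c' d|)) +
        ∑ p ∈ PP y D, ∑ n ∈ Icc 1 N, Tp y D c p (n + a) * Tp y D c' p (n + a') := by
    simp only [sum_add_distrib]
    congr 1
    · congr 1
      · rw [sum_mul_sum, mul_sum]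
        refine sum_congr rfl fun d _ => ?_
        rw [mul_sum]
      · rw [sum_mul_sum, mul_sum]
        refine sum_congr rfl fun d _ => ?_
        rw [mul_sum]
    · rw [sum_congr rfl fun d _ => sum_comm, sum_comm]
      refine sum_congr rfl fun p _ => ?_
      rw [sum_congr rfl fun d _ => sum_comm, sum_comm]
      refine sum_congr rfl fun n _ => ?_
      unfold Tp
      rw [sum_mul_sum]
  rw [s2]
  have hS1 : ∑ d ∈ SD y D, |c d| / d ≤ EE y D := sum_c_div hc
  have hS2 : ∑ d ∈ SD y D, |c d| ≤ D * EE y D := sum_c_abs hc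
  have hS1' : ∑ d ∈ SD y D, |c' d| / d ≤ EE y D := sum_c_div hc'
  have hS2' : ∑ d ∈ SD y D, |c' d| ≤ D * EE y D := sum_c_abs hc'
  have hS10 : 0 ≤ ∑ d ∈ SD y D, |c' d| / (d : ℝ) := sum_nonneg fun d _ => by positivity
  have hS20 : 0 ≤ ∑ d ∈ SD y D, |c' d| := sum_nonneg fun d _ => abs_nonneg _
  have t1 : 4 * (1 / 2 : ℝ) ^ b * (N * V) *
      ((∑ d ∈ SD y D, |c d| / d) * (∑ d ∈ SD y D, |c' d| / d)) ≤
      4 * (1 / 2 : ℝ) ^ b * (N * V) * EE y D ^ 2 := by
    rw [sq]
    exact mul_le_mul_of_nonneg_left (mul_le_mul hS1 hS1' hS10 hE) (by positivity)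
  have t2 : 4 * (2 + Ad C0 K0 b y) * ((∑ d ∈ SD y D, |c d|) * (∑ d ∈ SD y D, |c' d|)) ≤
      4 * (2 + Ad C0 K0 b y) * (D * EE y D) ^ 2 := by
    rw [sq]
    exact mul_le_mul_of_nonneg_left (mul_le_mul hS2 hS2' hS20 (by positivity)) (by positivity)
  set B := (4 : ℝ) ^ Nat.log y (2 * N) + 3 * EE y D with hB
  have hB0 : 0 ≤ B := by positivity
  have t3 : ∑ p ∈ PP y D, ∑ n ∈ Icc 1 N, Tp y D c p (n + a) * Tp y D c' p (n + a') ≤
      B ^ 2 * (Nat.log y N * ((N : ℝ) / y + 1) + 3 * (N : ℝ) / y + 2 * (D : ℝ) / y) := by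
    have h1 : ∀ p ∈ PP y D, ∑ n ∈ Icc 1 N, Tp y D c p (n + a) * Tp y D c' p (n + a') ≤
        B ^ 2 * ((if p ∣ max a a' - min a a' then (N : ℝ) / y + 1 else 0) +
          (3 * N * (1 / (p : ℝ) ^ 2) + 2 * (1 / (p : ℝ)))) := by
      intro p hp
      rw [mem_PP] at hp
      exact Tp_corr hc hc' hy ha ha' hp.2 hp.1.1
    refine (sum_le_sum h1).trans ?_
    rw [← mul_sum]
    refine mul_le_mul_of_nonneg_left ?_ (by positivity)
    rw [sum_add_distrib, sum_add_distrib, ← mul_sum, ← mul_sum]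
    have hmm : 1 ≤ max a a' - min a a' := by
      rcases lt_or_gt_of_ne hne with h | h
      · rw [max_eq_right h.le, min_eq_left h.le]; omega
      · rw [max_eq_left h.le, min_eq_right h.le]; omega
    have hmN : max a a' - min a a' ≤ N := (Nat.sub_le _ _).trans (max_le ha ha')
    have u1 := sum_big_dvd y D (max a a' - min a a') N hy hmm hmN
      (x := (N : ℝ) / y + 1) (by positivity)
    have u2 : ∑ p ∈ PP y D, 1 / (p : ℝ) ^ 2 ≤ 1 / (y : ℝ) :=
      inv_sq_gt (by omega) (PP y D) (fun p hp => (mem_PP.1 hp).1.1)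
    have hy0 : (0 : ℝ) < y := by exact_mod_cast (by omega : 0 < y)
    have u3 : ∑ p ∈ PP y D, 1 / (p : ℝ) ≤ D / y := by
      calc ∑ p ∈ PP y D, 1 / (p : ℝ) ≤ ∑ _p ∈ PP y D, 1 / (y : ℝ) := by
            refine sum_le_sum fun p hp => ?_
            have : (y : ℝ) < p := by exact_mod_cast (mem_PP.1 hp).1.1
            exact one_div_le_one_div_of_le hy0 this.le
        _ = (PP y D).card * (1 / (y : ℝ)) := by rw [sum_const, nsmul_eq_mul]
        _ ≤ D * (1 / (y : ℝ)) := by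
            refine mul_le_mul_of_nonneg_right ?_ (by positivity)
            have : (PP y D).card ≤ D := by
              unfold PP
              refine (card_filter_le _ _).trans ?_
              rw [Nat.card_Ioc]
              omega
            exact_mod_cast this
        _ = D / y := by ring
    have u4 : 3 * (N : ℝ) * ∑ p ∈ PP y D, 1 / (p : ℝ) ^ 2 ≤ 3 * N * (1 / y) :=
      mul_le_mul_of_nonneg_left u2 (by positivity)
    have u5 : 2 * ∑ p ∈ PP y D, 1 / (p : ℝ) ≤ 2 * (D / y) :=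
      mul_le_mul_of_nonneg_left u3 (by norm_num)
    have e1 : 3 * (N : ℝ) * (1 / y) = 3 * N / y := by ring
    have e2 : 2 * ((D : ℝ) / y) = 2 * D / y := by ring
    rw [e1] at u4
    rw [e2] at u5
    linarith
  unfold KT
  rw [← hB]
  have e3 : 4 * EE y D ^ 2 * ((1 / 2 : ℝ) ^ b * (N * V) + (2 + Ad C0 K0 b y) * D ^ 2) =
      4 * (1 / 2 : ℝ) ^ b * (N * V) * EE y D ^ 2 +
        4 * (2 + Ad C0 K0 b y) * (D * EE y D) ^ 2 := by ring
  rw [e3]
  linarith

/-- the number of integers with rough shifts -/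
lemma cnt_rT_le {C0 K0 b y : ℕ} {T : Finset ℕ} (hcnt : CntH C0 K0 b y T) (N : ℕ) :
    ∑ n ∈ Icc 1 N, rT T y n ≤ 2 * (N * VT y T) + (2 + Ad C0 K0 b y) := by
  have h := hcnt N 0 0 1 1 le_rfl le_rfl (Ro_one y) (Ro_one y) (Nat.coprime_one_right 1)
  have e : ∑ n ∈ Icc 1 N, rT T y n * ((if 1 ∣ n + 0 then (1 : ℝ) else 0) *
      (if 1 ∣ n + 0 then (1 : ℝ) else 0)) = ∑ n ∈ Icc 1 N, rT T y n := by
    refine sum_congr rfl fun n _ => ?_
    simp
  rw [e] at h
  have h1 := (abs_le.1 h).2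
  have hV0 : 0 ≤ VT y T := VT_nonneg y T
  have h2b1 : ((1 : ℝ) / 2) ^ b ≤ 1 := pow_le_one₀ (by norm_num) (by norm_num)
  have h3 : (1 / 2 : ℝ) ^ b * (N * VT y T) ≤ 1 * (N * VT y T) :=
    mul_le_mul_of_nonneg_right h2b1 (by positivity)
  simp only [Nat.cast_one, mul_one, div_one] at h1
  linarith

/-- diagonal -/
lemma diagT {C0 K0 b y D : ℕ} {c : ℕ → ℝ} (hc : Co y c) (hy : 2 ≤ y) (N a : ℕ) (ha : a ≤ N)
    (T : Finset ℕ) (hcnt : CntH C0 K0 b y (insert a T)) :
    ∑ n ∈ Icc 1 N, rT T y n * (GF y D c (n + a) * GF y D c (n + a)) ≤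
      (4 ^ Nat.log y (2 * N) + EE y D) ^ 2 *
        (2 * (N * VT y (insert a T)) + (2 + Ad C0 K0 b y)) := by
  calc ∑ n ∈ Icc 1 N, rT T y n * (GF y D c (n + a) * GF y D c (n + a))
      ≤ ∑ n ∈ Icc 1 N, (4 ^ Nat.log y (2 * N) + EE y D) ^ 2 * rT (insert a T) y n := by
        refine sum_le_sum fun n hn => ?_
        rw [mem_Icc] at hn
        have h1 : |GF y D c (n + a)| ≤ 4 ^ Nat.log y (2 * N) + EE y D :=
          abs_GF_le hc hy (by omega) (by omega)
        have h2 : GF y D c (n + a) * GF y D c (n + a) ≤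
            (4 ^ Nat.log y (2 * N) + EE y D) ^ 2 * ro y (n + a) := by
          by_cases hr : ro y (n + a) = 0
          · have : GF y D c (n + a) = 0 := by unfold GF; rw [hr, zero_mul]
            rw [this, hr]; simp
          · have hr1 : ro y (n + a) = 1 := by
              unfold ro at hr ⊢
              split_ifs at hr ⊢ with h
              · rfl
              · exact absurd rfl hr
            rw [hr1, mul_one, ← sq, ← sq_abs]
            exact pow_le_pow_left₀ (abs_nonneg _) h1 2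
        rw [← rT_one]
        have h3 := mul_le_mul_of_nonneg_left h2 (rT_nonneg T y n)
        refine h3.trans (le_of_eq ?_)
        ring
    _ = (4 ^ Nat.log y (2 * N) + EE y D) ^ 2 * ∑ n ∈ Icc 1 N, rT (insert a T) y n := by
        rw [mul_sum]
    _ ≤ _ := mul_le_mul_of_nonneg_left (cnt_rT_le hcnt N) (by positivity)

end Pool.Agent.J4.H38.SR
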