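import Mathlib
import Pool.Agent.J4.H38.SR.Corr
import Pool.Agent.J4.H38.SR.Avg

/-! A weighted Bessel inequality and the number of the sets of shifts which are not good. -/

set_option autoImplicit false

namespace Pool.Agent.J4.H38.SR

open Finset
open Pool.Agent.Y822

/-- weighted Bessel inequality: the number of the functions with a large correlation with `f ≤ R` -/
theorem bessel {N y : ℕ} {f R : ℕ → ℝ} {G : ℕ → ℕ → ℝ} {x M0 P Q : ℝ}
    (hx : 0 < x) (hR0 : ∀ n, 0 ≤ R n) (hRR : ∀ n, R n * R n = R n)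
    (hf0 : ∀ n, 0 ≤ f n) (hf1 : ∀ n, f n ≤ 1) (hfR : ∀ n, y < n → f n ≤ R n)
    (B : Finset ℕ)
    (hG : ∀ a ∈ B, ∀ n, 1 ≤ n → n ≤ N → |G a n| ≤ M0)
    (hbig : ∀ a ∈ B, x < ∑ n ∈ Icc 1 N, f n * G a n)
    (hM0 : 0 ≤ M0) (hyM : (y : ℝ) * M0 ≤ x / 2)
    (hP : ∑ n ∈ Icc 1 N, R n ≤ P)
    (hQ : ∑ n ∈ Icc 1 N, R n * (∑ a ∈ B, G a n) ^ 2 ≤ Q) :
    (B.card : ℝ) ≤ 2 / x * Real.sqrt (P * Q) := by
  classical
  set F1 := (Icc 1 N).filter (fun n => n ≤ y) with hF1
  set F2 := (Icc 1 N).filter (fun n => ¬ n ≤ y) with hF2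
  have hF1c : (F1.card : ℝ) ≤ y := by
    have h1 : F1 ⊆ Icc 1 y := by
      intro n hn
      rw [hF1, mem_filter, mem_Icc] at hn
      rw [mem_Icc]
      exact ⟨hn.1.1, hn.2⟩
    have h2 := card_le_card h1
    rw [Nat.card_Icc, Nat.add_sub_cancel] at h2
    exact_mod_cast h2
  have hone : ∀ a ∈ B, x / 2 ≤ ∑ n ∈ F2, f n * G a n := by
    intro a ha
    have h1 := hbig a ha
    rw [← sum_filter_add_sum_filter_not (Icc 1 N) (fun n => n ≤ y)] at h1
    have h2 : ∑ n ∈ F1, f n * G a n ≤ x / 2 := by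
      calc ∑ n ∈ F1, f n * G a n ≤ ∑ _n ∈ F1, M0 := by
            refine sum_le_sum fun n hn => ?_
            rw [hF1, mem_filter, mem_Icc] at hn
            have h3 := hG a ha n hn.1.1 hn.1.2
            calc f n * G a n ≤ |f n * G a n| := le_abs_self _
              _ = f n * |G a n| := by rw [abs_mul, abs_of_nonneg (hf0 n)]
              _ ≤ 1 * M0 := mul_le_mul (hf1 n) h3 (abs_nonneg _) zero_le_one
              _ = M0 := one_mul _
        _ = F1.card * M0 := by rw [sum_const, nsmul_eq_mul]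
        _ ≤ y * M0 := mul_le_mul_of_nonneg_right hF1c hM0
        _ ≤ x / 2 := hyM
    have h3 : x < ∑ n ∈ F1, f n * G a n + ∑ n ∈ F2, f n * G a n := h1
    linarith
  have hR01 : ∀ n, R n = 0 ∨ R n = 1 := by
    intro n
    have h := hRR n
    have h2 : R n * (R n - 1) = 0 := by linarith
    rcases mul_eq_zero.1 h2 with h3 | h3
    · exact Or.inl h3
    · exact Or.inr (by linarith)
  have hfRf : ∀ n ∈ F2, f n = f n * R n := by
    intro n hn
    rw [hF2, mem_filter] at hn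
    rcases hR01 n with h | h
    · have h1 := hfR n (not_le.1 hn.2)
      have h2 := hf0 n
      have h3 : f n = 0 := by linarith
      rw [h3, zero_mul]
    · rw [h, mul_one]
  set Gs : ℕ → ℝ := fun n => ∑ a ∈ B, G a n with hGs
  have e1 : (B.card : ℝ) * (x / 2) ≤ ∑ n ∈ F2, f n * Gs n := by
    have h1 : (B.card : ℝ) * (x / 2) ≤ ∑ a ∈ B, ∑ n ∈ F2, f n * G a n := by
      rw [← nsmul_eq_mul]
      exact card_nsmul_le_sum _ _ _ hone
    refine h1.trans (le_of_eq ?_)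
    rw [sum_comm]
    refine sum_congr rfl fun n _ => ?_
    rw [hGs]
    simp only
    rw [mul_sum]
  have hsub : F2 ⊆ Icc 1 N := filter_subset _ _
  have hP' : ∑ n ∈ F2, f n ^ 2 ≤ P := by
    refine le_trans ?_ hP
    calc ∑ n ∈ F2, f n ^ 2 ≤ ∑ n ∈ F2, R n := by
          refine sum_le_sum fun n hn => ?_
          rw [hF2, mem_filter] at hn
          have h1 := hfR n (not_le.1 hn.2)
          have h2 := hf0 n
          have h3 := hf1 n
          nlinarith
      _ ≤ _ := sum_le_sum_of_subset_of_nonneg hsub fun n _ _ => hR0 n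
  have hQ' : ∑ n ∈ F2, (R n * Gs n) ^ 2 ≤ Q := by
    refine le_trans ?_ hQ
    calc ∑ n ∈ F2, (R n * Gs n) ^ 2 = ∑ n ∈ F2, R n * Gs n ^ 2 := by
          refine sum_congr rfl fun n _ => ?_
          rw [mul_pow, sq (R n), hRR]
      _ ≤ _ := sum_le_sum_of_subset_of_nonneg hsub fun n _ _ => mul_nonneg (hR0 n) (sq_nonneg _)
  have e2 : (∑ n ∈ F2, f n * Gs n) ^ 2 ≤ P * Q := by
    have h1 : ∑ n ∈ F2, f n * Gs n = ∑ n ∈ F2, f n * (R n * Gs n) := by
      refine sum_congr rfl fun n hn => ?_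
      conv_lhs => rw [hfRf n hn]
      ring
    rw [h1]
    refine (sum_mul_sq_le_sq_mul_sq _ _ _).trans ?_
    have h2 : 0 ≤ ∑ n ∈ F2, (R n * Gs n) ^ 2 := sum_nonneg fun n _ => sq_nonneg _
    have h3 : 0 ≤ ∑ n ∈ F2, f n ^ 2 := sum_nonneg fun n _ => sq_nonneg _
    exact mul_le_mul hP' hQ' h2 (h3.trans hP')
  have e3 : (B.card : ℝ) * (x / 2) ≤ Real.sqrt (P * Q) := by
    refine e1.trans ?_
    exact Real.le_sqrt_of_sq_le e2
  have e4 : (B.card : ℝ) = 2 / x * ((B.card : ℝ) * (x / 2)) := by field_simp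
  rw [e4]
  exact mul_le_mul_of_nonneg_left e3 (by positivity)

/-- the square of a sum of functions -/
theorem gram {N : ℕ} {R : ℕ → ℝ} {G : ℕ → ℕ → ℝ} {A B : Finset ℕ} (hBA : B ⊆ A) {dg : ℕ → ℝ}
    {og : ℕ → ℕ → ℝ} (hd0 : ∀ a ∈ A, 0 ≤ dg a) (ho0 : ∀ a ∈ A, ∀ b ∈ A, 0 ≤ og a b)
    (hd : ∀ a ∈ A, ∑ n ∈ Icc 1 N, R n * (G a n * G a n) ≤ dg a)
    (ho : ∀ a ∈ A, ∀ b ∈ A, b ≠ a → |∑ n ∈ Icc 1 N, R n * (G a n * G b n)| ≤ og a b) :
    ∑ n ∈ Icc 1 N, R n * (∑ a ∈ B, G a n) ^ 2 ≤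
      ∑ a ∈ A, dg a + ∑ a ∈ A, ∑ b ∈ A.erase a, og a b := by
  classical
  have e1 : ∑ n ∈ Icc 1 N, R n * (∑ a ∈ B, G a n) ^ 2 =
      ∑ a ∈ B, ∑ b ∈ B, ∑ n ∈ Icc 1 N, R n * (G a n * G b n) := by
    have : ∀ n ∈ Icc 1 N, R n * (∑ a ∈ B, G a n) ^ 2 =
        ∑ a ∈ B, ∑ b ∈ B, R n * (G a n * G b n) := by
      intro n _
      rw [sq, sum_mul_sum, mul_sum]
      refine sum_congr rfl fun a _ => ?_
      rw [mul_sum]
    rw [sum_congr rfl this, sum_comm]
    refine sum_congr rfl fun a _ => ?_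
    rw [sum_comm]
  rw [e1]
  have e2 : ∀ a ∈ B, ∑ b ∈ B, ∑ n ∈ Icc 1 N, R n * (G a n * G b n) ≤
      dg a + ∑ b ∈ A.erase a, og a b := by
    intro a ha
    rw [← add_sum_erase B _ ha]
    refine add_le_add (hd a (hBA ha)) ?_
    calc ∑ b ∈ B.erase a, ∑ n ∈ Icc 1 N, R n * (G a n * G b n)
        ≤ ∑ b ∈ B.erase a, og a b := by
          refine sum_le_sum fun b hb => ?_
          rw [mem_erase] at hb
          exact (le_abs_self _).trans (ho a (hBA ha) b (hBA hb.2) hb.1)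
      _ ≤ ∑ b ∈ A.erase a, og a b := by
          refine sum_le_sum_of_subset_of_nonneg (erase_subset_erase a hBA) fun b hb _ => ?_
          exact ho0 a (hBA ha) b (mem_of_mem_erase hb)
  calc ∑ a ∈ B, ∑ b ∈ B, ∑ n ∈ Icc 1 N, R n * (G a n * G b n)
      ≤ ∑ a ∈ B, (dg a + ∑ b ∈ A.erase a, og a b) := sum_le_sum e2
    _ ≤ ∑ a ∈ A, (dg a + ∑ b ∈ A.erase a, og a b) := by
        refine sum_le_sum_of_subset_of_nonneg hBA fun a ha _ => ?_
        exact add_nonneg (hd0 a ha) (sum_nonneg fun b hb => ho0 a ha b (mem_of_mem_erase hb))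
    _ = _ := by rw [sum_add_distrib]

/-- from bad shifts to bad sets of shifts -/
theorem few_badS {H : ℕ} {e g r : ℕ → ℝ} {Z : (ℕ → ℝ) → ℕ → ℝ} {x : ℝ} (k : ℕ)
    (bS : Finset ℕ → ℝ)
    (hfew : ∀ S ∈ (Icc 1 H).powersetCard k, ∀ S1 ⊆ S, ∀ B ⊆ Icc 1 H \ S,
      (∀ t ∈ B, x < Z (WH e g r S S1) t) → (B.card : ℝ) ≤ bS S)
    (Bad : Finset (Finset ℕ))
    (hBad : ∀ D ∈ Bad, D ∈ (Icc 1 H).powersetCard (k + 1) ∧ ¬ Good e g r Z x D) :
    (Bad.card : ℝ) ≤ 2 ^ k * ∑ S ∈ (Icc 1 H).powersetCard k, bS S := by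
  classical
  set BS1 : Finset ℕ → Finset ℕ → Finset ℕ := fun S S1 => (Icc 1 H \ S).filter (fun t =>
    x < Z (WH e g r S S1) t) with hBS1
  have h1 : Bad ⊆ ((Icc 1 H).powersetCard k).biUnion (fun S =>
      (S.powerset.biUnion (BS1 S)).image (fun t => insert t S)) := by
    intro D hD
    obtain ⟨hHA, hHG⟩ := hBad D hD
    rw [mem_powersetCard] at hHA
    unfold Good at hHG
    push Not at hHG
    obtain ⟨t, ht, S1, hS1, hlt⟩ := hHG
    rw [mem_biUnion]
    refine ⟨D.erase t, ?_, ?_⟩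
    · rw [mem_powersetCard]
      refine ⟨(erase_subset _ _).trans hHA.1, ?_⟩
      rw [card_erase_of_mem ht, hHA.2]
      omega
    · rw [mem_image]
      refine ⟨t, ?_, insert_erase ht⟩
      rw [mem_biUnion]
      refine ⟨S1, mem_powerset.2 hS1, ?_⟩
      rw [hBS1, mem_filter, mem_sdiff]
      exact ⟨⟨hHA.1 ht, notMem_erase t D⟩, hlt⟩
  have h2 : ∀ S ∈ (Icc 1 H).powersetCard k,
      (((S.powerset.biUnion (BS1 S)).image (fun t => insert t S)).card : ℝ) ≤ 2 ^ k * bS S := by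
    intro S hS
    have hS' := mem_powersetCard.1 hS
    have h5 : ∀ S1 ∈ S.powerset, ((BS1 S S1).card : ℝ) ≤ bS S := by
      intro S1 hS1
      refine hfew S hS S1 (mem_powerset.1 hS1) (BS1 S S1) (filter_subset _ _) ?_
      intro t ht
      rw [hBS1, mem_filter] at ht
      exact ht.2
    calc (((S.powerset.biUnion (BS1 S)).image (fun t => insert t S)).card : ℝ)
        ≤ ((S.powerset.biUnion (BS1 S)).card : ℝ) := by exact_mod_cast card_image_le
      _ ≤ ((∑ S1 ∈ S.powerset, (BS1 S S1).card : ℕ) : ℝ) := by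
          exact_mod_cast card_biUnion_le
      _ = ∑ S1 ∈ S.powerset, ((BS1 S S1).card : ℝ) := by push_cast; rfl
      _ ≤ ∑ _S1 ∈ S.powerset, bS S := sum_le_sum h5
      _ = 2 ^ k * bS S := by
          rw [sum_const, nsmul_eq_mul, card_powerset, hS'.2]; push_cast; rfl
  calc (Bad.card : ℝ)
      ≤ ((((Icc 1 H).powersetCard k).biUnion (fun S =>
        (S.powerset.biUnion (BS1 S)).image (fun t => insert t S))).card : ℝ) := by
        exact_mod_cast card_le_card h1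
    _ ≤ ((∑ S ∈ (Icc 1 H).powersetCard k, ((S.powerset.biUnion (BS1 S)).image
          (fun t => insert t S)).card : ℕ) : ℝ) := by
        exact_mod_cast card_biUnion_le
    _ = ∑ S ∈ (Icc 1 H).powersetCard k, (((S.powerset.biUnion (BS1 S)).image
          (fun t => insert t S)).card : ℝ) := by
        push_cast; rfl
    _ ≤ ∑ S ∈ (Icc 1 H).powersetCard k, 2 ^ k * bS S := sum_le_sum h2
    _ = _ := by rw [mul_sum]

lemma pat_insert (S : Finset ℕ) (a : ℕ) : pat (insert a S) = insert a (pat S) := by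
  unfold pat
  rw [Finset.insert_comm]

/-- the diagonal bound -/
noncomputable def dgB (C0 K0 b y D N : ℕ) (S : Finset ℕ) (a : ℕ) : ℝ :=
  (4 ^ Nat.log y (2 * N) + EE y D) ^ 2 *
    (2 * (N * VT y (pat (insert a S))) + (2 + Ad C0 K0 b y))

/-- the bound off the diagonal -/
noncomputable def ogB (C0 K0 b y D N : ℕ) (S : Finset ℕ) (a a' : ℕ) : ℝ :=
  KT C0 K0 b y D N (VT y (pat (insert a' (insert a S))))

/-- the bound for the density -/
noncomputable def PB (C0 K0 b y N : ℕ) (S : Finset ℕ) : ℝ :=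
  2 * (N * VT y (pat S)) + (2 + Ad C0 K0 b y)

/-- the bound for the squares -/
noncomputable def QB (C0 K0 b y D N H : ℕ) (S : Finset ℕ) : ℝ :=
  ∑ a ∈ Icc 1 H \ S, dgB C0 K0 b y D N S a +
    ∑ a ∈ Icc 1 H \ S, ∑ a' ∈ Icc 1 H \ (insert a S), ogB C0 K0 b y D N S a a'

lemma KT_nonneg (C0 K0 b y D N : ℕ) {V : ℝ} (hV : 0 ≤ V) : 0 ≤ KT C0 K0 b y D N V := by
  unfold KT
  have h1 := Ad_nonneg C0 K0 b y
  have h2 := (EE_pos y D).le
  positivity

lemma dgB_nonneg (C0 K0 b y D N : ℕ) (S : Finset ℕ) (a : ℕ) : 0 ≤ dgB C0 K0 b y D N S a := by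
  unfold dgB
  have h1 := Ad_nonneg C0 K0 b y
  have h2 := (EE_pos y D).le
  have h3 := VT_nonneg y (pat (insert a S))
  positivity

lemma ogB_nonneg (C0 K0 b y D N : ℕ) (S : Finset ℕ) (a a' : ℕ) : 0 ≤ ogB C0 K0 b y D N S a a' :=
  KT_nonneg _ _ _ _ _ _ (VT_nonneg _ _)

lemma PB_nonneg (C0 K0 b y N : ℕ) (S : Finset ℕ) : 0 ≤ PB C0 K0 b y N S := by
  unfold PB
  have h1 := Ad_nonneg C0 K0 b y
  have h3 := VT_nonneg y (pat S)
  positivity

lemma QB_nonneg (C0 K0 b y D N H : ℕ) (S : Finset ℕ) : 0 ≤ QB C0 K0 b y D N H S := by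
  unfold QB
  refine add_nonneg (sum_nonneg fun a _ => dgB_nonneg _ _ _ _ _ _ _ _) ?_
  exact sum_nonneg fun a _ => sum_nonneg fun a' _ => ogB_nonneg _ _ _ _ _ _ _ _ _

/-- **the number of the bad sets of shifts** -/
theorem bad_le {k C0 K0 b y D N H : ℕ} (hy : 2 ≤ y) (hHN : H ≤ N)
    (hcnt : ∀ T : Finset ℕ, T.card ≤ k + 3 → CntH C0 K0 b y T)
    {c : ℕ → ℝ} (hc : Co y c) {g : ℕ → ℝ} (hg : ∀ n, 0 ≤ g n ∧ g n ≤ ro y n) {x : ℝ} (hx : 0 < x)
    (hyM : (y : ℝ) * (4 ^ Nat.log y (2 * N) + EE y D) ≤ x / 2)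
    (Bad : Finset (Finset ℕ))
    (hBad : ∀ D' ∈ Bad, D' ∈ (Icc 1 H).powersetCard (k + 1) ∧
      ¬ Good eP g (ro y) (fun f t => ∑ n ∈ Icc 1 N, f n * GF y D c (n + t)) x D') :
    (Bad.card : ℝ) ≤ 2 ^ (k + 1) / x *
      (Real.sqrt (∑ S ∈ (Icc 1 H).powersetCard k, PB C0 K0 b y N S) *
        Real.sqrt (∑ S ∈ (Icc 1 H).powersetCard k, QB C0 K0 b y D N H S)) := by
  classical
  have hEE := (EE_pos y D).le
  have hg1 : ∀ n, 0 ≤ g n ∧ g n ≤ 1 := fun n => ⟨(hg n).1, (hg n).2.trans (ro_le_one y n)⟩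
  have hmain := few_badS (H := H) (e := eP) (g := g) (r := ro y)
    (Z := fun f t => ∑ n ∈ Icc 1 N, f n * GF y D c (n + t)) (x := x) k
    (fun S => 2 / x * Real.sqrt (PB C0 K0 b y N S * QB C0 K0 b y D N H S)) ?_ Bad hBad
  · refine hmain.trans ?_
    have h1 : ∑ S ∈ (Icc 1 H).powersetCard k,
        2 / x * Real.sqrt (PB C0 K0 b y N S * QB C0 K0 b y D N H S) =
        2 / x * ∑ S ∈ (Icc 1 H).powersetCard k,
          Real.sqrt (PB C0 K0 b y N S) * Real.sqrt (QB C0 K0 b y D N H S) := by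
      rw [mul_sum]
      refine sum_congr rfl fun S _ => ?_
      rw [Real.sqrt_mul (PB_nonneg _ _ _ _ _ _)]
    rw [h1]
    have h2 := Real.sum_sqrt_mul_sqrt_le ((Icc 1 H).powersetCard k)
      (f := fun S => PB C0 K0 b y N S) (g := fun S => QB C0 K0 b y D N H S)
      (fun S => PB_nonneg _ _ _ _ _ S) (fun S => QB_nonneg _ _ _ _ _ _ _ S)
    have h3 : (2 : ℝ) ^ k * (2 / x * ∑ S ∈ (Icc 1 H).powersetCard k,
        Real.sqrt (PB C0 K0 b y N S) * Real.sqrt (QB C0 K0 b y D N H S)) =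
        2 ^ (k + 1) / x * ∑ S ∈ (Icc 1 H).powersetCard k,
          Real.sqrt (PB C0 K0 b y N S) * Real.sqrt (QB C0 K0 b y D N H S) := by
      rw [pow_succ]; ring
    rw [h3]
    exact mul_le_mul_of_nonneg_left h2 (by positivity)
  · intro S hS S1 hS1 B hB hbig
    rw [mem_powersetCard] at hS
    have h0S : 0 ∉ S := fun h => by
      have := (mem_Icc.1 (hS.1 h)).1
      omega
    have hpc : (pat S).card = k + 1 := by rw [card_pat h0S, hS.2]
    have hA : ∀ a ∈ Icc 1 H \ S, a ≤ N := by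
      intro a ha
      rw [mem_sdiff, mem_Icc] at ha
      omega
    refine bessel (N := N) (y := y) (f := WH eP g (ro y) S S1) (R := rT (pat S) y)
      (G := fun a n => GF y D c (n + a)) (M0 := 4 ^ Nat.log y (2 * N) + EE y D) hx
      (fun n => rT_nonneg _ _ _) (fun n => rT_sq _ _ _)
      (fun n => (WH_bd eP_bd hg1 (ro_bd y) S S1 n).1)
      (fun n => (WH_bd eP_bd hg1 (ro_bd y) S S1 n).2) ?_ B ?_ hbig (by positivity) hyM ?_ ?_
    · -- the majorant
      intro n hn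
      have hWH : WH eP g (ro y) S S1 n ≤ eP n * ∏ s ∈ S, ro y (n + s) := by
        unfold WH
        refine mul_le_mul_of_nonneg_left ?_ (eP_bd n).1
        rw [← prod_sdiff hS1, mul_comm]
        refine mul_le_mul_of_nonneg_left ?_ (prod_nonneg fun _ _ => ro_nonneg _ _)
        exact prod_le_prod (fun s _ => (hg _).1) fun s _ => (hg _).2
      refine hWH.trans ?_
      unfold rT pat
      rw [prod_insert h0S, add_zero]
      refine mul_le_mul_of_nonneg_right ?_ (prod_nonneg fun _ _ => ro_nonneg _ _)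
      unfold eP ro
      by_cases hp : n.Prime
      · rw [if_pos hp, if_pos]
        intro q hq hqy hqd
        have := (Nat.prime_dvd_prime_iff_eq hq hp).1 hqd
        omega
      · rw [if_neg hp]
        split_ifs <;> norm_num
    · -- the trivial bound
      intro a ha n hn1 hnN
      have haN := hA a (hB ha)
      exact abs_GF_le hc hy (by omega) (by omega)
    · exact cnt_rT_le (hcnt (pat S) (by omega)) N
    · -- the squares
      have hAe : ∀ a, (Icc 1 H \ S).erase a = Icc 1 H \ (insert a S) := by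
        intro a
        ext t
        simp only [mem_erase, mem_sdiff, mem_insert, not_or]
        tauto
      have h := gram (N := N) (R := rT (pat S) y) (G := fun a n => GF y D c (n + a))
        (A := Icc 1 H \ S) (B := B) hB (dg := dgB C0 K0 b y D N S)
        (og := ogB C0 K0 b y D N S) (fun a _ => dgB_nonneg _ _ _ _ _ _ _ _)
        (fun a _ a' _ => ogB_nonneg _ _ _ _ _ _ _ _ _) ?_ ?_
      · refine h.trans (le_of_eq ?_)
        unfold QB
        congr 1
        refine sum_congr rfl fun a _ => ?_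
        rw [hAe]
      · intro a ha
        unfold dgB
        rw [pat_insert]
        refine diagT hc hy N a (hA a ha) (pat S) (hcnt _ ?_)
        have := card_insert_le a (pat S)
        omega
      · intro a ha a' ha' hne
        unfold ogB
        rw [pat_insert, pat_insert]
        have hcom : insert a' (insert a (pat S)) = insert a (insert a' (pat S)) := insert_comm _ _ _
        rw [hcom]
        refine corrT hy D N hc hc hne.symm (hA a ha) (hA a' ha') (pat S) (hcnt _ ?_)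
        have h1 := card_insert_le a (insert a' (pat S))
        have h2 := card_insert_le a' (pat S)
        omega

end Pool.Agent.J4.H38.SR
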