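import Mathlib
import Pool.Agent.J4.H38.SR.Bes

/-! The number of the sets of shifts which are not good for the total discrepancy. -/

set_option autoImplicit false

namespace Pool.Agent.J4.H38.SR

open Finset
open Pool.Agent.Y822

/-- **the number of the bad sets of shifts** -/
theorem bad_leLD {k C0 K0 b y D N H : ℕ} (hy : 2 ≤ y) (hHN : H ≤ N)
    (hcnt : ∀ T : Finset ℕ, T.card ≤ k + 3 → CntH C0 K0 b y T)
    {g : ℕ → ℝ} (hg : ∀ n, 0 ≤ g n ∧ g n ≤ ro y n) {x : ℝ} (hx : 0 < x)
    (hyM : (y : ℝ) * (4 ^ Nat.log y (2 * N) + EE y D) ≤ x / 2)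
    (Bad : Finset (Finset ℕ))
    (hBad : ∀ D' ∈ Bad, D' ∈ (Icc 1 H).powersetCard (k + 1) ∧
      ¬ Good eP g (ro y) (LD y D N) x D') :
    (Bad.card : ℝ) ≤ 2 ^ (k + 1) / x *
      (Real.sqrt (∑ S ∈ (Icc 1 H).powersetCard k, PB C0 K0 b y N S) *
        Real.sqrt (∑ S ∈ (Icc 1 H).powersetCard k, QB C0 K0 b y D N H S)) := by
  classical
  have hEE := (EE_pos y D).le
  have hg1 : ∀ n, 0 ≤ g n ∧ g n ≤ 1 := fun n => ⟨(hg n).1, (hg n).2.trans (ro_le_one y n)⟩
  have hmain := few_badS (H := H) (e := eP) (g := g) (r := ro y)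
    (Z := LD y D N) (x := x) k
    (fun S => 2 / x * Real.sqrt (PB C0 K0 b y N S * QB C0 K0 b y D N H S)) ?_ Bad hBad
  · refine hmain.trans ?_
    have h1 : ∑ S ∈ (Icc 1 H).powersetCard k,
        2 / x * Real.sqrt (PB C0 K0 b y N S * QB C0 K0 b y D N H S) =
        2 / x * ∑ S ∈ (Icc 1 H).powersetCard k,
          Real.sqrt (PB C0 K0 b y N S) * Real.sqrt (QB C0 K0 b y D N H S) := by
      rw [mul_sum]
      refine sum_congr rfl fun S _ => ?_
      rw [Real.sqrt_mul (PB_nonneg _ _ _ _ _ _)]
    rw [h1]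
    have h2 := Real.sum_sqrt_mul_sqrt_le ((Icc 1 H).powersetCard k)
      (f := fun S => PB C0 K0 b y N S) (g := fun S => QB C0 K0 b y D N H S)
      (fun S => PB_nonneg _ _ _ _ _ S) (fun S => QB_nonneg _ _ _ _ _ _ _ S)
    have h3 : (2 : ℝ) ^ k * (2 / x * ∑ S ∈ (Icc 1 H).powersetCard k,
        Real.sqrt (PB C0 K0 b y N S) * Real.sqrt (QB C0 K0 b y D N H S)) =
        2 ^ (k + 1) / x * ∑ S ∈ (Icc 1 H).powersetCard k,
          Real.sqrt (PB C0 K0 b y N S) * Real.sqrt (QB C0 K0 b y D N H S) := by
      rw [pow_succ]; ring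
    rw [h3]
    exact mul_le_mul_of_nonneg_left h2 (by positivity)
  · intro S hS S1 hS1 B hB hbig
    rw [mem_powersetCard] at hS
    have h0S : 0 ∉ S := fun h => by
      have := (mem_Icc.1 (hS.1 h)).1
      omega
    have hpc : (pat S).card = k + 1 := by rw [card_pat h0S, hS.2]
    have hA : ∀ a ∈ Icc 1 H \ S, a ≤ N := by
      intro a ha
      rw [mem_sdiff, mem_Icc] at ha
      omega
    choose c hc hcf using exists_coeff y D N (WH eP g (ro y) S S1)
    refine bessel (N := N) (y := y) (f := WH eP g (ro y) S S1) (R := rT (pat S) y)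
      (G := fun a n => GF y D (c a) (n + a)) (M0 := 4 ^ Nat.log y (2 * N) + EE y D) hx
      (fun n => rT_nonneg _ _ _) (fun n => rT_sq _ _ _)
      (fun n => (WH_bd eP_bd hg1 (ro_bd y) S S1 n).1)
      (fun n => (WH_bd eP_bd hg1 (ro_bd y) S S1 n).2) ?_ B ?_
      (fun a ha => by rw [hcf a]; exact hbig a ha) (by positivity) hyM ?_ ?_
    · -- the majorant
      intro n hn
      have hWH : WH eP g (ro y) S S1 n ≤ eP n * ∏ s ∈ S, ro y (n + s) := by
        unfold WH
        refine mul_le_mul_of_nonneg_left ?_ (eP_bd n).1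
        rw [← prod_sdiff hS1, mul_comm]
        refine mul_le_mul_of_nonneg_left ?_ (prod_nonneg fun _ _ => ro_nonneg _ _)
        exact prod_le_prod (fun s _ => (hg _).1) fun s _ => (hg _).2
      refine hWH.trans ?_
      unfold rT pat
      rw [prod_insert h0S, add_zero]
      refine mul_le_mul_of_nonneg_right ?_ (prod_nonneg fun _ _ => ro_nonneg _ _)
      unfold eP ro
      by_cases hp : n.Prime
      · rw [if_pos hp, if_pos]
        intro q hq hqy hqd
        have := (Nat.prime_dvd_prime_iff_eq hq hp).1 hqd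
        omega
      · rw [if_neg hp]
        split_ifs <;> norm_num
    · -- the trivial bound
      intro a ha n hn1 hnN
      have haN := hA a (hB ha)
      exact abs_GF_le (hc a) hy (by omega) (by omega)
    · exact cnt_rT_le (hcnt (pat S) (by omega)) N
    · -- the squares
      have hAe : ∀ a, (Icc 1 H \ S).erase a = Icc 1 H \ (insert a S) := by
        intro a
        ext t
        simp only [mem_erase, mem_sdiff, mem_insert, not_or]
        tauto
      have h := gram (N := N) (R := rT (pat S) y) (G := fun a n => GF y D (c a) (n + a))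
        (A := Icc 1 H \ S) (B := B) hB (dg := dgB C0 K0 b y D N S)
        (og := ogB C0 K0 b y D N S) (fun a _ => dgB_nonneg _ _ _ _ _ _ _ _)
        (fun a _ a' _ => ogB_nonneg _ _ _ _ _ _ _ _ _) ?_ ?_
      · refine h.trans (le_of_eq ?_)
        unfold QB
        congr 1
        refine sum_congr rfl fun a _ => ?_
        rw [hAe]
      · intro a ha
        unfold dgB
        rw [pat_insert]
        refine diagT (hc a) hy N a (hA a ha) (pat S) (hcnt _ ?_)
        have := card_insert_le a (pat S)
        omega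
      · intro a ha a' ha' hne
        unfold ogB
        rw [pat_insert, pat_insert]
        have hcom : insert a' (insert a (pat S)) = insert a (insert a' (pat S)) := insert_comm _ _ _
        rw [hcom]
        refine corrT hy D N (hc a) (hc a') hne.symm (hA a ha) (hA a' ha') (pat S) (hcnt _ ?_)
        have h1 := card_insert_le a (insert a' (pat S))
        have h2 := card_insert_le a' (pat S)
        omega

end Pool.Agent.J4.H38.SR
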