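import Mathlib
import Pool.Agent.J4.H38.SR.Bes
import Pool.Agent.Y822.Par

/-! Parameters: sieving up to a small power of `N`. -/

set_option autoImplicit false

namespace Pool.Agent.J4.H38.SR

open Finset Filter
open Pool.Agent.Y822
open Pool.Agent.H373R2.T7 (pz Vz mem_pz)

/-- the sifting parameter, a small power of `N` -/
noncomputable def yK (κ : ℝ) (N : ℕ) : ℕ := ⌊Real.exp (κ * Real.log N)⌋₊

lemma yK_facts (κ : ℝ) (hκ : 0 < κ) (hκ1 : κ ≤ 1) (M : ℕ) : ∀ᶠ N : ℕ in atTop,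
    (yK κ N : ℝ) ≤ Real.exp (κ * Real.log N) ∧
    Real.exp (κ / 2 * Real.log N) ≤ yK κ N ∧ M ≤ yK κ N ∧
    κ / 2 * Real.log N ≤ Real.log (yK κ N) ∧
    Real.exp (κ * Real.log N) / 2 ≤ yK κ N ∧
    Nat.log (yK κ N) (2 * N) ≤ ⌈2 / κ⌉₊ + 1 := by
  have e1 := ev_logN (eventually_ge_atTop ((2 * (M + 2)) / κ))
  filter_upwards [e1, eventually_ge_atTop 1] with N h1 hN
  set L := Real.log N with hL
  have hM0 : (0 : ℝ) ≤ M := Nat.cast_nonneg _
  have h2 : M + 2 ≤ κ / 2 * L := by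
    rw [div_le_iff₀ hκ] at h1
    linarith
  have hN0 : (0 : ℝ) < N := by exact_mod_cast (by omega : 0 < N)
  have hNe : (N : ℝ) = Real.exp L := by rw [hL, Real.exp_log hN0]
  set v := κ / 2 * L with hv
  have hv2 : κ * L = v + v := by rw [hv]; ring
  have f1 : (yK κ N : ℝ) ≤ Real.exp (κ * L) := Nat.floor_le (Real.exp_pos _).le
  have g2 : 2 ≤ Real.exp v := by
    have := Real.add_one_le_exp v
    linarith
  have g1 : Real.exp (κ * L) < yK κ N + 1 := Nat.lt_floor_add_one _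
  have hev : 0 < Real.exp v := Real.exp_pos _
  have f2 : Real.exp v ≤ yK κ N := by
    rw [hv2, Real.exp_add] at g1
    nlinarith
  have f3 : M ≤ yK κ N := by
    have : (M : ℝ) ≤ yK κ N := by
      refine le_trans ?_ f2
      have g3 := Real.add_one_le_exp v
      linarith
    exact_mod_cast this
  have hy0 : (0 : ℝ) < yK κ N := lt_of_lt_of_le hev f2
  have f4 : v ≤ Real.log (yK κ N) := by
    rw [Real.le_log_iff_exp_le hy0]
    exact f2
  have f5 : Real.exp (κ * L) / 2 ≤ yK κ N := by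
    have : Real.exp (κ * L) = Real.exp v * Real.exp v := by rw [hv2, Real.exp_add]
    nlinarith
  refine ⟨f1, f2, f3, f4, f5, ?_⟩
  refine Nat.lt_succ_iff.1 (Nat.log_lt_of_lt_pow (by omega) ?_)
  have g4 : (2 * N : ℝ) < (yK κ N : ℝ) ^ (⌈2 / κ⌉₊ + 1).succ := by
    have h5 : Real.exp v ^ (⌈2 / κ⌉₊ + 1).succ ≤ (yK κ N : ℝ) ^ (⌈2 / κ⌉₊ + 1).succ :=
      pow_le_pow_left₀ hev.le f2 _
    refine lt_of_lt_of_le ?_ h5
    rw [← Real.exp_nat_mul]
    have h6 : L + 2 * v ≤ (((⌈2 / κ⌉₊ + 1).succ : ℕ) : ℝ) * v := by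
      push_cast
      have h7 : 2 / κ ≤ ⌈2 / κ⌉₊ := Nat.le_ceil _
      have h8 : 2 / κ * v = L := by rw [hv]; field_simp
      have hv0 : 0 ≤ v := by linarith
      nlinarith [mul_le_mul_of_nonneg_right h7 hv0]
    calc (2 * N : ℝ) < Real.exp (2 * v) * N := by
          have : (2 : ℝ) < Real.exp (2 * v) := by
            have := Real.add_one_le_exp (2 * v)
            linarith
          nlinarith
      _ = Real.exp (L + 2 * v) := by rw [hNe, ← Real.exp_add]; ring_nf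
      _ ≤ _ := Real.exp_le_exp.2 h6
  exact_mod_cast g4

/-- the relevant Euler product is bounded -/
lemma EE_ratio (y N : ℕ) (hyN : y ≤ N) : EE y N ≤ (Vz y / Vz N) ^ 3 := by
  classical
  have hs : pz N = pz y ∪ PP y N := by
    ext p
    rw [mem_union, mem_pz, mem_pz, mem_PP]
    constructor
    · rintro ⟨h1, h2⟩
      by_cases h : p ≤ y
      · exact Or.inl ⟨h, h2⟩
      · exact Or.inr ⟨⟨not_le.1 h, h1⟩, h2⟩
    · rintro (⟨h1, h2⟩ | ⟨⟨_, h1⟩, h2⟩)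
      · exact ⟨h1.trans hyN, h2⟩
      · exact ⟨h1, h2⟩
  have hd : Disjoint (pz y) (PP y N) := by
    rw [disjoint_left]
    intro p h1 h2
    rw [mem_pz] at h1
    rw [mem_PP] at h2
    omega
  have hV : Vz N = Vz y * ∏ p ∈ PP y N, (1 - 1 / (p : ℝ)) := by
    unfold Vz
    rw [hs, prod_union hd]
  have hpos : 0 < ∏ p ∈ PP y N, (1 - 1 / (p : ℝ)) := by
    refine prod_pos fun p hp => ?_
    have : (2 : ℝ) ≤ p := by exact_mod_cast (mem_PP.1 hp).2.two_le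
    rw [sub_pos, div_lt_one (by linarith)]
    linarith
  have e : Vz y / Vz N = ∏ p ∈ PP y N, (1 / (1 - 1 / (p : ℝ))) := by
    rw [hV, prod_div_distrib, prod_const_one]
    have := (Vz_pos' y).ne'
    field_simp
  rw [e, ← prod_pow]
  unfold EE
  refine prod_le_prod (fun p _ => by positivity) fun p hp => ?_
  have hp2 : (2 : ℝ) ≤ p := by exact_mod_cast (mem_PP.1 hp).2.two_le
  have ht : 1 / (p : ℝ) ≤ 1 / 2 := one_div_le_one_div_of_le (by norm_num) hp2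
  have ht0 : 0 < 1 / (p : ℝ) := by positivity
  have e : 3 / (p : ℝ) = 3 * (1 / p) := by ring
  rw [e]
  set t := 1 / (p : ℝ)
  have h3 : 0 < 1 - t := by linarith
  rw [div_pow, one_pow, le_div_iff₀ (by positivity)]
  have e2 : (1 + 3 * t) * (1 - t) ^ 3 = 1 - t ^ 2 * (6 - 8 * t + 3 * t ^ 2) := by ring
  rw [e2]
  have : 0 ≤ t ^ 2 * (6 - 8 * t + 3 * t ^ 2) := by
    apply mul_nonneg (sq_nonneg _)
    nlinarith [sq_nonneg t]
  linarith

theorem EE_const : ∃ c : ℝ, 0 < c ∧ ∀ κ : ℝ, 0 < κ → κ ≤ 1 → ∀ᶠ N : ℕ in atTop,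
    ∀ D : ℕ, D ≤ N → EE (yK κ N) D ≤ (c / κ) ^ 3 := by
  obtain ⟨c1, hc1, h1⟩ := Vz_sharp
  refine ⟨2 / c1, by positivity, fun κ hκ hκ1 => ?_⟩
  filter_upwards [yK_facts κ hκ hκ1 2, ev_logN (eventually_ge_atTop (1 : ℝ)),
    eventually_ge_atTop 3] with N hy hL hN D hD
  obtain ⟨y1, _, y2, y3, _, _⟩ := hy
  have hL0 : 0 < Real.log N := by linarith
  have hN0 : (0 : ℝ) < N := by positivity
  have hyN : yK κ N ≤ N := by
    have : (yK κ N : ℝ) ≤ N := by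
      refine y1.trans ?_
      calc Real.exp (κ * Real.log N) ≤ Real.exp (Real.log N) :=
            Real.exp_le_exp.2 (by nlinarith)
        _ = N := Real.exp_log hN0
    exact_mod_cast this
  refine (EE_mono _ hD).trans ((EE_ratio _ _ hyN).trans ?_)
  have hVy := Vz_le (yK κ N) y2
  have hVN := h1 N hN
  have hl : 0 < Real.log (yK κ N) := lt_of_lt_of_le (by positivity) y3
  refine pow_le_pow_left₀ (div_nonneg (Vz_pos' _).le (Vz_pos' _).le) ?_ 3
  rw [div_le_iff₀ (Vz_pos' N)]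
  have h2 : 1 / Real.log (yK κ N) ≤ 2 / (κ * Real.log N) := by
    rw [div_le_div_iff₀ hl (by positivity)]
    linarith
  calc Vz (yK κ N) ≤ 2 / (κ * Real.log N) := hVy.trans h2
    _ = 2 / c1 / κ * (c1 / Real.log N) := by field_simp
    _ ≤ _ := mul_le_mul_of_nonneg_left hVN (by positivity)

/-- powers of `N` with exponents less than one are small -/
lemma ev_small (A : ℕ) {σ : ℝ} (hσ : 0 < σ) (C : ℝ) {τ : ℝ} (hτ : 0 < τ) : ∀ᶠ N : ℕ in atTop,
    C * Real.exp ((1 - σ) * Real.log N) ≤ τ * (N / Real.log N ^ A) := by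
  filter_upwards [ev_logN (ev_pow_exp A σ (C / τ) hσ), ev_logN (eventually_ge_atTop (1 : ℝ)),
    eventually_ge_atTop 1] with N h1 h2 hN
  have hN0 : (0 : ℝ) < N := by exact_mod_cast (by omega : 0 < N)
  have hL0 : 0 < Real.log N := by linarith
  have hNe : (N : ℝ) = Real.exp (Real.log N) := (Real.exp_log hN0).symm
  rw [mul_div_assoc', le_div_iff₀ (by positivity)]
  have h3 : Real.exp (Real.log N) = Real.exp ((1 - σ) * Real.log N) * Real.exp (σ * Real.log N) := by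
    rw [← Real.exp_add]; ring_nf
  conv_rhs => rw [hNe, h3]
  have h4 : C * Real.log N ^ A ≤ τ * Real.exp (σ * Real.log N) := by
    rw [div_mul_eq_mul_div, div_le_iff₀ hτ] at h1
    linarith
  have h5 : 0 < Real.exp ((1 - σ) * Real.log N) := Real.exp_pos _
  nlinarith [mul_le_mul_of_nonneg_left h4 h5.le]

/-- the additive error of the sieve -/
lemma Ad_le (C0 K0 b : ℕ) (hC0 : 1 ≤ C0) {κ σ : ℝ} (hκ : 0 < κ) (hκ1 : κ ≤ 1)
    (hκσ : κ * (4 * C0 * b + 1) ≤ σ) : ∀ᶠ N : ℕ in atTop,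
    2 + Ad C0 K0 b (yK κ N) ≤ (2 + 2 * K0) * Real.exp (σ * Real.log N) := by
  filter_upwards [yK_facts κ hκ hκ1 3, ev_logN (eventually_ge_atTop (1 : ℝ))] with N hy hL
  obtain ⟨y1, _, y2, _, _, _⟩ := hy
  have hL0 : 0 < Real.log N := by linarith
  set y := yK κ N with hyd
  have hJ := Pool.Agent.H373R2.T7.JJ_small y y2
  have hJr : ((Pool.Agent.W41.JJ y : ℝ) + 2) ≤ 2 * y := by exact_mod_cast hJ
  have hy0 : (0 : ℝ) < y := by exact_mod_cast (by omega : 0 < y)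
  have hσ0 : 0 ≤ σ := le_trans (by positivity) hκσ
  have h1 : Ad C0 K0 b y ≤ 2 * K0 * (y : ℝ) ^ (4 * C0 * b + 1) := by
    unfold Ad
    calc ((Pool.Agent.W41.JJ y : ℝ) + 2) * ((y : ℝ) ^ (2 * (C0 * b)) * (K0 * (y : ℝ) ^ (2 * (C0 * b))))
        ≤ (2 * y) * ((y : ℝ) ^ (2 * (C0 * b)) * (K0 * (y : ℝ) ^ (2 * (C0 * b)))) :=
          mul_le_mul_of_nonneg_right hJr (by positivity)
      _ = 2 * K0 * (y : ℝ) ^ (4 * C0 * b + 1) := by
          rw [show 4 * C0 * b + 1 = 2 * (C0 * b) + 2 * (C0 * b) + 1 by ring, pow_succ, pow_add]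
          ring
  have h2 : (y : ℝ) ^ (4 * C0 * b + 1) ≤ Real.exp (σ * Real.log N) := by
    calc (y : ℝ) ^ (4 * C0 * b + 1) ≤ Real.exp (κ * Real.log N) ^ (4 * C0 * b + 1) :=
          pow_le_pow_left₀ hy0.le y1 _
      _ = Real.exp ((κ * (4 * C0 * b + 1)) * Real.log N) := by
          rw [← Real.exp_nat_mul]
          congr 1
          push_cast
          ring
      _ ≤ _ := Real.exp_le_exp.2 (mul_le_mul_of_nonneg_right hκσ hL0.le)
  have h3 : 1 ≤ Real.exp (σ * Real.log N) := Real.one_le_exp (by positivity)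
  have h4 : 2 * (K0 : ℝ) * (y : ℝ) ^ (4 * C0 * b + 1) ≤ 2 * K0 * Real.exp (σ * Real.log N) :=
    mul_le_mul_of_nonneg_left h2 (by positivity)
  have h5 : (2 : ℝ) ≤ 2 * Real.exp (σ * Real.log N) := by linarith
  calc 2 + Ad C0 K0 b y ≤ 2 * Real.exp (σ * Real.log N) + 2 * K0 * Real.exp (σ * Real.log N) := by
        linarith
    _ = _ := by ring

open Topology in
/-- choice of the quality of the fundamental lemma -/
lemma exists_b (C0 : ℕ) (hC0 : 1 ≤ C0) (B n : ℕ) {Cst σ t κm : ℝ} (hC : 0 < Cst) (hσ : 0 < σ)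
    (ht : 0 < t) (hκm : 0 < κm) : ∃ b : ℕ, B ≤ b ∧
      Cst * ((4 * C0 * b + 1) / σ) ^ n * (1 / 2) ^ b ≤ t ∧ σ / (4 * C0 * b + 1) ≤ κm := by
  have h1 : Tendsto (fun b : ℕ => (b : ℝ) ^ n * (1 / 2 : ℝ) ^ b) atTop (𝓝 0) :=
    tendsto_pow_const_mul_const_pow_of_abs_lt_one n (by norm_num [abs_of_pos])
  have h2 : ∀ᶠ b : ℕ in atTop, (b : ℝ) ^ n * (1 / 2 : ℝ) ^ b < t / (Cst * (5 * C0 / σ) ^ n) := by
    refine h1.eventually_lt tendsto_const_nhds ?_
    have : (0 : ℝ) < C0 := by exact_mod_cast hC0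
    positivity
  have h3 : ∀ᶠ b : ℕ in atTop, σ / κm ≤ (b : ℝ) :=
    tendsto_natCast_atTop_atTop.eventually (eventually_ge_atTop _)
  obtain ⟨b, hb1, hb2, hb3, hb4⟩ := (h2.and (h3.and ((eventually_ge_atTop B).and
    (eventually_ge_atTop 1)))).exists
  refine ⟨b, hb3, ?_, ?_⟩
  · have hC0r : (1 : ℝ) ≤ C0 := by exact_mod_cast hC0
    have hbr : (1 : ℝ) ≤ b := by exact_mod_cast hb4
    have h4 : (4 * (C0 : ℝ) * b + 1) / σ ≤ 5 * C0 / σ * b := by
      rw [div_mul_eq_mul_div, div_le_div_iff_of_pos_right hσ]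
      nlinarith
    have h5 : ((4 * (C0 : ℝ) * b + 1) / σ) ^ n ≤ (5 * C0 / σ * b) ^ n :=
      pow_le_pow_left₀ (by positivity) h4 n
    rw [lt_div_iff₀ (by positivity)] at hb1
    calc Cst * ((4 * (C0 : ℝ) * b + 1) / σ) ^ n * (1 / 2) ^ b
        ≤ Cst * (5 * C0 / σ * b) ^ n * (1 / 2) ^ b := by gcongr
      _ = (b : ℝ) ^ n * (1 / 2) ^ b * (Cst * (5 * C0 / σ) ^ n) := by rw [mul_pow]; ring
      _ ≤ t := hb1.le
  · have hC0r : (1 : ℝ) ≤ C0 := by exact_mod_cast hC0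
    have hbr : (1 : ℝ) ≤ b := by exact_mod_cast hb4
    rw [div_le_iff₀ (by positivity)]
    rw [div_le_iff₀ hκm] at hb2
    nlinarith

end Pool.Agent.J4.H38.SR
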