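import Mathlib
import Pool.Agent.J4.H38.SR.Par

/-! Few sets of shifts below `Λ log N` and above are not good. -/

set_option autoImplicit false

namespace Pool.Agent.J4.H38.SR

open Finset Filter
open Pool.Agent.Y822
open Pool.Agent.H387R2.Uni (nuT Adm locT CT CT_nonneg)
open Pool.Agent.H373R2.T7 (pz Vz mem_pz)

lemma card_pow_le (H j : ℕ) : (((Icc 1 H).powersetCard j).card : ℝ) ≤ (H : ℝ) ^ j := by
  rw [card_powersetCard, Nat.card_Icc, Nat.add_sub_cancel]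
  exact_mod_cast Nat.choose_le_pow H j

lemma card_sdiff_le (H : ℕ) (S : Finset ℕ) : ((Icc 1 H \ S).card : ℝ) ≤ H := by
  have h1 := card_le_card (sdiff_subset (s := Icc 1 H) (t := S))
  rw [Nat.card_Icc, Nat.add_sub_cancel] at h1
  exact_mod_cast h1

/-- density bound in terms of the singular series -/
lemma VT_le' {κ L : ℝ} (hκ : 0 < κ) (hL : 0 < L) {y m : ℕ} (T : Finset ℕ) (hT : T.card ≤ m)
    (hy : 2 * m ^ 2 + 2 ≤ y) (hly : κ / 2 * L ≤ Real.log y) :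
    VT y T ≤ 2 * (2 / κ) ^ T.card * CT T / L ^ T.card := by
  refine (VT_le y m T hT hy).trans ?_
  have h0 : 0 < κ / 2 * L := by positivity
  have hl : 0 < Real.log y := lt_of_lt_of_le h0 hly
  have h1 : (κ / 2 * L) ^ T.card ≤ Real.log y ^ T.card := pow_le_pow_left₀ h0.le hly _
  have h2 : 2 * CT T / Real.log y ^ T.card ≤ 2 * CT T / (κ / 2 * L) ^ T.card := by
    apply div_le_div_of_nonneg_left _ (by positivity) h1
    exact mul_nonneg (by norm_num) (CT_nonneg T)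
  refine h2.trans (le_of_eq ?_)
  rw [mul_pow, div_pow, div_pow]
  field_simp

/-- the sum of the densities -/
lemma sum_PB {k C0 K0 b N y H : ℕ} {κ L Ca E : ℝ} (hκ : 0 < κ) (hκ1 : κ ≤ 1) (hL : 1 ≤ L)
    (hy : 2 * (k + 3) ^ 2 + 2 ≤ y) (hly : κ / 2 * L ≤ Real.log y)
    (hCa : ∑ D ∈ (Icc 1 H).powersetCard k, CT (pat D) ≤ Ca * (H : ℝ) ^ k)
    (hE : 2 + Ad C0 K0 b y ≤ E) (hE2 : E ≤ N / L ^ (k + 1)) :
    ∑ S ∈ (Icc 1 H).powersetCard k, PB C0 K0 b y N S ≤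
      (4 * Ca * (2 / κ) ^ (k + 1) + 1) * (N * (H : ℝ) ^ k / L ^ (k + 1)) := by
  have hL0 : 0 < L := by linarith
  have h1 : ∀ S ∈ (Icc 1 H).powersetCard k, PB C0 K0 b y N S ≤
      4 * N * (2 / κ) ^ (k + 1) / L ^ (k + 1) * CT (pat S) + N / L ^ (k + 1) := by
    intro S hS
    rw [mem_powersetCard] at hS
    have h0S : 0 ∉ S := fun h => by
      have := (mem_Icc.1 (hS.1 h)).1
      omega
    have hpc : (pat S).card = k + 1 := by rw [card_pat h0S, hS.2]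
    have hV := VT_le' hκ hL0 (m := k + 3) (pat S) (by omega) hy hly
    rw [hpc] at hV
    unfold PB
    have h2 : 2 * ((N : ℝ) * VT y (pat S)) ≤
        2 * (N * (2 * (2 / κ) ^ (k + 1) * CT (pat S) / L ^ (k + 1))) := by gcongr
    have h3 : 2 * ((N : ℝ) * (2 * (2 / κ) ^ (k + 1) * CT (pat S) / L ^ (k + 1))) =
        4 * N * (2 / κ) ^ (k + 1) / L ^ (k + 1) * CT (pat S) := by ring
    linarith
  refine (sum_le_sum h1).trans ?_
  rw [sum_add_distrib, ← mul_sum, sum_const, nsmul_eq_mul]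
  have h4 := mul_le_mul_of_nonneg_left hCa
    (by positivity : 0 ≤ 4 * (N : ℝ) * (2 / κ) ^ (k + 1) / L ^ (k + 1))
  have h5 := mul_le_mul_of_nonneg_right (card_pow_le H k) (by positivity : 0 ≤ (N : ℝ) / L ^ (k + 1))
  refine (add_le_add h4 h5).trans (le_of_eq ?_)
  field_simp

/-- the sum of the squares -/
lemma sum_QB {k C0 K0 b N y D H M1 : ℕ} {κ L Cb Cc E E1 η0 : ℝ} (hκ : 0 < κ) (hκ1 : κ ≤ 1)
    (hL : 1 ≤ L) (hN : 1 ≤ N)
    (hy : 2 * (k + 3) ^ 2 + 2 ≤ y) (hly : κ / 2 * L ≤ Real.log y) (hη0 : 0 ≤ η0)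
    (hCb : ∑ S ∈ (Icc 1 H).powersetCard k, ∑ a ∈ Icc 1 H \ S, CT (pat (insert a S)) ≤
      Cb * (H : ℝ) ^ (k + 1))
    (hCc : ∑ S ∈ (Icc 1 H).powersetCard k, ∑ b ∈ Icc 1 H \ S, ∑ a ∈ Icc 1 H \ (insert b S),
      CT (pat (insert a (insert b S))) ≤ Cc * (H : ℝ) ^ (k + 2))
    (hE : 2 + Ad C0 K0 b y ≤ E) (hE2 : E ≤ N / L ^ (k + 2))
    (hEE : EE y D ≤ E1) (hM1 : Nat.log y (2 * N) ≤ M1)
    (hsm : 4 * E1 ^ 2 * (E * (D : ℝ) ^ 2) + (4 ^ M1 + 3 * E1) ^ 2 *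
      (M1 * ((N : ℝ) / y + 1) + 3 * (N : ℝ) / y + 2 * (D : ℝ) / y) ≤ η0 * (N / L ^ (k + 3))) :
    ∑ S ∈ (Icc 1 H).powersetCard k, QB C0 K0 b y D N H S ≤
      (4 ^ M1 + 3 * E1) ^ 2 * (4 * Cb * (2 / κ) ^ (k + 2) + 1) *
        (N * (H : ℝ) ^ (k + 1) / L ^ (k + 2)) +
      (8 * E1 ^ 2 * (1 / 2) ^ b * Cc * (2 / κ) ^ (k + 3) + η0) *
        (N * (H : ℝ) ^ (k + 2) / L ^ (k + 3)) := by
  have hL0 : 0 < L := by linarith
  have hEE0 := (EE_pos y D).le
  have hE10 : 0 ≤ E1 := hEE0.trans hEE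
  have hAd := Ad_nonneg C0 K0 b y
  have hE0 : 0 ≤ E := by linarith
  have hy0 : (0 : ℝ) < y := by exact_mod_cast (by omega : 0 < y)
  have h4M : (4 : ℝ) ^ Nat.log y (2 * N) ≤ 4 ^ M1 := pow_le_pow_right₀ (by norm_num) hM1
  set B := (4 : ℝ) ^ M1 + 3 * E1 with hB
  have hB0 : 0 ≤ B := by positivity
  have hB1 : (4 : ℝ) ^ Nat.log y (2 * N) + EE y D ≤ B := by linarith
  have hB2 : (4 : ℝ) ^ Nat.log y (2 * N) + 3 * EE y D ≤ B := by linarith
  -- the diagonal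
  have hd : ∀ S ∈ (Icc 1 H).powersetCard k, ∀ a ∈ Icc 1 H \ S, dgB C0 K0 b y D N S a ≤
      B ^ 2 * (4 * N * (2 / κ) ^ (k + 2) / L ^ (k + 2) * CT (pat (insert a S)) +
        N / L ^ (k + 2)) := by
    intro S hS a ha
    rw [mem_powersetCard] at hS
    rw [Finset.mem_sdiff, mem_Icc] at ha
    have h0S : 0 ∉ insert a S := fun h => by
      rw [mem_insert] at h
      rcases h with h | h
      · omega
      · have := (mem_Icc.1 (hS.1 h)).1
        omega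
    have hpc : (pat (insert a S)).card = k + 2 := by
      rw [card_pat h0S, card_insert_of_notMem ha.2, hS.2]
    have hV := VT_le' hκ hL0 (m := k + 3) (pat (insert a S)) (by omega) hy hly
    rw [hpc] at hV
    unfold dgB
    have h1 : (4 ^ Nat.log y (2 * N) + EE y D) ^ 2 ≤ B ^ 2 := pow_le_pow_left₀ (by positivity) hB1 2
    have h2 : 2 * ((N : ℝ) * VT y (pat (insert a S))) ≤
        2 * (N * (2 * (2 / κ) ^ (k + 2) * CT (pat (insert a S)) / L ^ (k + 2))) := by gcongr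
    have h3 : 2 * ((N : ℝ) * (2 * (2 / κ) ^ (k + 2) * CT (pat (insert a S)) / L ^ (k + 2))) =
        4 * N * (2 / κ) ^ (k + 2) / L ^ (k + 2) * CT (pat (insert a S)) := by ring
    have h4 : 0 ≤ VT y (pat (insert a S)) := VT_nonneg _ _
    refine mul_le_mul h1 (by linarith) (by positivity) (by positivity)
  have hsd : ∑ S ∈ (Icc 1 H).powersetCard k, ∑ a ∈ Icc 1 H \ S, dgB C0 K0 b y D N S a ≤
      B ^ 2 * (4 * Cb * (2 / κ) ^ (k + 2) + 1) * (N * (H : ℝ) ^ (k + 1) / L ^ (k + 2)) := by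
    refine (sum_le_sum fun S hS => sum_le_sum fun a ha => hd S hS a ha).trans ?_
    simp only [← mul_sum, sum_add_distrib]
    have h5 : ∑ S ∈ (Icc 1 H).powersetCard k, ∑ _a ∈ Icc 1 H \ S, (N : ℝ) / L ^ (k + 2) ≤
        (H : ℝ) ^ k * (H * (N / L ^ (k + 2))) := by
      calc _ ≤ ∑ _S ∈ (Icc 1 H).powersetCard k, (H : ℝ) * (N / L ^ (k + 2)) := by
            refine sum_le_sum fun S _ => ?_
            rw [sum_const, nsmul_eq_mul]
            exact mul_le_mul_of_nonneg_right (card_sdiff_le H S) (by positivity)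
        _ ≤ _ := by
            rw [sum_const, nsmul_eq_mul]
            exact mul_le_mul_of_nonneg_right (card_pow_le H k) (by positivity)
    have h6 := mul_le_mul_of_nonneg_left hCb
      (by positivity : 0 ≤ 4 * (N : ℝ) * (2 / κ) ^ (k + 2) / L ^ (k + 2))
    have h7 := mul_le_mul_of_nonneg_left (add_le_add h6 h5) (by positivity : 0 ≤ B ^ 2)
    refine h7.trans (le_of_eq ?_)
    rw [pow_succ (H : ℝ) k]
    field_simp
  -- off the diagonal
  have ho : ∀ S ∈ (Icc 1 H).powersetCard k, ∀ a ∈ Icc 1 H \ S, ∀ a' ∈ Icc 1 H \ (insert a S),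
      ogB C0 K0 b y D N S a a' ≤
      8 * E1 ^ 2 * (1 / 2) ^ b * (2 / κ) ^ (k + 3) * N / L ^ (k + 3) *
        CT (pat (insert a' (insert a S))) + η0 * (N / L ^ (k + 3)) := by
    intro S hS a ha a' ha'
    rw [mem_powersetCard] at hS
    rw [Finset.mem_sdiff, mem_Icc] at ha ha'
    have h0S : 0 ∉ insert a' (insert a S) := fun h => by
      rw [mem_insert, mem_insert] at h
      rcases h with h | h | h
      · omega
      · omega
      · have := (mem_Icc.1 (hS.1 h)).1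
        omega
    have hpc : (pat (insert a' (insert a S))).card = k + 3 := by
      rw [card_pat h0S, card_insert_of_notMem ha'.2, card_insert_of_notMem ha.2, hS.2]
    have hV := VT_le' hκ hL0 (m := k + 3) (pat (insert a' (insert a S))) (by omega) hy hly
    rw [hpc] at hV
    set T2 := pat (insert a' (insert a S)) with hT2
    have hV0 : 0 ≤ VT y T2 := VT_nonneg _ _
    unfold ogB KT
    rw [← hT2]
    have h1 : 4 * EE y D ^ 2 ≤ 4 * E1 ^ 2 := by gcongr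
    have h2 : (1 / 2 : ℝ) ^ b * (N * VT y T2) ≤
        (1 / 2) ^ b * (N * (2 * (2 / κ) ^ (k + 3) * CT T2 / L ^ (k + 3))) := by gcongr
    have h3 : (2 + Ad C0 K0 b y) * (D : ℝ) ^ 2 ≤ E * (D : ℝ) ^ 2 := by gcongr
    have h4 : 4 * EE y D ^ 2 * ((1 / 2) ^ b * (N * VT y T2) + (2 + Ad C0 K0 b y) * (D : ℝ) ^ 2) ≤
        4 * E1 ^ 2 * ((1 / 2) ^ b * (N * (2 * (2 / κ) ^ (k + 3) * CT T2 / L ^ (k + 3))) +
          E * (D : ℝ) ^ 2) := mul_le_mul h1 (add_le_add h2 h3) (by positivity) (by positivity)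
    have h5 : (4 ^ Nat.log y (2 * N) + 3 * EE y D) ^ 2 *
        (Nat.log y N * ((N : ℝ) / y + 1) + 3 * (N : ℝ) / y + 2 * (D : ℝ) / y) ≤
        B ^ 2 * (M1 * ((N : ℝ) / y + 1) + 3 * (N : ℝ) / y + 2 * (D : ℝ) / y) := by
      have hlog : (Nat.log y N : ℝ) ≤ M1 := by
        have : Nat.log y N ≤ Nat.log y (2 * N) := Nat.log_mono_right (by omega)
        exact_mod_cast this.trans hM1
      gcongr
    have h6 : 4 * E1 ^ 2 * ((1 / 2 : ℝ) ^ b * (N * (2 * (2 / κ) ^ (k + 3) * CT T2 / L ^ (k + 3))) +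
          E * (D : ℝ) ^ 2) = 8 * E1 ^ 2 * (1 / 2) ^ b * (2 / κ) ^ (k + 3) * N / L ^ (k + 3) *
        CT T2 + 4 * E1 ^ 2 * (E * (D : ℝ) ^ 2) := by ring
    linarith
  have hso : ∑ S ∈ (Icc 1 H).powersetCard k, ∑ a ∈ Icc 1 H \ S, ∑ a' ∈ Icc 1 H \ (insert a S),
      ogB C0 K0 b y D N S a a' ≤
      (8 * E1 ^ 2 * (1 / 2) ^ b * Cc * (2 / κ) ^ (k + 3) + η0) *
        (N * (H : ℝ) ^ (k + 2) / L ^ (k + 3)) := by
    refine (sum_le_sum fun S hS => sum_le_sum fun a ha => sum_le_sum fun a' ha' =>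
      ho S hS a ha a' ha').trans ?_
    simp only [← mul_sum, sum_add_distrib]
    have h5 : ∑ S ∈ (Icc 1 H).powersetCard k, ∑ a ∈ Icc 1 H \ S, ∑ _a' ∈ Icc 1 H \ (insert a S),
        ((N : ℝ) / L ^ (k + 3)) ≤ (H : ℝ) ^ k * (H * (H * (N / L ^ (k + 3)))) := by
      calc _ ≤ ∑ _S ∈ (Icc 1 H).powersetCard k, (H : ℝ) * (H * (N / L ^ (k + 3))) := by
            refine sum_le_sum fun S _ => ?_
            calc _ ≤ ∑ _a ∈ Icc 1 H \ S, (H : ℝ) * (N / L ^ (k + 3)) := by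
                  refine sum_le_sum fun a _ => ?_
                  rw [sum_const, nsmul_eq_mul]
                  exact mul_le_mul_of_nonneg_right (card_sdiff_le H _) (by positivity)
              _ ≤ _ := by
                  rw [sum_const, nsmul_eq_mul]
                  exact mul_le_mul_of_nonneg_right (card_sdiff_le H S) (by positivity)
        _ ≤ _ := by
            rw [sum_const, nsmul_eq_mul]
            exact mul_le_mul_of_nonneg_right (card_pow_le H k) (by positivity)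
    have h6 := mul_le_mul_of_nonneg_left hCc
      (by positivity : 0 ≤ 8 * E1 ^ 2 * (1 / 2) ^ b * (2 / κ) ^ (k + 3) * N / L ^ (k + 3))
    refine (add_le_add h6 (mul_le_mul_of_nonneg_left h5 hη0)).trans (le_of_eq ?_)
    rw [pow_succ (H : ℝ) (k + 1), pow_succ (H : ℝ) k]
    field_simp
  unfold QB
  rw [sum_add_distrib]
  exact add_le_add hsd hso

end Pool.Agent.J4.H38.SR
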