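import Mathlib
import Pool.Agent.J4.H38.SR.Few

/-! All but few of the sets of shifts in `[1, H]`, `H ≥ Λ log N`, are good. -/

set_option autoImplicit false

namespace Pool.Agent.J4.H38.SR

open Finset Filter
open Pool.Agent.Y822
open Pool.Agent.H387R2.Uni (nuT Adm locT CT CT_nonneg)
open Pool.Agent.H373R2.T7 (pz Vz mem_pz)

lemma few_calc {k : ℕ} {NN H L A1 W P Q δ ε' : ℝ} (hN : 0 < NN) (hH : 0 ≤ H) (hL : 0 < L)
    (hδ : 0 < δ) (hε : 0 < ε') (hA1 : 0 ≤ A1) (_hW : 0 ≤ W)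
    (hP : P ≤ A1 * (NN * H ^ k / L ^ (k + 1))) (hQ : Q ≤ W * (NN * H ^ (k + 2) / L ^ (k + 3)))
    (hAW : A1 * W ≤ (ε' * δ / 2 ^ (k + 1)) ^ 2) :
    2 ^ (k + 1) / (δ * (NN / L ^ (k + 2))) * (Real.sqrt P * Real.sqrt Q) ≤ ε' * H ^ (k + 1) := by
  have h1 : Real.sqrt P * Real.sqrt Q ≤ (ε' * δ / 2 ^ (k + 1)) * (NN * H ^ (k + 1) / L ^ (k + 2)) := by
    calc Real.sqrt P * Real.sqrt Q
        ≤ Real.sqrt (A1 * (NN * H ^ k / L ^ (k + 1))) *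
          Real.sqrt (W * (NN * H ^ (k + 2) / L ^ (k + 3))) :=
          mul_le_mul (Real.sqrt_le_sqrt hP) (Real.sqrt_le_sqrt hQ) (Real.sqrt_nonneg _)
            (Real.sqrt_nonneg _)
      _ = Real.sqrt ((A1 * (NN * H ^ k / L ^ (k + 1))) *
          (W * (NN * H ^ (k + 2) / L ^ (k + 3)))) := by
          exact (Real.sqrt_mul (by positivity) _).symm
      _ ≤ _ := by
          refine Real.sqrt_le_iff.2 ⟨by positivity, ?_⟩
          have e : (A1 * (NN * H ^ k / L ^ (k + 1))) * (W * (NN * H ^ (k + 2) / L ^ (k + 3))) =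
              (A1 * W) * (NN * H ^ (k + 1) / L ^ (k + 2)) ^ 2 := by
            field_simp
            ring
          rw [e, mul_pow]
          exact mul_le_mul_of_nonneg_right hAW (by positivity)
  calc 2 ^ (k + 1) / (δ * (NN / L ^ (k + 2))) * (Real.sqrt P * Real.sqrt Q)
      ≤ 2 ^ (k + 1) / (δ * (NN / L ^ (k + 2))) *
        ((ε' * δ / 2 ^ (k + 1)) * (NN * H ^ (k + 1) / L ^ (k + 2))) :=
        mul_le_mul_of_nonneg_left h1 (by positivity)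
    _ = ε' * H ^ (k + 1) := by field_simp

lemma alg_const (k b : ℕ) {Ca Cc cE κ : ℝ} (hκ : κ ≠ 0) :
    ((4 * Ca + 1) * (2 / κ) ^ (k + 1)) *
      (8 * ((cE / κ) ^ 3) ^ 2 * (1 / 2) ^ b * Cc * (2 / κ) ^ (k + 3)) =
    (8 * (4 * Ca + 1) * Cc * cE ^ 6 * 2 ^ (2 * k + 4)) * (1 / κ) ^ (2 * k + 10) * (1 / 2) ^ b := by
  rw [div_pow 2 κ, div_pow 2 κ, div_pow cE κ, div_pow 1 κ,
    show 2 * k + 10 = (k + 1) + (k + 3) + 6 by ring, show 2 * k + 4 = (k + 1) + (k + 3) by ring,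
    pow_add (2 : ℝ), pow_add (κ : ℝ), pow_add (κ : ℝ), one_pow]
  field_simp
  ring

/-- **few sets of shifts are not good** -/
theorem few_short (k : ℕ) {xs δ ε' κm : ℝ} (hxs : 0 < xs) (hxs1 : xs ≤ 1 / 2) (hδ : 0 < δ)
    (hε : 0 < ε') (hκm : 0 < κm) :
    ∃ κ Λ : ℝ, 0 < κ ∧ κ ≤ κm ∧ κ ≤ 1 / 2 ∧ 0 < Λ ∧ ∀ᶠ N : ℕ in atTop,
      ∀ D : ℕ, (D : ℝ) ≤ Real.exp ((1 / 2 - xs) * Real.log N) →
      ∀ c : ℕ → ℝ, Co (yK κ N) c →
      ∀ g : ℕ → ℝ, (∀ n, 0 ≤ g n ∧ g n ≤ ro (yK κ N) n) →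
      ∀ H : ℕ, Λ * Real.log N ≤ H → H ≤ N →
      ∀ Bad : Finset (Finset ℕ),
        (∀ D' ∈ Bad, D' ∈ (Icc 1 H).powersetCard (k + 1) ∧
          ¬ Good eP g (ro (yK κ N)) (fun f t => ∑ n ∈ Icc 1 N, f n * GF (yK κ N) D c (n + t))
            (δ * (N / Real.log N ^ (k + 2))) D') →
        (Bad.card : ℝ) ≤ ε' * (H : ℝ) ^ (k + 1) := by
  classical
  obtain ⟨Ca, hCa, hsCa⟩ := sum_CT k
  obtain ⟨Cb, hCb, hsCb⟩ := sum_CT1 k
  obtain ⟨Cc, hCc, hsCc⟩ := sum_CT2 k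
  obtain ⟨cE, hcE, hEE⟩ := EE_const
  obtain ⟨C0, K0, hC0, hK0, hcnt⟩ := cntT (k + 3)
  set τ : ℝ := (ε' * δ / 2 ^ (k + 1)) ^ 2 with hτ
  have hτ0 : 0 < τ := by positivity
  set Cst : ℝ := 8 * (4 * Ca + 1) * Cc * cE ^ 6 * 2 ^ (2 * k + 4) with hCst
  have hCst0 : 0 < Cst := by positivity
  obtain ⟨b, hbB, hb1, hb2⟩ := exists_b C0 hC0 C0 (2 * k + 10) hCst0 hxs (by positivity : 0 < τ / 3)
    (lt_min hκm (by norm_num : (0 : ℝ) < 1 / 2))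
  obtain ⟨κ, hκd⟩ : ∃ κ : ℝ, κ = xs / (4 * C0 * b + 1) := ⟨_, rfl⟩
  rw [← hκd] at hb2
  have hκ : 0 < κ := by rw [hκd]; positivity
  have hκm' : κ ≤ κm := hb2.trans (min_le_left _ _)
  have hκh : κ ≤ 1 / 2 := hb2.trans (min_le_right _ _)
  have hκ1 : κ ≤ 1 := by linarith
  have hκinv : (4 * (C0 : ℝ) * b + 1) / xs = 1 / κ := by rw [hκd]; field_simp
  have hκσ : κ * (4 * C0 * b + 1) ≤ xs := by
    rw [hκd]
    field_simp
    exact le_rfl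
  rw [hκinv] at hb1
  set M1 : ℕ := ⌈2 / κ⌉₊ + 1 with hM1
  set E1 : ℝ := (cE / κ) ^ 3 with hE1
  have hE10 : 0 < E1 := by positivity
  set A1 : ℝ := 4 * Ca * (2 / κ) ^ (k + 1) + 1 with hA1
  have hA10 : 0 < A1 := by positivity
  set A2 : ℝ := (4 ^ M1 + 3 * E1) ^ 2 * (4 * Cb * (2 / κ) ^ (k + 2) + 1) with hA2
  have hA20 : 0 < A2 := by positivity
  set η0 : ℝ := τ / (3 * A1) with hη0
  have hη00 : 0 < η0 := by positivity
  set η1 : ℝ := 8 * E1 ^ 2 * (1 / 2) ^ b * Cc * (2 / κ) ^ (k + 3) with hη1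
  have hη10 : 0 < η1 := by positivity
  set Λ : ℝ := 3 * A1 * A2 / τ with hΛ
  have hΛ0 : 0 < Λ := by positivity
  have hAη : A1 * η1 ≤ τ / 3 := by
    have h2κ : 1 ≤ (2 / κ) ^ (k + 1) := by
      refine one_le_pow₀ ?_
      rw [le_div_iff₀ hκ]
      linarith
    have h1 : A1 ≤ (4 * Ca + 1) * (2 / κ) ^ (k + 1) := by
      rw [hA1]
      linarith
    calc A1 * η1 ≤ ((4 * Ca + 1) * (2 / κ) ^ (k + 1)) * η1 := mul_le_mul_of_nonneg_right h1 hη10.le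
      _ = Cst * (1 / κ) ^ (2 * k + 10) * (1 / 2) ^ b := alg_const k b hκ.ne'
      _ ≤ τ / 3 := hb1
  have hAtot : A1 * (A2 / Λ + η1 + η0) ≤ τ := by
    have e1 : A1 * (A2 / Λ) = τ / 3 := by rw [hΛ]; field_simp
    have e2 : A1 * η0 = τ / 3 := by rw [hη0]; field_simp
    calc A1 * (A2 / Λ + η1 + η0) = A1 * (A2 / Λ) + A1 * η1 + A1 * η0 := by ring
      _ ≤ τ / 3 + τ / 3 + τ / 3 := by rw [e1, e2]; linarith
      _ = τ := by ring
  refine ⟨κ, Λ, hκ, hκm', hκh, hΛ0, ?_⟩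
  have hxs' : 0 < 1 - xs := by linarith
  have hκ' : 0 < 1 - κ := by linarith
  filter_upwards [yK_facts κ hκ hκ1 (2 * (k + 3) ^ 2 + 2), hEE κ hκ hκ1,
    Ad_le C0 K0 b hC0 hκ hκ1 hκσ, ev_logN (eventually_ge_atTop (1 : ℝ)), eventually_ge_atTop 3,
    ev_small (k + 1) hxs' (2 + 2 * K0) one_pos, ev_small (k + 2) hxs' (2 + 2 * K0) one_pos,
    ev_small (k + 2) hκ' (4 ^ M1 + E1) (by positivity : 0 < δ / 2),
    ev_small (k + 3) hxs (4 * E1 ^ 2 * (2 + 2 * K0)) (by positivity : 0 < η0 / 2),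
    ev_small (k + 3) hκ ((4 ^ M1 + 3 * E1) ^ 2 * (3 * (M1 + 5))) (by positivity : 0 < η0 / 2)]
    with N hy hEEN hAd hL1 hN3 hs1 hs2 hs3 hs4 hs5
  intro D hD c hc g hg H hH1 hHN Bad hBad
  obtain ⟨y1, _, y2, y3, y4, y5⟩ := hy
  set y := yK κ N with hyd
  set L := Real.log N with hLd
  have hL0 : 0 < L := by linarith
  have hN0 : (0 : ℝ) < N := by exact_mod_cast (by omega : 0 < N)
  have hNe : (N : ℝ) = Real.exp L := by rw [hLd, Real.exp_log hN0]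
  have hy2 : 2 ≤ y := by omega
  have hy0 : (0 : ℝ) < y := by exact_mod_cast (by omega : 0 < y)
  have hDN : D ≤ N := by
    have : (D : ℝ) ≤ N := by
      refine hD.trans ?_
      rw [hNe]
      exact Real.exp_le_exp.2 (by nlinarith)
    exact_mod_cast this
  have hEED : EE y D ≤ E1 := hEEN D hDN
  have hEE0 := (EE_pos y D).le
  have hAdn := Ad_nonneg C0 K0 b y
  set E : ℝ := (2 + 2 * K0) * Real.exp (xs * L) with hE
  have hE0 : 0 ≤ E := by positivity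
  have hEa : E ≤ N / L ^ (k + 1) := by
    have : (1 - (1 - xs)) = xs := by ring
    rw [this, one_mul] at hs1
    exact hs1
  have hEb : E ≤ N / L ^ (k + 2) := by
    have : (1 - (1 - xs)) = xs := by ring
    rw [this, one_mul] at hs2
    exact hs2
  -- the trivial bound
  have hx0 : 0 < δ * ((N : ℝ) / L ^ (k + 2)) := by positivity
  have h4M : (4 : ℝ) ^ Nat.log y (2 * N) ≤ 4 ^ M1 := pow_le_pow_right₀ (by norm_num) y5
  have hyM : (y : ℝ) * (4 ^ Nat.log y (2 * N) + EE y D) ≤ δ * (N / L ^ (k + 2)) / 2 := by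
    have : (1 - (1 - κ)) = κ := by ring
    rw [this] at hs3
    calc (y : ℝ) * (4 ^ Nat.log y (2 * N) + EE y D) ≤ Real.exp (κ * L) * (4 ^ M1 + E1) := by
          gcongr
      _ = (4 ^ M1 + E1) * Real.exp (κ * L) := mul_comm _ _
      _ ≤ δ / 2 * (N / L ^ (k + 2)) := hs3
      _ = _ := by ring
  -- the smallness condition
  have hsm : 4 * E1 ^ 2 * (E * (D : ℝ) ^ 2) + (4 ^ M1 + 3 * E1) ^ 2 *
      (M1 * ((N : ℝ) / y + 1) + 3 * (N : ℝ) / y + 2 * (D : ℝ) / y) ≤ η0 * (N / L ^ (k + 3)) := by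
    have h1 : E * (D : ℝ) ^ 2 ≤ (2 + 2 * K0) * Real.exp ((1 - xs) * L) := by
      calc E * (D : ℝ) ^ 2 ≤ E * (Real.exp ((1 / 2 - xs) * L)) ^ 2 := by gcongr
        _ = (2 + 2 * K0) * (Real.exp (xs * L) * (Real.exp ((1 / 2 - xs) * L)) ^ 2) := by
            rw [hE]; ring
        _ = (2 + 2 * K0) * Real.exp ((1 - xs) * L) := by
            rw [← Real.exp_nat_mul, ← Real.exp_add]
            congr 2
            push_cast
            ring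
    have h2 : (N : ℝ) / y ≤ 2 * Real.exp ((1 - κ) * L) := by
      rw [div_le_iff₀ hy0]
      have h3 : Real.exp ((1 - κ) * L) * Real.exp (κ * L) = N := by
        rw [← Real.exp_add, hNe]; ring_nf
      have h4 : 0 < Real.exp ((1 - κ) * L) := Real.exp_pos _
      nlinarith
    have h3 : 1 ≤ Real.exp ((1 - κ) * L) := Real.one_le_exp (by positivity)
    have h4 : (D : ℝ) / y ≤ N / y := by
      have : (D : ℝ) ≤ N := by exact_mod_cast hDN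
      gcongr
    have h5 : M1 * ((N : ℝ) / y + 1) + 3 * (N : ℝ) / y + 2 * (D : ℝ) / y ≤
        (3 * (M1 + 5)) * Real.exp ((1 - κ) * L) := by
      have e1 : 3 * (N : ℝ) / y = 3 * (N / y) := by ring
      have e2 : 2 * (D : ℝ) / y = 2 * (D / y) := by ring
      rw [e1, e2]
      have hM0 : (0 : ℝ) ≤ M1 := Nat.cast_nonneg _
      have h6 : M1 * ((N : ℝ) / y + 1) ≤ M1 * (3 * Real.exp ((1 - κ) * L)) :=
        mul_le_mul_of_nonneg_left (by linarith) hM0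
      nlinarith
    calc 4 * E1 ^ 2 * (E * (D : ℝ) ^ 2) + (4 ^ M1 + 3 * E1) ^ 2 *
      (M1 * ((N : ℝ) / y + 1) + 3 * (N : ℝ) / y + 2 * (D : ℝ) / y)
        ≤ 4 * E1 ^ 2 * ((2 + 2 * K0) * Real.exp ((1 - xs) * L)) + (4 ^ M1 + 3 * E1) ^ 2 *
          ((3 * (M1 + 5)) * Real.exp ((1 - κ) * L)) := by gcongr
      _ = 4 * E1 ^ 2 * (2 + 2 * K0) * Real.exp ((1 - xs) * L) + (4 ^ M1 + 3 * E1) ^ 2 *
          (3 * (M1 + 5)) * Real.exp ((1 - κ) * L) := by ring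
      _ ≤ η0 / 2 * (N / L ^ (k + 3)) + η0 / 2 * (N / L ^ (k + 3)) := add_le_add hs4 hs5
      _ = _ := by ring
  have hP := sum_PB (k := k) (C0 := C0) (K0 := K0) (b := b) (N := N) (y := y) (H := H) (κ := κ)
    (L := L) (Ca := Ca) (E := E) hκ hκ1 hL1 y2 y3 (hsCa H) hAd hEa
  have hQ := sum_QB (k := k) (C0 := C0) (K0 := K0) (b := b) (N := N) (y := y) (D := D) (H := H)
    (M1 := M1) (κ := κ) (L := L) (Cb := Cb) (Cc := Cc) (E := E) (E1 := E1) (η0 := η0)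
    hκ hκ1 hL1 (by omega) y2 y3 hη00.le (hsCb H) (hsCc H) hAd hEb hEED y5 hsm
  rw [← hA1] at hP
  rw [← hA2, ← hη1] at hQ
  have hH0 : (0 : ℝ) ≤ H := Nat.cast_nonneg _
  have hQ' : ∑ S ∈ (Icc 1 H).powersetCard k, QB C0 K0 b y D N H S ≤
      (A2 / Λ + η1 + η0) * (N * (H : ℝ) ^ (k + 2) / L ^ (k + 3)) := by
    refine hQ.trans ?_
    have h1 : (N : ℝ) * (H : ℝ) ^ (k + 1) / L ^ (k + 2) ≤
        1 / Λ * (N * (H : ℝ) ^ (k + 2) / L ^ (k + 3)) := by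
      have e : 1 / Λ * (N * (H : ℝ) ^ (k + 2) / L ^ (k + 3)) =
          (N * (H : ℝ) ^ (k + 1) / L ^ (k + 2)) * (H / (Λ * L)) := by
        rw [pow_succ (H : ℝ) (k + 1), pow_succ L (k + 2)]
        field_simp
      rw [e]
      refine le_mul_of_one_le_right (by positivity) ?_
      rw [one_le_div (by positivity)]
      exact hH1
    have h2 := mul_le_mul_of_nonneg_left h1 hA20.le
    have e2 : (A2 / Λ + η1 + η0) * (N * (H : ℝ) ^ (k + 2) / L ^ (k + 3)) =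
        A2 * (1 / Λ * (N * (H : ℝ) ^ (k + 2) / L ^ (k + 3))) +
        (η1 + η0) * (N * (H : ℝ) ^ (k + 2) / L ^ (k + 3)) := by ring
    rw [e2]
    linarith
  have hcnt' : ∀ T : Finset ℕ, T.card ≤ k + 3 → CntH C0 K0 b y T := by
    intro T hT N' a a' d d' h1 h2 h3 h4 h5
    exact hcnt b hbB y hy2 T hT N' a a' d d' h1 h2 h3 h4 h5
  exact (bad_le hy2 hHN hcnt' hc hg hx0 hyM Bad hBad).trans
    (few_calc hN0 hH0 hL0 hδ hε hA10.le (by positivity) hP hQ' hAtot)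

end Pool.Agent.J4.H38.SR
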