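import Mathlib
import Pool.Agent.J4.H38.SR.Short

/-! A quantitative bound for the number of sets of shifts which are not good. -/

set_option autoImplicit false

namespace Pool.Agent.J4.H38.SR

open Finset Filter
open Pool.Agent.Y822
open Pool.Agent.H387R2.Uni (nuT Adm locT CT CT_nonneg)
open Pool.Agent.H373R2.T7 (pz Vz mem_pz)

/-- `yK_facts` with explicit hypotheses -/
lemma yK_core {κ : ℝ} (hκ : 0 < κ) {M N : ℕ} (hN : 1 ≤ N) (h2 : M + 2 ≤ κ / 2 * Real.log N) :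
    (yK κ N : ℝ) ≤ Real.exp (κ * Real.log N) ∧
    Real.exp (κ / 2 * Real.log N) ≤ yK κ N ∧ M ≤ yK κ N ∧
    κ / 2 * Real.log N ≤ Real.log (yK κ N) ∧
    Real.exp (κ * Real.log N) / 2 ≤ yK κ N ∧
    Nat.log (yK κ N) (2 * N) ≤ ⌈2 / κ⌉₊ + 1 := by
  set L := Real.log N with hL
  have hM0 : (0 : ℝ) ≤ M := Nat.cast_nonneg _
  have hN0 : (0 : ℝ) < N := by exact_mod_cast (by omega : 0 < N)
  have hNe : (N : ℝ) = Real.exp L := by rw [hL, Real.exp_log hN0]
  set v := κ / 2 * L with hv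
  have hv2 : κ * L = v + v := by rw [hv]; ring
  have f1 : (yK κ N : ℝ) ≤ Real.exp (κ * L) := Nat.floor_le (Real.exp_pos _).le
  have g2 : 2 ≤ Real.exp v := by
    have := Real.add_one_le_exp v
    linarith
  have g1 : Real.exp (κ * L) < yK κ N + 1 := Nat.lt_floor_add_one _
  have hev : 0 < Real.exp v := Real.exp_pos _
  have f2 : Real.exp v ≤ yK κ N := by
    rw [hv2, Real.exp_add] at g1
    nlinarith
  have f3 : M ≤ yK κ N := by
    have : (M : ℝ) ≤ yK κ N := by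
      refine le_trans ?_ f2
      have g3 := Real.add_one_le_exp v
      linarith
    exact_mod_cast this
  have hy0 : (0 : ℝ) < yK κ N := lt_of_lt_of_le hev f2
  have f4 : v ≤ Real.log (yK κ N) := by
    rw [Real.le_log_iff_exp_le hy0]
    exact f2
  have f5 : Real.exp (κ * L) / 2 ≤ yK κ N := by
    have : Real.exp (κ * L) = Real.exp v * Real.exp v := by rw [hv2, Real.exp_add]
    nlinarith
  refine ⟨f1, f2, f3, f4, f5, ?_⟩
  refine Nat.lt_succ_iff.1 (Nat.log_lt_of_lt_pow (by omega) ?_)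
  have g4 : (2 * N : ℝ) < (yK κ N : ℝ) ^ (⌈2 / κ⌉₊ + 1).succ := by
    have h5 : Real.exp v ^ (⌈2 / κ⌉₊ + 1).succ ≤ (yK κ N : ℝ) ^ (⌈2 / κ⌉₊ + 1).succ :=
      pow_le_pow_left₀ hev.le f2 _
    refine lt_of_lt_of_le ?_ h5
    rw [← Real.exp_nat_mul]
    have h6 : L + 2 * v ≤ (((⌈2 / κ⌉₊ + 1).succ : ℕ) : ℝ) * v := by
      push_cast
      have h7 : 2 / κ ≤ ⌈2 / κ⌉₊ := Nat.le_ceil _
      have h8 : 2 / κ * v = L := by rw [hv]; field_simp
      have hv0 : 0 ≤ v := by linarith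
      nlinarith [mul_le_mul_of_nonneg_right h7 hv0]
    calc (2 * N : ℝ) < Real.exp (2 * v) * N := by
          have : (2 : ℝ) < Real.exp (2 * v) := by
            have := Real.add_one_le_exp (2 * v)
            linarith
          nlinarith
      _ = Real.exp (L + 2 * v) := by rw [hNe, ← Real.exp_add]; ring_nf
      _ ≤ _ := Real.exp_le_exp.2 h6
  exact_mod_cast g4

/-- the Euler product, with explicit hypotheses -/
theorem EE_core : ∃ c : ℝ, 0 < c ∧ ∀ κ : ℝ, 0 < κ → κ ≤ 1 → ∀ N : ℕ, 3 ≤ N →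
    4 ≤ κ / 2 * Real.log N → ∀ D : ℕ, D ≤ N → EE (yK κ N) D ≤ (c / κ) ^ 3 := by
  obtain ⟨c1, hc1, h1⟩ := Vz_sharp
  refine ⟨2 / c1, by positivity, fun κ hκ hκ1 N hN h4 D hD => ?_⟩
  obtain ⟨y1, _, y2, y3, _, _⟩ := yK_core (M := 2) hκ (by omega : 1 ≤ N) (by push_cast; linarith)
  have hL0 : 0 < Real.log N := by
    by_contra hn
    push Not at hn
    nlinarith
  have hN0 : (0 : ℝ) < N := by positivity
  have hyN : yK κ N ≤ N := by
    have : (yK κ N : ℝ) ≤ N := by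
      refine y1.trans ?_
      calc Real.exp (κ * Real.log N) ≤ Real.exp (Real.log N) :=
            Real.exp_le_exp.2 (by nlinarith)
        _ = N := Real.exp_log hN0
    exact_mod_cast this
  refine (EE_mono _ hD).trans ((EE_ratio _ _ hyN).trans ?_)
  have hVy := Vz_le (yK κ N) y2
  have hVN := h1 N hN
  have hl : 0 < Real.log (yK κ N) := lt_of_lt_of_le (by positivity) y3
  refine pow_le_pow_left₀ (div_nonneg (Vz_pos' _).le (Vz_pos' _).le) ?_ 3
  rw [div_le_iff₀ (Vz_pos' N)]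
  have h2 : 1 / Real.log (yK κ N) ≤ 2 / (κ * Real.log N) := by
    rw [div_le_div_iff₀ hl (by positivity)]
    linarith
  calc Vz (yK κ N) ≤ 2 / (κ * Real.log N) := hVy.trans h2
    _ = 2 / c1 / κ * (c1 / Real.log N) := by field_simp
    _ ≤ _ := mul_le_mul_of_nonneg_left hVN (by positivity)

/-- the additive error of the sieve, with explicit hypotheses -/
lemma Ad_core (C0 K0 b : ℕ) {κ σ : ℝ} (hκ : 0 < κ) {N : ℕ} (hN : 1 ≤ N)
    (h5 : 5 ≤ κ / 2 * Real.log N) (hκσ : κ * (4 * C0 * b + 1) ≤ σ) :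
    2 + Ad C0 K0 b (yK κ N) ≤ (2 + 2 * K0) * Real.exp (σ * Real.log N) := by
  obtain ⟨y1, _, y2, _, _, _⟩ := yK_core (M := 3) hκ hN (by push_cast; linarith)
  have hL0 : 0 < Real.log N := by
    by_contra hn
    push Not at hn
    nlinarith
  set y := yK κ N with hyd
  have hJ := Pool.Agent.H373R2.T7.JJ_small y y2
  have hJr : ((Pool.Agent.W41.JJ y : ℝ) + 2) ≤ 2 * y := by exact_mod_cast hJ
  have hy0 : (0 : ℝ) < y := by exact_mod_cast (by omega : 0 < y)
  have hσ0 : 0 ≤ σ := le_trans (by positivity) hκσ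
  have h1 : Ad C0 K0 b y ≤ 2 * K0 * (y : ℝ) ^ (4 * C0 * b + 1) := by
    unfold Ad
    calc ((Pool.Agent.W41.JJ y : ℝ) + 2) * ((y : ℝ) ^ (2 * (C0 * b)) * (K0 * (y : ℝ) ^ (2 * (C0 * b))))
        ≤ (2 * y) * ((y : ℝ) ^ (2 * (C0 * b)) * (K0 * (y : ℝ) ^ (2 * (C0 * b)))) :=
          mul_le_mul_of_nonneg_right hJr (by positivity)
      _ = 2 * K0 * (y : ℝ) ^ (4 * C0 * b + 1) := by
          rw [show 4 * C0 * b + 1 = 2 * (C0 * b) + 2 * (C0 * b) + 1 by ring, pow_succ, pow_add]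
          ring
  have h2 : (y : ℝ) ^ (4 * C0 * b + 1) ≤ Real.exp (σ * Real.log N) := by
    calc (y : ℝ) ^ (4 * C0 * b + 1) ≤ Real.exp (κ * Real.log N) ^ (4 * C0 * b + 1) :=
          pow_le_pow_left₀ hy0.le y1 _
      _ = Real.exp ((κ * (4 * C0 * b + 1)) * Real.log N) := by
          rw [← Real.exp_nat_mul]
          congr 1
          push_cast
          ring
      _ ≤ _ := Real.exp_le_exp.2 (mul_le_mul_of_nonneg_right hκσ hL0.le)
  have h3 : 1 ≤ Real.exp (σ * Real.log N) := Real.one_le_exp (by positivity)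
  have h4 : 2 * (K0 : ℝ) * (y : ℝ) ^ (4 * C0 * b + 1) ≤ 2 * K0 * Real.exp (σ * Real.log N) :=
    mul_le_mul_of_nonneg_left h2 (by positivity)
  have h5 : (2 : ℝ) ≤ 2 * Real.exp (σ * Real.log N) := by linarith
  calc 2 + Ad C0 K0 b y ≤ 2 * Real.exp (σ * Real.log N) + 2 * K0 * Real.exp (σ * Real.log N) := by
        linarith
    _ = _ := by ring

/-- an exponential against a polynomial -/
lemma pow_half_le (n : ℕ) : ∃ C : ℝ, 0 < C ∧ ∀ b : ℕ, (b : ℝ) ^ n * (1 / 2) ^ b ≤ C * (3 / 4) ^ b := by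
  have h1 : Tendsto (fun b : ℕ => (b : ℝ) ^ n * (2 / 3 : ℝ) ^ b) atTop (nhds 0) :=
    tendsto_pow_const_mul_const_pow_of_abs_lt_one n (by norm_num [abs_of_pos])
  obtain ⟨C, hC⟩ := h1.bddAbove_range
  refine ⟨max C 1, lt_of_lt_of_le one_pos (le_max_right _ _), fun b => ?_⟩
  have h2 : (b : ℝ) ^ n * (2 / 3 : ℝ) ^ b ≤ C := hC (Set.mem_range_self b)
  have e : (b : ℝ) ^ n * (1 / 2) ^ b = ((b : ℝ) ^ n * (2 / 3 : ℝ) ^ b) * (3 / 4) ^ b := by
    rw [mul_assoc, ← mul_pow]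
    norm_num
  rw [e]
  exact mul_le_mul_of_nonneg_right (h2.trans (le_max_left _ _)) (by positivity)

lemma eventually_exp_sqrt (A : ℕ) (C : ℝ) : ∀ᶠ N : ℕ in atTop,
    C * Real.log N ^ A ≤ Real.exp (Real.sqrt (Real.log N)) := by
  have h1 : Tendsto (fun N : ℕ => Real.sqrt (Real.log N)) atTop atTop :=
    Real.tendsto_sqrt_atTop.comp (Real.tendsto_log_atTop.comp tendsto_natCast_atTop_atTop)
  have h2 : ∀ᶠ s : ℝ in atTop, C * s ^ (2 * A) ≤ Real.exp s := by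
    have := ev_pow_exp (2 * A) 1 C one_pos
    filter_upwards [this] with s hs
    simpa using hs
  filter_upwards [h1.eventually h2, eventually_ge_atTop 1] with N hN hN1
  have hL0 : 0 ≤ Real.log N := Real.log_nonneg (by exact_mod_cast hN1)
  rw [pow_mul, Real.sq_sqrt hL0] at hN
  exact hN

end Pool.Agent.J4.H38.SR
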