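import Mathlib
import Pool.Agent.J4.H38.SR.Quant

/-! A quantitative bound for the number of sets of shifts which are not good: the theorem. -/

set_option autoImplicit false

namespace Pool.Agent.J4.H38.SR

open Finset Filter
open Pool.Agent.Y822
open Pool.Agent.H387R2.Uni (nuT Adm locT CT CT_nonneg)
open Pool.Agent.H373R2.T7 (pz Vz mem_pz)

/-- linear functions of the exponent are exponentially bounded -/
lemma lin_le_pow (PP b : ℕ) (hb : 1 ≤ b) (hP : 1 ≤ PP) : (PP : ℝ) * b ≤ (2 * (PP : ℝ)) ^ b := by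
  rw [mul_pow]
  have h1 : (b : ℝ) ≤ 2 ^ b := by exact_mod_cast (Nat.lt_two_pow_self (n := b)).le
  have h2 : (1 : ℝ) ≤ PP := by exact_mod_cast hP
  have h3 : (PP : ℝ) ≤ (PP : ℝ) ^ b := le_self_pow₀ h2 (by omega)
  calc (PP : ℝ) * b ≤ (PP : ℝ) ^ b * 2 ^ b := mul_le_mul h3 h1 (Nat.cast_nonneg _) (by positivity)
    _ = _ := by ring

/-- the constants -/
lemma const_core {PP b k C0 : ℕ} {xs κ Ca Cb cE : ℝ} (hb : 1 ≤ b) (hC0 : 1 ≤ C0) (hxs : 0 < xs)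
    (hxs1 : xs ≤ 1 / 2)
    (hCa : 0 < Ca) (hCb : 0 < Cb) (hcE : 0 < cE) (hκ : κ = xs / (4 * C0 * b + 1))
    (hPP : 10 * C0 / xs + 3 ≤ PP) :
    0 < κ ∧ κ ≤ 1 / 2 ∧ 2 / κ ≤ PP * b ∧ ⌈2 / κ⌉₊ + 1 ≤ PP * b ∧
    (1 / κ) ^ 2 ≤ ((2 * (PP : ℝ)) ^ 2) ^ b ∧
    4 ^ (⌈2 / κ⌉₊ + 1) + 3 * (cE / κ) ^ 3 ≤ ((4 : ℝ) ^ PP + 3 * ((cE + 1) * (2 * PP)) ^ 3) ^ b ∧
    4 * Ca * (2 / κ) ^ (k + 1) + 1 ≤ ((4 * Ca + 1) * (2 * (PP : ℝ)) ^ (k + 1)) ^ b ∧
    4 * Cb * (2 / κ) ^ (k + 2) + 1 ≤ ((4 * Cb + 1) * (2 * (PP : ℝ)) ^ (k + 2)) ^ b := by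
  have hC0r : (1 : ℝ) ≤ C0 := by exact_mod_cast hC0
  have hbr : (1 : ℝ) ≤ b := by exact_mod_cast hb
  have hκ0 : 0 < κ := by rw [hκ]; positivity
  have hκ1 : κ ≤ 1 / 2 := by
    rw [hκ, div_le_iff₀ (by positivity)]
    nlinarith
  have h10 : 0 < 10 * (C0 : ℝ) / xs := by positivity
  have hPPr : (1 : ℝ) ≤ PP := by linarith
  have hPP1 : 1 ≤ PP := by exact_mod_cast hPPr
  have h1 : 2 / κ ≤ (PP - 3 : ℝ) * b := by
    have e : 2 / κ = 2 * (4 * C0 * b + 1) / xs := by rw [hκ]; field_simp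
    rw [e]
    calc 2 * (4 * (C0 : ℝ) * b + 1) / xs ≤ 10 * C0 / xs * b := by
          rw [div_mul_eq_mul_div]
          apply div_le_div_of_nonneg_right _ hxs.le
          nlinarith
      _ ≤ _ := mul_le_mul_of_nonneg_right (by linarith) (by linarith)
  have h2 : 2 / κ ≤ PP * b := h1.trans (mul_le_mul_of_nonneg_right (by linarith) (by linarith))
  have h3 : ⌈2 / κ⌉₊ + 1 ≤ PP * b := by
    have h4 : ((⌈2 / κ⌉₊ : ℕ) : ℝ) < 2 / κ + 1 := Nat.ceil_lt_add_one (by positivity)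
    have h5 : (((⌈2 / κ⌉₊ + 1 : ℕ)) : ℝ) ≤ ((PP * b : ℕ) : ℝ) := by
      push_cast
      nlinarith
    exact_mod_cast h5
  have hR := lin_le_pow PP b hb hPP1
  have h6 : 2 / κ ≤ (2 * (PP : ℝ)) ^ b := h2.trans hR
  have h7 : 1 / κ ≤ (2 * (PP : ℝ)) ^ b := by
    refine le_trans ?_ h6
    rw [div_le_div_iff_of_pos_right hκ0]
    norm_num
  have h20 : 0 ≤ 2 / κ := by positivity
  have h10 : 0 ≤ 1 / κ := by positivity
  have hb0 : b ≠ 0 := by omega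
  refine ⟨hκ0, hκ1, h2, h3, ?_, ?_, ?_, ?_⟩
  · calc (1 / κ) ^ 2 ≤ ((2 * (PP : ℝ)) ^ b) ^ 2 := pow_le_pow_left₀ h10 h7 2
      _ = _ := pow_right_comm _ _ _
  · have e1 : (4 : ℝ) ^ (⌈2 / κ⌉₊ + 1) ≤ ((4 : ℝ) ^ PP) ^ b := by
      rw [← pow_mul]
      exact pow_le_pow_right₀ (by norm_num) h3
    have e2 : 3 * (cE / κ) ^ 3 ≤ (3 * ((cE + 1) * (2 * PP)) ^ 3) ^ b := by
      have e3 : cE / κ ≤ ((cE + 1) * (2 * PP)) ^ b := by
        rw [mul_pow]
        calc cE / κ = cE * (1 / κ) := by ring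
          _ ≤ (cE + 1) ^ b * (2 * (PP : ℝ)) ^ b := by
              refine mul_le_mul ?_ h7 h10 (by positivity)
              have : cE + 1 ≤ (cE + 1) ^ b := le_self_pow₀ (by linarith) hb0
              linarith
      have e4 : (3 : ℝ) ≤ 3 ^ b := le_self_pow₀ (by norm_num) hb0
      calc 3 * (cE / κ) ^ 3 ≤ 3 ^ b * (((cE + 1) * (2 * PP)) ^ b) ^ 3 := by
            refine mul_le_mul e4 (pow_le_pow_left₀ (by positivity) e3 3) (by positivity) (by positivity)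
        _ = _ := by rw [pow_right_comm _ b 3, ← mul_pow]
    calc _ ≤ ((4 : ℝ) ^ PP) ^ b + (3 * ((cE + 1) * (2 * PP)) ^ 3) ^ b := add_le_add e1 e2
      _ ≤ _ := pow_add_pow_le (by positivity) (by positivity) hb0
  · have e1 : 4 * Ca * (2 / κ) ^ (k + 1) + 1 ≤ (4 * Ca + 1) * (2 * (PP : ℝ)) ^ (b * (k + 1)) := by
      have e2 : (2 / κ) ^ (k + 1) ≤ (2 * (PP : ℝ)) ^ (b * (k + 1)) := by
        rw [pow_mul]
        exact pow_le_pow_left₀ h20 h6 _
      have e3 : 1 ≤ (2 * (PP : ℝ)) ^ (b * (k + 1)) := one_le_pow₀ (by linarith)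
      have e4 := mul_le_mul_of_nonneg_left e2 (by positivity : 0 ≤ 4 * Ca)
      linarith
    refine e1.trans ?_
    rw [mul_pow (4 * Ca + 1), ← pow_mul (2 * (PP : ℝ)), mul_comm (k + 1) b]
    exact mul_le_mul_of_nonneg_right (le_self_pow₀ (by linarith) hb0) (by positivity)
  · have e1 : 4 * Cb * (2 / κ) ^ (k + 2) + 1 ≤ (4 * Cb + 1) * (2 * (PP : ℝ)) ^ (b * (k + 2)) := by
      have e2 : (2 / κ) ^ (k + 2) ≤ (2 * (PP : ℝ)) ^ (b * (k + 2)) := by
        rw [pow_mul]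
        exact pow_le_pow_left₀ h20 h6 _
      have e3 : 1 ≤ (2 * (PP : ℝ)) ^ (b * (k + 2)) := one_le_pow₀ (by linarith)
      have e4 := mul_le_mul_of_nonneg_left e2 (by positivity : 0 ≤ 4 * Cb)
      linarith
    refine e1.trans ?_
    rw [mul_pow (4 * Cb + 1), ← pow_mul (2 * (PP : ℝ)), mul_comm (k + 2) b]
    exact mul_le_mul_of_nonneg_right (le_self_pow₀ (by linarith) hb0) (by positivity)

/-- the smallness conditions at one `N` -/
lemma small_core {k K0 M1 D : ℕ} {κ xs L n y E1 δ η0 : ℝ} (_hκ : 0 < κ) (hκh : κ ≤ 1 / 2)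
    (hxs : 0 < xs) (hL1 : 1 ≤ L) (hn : n = Real.exp L) (hδ : 0 < δ)
    (hE10 : 0 ≤ E1) (hy0 : 0 < y) (y1 : y ≤ Real.exp (κ * L)) (y4 : Real.exp (κ * L) / 2 ≤ y)
    (hML : (M1 : ℝ) ≤ L) (h4L : (4 : ℝ) ^ M1 + 3 * E1 ≤ L) (hη0 : 1 / L ^ 2 ≤ η0)
    (hκL : Real.sqrt L ≤ κ * L)
    (hD : (D : ℝ) ≤ Real.exp ((1 / 2 - xs) * L))
    (hs3 : 1 * Real.exp ((1 - 1 / 2) * L) ≤ δ / 2 * (n / L ^ (k + 3)))
    (hs4 : 2 * (2 + 2 * K0) * Real.exp ((1 - xs) * L) ≤ 1 / 2 * (n / L ^ (k + 7)))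
    (hs5 : 72 * L ^ (k + 8) ≤ Real.exp (Real.sqrt L)) :
    y * (4 ^ M1 + E1) ≤ δ * (n / L ^ (k + 2)) / 2 ∧
    4 * E1 ^ 2 * (((2 + 2 * K0) * Real.exp (xs * L)) * (D : ℝ) ^ 2) + (4 ^ M1 + 3 * E1) ^ 2 *
      (M1 * (n / y + 1) + 3 * n / y + 2 * (D : ℝ) / y) ≤ η0 * (n / L ^ (k + 3)) := by
  have hL0 : 0 < L := by linarith
  have hn0 : 0 < n := by rw [hn]; exact Real.exp_pos _
  have hDn : (D : ℝ) ≤ n := by
    refine hD.trans ?_
    rw [hn]
    exact Real.exp_le_exp.2 (by nlinarith)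
  constructor
  · have h1 : (4 : ℝ) ^ M1 + E1 ≤ L := by linarith
    calc y * (4 ^ M1 + E1) ≤ Real.exp (κ * L) * L := by gcongr
      _ ≤ Real.exp ((1 - 1 / 2) * L) * L := by
          refine mul_le_mul_of_nonneg_right (Real.exp_le_exp.2 ?_) hL0.le
          nlinarith
      _ ≤ (δ / 2 * (n / L ^ (k + 3))) * L := mul_le_mul_of_nonneg_right (by linarith) hL0.le
      _ = δ * (n / L ^ (k + 2)) / 2 := by
          rw [pow_succ L (k + 2)]
          field_simp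
  · have hE1L : 3 * E1 ≤ L := by
      have : (0 : ℝ) ≤ 4 ^ M1 := by positivity
      linarith
    have h1 : 4 * E1 ^ 2 * (((2 + 2 * K0) * Real.exp (xs * L)) * (D : ℝ) ^ 2) ≤
        1 / 2 * (1 / L ^ 2 * (n / L ^ (k + 3))) := by
      have e1 : 4 * E1 ^ 2 ≤ 2 * L ^ 2 := by nlinarith
      have e2 : ((2 + 2 * (K0 : ℝ)) * Real.exp (xs * L)) * (D : ℝ) ^ 2 ≤
          (2 + 2 * K0) * Real.exp ((1 - xs) * L) := by
        calc ((2 + 2 * (K0 : ℝ)) * Real.exp (xs * L)) * (D : ℝ) ^ 2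
            ≤ ((2 + 2 * K0) * Real.exp (xs * L)) * (Real.exp ((1 / 2 - xs) * L)) ^ 2 := by gcongr
          _ = (2 + 2 * K0) * (Real.exp (xs * L) * (Real.exp ((1 / 2 - xs) * L)) ^ 2) := by ring
          _ = (2 + 2 * K0) * Real.exp ((1 - xs) * L) := by
              rw [← Real.exp_nat_mul, ← Real.exp_add]
              congr 2
              push_cast
              ring
      calc 4 * E1 ^ 2 * (((2 + 2 * K0) * Real.exp (xs * L)) * (D : ℝ) ^ 2)
          ≤ 2 * L ^ 2 * ((2 + 2 * K0) * Real.exp ((1 - xs) * L)) :=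
            mul_le_mul e1 e2 (by positivity) (by positivity)
        _ = L ^ 2 * (2 * (2 + 2 * K0) * Real.exp ((1 - xs) * L)) := by ring
        _ ≤ L ^ 2 * (1 / 2 * (n / L ^ (k + 7))) := mul_le_mul_of_nonneg_left hs4 (by positivity)
        _ = 1 / 2 * (1 / L ^ 2 * (n / L ^ (k + 3))) := by
            rw [show k + 7 = (k + 3) + 4 by ring, pow_add L (k + 3) 4]
            field_simp
    have h2 : n / y ≤ 2 * (n / Real.exp (κ * L)) := by
      rw [← mul_div_assoc, div_le_div_iff₀ hy0 (Real.exp_pos _)]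
      nlinarith
    have h3 : 1 ≤ n / Real.exp (κ * L) := by
      rw [le_div_iff₀ (Real.exp_pos _), one_mul, hn]
      exact Real.exp_le_exp.2 (by nlinarith)
    have h4 : (D : ℝ) / y ≤ n / y := by gcongr
    set X := n / Real.exp (κ * L) with hX
    have h5 : M1 * (n / y + 1) + 3 * n / y + 2 * (D : ℝ) / y ≤ 18 * L * X := by
      have e1 : 3 * n / y = 3 * (n / y) := by ring
      have e2 : 2 * (D : ℝ) / y = 2 * (D / y) := by ring
      rw [e1, e2]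
      have hM0 : (0 : ℝ) ≤ M1 := Nat.cast_nonneg _
      have h6 : M1 * (n / y + 1) ≤ L * (3 * X) := mul_le_mul hML (by linarith) (by positivity) hL0.le
      have h7 : X ≤ L * X := le_mul_of_one_le_left (by positivity) hL1
      linarith
    have h6 : X ≤ n / Real.exp (Real.sqrt L) := by
      rw [hX]
      exact div_le_div_of_nonneg_left hn0.le (Real.exp_pos _) (Real.exp_le_exp.2 hκL)
    have h7 : (4 ^ M1 + 3 * E1) ^ 2 * (M1 * (n / y + 1) + 3 * n / y + 2 * (D : ℝ) / y) ≤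
        1 / 2 * (1 / L ^ 2 * (n / L ^ (k + 3))) := by
      calc (4 ^ M1 + 3 * E1) ^ 2 * (M1 * (n / y + 1) + 3 * n / y + 2 * (D : ℝ) / y)
          ≤ L ^ 2 * (18 * L * (n / Real.exp (Real.sqrt L))) := by gcongr; exact h5.trans (by gcongr)
        _ ≤ 1 / 2 * (1 / L ^ 2 * (n / L ^ (k + 3))) := by
            have e1 : L ^ 2 * (18 * L * (n / Real.exp (Real.sqrt L))) =
                n * (18 * L ^ 3 / Real.exp (Real.sqrt L)) := by ring
            have e2 : 1 / 2 * (1 / L ^ 2 * (n / L ^ (k + 3))) = n * (1 / (2 * L ^ (k + 5))) := by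
              rw [show k + 5 = (k + 3) + 2 by ring, pow_add L (k + 3) 2]
              field_simp
            rw [e1, e2]
            refine mul_le_mul_of_nonneg_left ?_ hn0.le
            rw [div_le_div_iff₀ (Real.exp_pos _) (by positivity)]
            calc 18 * L ^ 3 * (2 * L ^ (k + 5)) = 36 * L ^ (k + 8) := by ring
              _ ≤ 72 * L ^ (k + 8) := by
                  have : 0 ≤ L ^ (k + 8) := by positivity
                  linarith
              _ ≤ 1 * Real.exp (Real.sqrt L) := by rw [one_mul]; exact hs5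
    have h8 : 1 / L ^ 2 * (n / L ^ (k + 3)) ≤ η0 * (n / L ^ (k + 3)) :=
      mul_le_mul_of_nonneg_right hη0 (by positivity)
    linarith

end Pool.Agent.J4.H38.SR
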