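import Mathlib
import Pool.Agent.J4.H38.SR.Quant2

/-! A quantitative bound for the number of sets of shifts which are not good: the theorem. -/

set_option autoImplicit false

namespace Pool.Agent.J4.H38.SR

open Finset Filter
open Pool.Agent.Y822
open Pool.Agent.H387R2.Uni (nuT Adm locT CT CT_nonneg)
open Pool.Agent.H373R2.T7 (pz Vz mem_pz)

/-- the constants of the second kind -/
lemma const_core2 {k b PP : ℕ} {κ Ca Cc cE Cp : ℝ} (hκ : 0 < κ) (hκh : κ ≤ 1 / 2) (hCa : 0 < Ca)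
    (hCc : 0 < Cc) (hcE : 0 < cE) (h2 : 2 / κ ≤ PP * b)
    (hCp : (b : ℝ) ^ (2 * k + 10) * (1 / 2) ^ b ≤ Cp * (3 / 4) ^ b) :
    (4 * Ca * (2 / κ) ^ (k + 1) + 1) *
      (8 * ((cE / κ) ^ 3) ^ 2 * (1 / 2) ^ b * Cc * (2 / κ) ^ (k + 3)) ≤
    (8 * (4 * Ca + 1) * Cc * cE ^ 6 * 2 ^ (2 * k + 4)) * (PP : ℝ) ^ (2 * k + 10) * Cp * (3 / 4) ^ b := by
  have h2κ : 1 ≤ (2 / κ) ^ (k + 1) := by
    refine one_le_pow₀ ?_
    rw [le_div_iff₀ hκ]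
    linarith
  have h1 : 4 * Ca * (2 / κ) ^ (k + 1) + 1 ≤ (4 * Ca + 1) * (2 / κ) ^ (k + 1) := by linarith
  have h3 : 1 / κ ≤ PP * b := by
    refine le_trans ?_ h2
    rw [div_le_div_iff_of_pos_right hκ]
    norm_num
  calc (4 * Ca * (2 / κ) ^ (k + 1) + 1) *
      (8 * ((cE / κ) ^ 3) ^ 2 * (1 / 2) ^ b * Cc * (2 / κ) ^ (k + 3))
      ≤ ((4 * Ca + 1) * (2 / κ) ^ (k + 1)) *
      (8 * ((cE / κ) ^ 3) ^ 2 * (1 / 2) ^ b * Cc * (2 / κ) ^ (k + 3)) :=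
        mul_le_mul_of_nonneg_right h1 (by positivity)
    _ = (8 * (4 * Ca + 1) * Cc * cE ^ 6 * 2 ^ (2 * k + 4)) * (1 / κ) ^ (2 * k + 10) * (1 / 2) ^ b :=
        alg_const k b hκ.ne'
    _ ≤ (8 * (4 * Ca + 1) * Cc * cE ^ 6 * 2 ^ (2 * k + 4)) * (PP * b) ^ (2 * k + 10) * (1 / 2) ^ b := by
        gcongr
    _ = (8 * (4 * Ca + 1) * Cc * cE ^ 6 * 2 ^ (2 * k + 4)) * (PP : ℝ) ^ (2 * k + 10) *
        ((b : ℝ) ^ (2 * k + 10) * (1 / 2) ^ b) := by rw [mul_pow]; ring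
    _ ≤ (8 * (4 * Ca + 1) * Cc * cE ^ 6 * 2 ^ (2 * k + 4)) * (PP : ℝ) ^ (2 * k + 10) *
        (Cp * (3 / 4) ^ b) := mul_le_mul_of_nonneg_left hCp (by positivity)
    _ = _ := by ring

/-- **few sets of shifts are not good**, with an explicit dependence on the length of the interval -/
theorem few_quant (k : ℕ) {xs δ : ℝ} (hxs : 0 < xs) (hxs1 : xs ≤ 1 / 2) (hδ : 0 < δ) :
    ∃ (C0 : ℕ) (Q C : ℝ), 1 ≤ C0 ∧ 2 ≤ Q ∧ 0 < C ∧ ∀ᶠ N : ℕ in atTop, ∀ b : ℕ, C0 ≤ b →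
      Q ^ b ≤ Real.log N → ∀ κ : ℝ, κ = xs / (4 * C0 * b + 1) →
      Real.sqrt (Real.log N) ≤ κ * Real.log N ∧
      ∀ D : ℕ, (D : ℝ) ≤ Real.exp ((1 / 2 - xs) * Real.log N) →
      ∀ c : ℕ → ℝ, Co (yK κ N) c →
      ∀ g : ℕ → ℝ, (∀ n, 0 ≤ g n ∧ g n ≤ ro (yK κ N) n) →
      ∀ H : ℕ, 1 ≤ H → H ≤ N →
      ∀ Bad : Finset (Finset ℕ),
        (∀ D' ∈ Bad, D' ∈ (Icc 1 H).powersetCard (k + 1) ∧
          ¬ Good eP g (ro (yK κ N)) (fun f t => ∑ n ∈ Icc 1 N, f n * GF (yK κ N) D c (n + t))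
            (δ * (N / Real.log N ^ (k + 2))) D') →
        (Bad.card : ℝ) ≤ (2 ^ (k + 1) / δ * Real.sqrt (Q ^ b * (Real.log N / H) + C * (3 / 4) ^ b)) *
          (H : ℝ) ^ (k + 1) := by
  classical
  obtain ⟨Ca, hCa, hsCa⟩ := sum_CT k
  obtain ⟨Cb, hCb, hsCb⟩ := sum_CT1 k
  obtain ⟨Cc, hCc, hsCc⟩ := sum_CT2 k
  obtain ⟨cE, hcE, hEE⟩ := EE_core
  obtain ⟨C0, K0, hC0, hK0, hcnt⟩ := cntT (k + 3)
  obtain ⟨PP, hPP⟩ := exists_nat_ge (10 * C0 / xs + 3)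
  obtain ⟨Cp, hCp, hpow⟩ := pow_half_le (2 * k + 10)
  have hPPr : (1 : ℝ) ≤ PP := by
    have : 0 < 10 * (C0 : ℝ) / xs := by
      have : (1 : ℝ) ≤ C0 := by exact_mod_cast hC0
      positivity
    linarith
  obtain ⟨X1, hX1⟩ : ∃ X1 : ℝ, X1 = (4 : ℝ) ^ PP + 3 * ((cE + 1) * (2 * PP)) ^ 3 := ⟨_, rfl⟩
  obtain ⟨X2, hX2⟩ : ∃ X2 : ℝ, X2 = (4 * Ca + 1) * (2 * (PP : ℝ)) ^ (k + 1) := ⟨_, rfl⟩
  obtain ⟨X3, hX3⟩ : ∃ X3 : ℝ, X3 = (4 * Cb + 1) * (2 * (PP : ℝ)) ^ (k + 2) := ⟨_, rfl⟩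
  obtain ⟨X4, hX4⟩ : ∃ X4 : ℝ, X4 = (2 * (PP : ℝ)) ^ 2 := ⟨_, rfl⟩
  have h2PP : (1 : ℝ) ≤ 2 * PP := by linarith
  have hX11 : 1 ≤ X1 := by
    rw [hX1]
    have : (1 : ℝ) ≤ 4 ^ PP := one_le_pow₀ (by norm_num)
    have h2 : 0 ≤ 3 * ((cE + 1) * (2 * PP)) ^ 3 := by positivity
    linarith
  have hX21 : 1 ≤ X2 := by
    rw [hX2]
    exact one_le_mul_of_one_le_of_one_le (by linarith) (one_le_pow₀ h2PP)
  have hX31 : 1 ≤ X3 := by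
    rw [hX3]
    exact one_le_mul_of_one_le_of_one_le (by linarith) (one_le_pow₀ h2PP)
  have hX41 : 2 ≤ X4 := by
    rw [hX4]
    nlinarith
  obtain ⟨Q, hQ⟩ : ∃ Q : ℝ, Q = X1 ^ 2 * X2 * X3 * X4 := ⟨_, rfl⟩
  have hX12 : 1 ≤ X1 ^ 2 := one_le_pow₀ hX11
  have hX1p : X1 ≤ X1 ^ 2 := le_self_pow₀ hX11 (by norm_num)
  have hQ123 : X1 ^ 2 * X2 * X3 ≤ Q := by
    rw [hQ]
    exact le_mul_of_one_le_right (by positivity) (by linarith)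
  have hQ1 : X1 ≤ Q := by
    refine le_trans ?_ hQ123
    calc X1 ≤ X1 ^ 2 := hX1p
      _ ≤ X1 ^ 2 * X2 := le_mul_of_one_le_right (by positivity) hX21
      _ ≤ _ := le_mul_of_one_le_right (by positivity) hX31
  have hQ2 : X2 ≤ Q := by
    refine le_trans ?_ hQ123
    calc X2 ≤ X1 ^ 2 * X2 := le_mul_of_one_le_left (by linarith) hX12
      _ ≤ _ := le_mul_of_one_le_right (by positivity) hX31
  have hQ4 : X4 ≤ Q := by
    rw [hQ]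
    refine le_mul_of_one_le_left (by linarith) ?_
    exact one_le_mul_of_one_le_of_one_le (one_le_mul_of_one_le_of_one_le hX12 hX21) hX31
  have hQ22 : 2 ≤ Q := hX41.trans hQ4
  set Cst : ℝ := (8 * (4 * Ca + 1) * Cc * cE ^ 6 * 2 ^ (2 * k + 4)) * (PP : ℝ) ^ (2 * k + 10) * Cp
    with hCst
  have hCst0 : 0 < Cst := by positivity
  refine ⟨C0, Q, Cst + 1, hC0, hQ22, by linarith, ?_⟩
  have hxs' : 0 < 1 - xs := by linarith
  filter_upwards [eventually_ge_atTop 3, ev_logN (eventually_ge_atTop (1 : ℝ)),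
    ev_logN (eventually_ge_atTop ((2 * (2 * ((k : ℝ) + 3) ^ 2 + 8)) ^ 2)),
    ev_small (k + 1) hxs' (2 + 2 * K0) one_pos, ev_small (k + 2) hxs' (2 + 2 * K0) one_pos,
    ev_small (k + 3) (by norm_num : (0 : ℝ) < 1 / 2) 1 (by positivity : 0 < δ / 2),
    ev_small (k + 7) hxs (2 * (2 + 2 * K0)) (by norm_num : (0 : ℝ) < 1 / 2),
    eventually_exp_sqrt (k + 8) 72]
    with N hN3 hL1 hLk hs1 hs2 hs3 hs4 hs5
  intro b hb hQb κ hκd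
  obtain ⟨hκ, hκh, c1, c2, c3, c4, c5, c6⟩ := const_core (k := k) (PP := PP) (b := b) (C0 := C0)
    (xs := xs) (κ := κ) (Ca := Ca) (Cb := Cb) (cE := cE) (by omega) hC0 hxs hxs1 hCa hCb hcE hκd hPP
  rw [← hX1] at c4
  rw [← hX2] at c5
  rw [← hX3] at c6
  rw [← hX4] at c3
  set L := Real.log N with hLd
  have hL0 : 0 < L := by linarith
  have hb0 : b ≠ 0 := by omega
  have hκ1 : κ ≤ 1 := by linarith
  -- the size of `κ`
  have hsq : Real.sqrt L ≤ κ * L := by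
    have h1 : (1 / κ) ^ 2 ≤ L := c3.trans ((pow_le_pow_left₀ (by linarith) hQ4 b).trans hQb)
    have h2 : 1 / κ ≤ Real.sqrt L := Real.le_sqrt_of_sq_le h1
    have h3 : 1 ≤ κ * Real.sqrt L := by
      rw [div_le_iff₀ hκ] at h2
      linarith
    have h4 : 0 ≤ Real.sqrt L := Real.sqrt_nonneg _
    calc Real.sqrt L = 1 * Real.sqrt L := (one_mul _).symm
      _ ≤ κ * Real.sqrt L * Real.sqrt L := mul_le_mul_of_nonneg_right h3 h4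
      _ = κ * L := by rw [mul_assoc, Real.mul_self_sqrt hL0.le]
  refine ⟨hsq, ?_⟩
  intro D hD c hc g hg H hH1 hHN Bad hBad
  have hsqk : 2 * (2 * ((k : ℝ) + 3) ^ 2 + 8) ≤ Real.sqrt L := Real.le_sqrt_of_sq_le hLk
  have hk9 : (0 : ℝ) ≤ ((k : ℝ) + 3) ^ 2 := by positivity
  have hκL2 : 2 * ((k : ℝ) + 3) ^ 2 + 8 ≤ κ / 2 * L := by linarith
  obtain ⟨y1, _, y2, y3, y4, y5⟩ := yK_core (M := 2 * (k + 3) ^ 2 + 2) hκ (by omega : 1 ≤ N)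
    (by push_cast; linarith)
  set y := yK κ N with hyd
  have hN0 : (0 : ℝ) < N := by exact_mod_cast (by omega : 0 < N)
  have hNe : (N : ℝ) = Real.exp L := by rw [hLd, Real.exp_log hN0]
  have hy2 : 2 ≤ y := by omega
  have hy0 : (0 : ℝ) < y := by exact_mod_cast (by omega : 0 < y)
  have hDN : D ≤ N := by
    have : (D : ℝ) ≤ N := by
      refine hD.trans ?_
      rw [hNe]
      exact Real.exp_le_exp.2 (by nlinarith)
    exact_mod_cast this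
  obtain ⟨M1, hM1⟩ : ∃ M1 : ℕ, M1 = ⌈2 / κ⌉₊ + 1 := ⟨_, rfl⟩
  obtain ⟨E1, hE1⟩ : ∃ E1 : ℝ, E1 = (cE / κ) ^ 3 := ⟨_, rfl⟩
  rw [← hM1] at c2 c4 y5
  rw [← hE1] at c4
  have hE10 : 0 < E1 := by rw [hE1]; positivity
  have hEED : EE y D ≤ E1 := by
    rw [hE1]
    exact hEE κ hκ hκ1 N hN3 (by linarith) D hDN
  have hEE0 := (EE_pos y D).le
  have hAdn := Ad_nonneg C0 K0 b y
  have hκσ : κ * (4 * C0 * b + 1) ≤ xs := by
    rw [hκd]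
    field_simp
    exact le_rfl
  have hAd := Ad_core C0 K0 b hκ (by omega : 1 ≤ N) (by linarith : 5 ≤ κ / 2 * Real.log N) hκσ
  rw [← hyd, ← hLd] at hAd
  set E : ℝ := (2 + 2 * K0) * Real.exp (xs * L) with hE
  have hE0 : 0 ≤ E := by positivity
  have hEa : E ≤ N / L ^ (k + 1) := by
    have : (1 - (1 - xs)) = xs := by ring
    rw [this, one_mul] at hs1
    exact hs1
  have hEb : E ≤ N / L ^ (k + 2) := by
    have : (1 - (1 - xs)) = xs := by ring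
    rw [this, one_mul] at hs2
    exact hs2
  -- sizes
  have g1 : 4 ^ M1 + 3 * E1 ≤ L := c4.trans ((pow_le_pow_left₀ (by linarith) hQ1 b).trans hQb)
  obtain ⟨A1, hA1⟩ : ∃ A1 : ℝ, A1 = 4 * Ca * (2 / κ) ^ (k + 1) + 1 := ⟨_, rfl⟩
  have hA10 : 0 < A1 := by rw [hA1]; positivity
  rw [← hA1] at c5
  have g2 : A1 ≤ L := c5.trans ((pow_le_pow_left₀ (by linarith) hQ2 b).trans hQb)
  have g3 : (2 : ℝ) ^ b ≤ L := (pow_le_pow_left₀ (by norm_num) hQ22 b).trans hQb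
  obtain ⟨η0, hη0⟩ : ∃ η0 : ℝ, η0 = (1 / 2) ^ b / A1 := ⟨_, rfl⟩
  have hη00 : 0 < η0 := by rw [hη0]; positivity
  have hη0L : 1 / L ^ 2 ≤ η0 := by
    rw [hη0, one_div_pow, div_div, sq]
    exact one_div_le_one_div_of_le (by positivity) (mul_le_mul g3 g2 hA10.le hL0.le)
  have hML : (M1 : ℝ) ≤ L := by
    have h1 : (M1 : ℝ) ≤ 4 ^ M1 := by
      have := (Nat.lt_pow_self (by norm_num : 1 < 4) (n := M1)).le
      exact_mod_cast this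
    linarith
  obtain ⟨hsm1, hsm2⟩ := small_core (k := k) (K0 := K0) (M1 := M1) (D := D) (κ := κ) (xs := xs) (L := L)
    (n := N) (y := y) (E1 := E1) (δ := δ) (η0 := η0) hκ hκh hxs hL1 hNe hδ hE10.le hy0 y1 y4 hML g1
    hη0L hsq hD hs3 hs4 hs5
  have hx0 : 0 < δ * ((N : ℝ) / L ^ (k + 2)) := by positivity
  have h4M : (4 : ℝ) ^ Nat.log y (2 * N) ≤ 4 ^ M1 := pow_le_pow_right₀ (by norm_num) y5
  have hyM : (y : ℝ) * (4 ^ Nat.log y (2 * N) + EE y D) ≤ δ * (N / L ^ (k + 2)) / 2 := by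
    refine le_trans ?_ hsm1
    gcongr
  have hP := sum_PB (k := k) (C0 := C0) (K0 := K0) (b := b) (N := N) (y := y) (H := H) (κ := κ)
    (L := L) (Ca := Ca) (E := E) hκ hκ1 hL1 y2 y3 (hsCa H) hAd hEa
  have hQQ := sum_QB (k := k) (C0 := C0) (K0 := K0) (b := b) (N := N) (y := y) (D := D) (H := H)
    (M1 := M1) (κ := κ) (L := L) (Cb := Cb) (Cc := Cc) (E := E) (E1 := E1) (η0 := η0)
    hκ hκ1 hL1 (by omega) y2 y3 hη00.le (hsCb H) (hsCc H) hAd hEb hEED y5 hsm2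
  rw [← hA1] at hP
  obtain ⟨A2, hA2⟩ : ∃ A2 : ℝ, A2 = (4 ^ M1 + 3 * E1) ^ 2 * (4 * Cb * (2 / κ) ^ (k + 2) + 1) :=
    ⟨_, rfl⟩
  obtain ⟨η1, hη1⟩ : ∃ η1 : ℝ, η1 = 8 * E1 ^ 2 * (1 / 2) ^ b * Cc * (2 / κ) ^ (k + 3) := ⟨_, rfl⟩
  have hA20 : 0 < A2 := by rw [hA2]; positivity
  have hη10 : 0 < η1 := by rw [hη1]; positivity
  rw [← hA2, ← hη1] at hQQ
  have hH0 : (0 : ℝ) < H := by exact_mod_cast hH1
  obtain ⟨W, hW⟩ : ∃ W : ℝ, W = A2 * (L / H) + η1 + η0 := ⟨_, rfl⟩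
  have hW0 : 0 < W := by rw [hW]; positivity
  have hQ' : ∑ S ∈ (Icc 1 H).powersetCard k, QB C0 K0 b y D N H S ≤
      W * (N * (H : ℝ) ^ (k + 2) / L ^ (k + 3)) := by
    refine hQQ.trans (le_of_eq ?_)
    rw [hW, pow_succ (H : ℝ) (k + 1), pow_succ L (k + 2)]
    field_simp
    ring
  have hcnt' : ∀ T : Finset ℕ, T.card ≤ k + 3 → CntH C0 K0 b y T := by
    intro T hT N' a a' d d' h1 h2 h3 h4 h5
    exact hcnt b hb y hy2 T hT N' a a' d d' h1 h2 h3 h4 h5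
  have hA1W : A1 * W ≤ Q ^ b * (L / H) + (Cst + 1) * (3 / 4) ^ b := by
    have e1 : A1 * A2 ≤ Q ^ b := by
      have h1 : A2 ≤ (X1 ^ b) ^ 2 * X3 ^ b := by
        rw [hA2]
        exact mul_le_mul (pow_le_pow_left₀ (by positivity) c4 2) c6 (by positivity) (by positivity)
      calc A1 * A2 ≤ X2 ^ b * ((X1 ^ b) ^ 2 * X3 ^ b) := mul_le_mul c5 h1 hA20.le (by positivity)
        _ = (X1 ^ 2 * X2 * X3) ^ b := by rw [pow_right_comm X1 b 2, ← mul_pow, ← mul_pow]; ring_nf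
        _ ≤ Q ^ b := pow_le_pow_left₀ (by positivity) hQ123 b
    have e2 : A1 * η1 ≤ Cst * (3 / 4) ^ b := by
      rw [hA1, hη1, hE1, hCst]
      exact const_core2 hκ hκh hCa hCc hcE c1 (hpow b)
    have e3 : A1 * η0 ≤ (3 / 4) ^ b := by
      have : A1 * η0 = (1 / 2) ^ b := by rw [hη0]; field_simp
      rw [this]
      exact pow_le_pow_left₀ (by norm_num) (by norm_num) b
    have e4 := mul_le_mul_of_nonneg_right e1 (by positivity : 0 ≤ L / (H : ℝ))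
    calc A1 * W = A1 * A2 * (L / H) + A1 * η1 + A1 * η0 := by rw [hW]; ring
      _ ≤ Q ^ b * (L / H) + Cst * (3 / 4) ^ b + (3 / 4) ^ b := by linarith
      _ = _ := by ring
  refine (bad_le hy2 hHN hcnt' hc hg hx0 hyM Bad hBad).trans ?_
  refine (few_calc (ε' := 2 ^ (k + 1) / δ * Real.sqrt (A1 * W)) hN0 hH0.le hL0 hδ (by positivity)
    hA10.le hW0.le hP hQ' ?_).trans ?_
  · have : 2 ^ (k + 1) / δ * Real.sqrt (A1 * W) * δ / 2 ^ (k + 1) = Real.sqrt (A1 * W) := by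
      field_simp
    rw [this, Real.sq_sqrt (by positivity)]
  · refine mul_le_mul_of_nonneg_right (mul_le_mul_of_nonneg_left ?_ (by positivity)) (by positivity)
    exact Real.sqrt_le_sqrt hA1W

end Pool.Agent.J4.H38.SR
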