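import Mathlib
import Pool.Agent.Y822.F.Lin
import Pool.Agent.J4.H38.SR.QLD

/-! Kuhn's weighted sieve with level `49/100`. -/

set_option autoImplicit false

namespace Pool.Agent.J4.H38.SR

open Finset
open Pool.Agent.W23
open Pool.Agent.W23.DC (tt pr LL MM Siz Mer SF mem_pr siz ind mem_EE)
open Pool.Agent.Y822.Lin (mer_of)
open Pool.Agent.Y822.F (iu sz_eq)

/-- the moduli of the error term -/
noncomputable def FK (N : ℕ) (ε₁ : ℝ) : Finset ℕ := by
  classical
  exact (Icc 1 ⌊(N : ℝ) ^ (49 / 100 : ℝ)⌋₊).filter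
    (fun d => Squarefree d ∧ ∀ p ∈ d.primeFactors, ε₁ ≤ tt N p)

lemma mem_FK {N : ℕ} {ε₁ : ℝ} {d : ℕ} : d ∈ FK N ε₁ ↔ (1 ≤ d ∧ d ≤ ⌊(N : ℝ) ^ (49 / 100 : ℝ)⌋₊) ∧
    Squarefree d ∧ ∀ p ∈ d.primeFactors, ε₁ ≤ tt N p := by
  classical
  unfold FK
  rw [mem_filter, mem_Icc]

/-- the Kuhn weight -/
noncomputable def Wk (N : ℕ) (ε₁ : ℝ) (m : ℕ) : ℝ :=
  iu N ε₁ (1 / 8) m * (1 - 1 / 2 * ∑ q ∈ pr N (1 / 8) (1 / 3), ind m q)

lemma EEx_facts {N : ℕ} {ε₁ w τ ζ : ℝ} (hN : 2 ≤ N) (hτ : 0 ≤ τ) {d : ℕ}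
    (hd : d ∈ DC.EE (pr N ε₁ w) (tt N) τ ζ) :
    1 ≤ d ∧ Squarefree d ∧ (d : ℝ) ≤ (N : ℝ) ^ τ ∧ ∀ p ∈ d.primeFactors, ε₁ ≤ tt N p ∧ tt N p < w := by
  obtain ⟨h1, h2, h3, h4⟩ := mem_EE hd
  have hd1 : 1 ≤ d := by omega
  refine ⟨hd1, h2, ?_, fun p hp => h3 p hp⟩
  have hL : 0 < Real.log N := Real.log_pos (by exact_mod_cast (by omega : 1 < N))
  have hN0 : (0 : ℝ) < N := by exact_mod_cast (by omega : 0 < N)
  obtain ⟨u, v, huv, hu, hv⟩ := h4 τ 0 hτ le_rfl (by ring)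
  have hv1 : v = 1 := by
    by_contra hne
    obtain ⟨q, hq, hqv⟩ := Nat.exists_prime_and_dvd hne
    have hv0 : v ≠ 0 := by
      rintro rfl
      omega
    have h5 : 0 < DC.sz (tt N) v := by
      unfold DC.sz
      refine sum_pos (fun p hp => ?_) ⟨q, Nat.mem_primeFactors.2 ⟨hq, hqv, hv0⟩⟩
      exact div_pos (Real.log_pos (by exact_mod_cast (Nat.prime_of_mem_primeFactors hp).one_lt)) hL
    linarith
  rw [hv1, mul_one] at huv
  rw [huv, sz_eq h2, div_le_iff₀ hL, ← Real.log_rpow hN0] at hu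
  exact (Real.log_le_log_iff (by exact_mod_cast hd1) (by positivity)).1 hu

/-- the pointwise inequality -/
theorem Wk_ge {N : ℕ} (hN : 2 ≤ N) {ε₁ : ℝ} (K n : ℕ) :
    LL (pr N ε₁ (1 / 8)) (tt N) (ind n) K false (49 / 100) (1 / 8) 1 -
      1 / 2 * ∑ q ∈ pr N (1 / 8) (1 / 3),
        LL (pr N ε₁ (1 / 8)) (tt N) (ind n) K true (49 / 100 - tt N q) (1 / 8) q ≤ Wk N ε₁ n := by
  classical
  have hS := siz hN ε₁ (1 / 8)
  have h1 := (Pool.Agent.W52.DC.PT (pr N ε₁ (1 / 8)) (tt N) hS n K (49 / 100) (1 / 8) 1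
    (fun p hp _ h => (hS.pr p hp).one_lt.ne' (Nat.dvd_one.1 h))).2
  have h2 : ∀ q ∈ pr N (1 / 8) (1 / 3), iu N ε₁ (1 / 8) n * ind n q ≤
      LL (pr N ε₁ (1 / 8)) (tt N) (ind n) K true (49 / 100 - tt N q) (1 / 8) q := by
    intro q hq
    have h3 := (Pool.Agent.W52.DC.PT (pr N ε₁ (1 / 8)) (tt N) hS n K (49 / 100 - tt N q) (1 / 8) q
      (fun p hp _ h => by
      have h4 := (Nat.prime_dvd_prime_iff_eq (hS.pr p hp) (mem_pr.1 hq).2.1).1 h
      have h5 := (mem_pr.1 hp).2.2.2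
      have h6 := (mem_pr.1 hq).2.2.1
      rw [h4] at h5
      linarith)).1
    refine le_trans ?_ h3
    unfold iu ind
    by_cases h7 : ∀ p ∈ pr N ε₁ (1 / 8), ¬ p ∣ n
    · by_cases h8 : q ∣ n
      · rw [if_pos h7, if_pos h8, if_pos ⟨h8, fun p hp _ => h7 p hp⟩, one_mul]
      · rw [if_neg h8, mul_zero]
        split_ifs <;> norm_num
    · rw [if_neg h7, zero_mul]
      split_ifs <;> norm_num
  have h9 : LL (pr N ε₁ (1 / 8)) (tt N) (ind n) K false (49 / 100) (1 / 8) 1 ≤ iu N ε₁ (1 / 8) n := by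
    refine h1.trans ?_
    unfold iu
    by_cases h7 : ∀ p ∈ pr N ε₁ (1 / 8), ¬ p ∣ n
    · rw [if_pos h7]
      split_ifs <;> norm_num
    · rw [if_neg h7, if_neg]
      rintro ⟨-, h8⟩
      exact h7 (fun p hp => h8 p hp (mem_pr.1 hp).2.2.2)
  have h10 := Finset.sum_le_sum h2
  rw [← mul_sum] at h10
  have h11 : Wk N ε₁ n = iu N ε₁ (1 / 8) n -
      1 / 2 * (iu N ε₁ (1 / 8) n * ∑ q ∈ pr N (1 / 8) (1 / 3), ind n q) := by
    unfold Wk
    ring
  rw [h11]
  linarith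

section
variable {N : ℕ} {ε₁ : ℝ}

/-- the first error term -/
theorem errK1 (hN : 2 ≤ N) (r : ℕ → ℝ) :
    ∑ e ∈ DC.EE (pr N ε₁ (1 / 8)) (tt N) (49 / 100) (1 / 8), |r (1 * e)| ≤
      ∑ d ∈ FK N ε₁, |r d| := by
  classical
  simp only [one_mul]
  apply Finset.sum_le_sum_of_subset_of_nonneg
  · intro e he
    obtain ⟨h1, h2, h3, h4⟩ := EEx_facts hN (by norm_num) he
    exact mem_FK.2 ⟨⟨h1, Nat.le_floor h3⟩, h2, fun p hp => (h4 p hp).1⟩
  · intro _ _ _
    exact abs_nonneg _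

/-- the second error term -/
theorem errK2 (hN : 2 ≤ N) (hε2 : ε₁ ≤ 1 / 25) (r : ℕ → ℝ) :
    ∑ q ∈ pr N (1 / 8) (1 / 3),
      ∑ e ∈ DC.EE (pr N ε₁ (1 / 8)) (tt N) (49 / 100 - tt N q) (1 / 8), |r (q * e)| ≤
      ∑ d ∈ FK N ε₁, |r d| := by
  classical
  have hN0 : (0 : ℝ) < N := by exact_mod_cast (by omega : 0 < N)
  have hL : 0 < Real.log N := Real.log_pos (by exact_mod_cast (by omega : 1 < N))
  rw [Finset.sum_sigma' (f := fun q e => |r (q * e)|)]
  have hinj : Set.InjOn (fun x : (_ : ℕ) × ℕ => x.1 * x.2)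
      ((pr N (1 / 8) (1 / 3)).sigma
        (fun q => DC.EE (pr N ε₁ (1 / 8)) (tt N) (49 / 100 - tt N q) (1 / 8)) : Finset ((_ : ℕ) × ℕ)) := by
    rintro ⟨q, e⟩ hqe ⟨q', e'⟩ hqe' heq
    rw [mem_coe, mem_sigma] at hqe hqe'
    simp only at hqe hqe' heq
    have hq := mem_pr.1 hqe.1
    have hq' := mem_pr.1 hqe'.1
    obtain ⟨h1, h2, h3, h4⟩ := mem_EE hqe.2
    obtain ⟨h1', h2', h3', h4'⟩ := mem_EE hqe'.2
    have hqq : q = q' := by
      have hd : q ∣ q' * e' := heq ▸ Dvd.intro e rfl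
      rcases (hq.2.1.dvd_mul).1 hd with h | h
      · exact (Nat.prime_dvd_prime_iff_eq hq.2.1 hq'.2.1).1 h
      · exfalso
        have := (h3' q (Nat.mem_primeFactors.2 ⟨hq.2.1, h, h1'⟩)).2
        linarith [hq.2.2.1]
    subst hqq
    have : e = e' := Nat.eq_of_mul_eq_mul_left hq.2.1.pos heq
    rw [this]
  calc ∑ x ∈ (pr N (1 / 8) (1 / 3)).sigma
        (fun q => DC.EE (pr N ε₁ (1 / 8)) (tt N) (49 / 100 - tt N q) (1 / 8)), |r (x.1 * x.2)|
      = ∑ d ∈ ((pr N (1 / 8) (1 / 3)).sigma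
        (fun q => DC.EE (pr N ε₁ (1 / 8)) (tt N) (49 / 100 - tt N q) (1 / 8))).image
          (fun x => x.1 * x.2), |r d| := by
        rw [Finset.sum_image hinj]
    _ ≤ _ := by
        apply Finset.sum_le_sum_of_subset_of_nonneg
        · intro d hd
          rw [mem_image] at hd
          obtain ⟨⟨q, e⟩, hqe, rfl⟩ := hd
          rw [mem_sigma] at hqe
          simp only at hqe ⊢
          have hq := mem_pr.1 hqe.1
          obtain ⟨h1, h2, h3, h4⟩ := EEx_facts hN (by linarith [hq.2.2.2]) hqe.2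
          have hnd : ¬ q ∣ e := by
            intro h
            have := (h4 q (Nat.mem_primeFactors.2 ⟨hq.2.1, h, by omega⟩)).2
            linarith [hq.2.2.1]
          have hq0 : (0 : ℝ) < q := by exact_mod_cast hq.2.1.pos
          have hcop : Nat.Coprime q e := (hq.2.1.coprime_iff_not_dvd).2 hnd
          refine mem_FK.2 ⟨⟨Nat.mul_pos hq.2.1.pos h1, Nat.le_floor ?_⟩,
            (Nat.squarefree_mul hcop).2 ⟨hq.2.1.prime.squarefree, h2⟩, ?_⟩
          · push_cast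
            have h5 : (q : ℝ) = (N : ℝ) ^ (tt N q) := by
              rw [Real.rpow_def_of_pos hN0]
              unfold tt
              rw [mul_div_cancel₀ _ hL.ne', Real.exp_log hq0]
            calc (q : ℝ) * e ≤ (N : ℝ) ^ (tt N q) * (N : ℝ) ^ (49 / 100 - tt N q) := by
                  rw [← h5]
                  exact mul_le_mul_of_nonneg_left h3 hq0.le
              _ = (N : ℝ) ^ (49 / 100 : ℝ) := by
                  rw [← Real.rpow_add hN0]
                  congr 1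
                  ring
          · intro p hp
            rw [Nat.primeFactors_mul hq.2.1.ne_zero (by omega), mem_union, hq.2.1.primeFactors,
              mem_singleton] at hp
            rcases hp with rfl | hp
            · linarith [hq.2.2.1]
            · exact (h4 p hp).1
        · intro _ _ _
          exact abs_nonneg _

end

/-- an upper bound for the logarithm -/
lemma log_up {x t : ℝ} (hx : 0 < x) (ht : 0 ≤ t) (h : x ≤ 1 + t + t ^ 2 / 2) : Real.log x ≤ t := by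
  rw [Real.log_le_iff_le_exp hx]
  exact h.trans (Real.quadratic_le_exp_of_nonneg ht)

/-- the numerical inequality -/
theorem numK : 1 / 2 * (Real.log (36 / 25) / (31 / 100) + Real.log (4 / 3) / (1 / 4) +
    Real.log (29 / 24) / (1 / 5) + Real.log (100 / 87) / (47 / 300)) <
    Real.log (73 / 25) / (49 / 100) := by
  have a1 := log_up (x := 36 / 25) (t := 3713 / 10000) (by norm_num) (by norm_num) (by norm_num)
  have a2 := log_up (x := 4 / 3) (t := 2918 / 10000) (by norm_num) (by norm_num) (by norm_num)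
  have a3 := log_up (x := 29 / 24) (t := 1905 / 10000) (by norm_num) (by norm_num) (by norm_num)
  have a4 := log_up (x := 100 / 87) (t := 1399 / 10000) (by norm_num) (by norm_num) (by norm_num)
  have b1 : 6931 / 10000 + 4 * (99 / 1099) ≤ Real.log (73 / 25) := by
    have h1 := Real.log_two_gt_d9
    have h2 : Real.log (73 / 25) = Real.log 2 + Real.log (73 / 50) := by
      rw [← Real.log_mul (by norm_num) (by norm_num)]
      norm_num
    have h3 : Real.log ((1099 / 1000) ^ 4) ≤ Real.log (73 / 50) :=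
      Real.log_le_log (by norm_num) (by norm_num)
    rw [Real.log_pow] at h3
    have h4 := Real.one_sub_inv_le_log_of_pos (x := 1099 / 1000) (by norm_num)
    push_cast at h3
    have h5 : (1 : ℝ) - (1099 / 1000)⁻¹ = 99 / 1099 := by norm_num
    rw [h5] at h4
    linarith
  have e1 : Real.log (36 / 25) / (31 / 100) ≤ (3713 / 10000) / (31 / 100) :=
    div_le_div_of_nonneg_right a1 (by norm_num)
  have e2 : Real.log (4 / 3) / (1 / 4) ≤ (2918 / 10000) / (1 / 4) :=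
    div_le_div_of_nonneg_right a2 (by norm_num)
  have e3 : Real.log (29 / 24) / (1 / 5) ≤ (1905 / 10000) / (1 / 5) :=
    div_le_div_of_nonneg_right a3 (by norm_num)
  have e4 : Real.log (100 / 87) / (47 / 300) ≤ (1399 / 10000) / (47 / 300) :=
    div_le_div_of_nonneg_right a4 (by norm_num)
  have e5 : (6931 / 10000 + 4 * (99 / 1099)) / (49 / 100) ≤ Real.log (73 / 25) / (49 / 100) :=
    div_le_div_of_nonneg_right b1 (by norm_num)
  refine lt_of_lt_of_le ?_ e5
  refine lt_of_le_of_lt (mul_le_mul_of_nonneg_left (add_le_add (add_le_add (add_le_add e1 e2) e3) e4)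
    (by norm_num)) ?_
  norm_num

end Pool.Agent.J4.H38.SR
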