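import Mathlib
import Pool.Agent.J4.H38.SR.Kuhn2
import Pool.Agent.Y822.Low2

/-! Kuhn's weighted sieve: one shift. -/

set_option autoImplicit false

namespace Pool.Agent.J4.H38.SR

open Finset
open Pool.Agent.Y822
open Pool.Agent.W23
open Pool.Agent.W23.DC (tt pr mem_pr ind)
open Pool.Agent.Y822.F (iu)

open Classical in
/-- at most three prime factors, all at least `N ^ (1/8)` -/
noncomputable def g3 (N m : ℕ) : ℝ :=
  if m ≠ 0 ∧ m.primeFactorsList.length ≤ 3 ∧ ∀ q ∈ m.primeFactors, (N : ℝ) ^ (1 / 8 : ℝ) ≤ q then 1 else 0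

open Classical in
/-- divisible by the square of a large prime -/
noncomputable def bq8 (N m : ℕ) : ℝ :=
  if ∃ q : ℕ, q.Prime ∧ (N : ℝ) ^ (1 / 8 : ℝ) ≤ q ∧ q ^ 2 ∣ m then 1 else 0

lemma g3_bd (N m : ℕ) : 0 ≤ g3 N m ∧ g3 N m ≤ 1 := by
  unfold g3; split_ifs <;> norm_num

lemma bq8_nonneg (N m : ℕ) : 0 ≤ bq8 N m := by
  unfold bq8; split_ifs <;> norm_num

lemma g3_le_ro {N y : ℕ} (hy : (y : ℝ) < (N : ℝ) ^ (1 / 8 : ℝ)) (m : ℕ) : g3 N m ≤ ro y m := by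
  classical
  unfold g3 ro
  by_cases h : m ≠ 0 ∧ m.primeFactorsList.length ≤ 3 ∧ ∀ q ∈ m.primeFactors, (N : ℝ) ^ (1 / 8 : ℝ) ≤ q
  · rw [if_pos h, if_pos]
    intro p hp hpy hpm
    have h1 := h.2.2 p (Nat.mem_primeFactors.2 ⟨hp, hpm, h.1⟩)
    have h2 : (p : ℝ) ≤ y := by exact_mod_cast hpy
    linarith
  · rw [if_neg h]
    split_ifs <;> norm_num

/-- the number of the prime factors -/
theorem struct8 {N m : ℕ} (hN : 257 ≤ N) (hm : m ≠ 0) (hm2 : m ≤ 2 * N) (hsq : Squarefree m)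
    (hbig : ∀ p ∈ m.primeFactors, (N : ℝ) ^ (1 / 8 : ℝ) ≤ p)
    (hS : (m.primeFactors.filter (fun q : ℕ => (q : ℝ) < (N : ℝ) ^ (1 / 3 : ℝ))).card ≤ 1) :
    m.primeFactorsList.length ≤ 3 := by
  classical
  have hN1 : (1 : ℝ) ≤ N := by exact_mod_cast (by omega : 1 ≤ N)
  have hN0 : (0 : ℝ) < N := by linarith
  have hlen : m.primeFactorsList.length = m.primeFactors.card := by
    rw [Nat.primeFactors, List.toFinset_card_of_nodup
      ((Nat.squarefree_iff_nodup_primeFactorsList hm).1 hsq)]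
  rw [hlen]
  by_contra hc
  push Not at hc
  set S := m.primeFactors.filter (fun q : ℕ => (q : ℝ) < (N : ℝ) ^ (1 / 3 : ℝ)) with hSd
  set B := m.primeFactors.filter (fun q : ℕ => ¬ (q : ℝ) < (N : ℝ) ^ (1 / 3 : ℝ)) with hBd
  have hcard : S.card + B.card = m.primeFactors.card := card_filter_add_card_filter_not _
  have hprod : (m : ℝ) = (∏ q ∈ S, (q : ℝ)) * ∏ q ∈ B, (q : ℝ) := by
    conv_lhs => rw [← Nat.prod_primeFactors_of_squarefree hsq]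
    push_cast
    exact (prod_filter_mul_prod_filter_not _ _ _).symm
  have h1 : ((N : ℝ) ^ (1 / 8 : ℝ)) ^ S.card ≤ ∏ q ∈ S, (q : ℝ) := by
    rw [← prod_const]
    exact prod_le_prod (fun _ _ => by positivity) fun q hq => hbig q (mem_filter.1 hq).1
  have h2 : ((N : ℝ) ^ (1 / 3 : ℝ)) ^ B.card ≤ ∏ q ∈ B, (q : ℝ) := by
    rw [← prod_const]
    exact prod_le_prod (fun _ _ => by positivity) fun q hq => not_lt.1 (mem_filter.1 hq).2
  have h3 : (N : ℝ) ^ (9 / 8 : ℝ) ≤ m := by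
    rw [hprod]
    refine le_trans ?_ (mul_le_mul h1 h2 (by positivity) (by positivity))
    rw [← Real.rpow_natCast, ← Real.rpow_natCast, ← Real.rpow_mul hN0.le, ← Real.rpow_mul hN0.le,
      ← Real.rpow_add hN0]
    apply Real.rpow_le_rpow_of_exponent_le hN1
    have h4 : (S.card : ℝ) + B.card ≥ 4 := by
      have : 4 ≤ S.card + B.card := by omega
      exact_mod_cast this
    have h5 : (S.card : ℝ) ≤ 1 := by exact_mod_cast hS
    linarith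
  have h4 : (N : ℝ) ^ (9 / 8 : ℝ) = N * (N : ℝ) ^ (1 / 8 : ℝ) := by
    rw [show (9 / 8 : ℝ) = 1 + 1 / 8 by norm_num, Real.rpow_add hN0, Real.rpow_one]
  have h5 : (2 : ℝ) < (N : ℝ) ^ (1 / 8 : ℝ) := by
    have h6 : (2 : ℝ) = (256 : ℝ) ^ (1 / 8 : ℝ) := by
      rw [show (256 : ℝ) = 2 ^ (8 : ℝ) by norm_num, ← Real.rpow_mul (by norm_num)]
      norm_num
    rw [h6]
    apply Real.rpow_lt_rpow (by norm_num) _ (by norm_num)
    have : (257 : ℝ) ≤ N := by exact_mod_cast hN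
    linarith
  have h6 : (m : ℝ) ≤ 2 * N := by exact_mod_cast hm2
  nlinarith

/-- from a positive weight to an almost prime -/
theorem ptwK {N y : ℕ} {κ : ℝ} (hN : 257 ≤ N) (hy : (N : ℝ) ^ κ ≤ y + 1)
    {m : ℕ} (hm : m ≠ 0) (hm2 : m ≤ 2 * N) :
    ro y m * Wk N κ m ≤ g3 N m + bq8 N m := by
  classical
  have hN2 : 2 ≤ N := by omega
  have hN1 : (1 : ℝ) ≤ N := by exact_mod_cast (by omega : 1 ≤ N)
  have hg := g3_bd N m
  have hb := bq8_nonneg N m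
  by_cases hro : Ro y m
  swap
  · unfold ro
    rw [if_neg hro, zero_mul]
    linarith
  have h1 : ro y m = 1 := by unfold ro; rw [if_pos hro]
  rw [h1, one_mul]
  by_cases hiu : ∀ p ∈ pr N κ (1 / 8), ¬ p ∣ m
  swap
  · unfold Wk iu
    rw [if_neg hiu, zero_mul]
    linarith
  have h2 : Wk N κ m = 1 - 1 / 2 * ∑ q ∈ pr N (1 / 8) (1 / 3), ind m q := by
    unfold Wk iu
    rw [if_pos hiu, one_mul]
  have hs0 : 0 ≤ ∑ q ∈ pr N (1 / 8) (1 / 3), ind m q := by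
    refine sum_nonneg fun q _ => ?_
    unfold ind
    split_ifs <;> norm_num
  by_cases hq : ∃ q : ℕ, q.Prime ∧ (N : ℝ) ^ (1 / 8 : ℝ) ≤ q ∧ q ^ 2 ∣ m
  · have hbq : bq8 N m = 1 := if_pos hq
    rw [h2, hbq]
    linarith
  have hcount : ∑ q ∈ pr N (1 / 8) (1 / 3), ind m q =
      (((pr N (1 / 8) (1 / 3)).filter (fun q => q ∣ m)).card : ℝ) := by
    unfold ind
    rw [card_filter]
    push_cast
    rfl
  rcases Nat.lt_or_ge 1 ((pr N (1 / 8) (1 / 3)).filter (fun q => q ∣ m)).card with hc | hc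
  · have h3 : (2 : ℝ) ≤ (((pr N (1 / 8) (1 / 3)).filter (fun q => q ∣ m)).card : ℝ) := by
      exact_mod_cast hc
    rw [h2, hcount]
    linarith
  have hbig : ∀ p ∈ m.primeFactors, (N : ℝ) ^ (1 / 8 : ℝ) ≤ p := by
    intro p hp
    have hpp := Nat.prime_of_mem_primeFactors hp
    have hpm := Nat.dvd_of_mem_primeFactors hp
    by_contra hlt
    push Not at hlt
    have hpy : y < p := by
      by_contra h
      exact hro p hpp (by omega) hpm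
    have hpk : (N : ℝ) ^ κ ≤ p := by
      have : (y : ℝ) + 1 ≤ p := by exact_mod_cast hpy
      linarith
    have hpN : p ≤ N := by
      have : (p : ℝ) ≤ N := by
        calc (p : ℝ) ≤ (N : ℝ) ^ (1 / 8 : ℝ) := hlt.le
          _ ≤ (N : ℝ) ^ (1 : ℝ) := Real.rpow_le_rpow_of_exponent_le hN1 (by norm_num)
          _ = N := Real.rpow_one _
      exact_mod_cast this
    exact hiu p (mem_pr.2 ⟨⟨hpp.pos, hpN⟩, hpp, (DC.le_tt_iff hN2 hpp.pos κ).2 hpk,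
      (DC.tt_lt_iff hN2 hpp.pos _).2 hlt⟩) hpm
  have hsq : Squarefree m := by
    rw [Nat.squarefree_iff_prime_squarefree]
    intro q hqp hqm
    refine hq ⟨q, hqp, hbig q (Nat.mem_primeFactors.2 ⟨hqp, (dvd_mul_right q q).trans hqm, hm⟩), ?_⟩
    rw [sq]
    exact hqm
  have hS : (m.primeFactors.filter (fun q : ℕ => (q : ℝ) < (N : ℝ) ^ (1 / 3 : ℝ))).card ≤ 1 := by
    refine le_trans (card_le_card fun q hq' => ?_) hc
    rw [mem_filter] at hq' ⊢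
    have hpp := Nat.prime_of_mem_primeFactors hq'.1
    have hpN : q ≤ N := by
      have : (q : ℝ) ≤ N := by
        calc (q : ℝ) ≤ (N : ℝ) ^ (1 / 3 : ℝ) := hq'.2.le
          _ ≤ (N : ℝ) ^ (1 : ℝ) := Real.rpow_le_rpow_of_exponent_le hN1 (by norm_num)
          _ = N := Real.rpow_one _
      exact_mod_cast this
    exact ⟨mem_pr.2 ⟨⟨hpp.pos, hpN⟩, hpp, (DC.le_tt_iff hN2 hpp.pos _).2 (hbig q hq'.1),
      (DC.tt_lt_iff hN2 hpp.pos _).2 hq'.2⟩, Nat.dvd_of_mem_primeFactors hq'.1⟩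
  have hg1 : g3 N m = 1 := by
    unfold g3
    rw [if_pos ⟨hm, struct8 hN hm hm2 hsq hbig hS, hbig⟩]
  rw [hg1, h2]
  linarith

open Classical in
/-- numbers `n ≤ N` such that `n + t` is divisible by the square of a large prime -/
theorem squares8 {N : ℕ} (hN : 2 ≤ N) (t : ℕ) (ht : t ≤ N) :
    ∑ n ∈ Icc 1 N, bq8 N (n + t) ≤ 12 * (N : ℝ) ^ (7 / 8 : ℝ) := by
  have hN1 : (1 : ℝ) ≤ N := by exact_mod_cast (by omega : 1 ≤ N)
  have hN0 : (0 : ℝ) < N := by linarith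
  have hy1 : (1 : ℝ) ≤ (N : ℝ) ^ (1 / 8 : ℝ) := Real.one_le_rpow hN1 (by norm_num)
  obtain ⟨k, hk⟩ : ∃ k : ℕ, k + 1 = ⌈(N : ℝ) ^ (1 / 8 : ℝ)⌉₊ := by
    have : 0 < ⌈(N : ℝ) ^ (1 / 8 : ℝ)⌉₊ := Nat.ceil_pos.2 (by linarith)
    exact ⟨⌈(N : ℝ) ^ (1 / 8 : ℝ)⌉₊ - 1, by omega⟩
  have h0 : ∀ n ∈ Icc 1 N, bq8 N (n + t) ≤
      ∑ q ∈ Ioo k (3 * N + 1), (if q ^ 2 ∣ n + t then (1 : ℝ) else 0) := by
    intro n hn
    rw [mem_Icc] at hn
    unfold bq8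
    split_ifs with h
    · obtain ⟨q, hq, hqN, hqd⟩ := h
      have h1 : q ^ 2 ≤ n + t := Nat.le_of_dvd (by omega) hqd
      have h5 : q ≤ q ^ 2 := Nat.le_self_pow (by norm_num) q
      have h6 : ⌈(N : ℝ) ^ (1 / 8 : ℝ)⌉₊ ≤ q := Nat.ceil_le.2 hqN
      have h7 : q ∈ Ioo k (3 * N + 1) := by rw [mem_Ioo]; omega
      refine le_trans ?_ (single_le_sum (f := fun q => if q ^ 2 ∣ n + t then (1 : ℝ) else 0)
        (fun q _ => by split_ifs <;> norm_num) h7)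
      simp only [if_pos hqd, le_refl]
    · exact sum_nonneg fun q _ => by split_ifs <;> norm_num
  have h1 : ∑ n ∈ Icc 1 N, bq8 N (n + t) ≤
      ∑ q ∈ Ioo k (3 * N + 1), ∑ n ∈ Icc 1 N, (if q ^ 2 ∣ n + t then (1 : ℝ) else 0) := by
    rw [sum_comm]
    exact sum_le_sum h0
  have h4 : ∑ q ∈ Ioo k (3 * N + 1), ∑ n ∈ Icc 1 N, (if q ^ 2 ∣ n + t then (1 : ℝ) else 0) ≤
      2 * N * ∑ q ∈ Ioo k (3 * N + 1), ((q : ℝ) ^ 2)⁻¹ := by
    rw [Finset.mul_sum]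
    apply Finset.sum_le_sum
    intro q hq
    have hq0 : 1 ≤ q := by have := (mem_Ioo.1 hq).1; omega
    have hq2 : 0 < q ^ 2 := by positivity
    have h5 : ∑ n ∈ Icc 1 N, (if q ^ 2 ∣ n + t then (1 : ℝ) else 0) ≤
        (((Ioc 0 (2 * N)).filter (fun n => q ^ 2 ∣ n)).card : ℝ) := by
      rw [← sum_filter, sum_const, nsmul_eq_mul, mul_one]
      have h6 : ((Icc 1 N).filter (fun n => q ^ 2 ∣ n + t)).card ≤
          ((Ioc 0 (2 * N)).filter (fun n => q ^ 2 ∣ n)).card := by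
        refine card_le_card_of_injOn (fun n => n + t) (fun n hn => ?_) (fun a _ b _ h => by
          simpa using h)
        rw [mem_coe, mem_filter, mem_Icc] at hn
        rw [mem_coe, mem_filter, mem_Ioc]
        refine ⟨?_, hn.2⟩
        change 0 < n + t ∧ n + t ≤ 2 * N
        omega
      exact_mod_cast h6
    refine h5.trans ?_
    rw [Nat.Ioc_filter_dvd_card_eq_div]
    refine Nat.cast_div_le.trans (le_of_eq ?_)
    push_cast
    rw [div_eq_mul_inv]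
  have h6 := sum_Ioo_inv_sq_le (α := ℝ) k (3 * N + 1)
  have h7 : (2 : ℝ) / (k + 1) ≤ 2 / (N : ℝ) ^ (1 / 8 : ℝ) := by
    apply div_le_div_of_nonneg_left (by norm_num) (by linarith)
    have h8 := Nat.le_ceil ((N : ℝ) ^ (1 / 8 : ℝ))
    rw [← hk] at h8
    push_cast at h8
    exact h8
  have h9 : (N : ℝ) / (N : ℝ) ^ (1 / 8 : ℝ) = (N : ℝ) ^ (7 / 8 : ℝ) := by
    rw [div_eq_iff (by positivity), ← Real.rpow_add hN0]
    norm_num
  calc _ ≤ 2 * N * ∑ q ∈ Ioo k (3 * N + 1), ((q : ℝ) ^ 2)⁻¹ := h1.trans h4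
    _ ≤ 2 * N * (2 / (N : ℝ) ^ (1 / 8 : ℝ)) := by
        have : (0 : ℝ) ≤ 2 * N := by positivity
        exact mul_le_mul_of_nonneg_left (h6.trans h7) this
    _ = 4 * ((N : ℝ) / (N : ℝ) ^ (1 / 8 : ℝ)) := by ring
    _ = 4 * (N : ℝ) ^ (7 / 8 : ℝ) := by rw [h9]
    _ ≤ _ := by
        have : 0 ≤ (N : ℝ) ^ (7 / 8 : ℝ) := by positivity
        linarith

/-- the error is part of the total discrepancy -/
lemma FK_le_LD {N y : ℕ} {κ : ℝ} (hN : 2 ≤ N) (hy : (y : ℝ) < (N : ℝ) ^ κ) (f : ℕ → ℝ) (t : ℕ) :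
    ∑ d ∈ FK N κ, |(∑ n ∈ Icc 1 N, f n * ro y (n + t) * ind (n + t) d) -
      (∑ n ∈ Icc 1 N, f n * ro y (n + t)) * (1 / (d : ℝ))| ≤
      LD y ⌊(N : ℝ) ^ (49 / 100 : ℝ)⌋₊ N f t := by
  classical
  unfold LD
  have hsub : FK N κ ⊆ SD y ⌊(N : ℝ) ^ (49 / 100 : ℝ)⌋₊ := by
    intro d hd
    rw [mem_FK] at hd
    refine mem_SD.2 ⟨hd.1, hd.2.1, fun p hp hpy hpd => ?_⟩
    have h1 := hd.2.2 p (Nat.mem_primeFactors.2 ⟨hp, hpd, by omega⟩)
    rw [DC.le_tt_iff hN hp.pos] at h1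
    have h2 : (p : ℝ) ≤ y := by exact_mod_cast hpy
    linarith
  refine le_trans (sum_le_sum fun d hd => ?_) (sum_le_sum_of_subset_of_nonneg hsub
    fun _ _ _ => mul_nonneg (by positivity) (abs_nonneg _))
  have e : (∑ n ∈ Icc 1 N, f n * ro y (n + t) * ind (n + t) d) -
      (∑ n ∈ Icc 1 N, f n * ro y (n + t)) * (1 / (d : ℝ)) =
      ∑ n ∈ Icc 1 N, f n * (ro y (n + t) * cen d (n + t)) := by
    rw [sum_mul, ← sum_sub_distrib]
    refine sum_congr rfl fun n _ => ?_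
    unfold cen ind
    ring
  rw [e]
  exact le_mul_of_one_le_left (abs_nonneg _) (one_le_pow₀ (by norm_num))

/-- **one shift** -/
theorem stepK : ∃ c₀ : ℝ, 0 < c₀ ∧ ∀ κ : ℝ, 0 < κ → κ ≤ 1 / 25 → ∃ N₀ : ℕ, ∀ N : ℕ, N₀ ≤ N →
    ∀ y : ℕ, (y : ℝ) < (N : ℝ) ^ κ → (N : ℝ) ^ κ ≤ y + 1 → ∀ f : ℕ → ℝ, (∀ n, 0 ≤ f n) →
    (∀ n, f n ≤ 1) → ∀ t ≤ N, c₀ * κ * (∑ n ∈ Icc 1 N, f n * ro y (n + t)) -
      2 * LD y ⌊(N : ℝ) ^ (49 / 100 : ℝ)⌋₊ N f t - 12 * (N : ℝ) ^ (7 / 8 : ℝ) ≤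
      ∑ n ∈ Icc 1 N, f n * g3 N (n + t) := by
  classical
  obtain ⟨c₀, hc₀, H⟩ := lowK
  refine ⟨c₀, hc₀, fun κ hκ hκ1 => ?_⟩
  obtain ⟨N₀, H⟩ := H κ hκ hκ1
  refine ⟨max N₀ 257, fun N hN y hy1 hy2 f hf0 hf1 t ht => ?_⟩
  have hN257 : 257 ≤ N := (le_max_right _ _).trans hN
  have hN2 : 2 ≤ N := by omega
  have h1 := H N ((le_max_left _ _).trans hN) (Icc 1 N) (fun n => f n * ro y (n + t)) (fun n => n + t)
    (∑ n ∈ Icc 1 N, f n * ro y (n + t)) (fun n _ => mul_nonneg (hf0 n) (ro_nonneg _ _))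
    (sum_nonneg fun n _ => mul_nonneg (hf0 n) (ro_nonneg _ _))
  have h2 := FK_le_LD hN2 hy1 f t
  have h3 : ∑ n ∈ Icc 1 N, f n * ro y (n + t) * Wk N κ (n + t) ≤
      ∑ n ∈ Icc 1 N, f n * g3 N (n + t) + ∑ n ∈ Icc 1 N, bq8 N (n + t) := by
    rw [← sum_add_distrib]
    refine sum_le_sum fun n hn => ?_
    rw [mem_Icc] at hn
    have h4 := mul_le_mul_of_nonneg_left (ptwK hN257 hy2 (m := n + t) (by omega) (by omega)) (hf0 n)
    have h5 : f n * bq8 N (n + t) ≤ bq8 N (n + t) := mul_le_of_le_one_left (bq8_nonneg _ _) (hf1 n)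
    nlinarith
  have h6 := squares8 hN2 t ht
  linarith

end Pool.Agent.J4.H38.SR
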