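import Mathlib
import Pool.Agent.J4.H38.SR.Short
import Pool.Agent.Y822.Up

/-! The upper bound for almost all sets of shifts in a short interval. -/

set_option autoImplicit false

namespace Pool.Agent.J4.H38.SR

open Finset Filter
open Pool.Agent.Y822
open Pool.Agent.H373R2.T7 (pz Vz mem_pz rhoA PerA lam_fund)
open Pool.Agent.H387R2.Uni (nuT Adm locT CT CT_nonneg)

/-- **primes with rough shifts**, sieving up to a small power of `N` -/
theorem main0K (k : ℕ) (ε : ℝ) (hε : 0 < ε) (hε1 : ε ≤ 1) : ∃ K : ℕ, 1 ≤ K ∧ ∀ U : ℕ, ∃ x0 : ℕ,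
    ∀ᶠ N : ℕ in atTop, ∀ y : ℕ, x0 ≤ y → y ^ K ≤ N →
    ∀ g : ℕ → ℝ, ∀ H : Finset ℕ, 0 ∉ H → H.card = k →
      |∑ n ∈ Icc 1 N, WH eP g (ro y) H ∅ n -
        N / Real.log N * (PT (pat H) y * Vz y ^ k)| ≤
      ε * (N / Real.log N * (PT (pat H) y * Vz y ^ k)) + N / Real.log N ^ U := by
  classical
  obtain ⟨K, hK, hfund⟩ := lam_fund (k + 1) (by omega) (ε / 4) (by positivity)
  refine ⟨K, hK, fun U => ?_⟩
  obtain ⟨x0, hx0⟩ := hfund (U + 1)
  refine ⟨x0, ?_⟩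
  have e1 := ev_logN (ev_log_pow 1 ((U + 1) * 8 / ε))
  have e2 := ev_logN (eventually_ge_atTop (8 : ℝ))
  have e3 := ev_logN (ev_pow_exp (U + 1) (1 / 2) 8 (by norm_num))
  have e4 := ev_logN (ev_pow_exp (U + 1) 1 1 (by norm_num))
  filter_upwards [e1, e2, e3, e4, eventually_ge_atTop 3] with N h1 h2 h3 h4 hN y y5 y4
    g H h0 hH
  set L := Real.log N with hL
  have hL0 : 0 < L := by linarith
  have hN0 : (0 : ℝ) < N := by positivity
  have hNe : (N : ℝ) = Real.exp L := by rw [hL, Real.exp_log hN0]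
  rw [pow_one] at h1
  rw [WH_rough]
  have hmain := hx0 N y y5 y4 (QT H) (perA_QT h0 k hH) N le_rfl
  rw [prod_rho h0 k hH y] at hmain
  set P := PT (pat H) y * Vz y ^ k with hP
  have hP0 : 0 ≤ P := by
    rw [hP]
    refine mul_nonneg (PT_nonneg (pat H) y) (pow_nonneg ?_ k)
    unfold Vz
    refine prod_nonneg fun p hp => ?_
    have : (1 : ℝ) ≤ p := by exact_mod_cast (mem_pz.1 hp).2.one_lt.le
    rw [sub_nonneg, div_le_one (by linarith)]
    exact this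
  obtain ⟨S, hS⟩ : ∃ S, S = ∑ n ∈ (Icc 1 N).filter (BT H y),
    ArithmeticFunction.vonMangoldt n := ⟨_, rfl⟩
  obtain ⟨C, hC⟩ : ∃ C, C = (((Icc 1 N).filter (fun n => n.Prime ∧ BT H y n)).card : ℝ) := ⟨_, rfl⟩
  have hmain' : |S - N * P| ≤ ε / 4 * (N * P) + N / L ^ (U + 1) := by
    rw [hS]
    refine le_trans (le_of_eq ?_) hmain
    congr 2
    refine sum_congr ?_ fun _ _ => rfl
    ext n
    rw [mem_filter, mem_filter]
    exact Iff.rfl
  have hlow := count_low (BT H y) N (by omega)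
  have hlow' : S - 2 * Real.sqrt N * L ≤ L * C := by
    rw [hS, hC]
    exact hlow
  have hC0 : 0 ≤ C := by rw [hC]; exact Nat.cast_nonneg _
  have hNP : 0 ≤ N / L * P := by positivity
  have hm := abs_le.1 hmain'
  -- logarithm of `N / L^(U+1)`
  set x := (N : ℝ) / L ^ (U + 1) with hx
  have hLU : 0 < L ^ (U + 1) := by positivity
  have hx1 : 1 ≤ x := by
    rw [hx, le_div_iff₀ hLU, one_mul, hNe]
    have := h4
    rwa [one_mul, one_mul] at this
  have hxN : x ≤ N := div_le_self hN0.le (one_le_pow₀ (by linarith))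
  have hlx : Real.log x = L - (U + 1) * Real.log L := by
    rw [hx, Real.log_div hN0.ne' hLU.ne', Real.log_pow]
    push_cast
    rfl
  have hlx2 : (1 - ε / 8) * L ≤ Real.log x := by
    rw [hlx]
    have : (U + 1) * Real.log L ≤ ε / 8 * L := by
      have h5 : (U + 1) * 8 / ε * Real.log L * (ε / 8) ≤ L * (ε / 8) :=
        mul_le_mul_of_nonneg_right h1 (by positivity)
      have h6 : (U + 1) * 8 / ε * Real.log L * (ε / 8) = (U + 1) * Real.log L := by field_simp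
      rw [h6] at h5
      linarith
    nlinarith
  have hup := count_up (BT H y) N x hx1
  have hup' : Real.log x * C ≤ S + Real.log x * x := by
    rw [hS, hC]
    exact hup
  have hlx0 : 0 < Real.log x := lt_of_lt_of_le (by nlinarith) hlx2
  -- error terms
  have hxL : N / L ^ (U + 1) = N / L ^ U / L := by
    rw [pow_succ]
    field_simp
  set R := (N : ℝ) / L ^ U with hR
  have hR0 : 0 ≤ R := by positivity
  have hxR : x = R / L := hxL
  have hRL : R / L ≤ R / 8 := div_le_div_of_nonneg_left hR0 (by norm_num) h2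
  have hsq : 2 * Real.sqrt N ≤ R / L / 4 := by
    have h5 : Real.sqrt N = Real.exp (L / 2) := by
      rw [hNe, Real.exp_half]
    have h6 : (N : ℝ) = Real.exp (L / 2) * Real.exp (L / 2) := by
      rw [← Real.exp_add, hNe]; congr 1; ring
    rw [← hxL, h5, le_div_iff₀ (by norm_num), le_div_iff₀ hLU]
    have h7 : 8 * L ^ (U + 1) ≤ Real.exp (L / 2) := by
      have : (1 : ℝ) / 2 * L = L / 2 := by ring
      rw [← this]; exact h3
    calc 2 * Real.exp (L / 2) * 4 * L ^ (U + 1) = Real.exp (L / 2) * (8 * L ^ (U + 1)) := by ring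
      _ ≤ Real.exp (L / 2) * Real.exp (L / 2) := mul_le_mul_of_nonneg_left h7 (Real.exp_pos _).le
      _ = N := h6.symm
  have hNPL : N * P = L * (N / L * P) := by field_simp
  rw [hxR, hNPL] at hm
  rw [← hC]
  set Q := N / L * P with hQ
  have hdiv : ∀ a b : ℝ, L * a ≤ L * b → a ≤ b := fun a b h => le_of_mul_le_mul_left h hL0
  rw [abs_le]
  constructor
  · -- lower bound
    apply hdiv
    have h5 : L * (R / L) = R := by field_simp
    nlinarith [hm.1]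
  · -- upper bound
    have h6 : (1 - ε / 8) * L * C ≤ S + Real.log x * x := by
      refine le_trans ?_ hup'
      exact mul_le_mul_of_nonneg_right hlx2 hC0
    have hlxL : Real.log x ≤ L := by
      rw [hlx]
      have : 0 ≤ (U + 1) * Real.log L := by
        have := Real.log_nonneg (by linarith : (1 : ℝ) ≤ L)
        positivity
      linarith
    have h7 : Real.log x * x ≤ L * (R / L) := by
      rw [← hxR]
      exact mul_le_mul_of_nonneg_right hlxL (by linarith)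
    have h8 : (1 - ε / 8) * L * C ≤ L * ((1 + ε / 4) * Q + (R / L) / L + R / L) := by
      have e9 : L * ((R / L) / L) = R / L := by field_simp
      nlinarith [hm.2]
    have h9 : (1 - ε / 8) * C ≤ (1 + ε / 4) * Q + (R / L) / L + R / L := by
      apply hdiv
      linarith
    have h10 : (R / L) / L ≤ R / 64 := by
      have : (R / L) / L ≤ (R / 8) / 8 :=
        div_le_div₀ (by positivity) hRL (by norm_num) h2
      linarith
    have h11 : (1 - ε / 8) * C ≤ (1 + ε / 4) * Q + R / 4 := by linarith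
    have h12 : (1 + ε / 4) * Q + R / 4 ≤ (1 - ε / 8) * ((1 + ε) * Q + R) := by
      nlinarith [mul_nonneg hε.le hNP, mul_nonneg hε.le hR0]
    have h13 : C ≤ (1 + ε) * Q + R := le_of_mul_le_mul_left (h11.trans h12) (by linarith)
    linarith

/-- the final computation -/
lemma up_calcS {k : ℕ} {x ε c0 L n u V PTy W xN zr CTy P δ : ℝ} (hx : 0 < x) (hx8 : x ≤ 1 / 8)
    (hε : 0 < ε) (hc0 : 0 < c0) (hL : 1 ≤ L) (hn : 0 < n)
    (hx4 : (1 + x) ^ 2 * (4 / (1 - 4 * x)) ^ (k + 1) ≤ 4 ^ (k + 1) + ε / 2)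
    (hδ : 0 ≤ δ) (hδe : (k + 4) * δ ≤ ε / 2 * c0) (hu0 : 0 ≤ u) (hu1 : u ≤ 1) (hV : 0 ≤ V)
    (huV : u * V ≤ 4 / (1 - 4 * x) / L) (_hPT0 : 0 ≤ PTy) (hc : c0 ≤ CTy)
    (hPT : PTy ≤ (1 + x) * CTy)
    (hW : W ≤ (1 + x) * (n / L * (PTy * V ^ (k + 1))) + xN) (hxN : xN = δ * (n / L ^ (k + 2)))
    (hz : zr ≤ xN) (hP : P ≤ u ^ (k + 1) * W + (k + 1) * xN + zr) :
    P ≤ (4 ^ (k + 1) + ε) * CTy * (n / L ^ (k + 2)) := by
  have hL0 : 0 < L := by linarith
  have hxN0 : 0 ≤ xN := by rw [hxN]; positivity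
  have hCT0 : 0 < CTy := by linarith
  have h14 : 0 < 1 - 4 * x := by linarith
  have g1 : u ^ (k + 1) * W ≤ u ^ (k + 1) * ((1 + x) * (n / L * (PTy * V ^ (k + 1))) + xN) :=
    mul_le_mul_of_nonneg_left hW (pow_nonneg hu0 _)
  have g2 : u ^ (k + 1) * xN ≤ xN := by
    have : u ^ (k + 1) ≤ 1 := pow_le_one₀ hu0 hu1
    calc u ^ (k + 1) * xN ≤ 1 * xN := mul_le_mul_of_nonneg_right this hxN0
      _ = xN := one_mul _
  have g3 : u ^ (k + 1) * ((1 + x) * (n / L * (PTy * V ^ (k + 1)))) =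
      (1 + x) * (n / L) * PTy * (u * V) ^ (k + 1) := by
    rw [mul_pow]; ring
  have g4 : (u * V) ^ (k + 1) ≤ (4 / (1 - 4 * x) / L) ^ (k + 1) :=
    pow_le_pow_left₀ (mul_nonneg hu0 hV) huV _
  have hnL : 0 ≤ n / L := by positivity
  have g5 : (1 + x) * (n / L) * PTy * (u * V) ^ (k + 1) ≤
      (1 + x) * (n / L) * ((1 + x) * CTy) * (4 / (1 - 4 * x) / L) ^ (k + 1) := by
    refine mul_le_mul ?_ g4 (pow_nonneg (mul_nonneg hu0 hV) _) ?_
    · exact mul_le_mul_of_nonneg_left hPT (mul_nonneg (by linarith) hnL)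
    · exact mul_nonneg (mul_nonneg (by linarith) hnL) (mul_nonneg (by linarith) hCT0.le)
  have g6 : (1 + x) * (n / L) * ((1 + x) * CTy) * (4 / (1 - 4 * x) / L) ^ (k + 1) =
      ((1 + x) ^ 2 * (4 / (1 - 4 * x)) ^ (k + 1)) * (CTy * (n / L ^ (k + 2))) := by
    rw [div_pow _ L, show k + 2 = k + 1 + 1 by ring, pow_succ L (k + 1)]
    field_simp
  have g7 : ((1 + x) ^ 2 * (4 / (1 - 4 * x)) ^ (k + 1)) * (CTy * (n / L ^ (k + 2))) ≤
      (4 ^ (k + 1) + ε / 2) * (CTy * (n / L ^ (k + 2))) :=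
    mul_le_mul_of_nonneg_right hx4 (by positivity)
  rw [mul_add, g3] at g1
  rw [g6] at g5
  have herr : ((k : ℝ) + 4) * xN ≤ ε / 2 * (CTy * (n / L ^ (k + 2))) := by
    have f1 : ((k : ℝ) + 4) * δ ≤ ε / 2 * CTy := by
      have : ε / 2 * c0 ≤ ε / 2 * CTy := mul_le_mul_of_nonneg_left hc (by positivity)
      linarith
    rw [hxN]
    have f2 := mul_le_mul_of_nonneg_right f1 (by positivity : 0 ≤ n / L ^ (k + 2))
    calc ((k : ℝ) + 4) * (δ * (n / L ^ (k + 2))) = ((k : ℝ) + 4) * δ * (n / L ^ (k + 2)) := by ring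
      _ ≤ ε / 2 * CTy * (n / L ^ (k + 2)) := f2
      _ = _ := by ring
  have e : (4 ^ (k + 1) + ε) * CTy * (n / L ^ (k + 2)) =
    (4 ^ (k + 1) + ε / 2) * (CTy * (n / L ^ (k + 2))) + ε / 2 * (CTy * (n / L ^ (k + 2))) := by ring
  rw [e]
  linarith

/-- the sieve step -/
lemma sieve_stepS {y z N : ℕ} (hyz : y ≤ z) {c : ℕ → ℝ}
    (h1 : ∀ m : ℕ, 0 ≤ ∑ d ∈ Icc 1 (z ^ 2), c d * (if d ∣ m then 1 else 0))
    (h2 : ∀ m : ℕ, (∀ p ∈ PP y z, ¬ p ∣ m) →
      ∑ d ∈ Icc 1 (z ^ 2), c d * (if d ∣ m then 1 else 0) = 1)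
    (f : ℕ → ℝ) (hf : ∀ n, 0 ≤ f n ∧ f n ≤ 1) (h : ℕ) :
    ∑ n ∈ Icc 1 N, f n * ro z (n + h) ≤ (∑ d ∈ Icc 1 (z ^ 2), c d / d) *
      ∑ n ∈ Icc 1 N, f n * ro y (n + h) +
        ∑ n ∈ Icc 1 N, f n * GF y (z ^ 2) c (n + h) := by
  have hpt : ∀ m : ℕ, ro z m ≤ (∑ d ∈ Icc 1 (z ^ 2), c d / d) * ro y m + GF y (z ^ 2) c m := by
    intro m
    have e : (∑ d ∈ Icc 1 (z ^ 2), c d / d) * ro y m + GF y (z ^ 2) c m =
        ro y m * ∑ d ∈ Icc 1 (z ^ 2), c d * (if d ∣ m then 1 else 0) := by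
      unfold GF cen
      simp only [mul_sub, sum_sub_distrib]
      have : ∑ d ∈ Icc 1 (z ^ 2), c d * (1 / (d : ℝ)) = ∑ d ∈ Icc 1 (z ^ 2), c d / d :=
        sum_congr rfl fun d _ => by ring
      rw [this]
      ring
    rw [e]
    by_cases hm : Ro z m
    · have hy : Ro y m := fun p hp hpy => hm p hp (hpy.trans hyz)
      have hPP : ∀ p ∈ PP y z, ¬ p ∣ m := fun p hp => hm p (mem_PP.1 hp).2 (mem_PP.1 hp).1.2
      rw [h2 m hPP, mul_one]
      unfold ro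
      rw [if_pos hm, if_pos hy]
    · have : ro z m = 0 := by unfold ro; rw [if_neg hm]
      rw [this]
      exact mul_nonneg (ro_nonneg y m) (h1 m)
  calc ∑ n ∈ Icc 1 N, f n * ro z (n + h)
      ≤ ∑ n ∈ Icc 1 N, f n * ((∑ d ∈ Icc 1 (z ^ 2), c d / d) * ro y (n + h) +
          GF y (z ^ 2) c (n + h)) :=
        sum_le_sum fun n _ => mul_le_mul_of_nonneg_left (hpt _) (hf n).1
    _ = (∑ d ∈ Icc 1 (z ^ 2), c d / d) * ∑ n ∈ Icc 1 N, f n * ro y (n + h) +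
          ∑ n ∈ Icc 1 N, f n * GF y (z ^ 2) c (n + h) := by
        rw [mul_sum, ← sum_add_distrib]
        refine sum_congr rfl fun n _ => ?_
        ring

/-- one good set of shifts -/
lemma good_boundS {k : ℕ} {x ε c0 δ : ℝ} (hx : 0 < x) (hx8 : x ≤ 1 / 8) (hε : 0 < ε) (hc0 : 0 < c0)
    (hx4 : (1 + x) ^ 2 * (4 / (1 - 4 * x)) ^ (k + 1) ≤ 4 ^ (k + 1) + ε / 2) {N y z : ℕ}
    (hN : 3 ≤ N) (hL : 1 ≤ Real.log N) (hδ : 0 ≤ δ) (hδe : (k + 4) * δ ≤ ε / 2 * c0)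
    (hz1 : 1 ≤ z) (hlz : (1 / 4 - x) * Real.log N ≤ Real.log z) (hyz : y ≤ z)
    (hzx : (z : ℝ) ≤ δ * (N / Real.log N ^ (k + 2)))
    {c : ℕ → ℝ}
    (s1 : ∀ m : ℕ, 0 ≤ ∑ d ∈ Icc 1 (z ^ 2), c d * (if d ∣ m then 1 else 0))
    (s2 : ∀ m : ℕ, (∀ p ∈ PP y z, ¬ p ∣ m) →
      ∑ d ∈ Icc 1 (z ^ 2), c d * (if d ∣ m then 1 else 0) = 1)
    (s3 : ∑ d ∈ Icc 1 (z ^ 2), c d / d = 1 / Pool.Agent.W25.UB.GG (PP y z) z)
    {H : Finset ℕ} (hH : H.card = k + 1) (h0 : 0 ∉ H)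
    (hgood : Good eP (ro z) (ro y) (fun f t => ∑ n ∈ Icc 1 N, f n * GF y (z ^ 2) c (n + t))
      (δ * (N / Real.log N ^ (k + 2))) H)
    (hm0 : |∑ n ∈ Icc 1 N, WH eP (ro z) (ro y) H ∅ n -
        N / Real.log N * (PT (pat H) y * Vz y ^ (k + 1))| ≤
      x * (N / Real.log N * (PT (pat H) y * Vz y ^ (k + 1))) + δ * (N / Real.log N ^ (k + 2)))
    (hct : c0 ≤ CT (pat H)) (hpt : PT (pat H) y ≤ (1 + x) * CT (pat H)) :
    (piH H N : ℝ) ≤ (4 ^ (k + 1) + ε) * CT (pat H) * (N / Real.log N ^ (k + 2)) := by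
  have hN0 : (0 : ℝ) < N := by positivity
  have hGG := one_le_GG y z hz1
  have hL0 : 0 < Real.log N := by linarith
  have hu0 : 0 ≤ ∑ d ∈ Icc 1 (z ^ 2), c d / d := by
    rw [s3]; exact div_nonneg zero_le_one (by linarith)
  have hu1 : ∑ d ∈ Icc 1 (z ^ 2), c d / d ≤ 1 := by
    rw [s3]; exact div_le_one_of_le₀ hGG (by linarith)
  have hxN0 : 0 ≤ δ * ((N : ℝ) / Real.log N ^ (k + 2)) := by positivity
  have t1 := step_upper hxN0 hu0 hu1 eP_bd (ro_bd z) (ro_bd y) (N := N)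
    (fun f hf h hfh => (sieve_stepS hyz s1 s2 f hf h).trans (by linarith)) hgood H (subset_refl H)
  rw [hH] at t1
  have t3 := piH_le H N z (ro y)
  refine up_calcS (u := ∑ d ∈ Icc 1 (z ^ 2), c d / d) (V := Vz y) (PTy := PT (pat H) y)
    (W := ∑ n ∈ Icc 1 N, WH eP (ro z) (ro y) H ∅ n) (zr := z) hx hx8 hε hc0 hL hN0 hx4 hδ hδe hu0 hu1
    (Vz_nonneg y) ?_ (PT_nonneg _ _) hct hpt ?_ rfl hzx ?_
  · have g1 := GG_low y z hz1
    have h14 : 0 < 1 / 4 - x := by linarith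
    have g2 : 0 < Real.log z := lt_of_lt_of_le (mul_pos h14 hL0) hlz
    have g3 : (∑ d ∈ Icc 1 (z ^ 2), c d / d) * Vz y ≤ 1 / Real.log z := by
      rw [s3, one_div_mul_eq_div, div_le_div_iff₀ (by linarith) g2]
      linarith
    refine g3.trans ?_
    have g4 : 4 / (1 - 4 * x) / Real.log N = 1 / ((1 / 4 - x) * Real.log N) := by
      have h1 : 1 - 4 * x = 4 * (1 / 4 - x) := by ring
      rw [h1]
      have h2 := h14.ne'
      field_simp
    rw [g4]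
    exact one_div_le_one_div_of_le (mul_pos h14 hL0) hlz
  · have := (abs_le.1 hm0).2
    linarith
  · push_cast at t1
    linarith


/-- `ro` is antitone in the sifting limit -/
lemma ro_anti {y z : ℕ} (h : y ≤ z) (n : ℕ) : ro z n ≤ ro y n := by
  by_cases hz : Ro z n
  · have hy : Ro y n := fun p hp hpy => hz p hp (hpy.trans h)
    unfold ro
    rw [if_pos hz, if_pos hy]
  · have : ro z n = 0 := by unfold ro; rw [if_neg hz]
    rw [this]
    exact ro_nonneg y n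

/-- powers of the sifting limit -/
lemma yK_pow {κ : ℝ} (_hκ : 0 < κ) {m N : ℕ} (hN : 1 ≤ N) (hm : κ * m ≤ 1)
    (hy : (yK κ N : ℝ) ≤ Real.exp (κ * Real.log N)) : yK κ N ^ m ≤ N := by
  have hN0 : (0 : ℝ) < N := by exact_mod_cast (by omega : 0 < N)
  have hL0 : 0 ≤ Real.log N := Real.log_nonneg (by exact_mod_cast hN)
  have h1 : ((yK κ N : ℝ)) ^ m ≤ N := by
    calc ((yK κ N : ℝ)) ^ m ≤ (Real.exp (κ * Real.log N)) ^ m :=
          pow_le_pow_left₀ (Nat.cast_nonneg _) hy m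
      _ = Real.exp ((κ * m) * Real.log N) := by
          rw [← Real.exp_nat_mul]
          congr 1
          ring
      _ ≤ Real.exp (1 * Real.log N) := Real.exp_le_exp.2 (mul_le_mul_of_nonneg_right hm hL0)
      _ = N := by rw [one_mul, Real.exp_log hN0]
  exact_mod_cast h1

/-- **the upper bound for almost all sets of shifts of an interval of length at least `Λ log N`** -/
theorem upper_short (k : ℕ) (ε ε' : ℝ) (hε : 0 < ε) (hε' : 0 < ε') : ∃ Λ : ℝ, 0 < Λ ∧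
    ∀ᶠ N : ℕ in atTop, ∀ H : ℕ, Λ * Real.log N ≤ H → H ≤ N → ∀ Bad : Finset (Finset ℕ),
    (∀ D ∈ Bad, D ∈ (Icc 1 H).powersetCard (k + 1) ∧ Adm (pat D) ∧
      (4 ^ (k + 1) + ε) * CT (pat D) * (N / Real.log N ^ (k + 2)) < piH D N) →
    (Bad.card : ℝ) ≤ ε' * (H : ℝ) ^ (k + 1) := by
  classical
  obtain ⟨x, hx, hx8, hx4⟩ := exists_small (k + 1) (ε / 2) (by positivity)
  obtain ⟨c0, hc0, hlow⟩ := PT_low (k + 1)
  obtain ⟨K, hK, hmain⟩ := main0K (k + 1) x hx (by linarith)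
  obtain ⟨x0, hm0⟩ := hmain (k + 3)
  set δ : ℝ := ε * c0 / (2 * (k + 4)) with hδ
  have hδ0 : 0 < δ := by positivity
  have hδe : ((k : ℝ) + 4) * δ ≤ ε / 2 * c0 := by
    rw [hδ]
    field_simp
    exact le_rfl
  obtain ⟨κ, Λ, hκ, hκm, hκh, hΛ, hfew⟩ := few_short k hx (by linarith : x ≤ 1 / 2) hδ0 hε'
    (by positivity : (0 : ℝ) < 1 / (K + 8))
  obtain ⟨M, hM⟩ : ∃ M : ℕ, M = ⌈((k : ℝ) + 2) ^ 2 * (2 / x)⌉₊ + 1 := ⟨_, rfl⟩
  refine ⟨Λ, hΛ, ?_⟩
  have hκ8 : κ * (8 : ℕ) ≤ 1 := by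
    rw [le_div_iff₀ (by positivity)] at hκm
    have : 0 ≤ κ * K := by positivity
    push_cast
    nlinarith
  have hκK : κ * K ≤ 1 := by
    rw [le_div_iff₀ (by positivity)] at hκm
    nlinarith
  filter_upwards [hfew, hm0, yK_facts κ hκ (by linarith) (M + x0 + 2),
    ev_logN (eventually_ge_atTop (max 1 (max (8 / x) (1 / δ)))),
    ev_small (k + 2) (by norm_num : (0 : ℝ) < 1 / 2) 1 hδ0, eventually_ge_atTop 3]
    with N h1 h2 hyf h3 h4 hN H hH1 hHN Bad hBad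
  obtain ⟨y1, _, y2, y3, y4, y5⟩ := hyf
  have hL1 : 1 ≤ Real.log N := (le_max_left _ _).trans h3
  have hL8 : 8 / x ≤ Real.log N := ((le_max_left _ _).trans (le_max_right _ _)).trans h3
  have hLδ : 1 / δ ≤ Real.log N := ((le_max_right _ _).trans (le_max_right _ _)).trans h3
  have hL0 : 0 < Real.log N := by linarith
  have hN0 : (0 : ℝ) < N := by positivity
  set y := yK κ N with hyd
  have hy8 : y ^ 8 ≤ N := yK_pow hκ (by omega) hκ8 y1
  have hyK : y ^ K ≤ N := yK_pow hκ (by omega) hκK y1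
  obtain ⟨z, hz1, hz2, hz3, hz4, hz5⟩ := z_facts x hx hx8 N y hN hy8 hL8
  obtain ⟨c, hc, s1, s2, s3⟩ := sel y z hz1
  have hzx : (z : ℝ) ≤ δ * (N / Real.log N ^ (k + 2)) := by
    refine hz5.trans ?_
    have e : (1 - 1 / 2) * Real.log N = Real.log N / 2 := by ring
    rw [e, one_mul] at h4
    exact h4
  have hz2N : ((z ^ 2 : ℕ) : ℝ) ≤ Real.exp ((1 / 2 - x) * Real.log N) := by
    refine hz4.trans (le_of_eq ?_)
    rw [Real.rpow_def_of_pos hN0]
    congr 1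
    ring
  have herr : (N : ℝ) / Real.log N ^ (k + 3) ≤ δ * (N / Real.log N ^ (k + 2)) := by
    rw [pow_succ (Real.log N) (k + 2), ← div_div, mul_comm δ, div_le_iff₀ hL0]
    have h5 : 1 ≤ δ * Real.log N := by
      rw [div_le_iff₀ hδ0] at hLδ
      linarith
    have h6 : 0 ≤ (N : ℝ) / Real.log N ^ (k + 2) := by positivity
    calc (N : ℝ) / Real.log N ^ (k + 2) = N / Real.log N ^ (k + 2) * 1 := (mul_one _).symm
      _ ≤ N / Real.log N ^ (k + 2) * (δ * Real.log N) := mul_le_mul_of_nonneg_left h5 h6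
      _ = _ := by ring
  refine h1 (z ^ 2) hz2N c hc (ro z) (fun n => ⟨ro_nonneg z n, ro_anti hz3 n⟩) H hH1 hHN Bad ?_
  intro D hD
  obtain ⟨b1, b2, b3⟩ := hBad D hD
  refine ⟨b1, fun hg => ?_⟩
  rw [mem_powersetCard] at b1
  have h0 : 0 ∉ D := fun h => by
    have := (mem_Icc.1 (b1.1 h)).1
    omega
  obtain ⟨c1, c2⟩ := hlow (pat D) (by rw [card_pat h0, b1.2]) b2
  have hpt : PT (pat D) y ≤ (1 + x) * CT (pat D) := by
    have hy1 : 1 ≤ M := by omega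
    refine PT_le_CT (pat D) x hx (by linarith) y ?_ (by omega)
    rw [card_pat h0, b1.2]
    have g1 : ((k : ℝ) + 2) ^ 2 * (2 / x) ≤ M := by
      rw [hM]
      push_cast
      have := Nat.le_ceil (((k : ℝ) + 2) ^ 2 * (2 / x))
      linarith
    have g2 : (M : ℝ) ≤ y := by exact_mod_cast (by omega : M ≤ y)
    have e : (((k + 1 + 1 : ℕ) : ℝ)) ^ 2 = ((k : ℝ) + 2) ^ 2 := by push_cast; ring
    rw [e]
    linarith
  have hmn := h2 y (by omega) hyK (ro z) D h0 b1.2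
  have := good_boundS hx hx8 hε hc0 hx4 hN hL1 hδ0.le hδe hz1 hz2 hz3 hzx s1 s2 s3 b1.2 h0 hg
    (hmn.trans (by linarith)) c2 hpt
  linarith

end Pool.Agent.J4.H38.SR
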