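import Mathlib
import Pool.Agent.J4.H38.SR.Kuhn3
import Pool.Agent.J4.H38.SR.UpS

/-! Primes with almost prime shifts, for almost all sets of shifts in a short interval. -/

set_option autoImplicit false

namespace Pool.Agent.J4.H38.SR

open Finset Filter
open Pool.Agent.Y822
open Pool.Agent.Y822.Low (step_lower')
open Pool.Agent.H373R2.T7 (pz Vz mem_pz)
open Pool.Agent.H387R2.Uni (nuT Adm locT CT CT_nonneg)

/-- the final computation -/
lemma low_calcK {k : ℕ} {cs cp L n u V PTy W e x CTy P : ℝ} (hcs : 0 < cs) (hcp : 0 < cp) (hL : 1 ≤ L)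
    (hn : 0 < n) (hu0 : 0 ≤ u) (hu1 : u ≤ 1) (_hV : 0 ≤ V)
    (huV : cs / L ≤ u * V) (hPT0 : 0 ≤ PTy) (hc : cp ≤ CTy) (hPT : CTy ≤ 2 * PTy)
    (hW : 1 / 2 * (n / L * (PTy * V ^ (k + 1))) - e ≤ W) (he0 : 0 ≤ e)
    (he : e ≤ 1 / 16 * cs ^ (k + 1) * cp * (n / L ^ (k + 2)))
    (hx : (k + 1) * x ≤ 1 / 16 * cs ^ (k + 1) * cp * (n / L ^ (k + 2)))
    (hP : u ^ (k + 1) * W - (k + 1) * x ≤ P) :
    (cs / 8) ^ (k + 1) * CTy * (n / L ^ (k + 2)) ≤ P := by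
  have hL0 : 0 < L := by linarith
  have hCT0 : 0 < CTy := by linarith
  have hcsp : 0 < cs ^ (k + 1) := by positivity
  set X := n / L ^ (k + 2) with hX
  have hX0 : 0 < X := by positivity
  have g1 : u ^ (k + 1) * (1 / 2 * (n / L * (PTy * V ^ (k + 1))) - e) ≤ u ^ (k + 1) * W :=
    mul_le_mul_of_nonneg_left hW (pow_nonneg hu0 _)
  have g2 : u ^ (k + 1) * e ≤ e := mul_le_of_le_one_left he0 (pow_le_one₀ hu0 hu1)
  have g4 : (cs / L) ^ (k + 1) ≤ (u * V) ^ (k + 1) := pow_le_pow_left₀ (by positivity) huV _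
  have g3 : 1 / 2 * cs ^ (k + 1) * PTy * X ≤ u ^ (k + 1) * (1 / 2 * (n / L * (PTy * V ^ (k + 1)))) := by
    calc 1 / 2 * cs ^ (k + 1) * PTy * X = 1 / 2 * (n / L) * PTy * (cs / L) ^ (k + 1) := by
          rw [hX, div_pow, pow_succ L (k + 1)]
          field_simp
      _ ≤ 1 / 2 * (n / L) * PTy * (u * V) ^ (k + 1) := mul_le_mul_of_nonneg_left g4 (by positivity)
      _ = _ := by rw [mul_pow]; ring
  have g5 : 1 / 4 * cs ^ (k + 1) * CTy * X ≤ 1 / 2 * cs ^ (k + 1) * PTy * X := by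
    have h3 := mul_le_mul_of_nonneg_left hPT (by positivity : 0 ≤ 1 / 4 * cs ^ (k + 1) * X)
    linarith
  have g6 : 1 / 16 * cs ^ (k + 1) * cp * X ≤ 1 / 16 * cs ^ (k + 1) * CTy * X := by gcongr
  have g7 : (cs / 8) ^ (k + 1) * CTy * X ≤ 1 / 8 * cs ^ (k + 1) * CTy * X := by
    have h3 : (cs / 8) ^ (k + 1) ≤ 1 / 8 * cs ^ (k + 1) := by
      rw [div_pow]
      have h4 : (8 : ℝ) ≤ 8 ^ (k + 1) := by
        calc (8 : ℝ) = 8 ^ 1 := by norm_num
          _ ≤ 8 ^ (k + 1) := pow_le_pow_right₀ (by norm_num) (by omega)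
      calc cs ^ (k + 1) / 8 ^ (k + 1) ≤ cs ^ (k + 1) / 8 := div_le_div_of_nonneg_left hcsp.le (by norm_num) h4
        _ = _ := by ring
    gcongr
  have e2 : u ^ (k + 1) * (1 / 2 * (n / L * (PTy * V ^ (k + 1))) - e) =
      u ^ (k + 1) * (1 / 2 * (n / L * (PTy * V ^ (k + 1)))) - u ^ (k + 1) * e := by ring
  rw [e2] at g1
  linarith

open Classical in
/-- the number of primes `p ≤ N` such that all `p + h`, `h ∈ H`, have at most three prime factors, all of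
them at least `N ^ (1/8)` -/
noncomputable def pi3 (H : Finset ℕ) (N : ℕ) : ℕ :=
  ((Icc 1 N).filter (fun p => p.Prime ∧ ∀ h ∈ H, (p + h).primeFactorsList.length ≤ 3 ∧
    ∀ q ∈ (p + h).primeFactors, (N : ℝ) ^ (1 / 8 : ℝ) ≤ q)).card

lemma WH_full_leK (N y : ℕ) (H : Finset ℕ) :
    ∑ n ∈ Icc 1 N, WH eP (g3 N) (ro y) H H n ≤ pi3 H N := by
  classical
  unfold pi3
  rw [card_filter]
  push_cast
  refine sum_le_sum fun n _ => ?_
  unfold WH
  rw [sdiff_self, bot_eq_empty, prod_empty, mul_one]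
  have p0 : 0 ≤ ∏ s ∈ H, g3 N (n + s) := prod_nonneg fun s _ => (g3_bd _ _).1
  have p1 : ∏ s ∈ H, g3 N (n + s) ≤ 1 := prod_le_one (fun s _ => (g3_bd _ _).1) fun s _ => (g3_bd _ _).2
  by_cases h : n.Prime ∧ ∀ h ∈ H, (n + h).primeFactorsList.length ≤ 3 ∧
      ∀ q ∈ (n + h).primeFactors, (N : ℝ) ^ (1 / 8 : ℝ) ≤ q
  · rw [if_pos h]
    exact mul_le_one₀ (eP_bd n).2 p0 p1
  · rw [if_neg h]
    apply le_of_eq
    by_cases hp : n.Prime
    · have h2 : ¬ ∀ h ∈ H, (n + h).primeFactorsList.length ≤ 3 ∧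
        ∀ q ∈ (n + h).primeFactors, (N : ℝ) ^ (1 / 8 : ℝ) ≤ q := fun h3 => h ⟨hp, h3⟩
      rw [not_forall] at h2
      obtain ⟨s, hs⟩ := h2
      rw [Classical.not_imp] at hs
      rw [prod_eq_zero hs.1, mul_zero]
      unfold g3
      rw [if_neg]
      intro h4
      exact hs.2 h4.2
    · have h4 : eP n = 0 := by unfold eP; rw [if_neg hp]
      rw [h4, zero_mul]

/-- **almost prime tuples** for almost all sets of shifts -/
theorem almostN : ∃ c : ℝ, 0 < c ∧ ∀ (k : ℕ) (ε : ℝ), 0 < ε → ∃ Λ : ℝ, 0 < Λ ∧ ∀ᶠ N : ℕ in atTop,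
    ∀ H : ℕ, Λ * Real.log N ≤ H → H ≤ N → ∀ Bad : Finset (Finset ℕ),
    (∀ D ∈ Bad, D ∈ (Icc 1 H).powersetCard (k + 1) ∧ Adm (pat D) ∧
      (pi3 D N : ℝ) < c ^ (k + 1) * CT (pat D) * (N / Real.log N ^ (k + 2))) →
    (Bad.card : ℝ) ≤ ε * (H : ℝ) ^ (k + 1) := by
  classical
  obtain ⟨c₀', hc₀', STEP⟩ := stepK
  obtain ⟨cz, hcz, VZ⟩ := Vz_sharp
  obtain ⟨c₀, hc₀d⟩ : ∃ c₀ : ℝ, c₀ = min c₀' 1 := ⟨_, rfl⟩
  have hc₀ : 0 < c₀ := by rw [hc₀d]; exact lt_min hc₀' one_pos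
  have hc₀1 : c₀ ≤ 1 := by rw [hc₀d]; exact min_le_right _ _
  have hc₀2 : c₀ ≤ c₀' := by rw [hc₀d]; exact min_le_left _ _
  refine ⟨c₀ * cz / 8, by positivity, fun k ε hε => ?_⟩
  obtain ⟨cs, hcs⟩ : ∃ cs : ℝ, cs = c₀ * cz := ⟨_, rfl⟩
  have hcs0 : 0 < cs := by rw [hcs]; positivity
  obtain ⟨cp, hcp, hlow⟩ := Pool.Agent.Y822.PT_low (k + 1)
  obtain ⟨τ, hτ⟩ : ∃ τ : ℝ, τ = 1 / 16 * cs ^ (k + 1) * cp := ⟨_, rfl⟩
  have hτ0 : 0 < τ := by rw [hτ]; positivity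
  obtain ⟨δ, hδ⟩ : ∃ δ : ℝ, δ = τ / (3 * (k + 1)) := ⟨_, rfl⟩
  have hδ0 : 0 < δ := by rw [hδ]; positivity
  obtain ⟨K, hK, hm0⟩ := main0K (k + 1) (1 / 2) (by norm_num) (by norm_num)
  obtain ⟨x0, hm0⟩ := hm0 (k + 3)
  have hK0 : (0 : ℝ) < K := by exact_mod_cast (by omega : 0 < K)
  obtain ⟨κ, Λ, hκ, hκm, hΛ, hfew⟩ := few_shortLD k (xs := 1 / 100) (δ := δ) (ε' := ε)
    (κm := min (1 / 25) (1 / K)) (by norm_num) (by norm_num) hδ0 hε (lt_min (by norm_num) (by positivity))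
  have hκ25 : κ ≤ 1 / 25 := hκm.trans (min_le_left _ _)
  have hκK : κ ≤ 1 / K := hκm.trans (min_le_right _ _)
  obtain ⟨N₁, STEP⟩ := STEP κ hκ hκ25
  obtain ⟨M, hM⟩ : ∃ M : ℕ, M = 4 * (k + 2) ^ 3 * (⌈2 / κ⌉₊ + 1) + (x0 + 3) := ⟨_, rfl⟩
  refine ⟨Λ, hΛ, ?_⟩
  filter_upwards [hm0, hfew, ev_logN (eventually_ge_atTop (max 1 ((M + 2) * (2 / κ)))),
    ev_small (k + 2) (by norm_num : (0 : ℝ) < 1 / 8) 12 hδ0,
    ev_logN (eventually_ge_atTop (1 / τ)), eventually_ge_atTop (max N₁ 3)]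
    with N hm hfew hL1' hs8 hLτ hN
  intro H hH1 hHN Bad hBad
  have hNN₁ : N₁ ≤ N := (le_max_left _ _).trans hN
  have hN3 : 3 ≤ N := (le_max_right _ _).trans hN
  have hN2 : 2 ≤ N := by omega
  set L := Real.log N with hLd
  have hL1 : 1 ≤ L := (le_max_left _ _).trans hL1'
  have hLM : (M + 2) * (2 / κ) ≤ L := (le_max_right _ _).trans hL1'
  have hL0 : 0 < L := by linarith
  have hN0 : (0 : ℝ) < N := by positivity
  have hNe : (N : ℝ) = Real.exp L := by rw [hLd, Real.exp_log hN0]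
  have hrp : ∀ s : ℝ, (N : ℝ) ^ s = Real.exp (s * L) := by
    intro s
    rw [Real.rpow_def_of_pos hN0, ← hLd, mul_comm]
  -- the sifting limit
  obtain ⟨y, hy⟩ : ∃ y : ℕ, y + 1 = ⌈(N : ℝ) ^ κ⌉₊ := by
    have : 0 < ⌈(N : ℝ) ^ κ⌉₊ := Nat.ceil_pos.2 (by positivity)
    exact ⟨⌈(N : ℝ) ^ κ⌉₊ - 1, by omega⟩
  have hya : (y : ℝ) < (N : ℝ) ^ κ := Nat.lt_ceil.1 (by omega)
  have hyb : (N : ℝ) ^ κ ≤ y + 1 := by
    have := Nat.le_ceil ((N : ℝ) ^ κ)
    rw [← hy] at this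
    exact_mod_cast this
  have hya' : (y : ℝ) ≤ Real.exp (κ * L) := by rw [← hrp]; exact hya.le
  have hyb' : Real.exp (κ * L) ≤ y + 1 := by rw [← hrp]; exact hyb
  have hML : (M : ℝ) + 2 ≤ κ / 2 * L := by
    have h1 : (M : ℝ) + 2 = κ / 2 * ((M + 2) * (2 / κ)) := by field_simp
    rw [h1]
    exact mul_le_mul_of_nonneg_left hLM (by positivity)
  obtain ⟨_, _, y3, y4, _, y6⟩ := y_core (M := M) hκ (by omega : 1 ≤ N) hML hya' hyb'
  have hyx0 : x0 ≤ y := by omega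
  have hy3 : 3 ≤ y := by omega
  have hy0 : (0 : ℝ) < y := by positivity
  have hyK : y ^ K ≤ N := by
    have h1 : ((y : ℝ)) ^ K ≤ N := by
      calc ((y : ℝ)) ^ K ≤ (Real.exp (κ * L)) ^ K := pow_le_pow_left₀ (Nat.cast_nonneg _) hya' K
        _ = Real.exp (κ * K * L) := by rw [← Real.exp_nat_mul]; ring_nf
        _ ≤ Real.exp L := by
            apply Real.exp_le_exp.2
            have : κ * K ≤ 1 := by
              rw [le_div_iff₀ hK0] at hκK
              exact hκK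
            nlinarith
        _ = N := hNe.symm
    exact_mod_cast h1
  -- the factor of one step
  obtain ⟨u, hu⟩ : ∃ u : ℝ, u = c₀ * κ := ⟨_, rfl⟩
  have hu0 : 0 ≤ u := by rw [hu]; positivity
  have hu1 : u ≤ 1 := by rw [hu]; exact mul_le_one₀ hc₀1 hκ.le (by linarith)
  have hVz0 : 0 ≤ Vz y := by
    unfold Vz
    refine prod_nonneg fun p hp => ?_
    have hp1 : (1 : ℝ) ≤ p := by exact_mod_cast (mem_pz.1 hp).2.one_lt.le
    have : 1 / (p : ℝ) ≤ 1 := by rw [div_le_one (by linarith)]; exact hp1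
    linarith
  have hly : 0 < Real.log y := Real.log_pos (by exact_mod_cast (by omega : 1 < y))
  have hlyu : Real.log y ≤ κ * L := by
    rw [← Real.log_exp (κ * L)]
    exact Real.log_le_log hy0 hya'
  have huV : cs / L ≤ u * Vz y := by
    have t5 : cz / (κ * L) ≤ Vz y := (div_le_div_of_nonneg_left hcz.le hly hlyu).trans (VZ y hy3)
    calc cs / L = u * (cz / (κ * L)) := by rw [hcs, hu]; field_simp
      _ ≤ u * Vz y := mul_le_mul_of_nonneg_left t5 hu0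
  -- the error of one step
  obtain ⟨X, hX⟩ : ∃ X : ℝ, X = N / L ^ (k + 2) := ⟨_, rfl⟩
  have hX0 : 0 < X := by rw [hX]; positivity
  have h78 : 12 * (N : ℝ) ^ (7 / 8 : ℝ) ≤ δ * X := by
    rw [hrp, hX]
    have e : (7 / 8 : ℝ) * L = (1 - 1 / 8) * L := by ring
    rw [e]
    exact hs8
  have hx0 : 0 ≤ 3 * δ * X := by positivity
  refine hfew y hya' hyb' ⌊(N : ℝ) ^ (49 / 100 : ℝ)⌋₊ ?_ (g3 N) ?_ H hH1 hHN Bad ?_
  · refine (Nat.floor_le (by positivity)).trans (le_of_eq ?_)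
    rw [hrp]
    congr 1
    ring
  · intro n
    refine ⟨(g3_bd N n).1, g3_le_ro ?_ n⟩
    refine hya.trans_le (Real.rpow_le_rpow_of_exponent_le (by exact_mod_cast (by omega : 1 ≤ N)) ?_)
    linarith
  · intro D hD
    obtain ⟨b1, b2, b3⟩ := hBad D hD
    refine ⟨b1, fun hg => ?_⟩
    rw [mem_powersetCard] at b1
    have h0 : 0 ∉ D := fun h => by
      have := (mem_Icc.1 (b1.1 h)).1
      omega
    have hDN : ∀ h ∈ D, h ≤ N := fun h hh => ((mem_Icc.1 (b1.1 hh)).2).trans hHN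
    obtain ⟨c1, c2⟩ := hlow (pat D) (by rw [card_pat h0, b1.2]) b2
    have hCP : CT (pat D) ≤ 2 * PT (pat D) y := by
      have g1 := CT_up (pat D) (2 * N) y (fun t ht => by
        unfold pat at ht
        rw [mem_insert] at ht
        rcases ht with rfl | ht
        · omega
        · have := hDN t ht
          omega) (by omega)
      rw [card_pat h0, b1.2] at g1
      refine g1.trans (mul_le_mul_of_nonneg_right ?_ (PT_nonneg _ _))
      have g6 : 2 * (((k + 1 + 1 : ℕ) : ℝ)) ^ 3 * (Nat.log y (2 * N)) / y ≤ 1 / 2 := by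
        rw [div_le_div_iff₀ hy0 (by norm_num)]
        have g7 : 4 * (k + 2) ^ 3 * Nat.log y (2 * N) ≤ y := by
          refine le_trans ?_ y3
          rw [hM]
          exact (Nat.mul_le_mul_left _ y6).trans (Nat.le_add_right _ _)
        have g8 : (4 * ((k : ℝ) + 2) ^ 3 * Nat.log y (2 * N)) ≤ y := by exact_mod_cast g7
        have g9 : (((k + 1 + 1 : ℕ) : ℝ)) ^ 3 = ((k : ℝ) + 2) ^ 3 := by push_cast; ring
        rw [g9]
        linarith
      calc Real.exp (2 * (((k + 1 + 1 : ℕ) : ℝ)) ^ 3 * (Nat.log y (2 * N)) / y) ≤ Real.exp (1 / 2) :=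
            Real.exp_le_exp.2 g6
        _ ≤ 2 := by
            have h6 : Real.exp (1 / 2) * Real.exp (-(1 / 2)) = 1 := by
              rw [← Real.exp_add]; norm_num
            have h7 := Real.exp_pos (1 / 2)
            have h8 : 1 / 2 ≤ Real.exp (-(1 / 2)) := by
              have := Real.add_one_le_exp (-(1 / 2) : ℝ)
              linarith
            nlinarith
    -- one step
    have hZ : ∀ t ∈ D, ∀ S1 ⊆ D.erase t,
        u * ∑ n ∈ Icc 1 N, WH eP (g3 N) (ro y) (D.erase t) S1 n * ro y (n + t) - 3 * δ * X ≤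
          ∑ n ∈ Icc 1 N, WH eP (g3 N) (ro y) (D.erase t) S1 n * g3 N (n + t) := by
      intro t ht S1 hS1
      set f := WH eP (g3 N) (ro y) (D.erase t) S1 with hf
      have hf01 : ∀ n, 0 ≤ f n ∧ f n ≤ 1 := WH_bd eP_bd (g3_bd N) (ro_bd y) _ _
      have hgood := hg t ht S1 hS1
      rw [← hf, ← hX] at hgood
      have hs := STEP N hNN₁ y hya hyb f (fun n => (hf01 n).1) (fun n => (hf01 n).2) t (hDN t ht)
      have hW0 : 0 ≤ ∑ n ∈ Icc 1 N, f n * ro y (n + t) :=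
        sum_nonneg fun n _ => mul_nonneg (hf01 n).1 (ro_nonneg _ _)
      have h5 : u * ∑ n ∈ Icc 1 N, f n * ro y (n + t) ≤
          c₀' * κ * ∑ n ∈ Icc 1 N, f n * ro y (n + t) := by
        rw [hu]
        exact mul_le_mul_of_nonneg_right (mul_le_mul_of_nonneg_right hc₀2 hκ.le) hW0
      linarith
    have hlower := step_lower' (H := D) hx0 hu0 hu1 hZ D (subset_refl _)
    rw [b1.2] at hlower
    have hmain := (abs_le.1 (hm y hyx0 hyK (g3 N) D h0 b1.2)).1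
    have hfull := WH_full_leK N y D
    have hfin := low_calcK (k := k) (cs := cs) (cp := cp) (L := L) (n := N) (u := u) (V := Vz y)
      (PTy := PT (pat D) y) (W := ∑ n ∈ Icc 1 N, WH eP (g3 N) (ro y) D ∅ n) (e := N / L ^ (k + 3))
      (x := 3 * δ * X) (CTy := CT (pat D))
      (P := pi3 D N) hcs0 hcp hL1 hN0 hu0 hu1 hVz0 huV (PT_nonneg _ _) c2 hCP
      (by linarith) (by positivity) ?_ ?_ (by push_cast at hlower; linarith)
    · rw [hcs] at hfin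
      linarith
    · rw [← hτ]
      have h1 : (N : ℝ) / L ^ (k + 3) = 1 / L * (N / L ^ (k + 2)) := by
        rw [pow_succ L (k + 2)]
        field_simp
      rw [h1]
      refine mul_le_mul_of_nonneg_right ?_ (by positivity)
      rw [div_le_iff₀ hL0]
      rw [div_le_iff₀ hτ0] at hLτ
      linarith
    · rw [← hτ, ← hX, hδ]
      apply le_of_eq
      field_simp

end Pool.Agent.J4.H38.SR
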