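import Mathlib
import Pool.Agent.J4.H38.SR.Quant3
import Pool.Agent.J4.H38.SR.UpS

/-! The upper bound for almost all sets of shifts in a short interval, with a power saving. -/

set_option autoImplicit false

namespace Pool.Agent.J4.H38.SR

open Finset Filter
open Pool.Agent.Y822
open Pool.Agent.H373R2.T7 (pz Vz mem_pz rhoA PerA lam_fund)
open Pool.Agent.H387R2.Uni (nuT Adm locT CT CT_nonneg)

/-- the choice of the exponent -/
lemma choose_b {Q ρ L C1 : ℝ} {b1 : ℕ} (hQ : 2 ≤ Q) (hρ : 0 < ρ) (hL : 1 ≤ L) (hρL : 1 / L ≤ ρ)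
    (hC1 : 0 < C1) (hT : ρ * Q ^ (2 * (b1 + 1)) < 1) : ∃ b : ℕ, b1 ≤ b ∧ Q ^ b ≤ L ∧
      Q ^ b * ρ + C1 * (3 / 4) ^ b ≤ (1 + C1 * (4 / 3)) * ρ ^ (Real.log (4 / 3) / (2 * Real.log Q)) := by
  have hQ0 : 0 < Q := by linarith
  have hlQ : 0 < Real.log Q := Real.log_pos (by linarith)
  have hT1 : 1 ≤ Q ^ (2 * (b1 + 1)) := one_le_pow₀ (by linarith)
  have hρ1 : ρ < 1 := by nlinarith
  obtain ⟨s, hs⟩ : ∃ s : ℝ, s = -Real.log ρ / (2 * Real.log Q) := ⟨_, rfl⟩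
  have hlρ : Real.log ρ < 0 := Real.log_neg hρ hρ1
  have hs0 : 0 < s := by rw [hs]; apply div_pos <;> linarith
  have hsb : (b1 : ℝ) + 1 ≤ s := by
    have h1 := Real.log_lt_log (by positivity) hT
    rw [Real.log_one, Real.log_mul hρ.ne' (by positivity), Real.log_pow] at h1
    rw [hs, le_div_iff₀ (by positivity)]
    push_cast at h1
    linarith
  obtain ⟨b, hb⟩ : ∃ b : ℕ, b = ⌊s⌋₊ := ⟨_, rfl⟩
  have hbs : (b : ℝ) ≤ s := by rw [hb]; exact Nat.floor_le hs0.le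
  have hbs' : s < b + 1 := by rw [hb]; exact Nat.lt_floor_add_one s
  have hb1 : b1 ≤ b := by
    have : (b1 : ℝ) < b + 1 := by linarith
    have h2 : b1 < b + 1 := by exact_mod_cast this
    omega
  have e1 : s * (2 * Real.log Q) = -Real.log ρ := by
    rw [hs]; field_simp
  -- powers of `Q`
  have hQb : Q ^ b ≤ ρ ^ (-(1 / 2 : ℝ)) := by
    rw [Real.rpow_def_of_pos hρ, ← Real.exp_log (by positivity : 0 < Q ^ b), Real.log_pow]
    apply Real.exp_le_exp.2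
    nlinarith
  have hQbL : Q ^ b ≤ L := by
    refine hQb.trans ?_
    have h1 : ρ ^ (-(1 / 2 : ℝ)) ≤ (1 / L) ^ (-(1 / 2 : ℝ)) :=
      Real.rpow_le_rpow_of_nonpos (by positivity) hρL (by norm_num)
    refine h1.trans ?_
    rw [one_div, Real.inv_rpow (by linarith), ← Real.rpow_neg (by linarith), neg_neg]
    calc L ^ (1 / 2 : ℝ) ≤ L ^ (1 : ℝ) := Real.rpow_le_rpow_of_exponent_le hL (by norm_num)
      _ = L := Real.rpow_one L
  refine ⟨b, hb1, hQbL, ?_⟩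
  set c1 := Real.log (4 / 3) / (2 * Real.log Q) with hc1
  have hl43 : 0 < Real.log (4 / 3) := Real.log_pos (by norm_num)
  have hc10 : 0 < c1 := by positivity
  have hc12 : c1 ≤ 1 / 2 := by
    rw [hc1, div_le_iff₀ (by positivity)]
    have : Real.log (4 / 3) ≤ Real.log Q := Real.log_le_log (by norm_num) (by linarith)
    linarith
  have h1 : Q ^ b * ρ ≤ ρ ^ c1 := by
    calc Q ^ b * ρ ≤ ρ ^ (-(1 / 2 : ℝ)) * ρ := mul_le_mul_of_nonneg_right hQb hρ.le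
      _ = ρ ^ (1 / 2 : ℝ) := by
          conv_lhs => rw [← Real.rpow_one ρ, ← Real.rpow_mul hρ.le, ← Real.rpow_add hρ]
          congr 1
          norm_num
      _ ≤ ρ ^ c1 := Real.rpow_le_rpow_of_exponent_ge hρ hρ1.le hc12
  have h2 : (3 / 4 : ℝ) ^ b ≤ 4 / 3 * ρ ^ c1 := by
    have e2 : c1 * -Real.log ρ = s * Real.log (4 / 3) := by
      rw [← e1, hc1]; field_simp
    have e3 : (4 / 3 : ℝ) * ρ ^ c1 = Real.exp (Real.log (4 / 3) + Real.log ρ * c1) := by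
      rw [Real.exp_add, Real.exp_log (by norm_num), Real.rpow_def_of_pos hρ]
    have e4 : (3 / 4 : ℝ) ^ b = Real.exp (-(b * Real.log (4 / 3))) := by
      rw [← Real.exp_log (by positivity : (0 : ℝ) < (3 / 4) ^ b), Real.log_pow]
      congr 1
      have : Real.log (3 / 4) = -Real.log (4 / 3) := by
        rw [← Real.log_inv]; norm_num
      rw [this]; ring
    rw [e3, e4]
    apply Real.exp_le_exp.2
    nlinarith
  calc Q ^ b * ρ + C1 * (3 / 4) ^ b ≤ ρ ^ c1 + C1 * (4 / 3 * ρ ^ c1) :=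
        add_le_add h1 (mul_le_mul_of_nonneg_left h2 hC1.le)
    _ = _ := by ring

/-- **the upper bound for almost all sets of shifts, with a power saving** -/
theorem upper_quant (k : ℕ) (ε : ℝ) (hε : 0 < ε) : ∃ c C : ℝ, 0 < c ∧ 0 < C ∧
    ∀ᶠ N : ℕ in atTop, ∀ H : ℕ, 1 ≤ H → H ≤ N → ∀ Bad : Finset (Finset ℕ),
    (∀ D ∈ Bad, D ∈ (Icc 1 H).powersetCard (k + 1) ∧ Adm (pat D) ∧
      (4 ^ (k + 1) + ε) * CT (pat D) * (N / Real.log N ^ (k + 2)) < piH D N) →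
    (Bad.card : ℝ) ≤ C * (max (Real.log N / H) (1 / Real.log N)) ^ c * (H : ℝ) ^ (k + 1) := by
  classical
  obtain ⟨x, hx, hx8, hx4⟩ := exists_small (k + 1) (ε / 2) (by positivity)
  obtain ⟨c0, hc0, hlow⟩ := PT_low (k + 1)
  obtain ⟨K, hK, hmain⟩ := main0K (k + 1) x hx (by linarith)
  obtain ⟨x0, hm0⟩ := hmain (k + 3)
  set δ : ℝ := ε * c0 / (2 * (k + 4)) with hδ
  have hδ0 : 0 < δ := by positivity
  have hδe : ((k : ℝ) + 4) * δ ≤ ε / 2 * c0 := by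
    rw [hδ]
    field_simp
    exact le_rfl
  obtain ⟨C0, Q, C1, hC0, hQ, hC1, hfew⟩ := few_quant k hx (by linarith : x ≤ 1 / 2) hδ0
  obtain ⟨M, hM⟩ : ∃ M : ℕ, M = ⌈((k : ℝ) + 2) ^ 2 * (2 / x)⌉₊ + 1 := ⟨_, rfl⟩
  obtain ⟨b1, hb1⟩ : ∃ b1 : ℕ, b1 = C0 + K + 8 := ⟨_, rfl⟩
  obtain ⟨c1, hc1⟩ : ∃ c1 : ℝ, c1 = Real.log (4 / 3) / (2 * Real.log Q) := ⟨_, rfl⟩
  have hc10 : 0 < c1 := by
    rw [hc1]
    have h1 : 0 < Real.log (4 / 3) := Real.log_pos (by norm_num)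
    have h2 : 0 < Real.log Q := Real.log_pos (by linarith)
    positivity
  obtain ⟨T0, hT0⟩ : ∃ T0 : ℝ, T0 = Q ^ (2 * (b1 + 1)) := ⟨_, rfl⟩
  have hT01 : 1 ≤ T0 := by rw [hT0]; exact one_le_pow₀ (by linarith)
  obtain ⟨CC, hCC⟩ : ∃ CC : ℝ, CC = max (T0 ^ (c1 / 2))
    (2 ^ (k + 1) / δ * Real.sqrt (1 + C1 * (4 / 3))) := ⟨_, rfl⟩
  have hCC0 : 0 < CC := by
    rw [hCC]
    exact lt_max_of_lt_left (Real.rpow_pos_of_pos (by linarith) _)
  refine ⟨c1 / 2, CC, by positivity, hCC0, ?_⟩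
  filter_upwards [hfew, hm0,
    ev_logN (eventually_ge_atTop (max (max 1 ((2 * ((M : ℝ) + x0 + 4)) ^ 2)) (max (8 / x) (1 / δ)))),
    ev_small (k + 2) (by norm_num : (0 : ℝ) < 1 / 2) 1 hδ0, eventually_ge_atTop 3]
    with N h1 h2 h3 h4 hN H hH1 hHN Bad hBad
  have hL1 : 1 ≤ Real.log N := ((le_max_left _ _).trans (le_max_left _ _)).trans h3
  have hLM : (2 * ((M : ℝ) + x0 + 4)) ^ 2 ≤ Real.log N :=
    ((le_max_right _ _).trans (le_max_left _ _)).trans h3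
  have hL8 : 8 / x ≤ Real.log N := ((le_max_left _ _).trans (le_max_right _ _)).trans h3
  have hLδ : 1 / δ ≤ Real.log N := ((le_max_right _ _).trans (le_max_right _ _)).trans h3
  have hL0 : 0 < Real.log N := by linarith
  have hN0 : (0 : ℝ) < N := by positivity
  have hH0 : (0 : ℝ) < H := by exact_mod_cast hH1
  obtain ⟨ρ, hρ⟩ : ∃ ρ : ℝ, ρ = max (Real.log N / H) (1 / Real.log N) := ⟨_, rfl⟩
  have hρ1 : 1 / Real.log N ≤ ρ := by rw [hρ]; exact le_max_right _ _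
  have hρH : Real.log N / H ≤ ρ := by rw [hρ]; exact le_max_left _ _
  have hρ0 : 0 < ρ := lt_of_lt_of_le (by positivity) hρ1
  rw [← hρ]
  by_cases hT : 1 ≤ ρ * T0
  · -- the trivial case
    have hsub : Bad ⊆ (Icc 1 H).powersetCard (k + 1) := fun D hD => (hBad D hD).1
    have h5 : (Bad.card : ℝ) ≤ (H : ℝ) ^ (k + 1) :=
      le_trans (by exact_mod_cast card_le_card hsub) (card_pow_le H (k + 1))
    refine h5.trans (le_mul_of_one_le_left (by positivity) ?_)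
    calc (1 : ℝ) ≤ (ρ * T0) ^ (c1 / 2) := Real.one_le_rpow hT (by positivity)
      _ = T0 ^ (c1 / 2) * ρ ^ (c1 / 2) := by
          rw [Real.mul_rpow hρ0.le (by linarith), mul_comm]
      _ ≤ CC * ρ ^ (c1 / 2) := mul_le_mul_of_nonneg_right (by rw [hCC]; exact le_max_left _ _)
          (Real.rpow_nonneg hρ0.le _)
  push Not at hT
  rw [hT0] at hT
  obtain ⟨b, hbb, hQb, hbound⟩ := choose_b (b1 := b1) hQ hρ0 hL1 hρ1 hC1 hT
  rw [← hc1] at hbound
  obtain ⟨κ, hκd⟩ : ∃ κ : ℝ, κ = x / (4 * C0 * b + 1) := ⟨_, rfl⟩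
  have hC0r : (1 : ℝ) ≤ C0 := by exact_mod_cast hC0
  have hbr : (K : ℝ) + 8 ≤ b := by
    have : K + 8 ≤ b := by omega
    exact_mod_cast this
  have hKr : (0 : ℝ) ≤ K := Nat.cast_nonneg _
  have hκ : 0 < κ := by rw [hκd]; positivity
  have hκK8 : κ * (K + 8) ≤ 1 := by
    rw [hκd, div_mul_eq_mul_div, div_le_one (by positivity)]
    have hb0 : (0 : ℝ) ≤ b := by linarith
    calc x * ((K : ℝ) + 8) ≤ 1 * b := mul_le_mul (by linarith) hbr (by positivity) (by norm_num)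
      _ ≤ 4 * C0 * b + 1 := by nlinarith
  obtain ⟨hsq, hfin⟩ := h1 b (by omega) hQb κ hκd
  have hκ8 : κ * (8 : ℕ) ≤ 1 := by
    have : 0 ≤ κ * K := by positivity
    push_cast
    linarith
  have hκK : κ * K ≤ 1 := by linarith
  have hsM : 2 * ((M : ℝ) + x0 + 4) ≤ Real.sqrt (Real.log N) := Real.le_sqrt_of_sq_le hLM
  obtain ⟨y1, _, y2, y3, y4, y5⟩ := yK_core (M := M + x0 + 2) hκ (by omega : 1 ≤ N)
    (by push_cast; linarith)
  set y := yK κ N with hyd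
  have hy8 : y ^ 8 ≤ N := yK_pow hκ (by omega) hκ8 y1
  have hyK : y ^ K ≤ N := yK_pow hκ (by omega) hκK y1
  obtain ⟨z, hz1, hz2, hz3, hz4, hz5⟩ := z_facts x hx hx8 N y hN hy8 hL8
  obtain ⟨c, hc, s1, s2, s3⟩ := sel y z hz1
  have hzx : (z : ℝ) ≤ δ * (N / Real.log N ^ (k + 2)) := by
    refine hz5.trans ?_
    have e : (1 - 1 / 2) * Real.log N = Real.log N / 2 := by ring
    rw [e, one_mul] at h4
    exact h4
  have hz2N : ((z ^ 2 : ℕ) : ℝ) ≤ Real.exp ((1 / 2 - x) * Real.log N) := by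
    refine hz4.trans (le_of_eq ?_)
    rw [Real.rpow_def_of_pos hN0]
    congr 1
    ring
  have herr : (N : ℝ) / Real.log N ^ (k + 3) ≤ δ * (N / Real.log N ^ (k + 2)) := by
    rw [pow_succ (Real.log N) (k + 2), ← div_div, mul_comm δ, div_le_iff₀ hL0]
    have h5 : 1 ≤ δ * Real.log N := by
      rw [div_le_iff₀ hδ0] at hLδ
      linarith
    have h6 : 0 ≤ (N : ℝ) / Real.log N ^ (k + 2) := by positivity
    calc (N : ℝ) / Real.log N ^ (k + 2) = N / Real.log N ^ (k + 2) * 1 := (mul_one _).symm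
      _ ≤ N / Real.log N ^ (k + 2) * (δ * Real.log N) := mul_le_mul_of_nonneg_left h5 h6
      _ = _ := by ring
  refine (hfin (z ^ 2) hz2N c hc (ro z) (fun n => ⟨ro_nonneg z n, ro_anti hz3 n⟩) H hH1 hHN Bad
    ?_).trans ?_
  · intro D hD
    obtain ⟨b1', b2, b3⟩ := hBad D hD
    refine ⟨b1', fun hg => ?_⟩
    rw [mem_powersetCard] at b1'
    have h0 : 0 ∉ D := fun h => by
      have := (mem_Icc.1 (b1'.1 h)).1
      omega
    obtain ⟨c1', c2⟩ := hlow (pat D) (by rw [card_pat h0, b1'.2]) b2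
    have hpt : PT (pat D) y ≤ (1 + x) * CT (pat D) := by
      have hy1 : 1 ≤ M := by omega
      refine PT_le_CT (pat D) x hx (by linarith) y ?_ (by omega)
      rw [card_pat h0, b1'.2]
      have g1 : ((k : ℝ) + 2) ^ 2 * (2 / x) ≤ M := by
        rw [hM]
        push_cast
        have := Nat.le_ceil (((k : ℝ) + 2) ^ 2 * (2 / x))
        linarith
      have g2 : (M : ℝ) ≤ y := by exact_mod_cast (by omega : M ≤ y)
      have e : (((k + 1 + 1 : ℕ) : ℝ)) ^ 2 = ((k : ℝ) + 2) ^ 2 := by push_cast; ring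
      rw [e]
      linarith
    have hmn := h2 y (by omega) hyK (ro z) D h0 b1'.2
    have := good_boundS hx hx8 hε hc0 hx4 hN hL1 hδ0.le hδe hz1 hz2 hz3 hzx s1 s2 s3 b1'.2 h0 hg
      (hmn.trans (by linarith)) c2 hpt
    linarith
  · refine mul_le_mul_of_nonneg_right ?_ (by positivity)
    have h5 : Real.sqrt (Q ^ b * (Real.log N / H) + C1 * (3 / 4) ^ b) ≤
        Real.sqrt (1 + C1 * (4 / 3)) * ρ ^ (c1 / 2) := by
      have e1 : Real.sqrt (1 + C1 * (4 / 3)) * ρ ^ (c1 / 2) =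
          Real.sqrt ((1 + C1 * (4 / 3)) * ρ ^ c1) := by
        rw [Real.sqrt_mul (by positivity), Real.sqrt_eq_rpow (ρ ^ c1), ← Real.rpow_mul hρ0.le]
        congr 2
        ring
      rw [e1]
      apply Real.sqrt_le_sqrt
      refine le_trans ?_ hbound
      have : Q ^ b * (Real.log N / H) ≤ Q ^ b * ρ := mul_le_mul_of_nonneg_left hρH (by positivity)
      linarith
    calc 2 ^ (k + 1) / δ * Real.sqrt (Q ^ b * (Real.log N / H) + C1 * (3 / 4) ^ b)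
        ≤ 2 ^ (k + 1) / δ * (Real.sqrt (1 + C1 * (4 / 3)) * ρ ^ (c1 / 2)) :=
          mul_le_mul_of_nonneg_left h5 (by positivity)
      _ = (2 ^ (k + 1) / δ * Real.sqrt (1 + C1 * (4 / 3))) * ρ ^ (c1 / 2) := by ring
      _ ≤ CC * ρ ^ (c1 / 2) := mul_le_mul_of_nonneg_right (by rw [hCC]; exact le_max_right _ _)
          (Real.rpow_nonneg hρ0.le _)

end Pool.Agent.J4.H38.SR
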