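import Mathlib
import Pool.Agent.J4.H38.SR.UpQ
import Pool.Agent.H387R2.U2

/-! From integers to real numbers; admissible sets and the singular series. -/

set_option autoImplicit false

namespace Pool.Agent.J4.H38.SR

open Finset Filter Topology
open Pool.Agent.Y822
open Pool.Agent.H387R2.Uni (nuT Adm locT CT CT_nonneg CT_hasProd CT_en en_inj nu_en)

lemma adm_of_ne {T : Finset ℕ} (h : CT T ≠ 0) : Adm T := by
  intro p hp
  by_contra hn
  apply h
  unfold CT
  refine tprod_of_exists_eq_zero ⟨⟨p, hp⟩, ?_⟩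
  have h1 : nuT T p = p := by
    refine le_antisymm ?_ (not_lt.1 hn)
    unfold nuT
    calc (T.image (· % p)).card ≤ (range p).card := by
          refine card_le_card fun r hr => ?_
          obtain ⟨t, _, rfl⟩ := mem_image.1 hr
          exact mem_range.2 (Nat.mod_lt _ hp.pos)
      _ = p := card_range p
  have hp0 : (p : ℝ) ≠ 0 := by exact_mod_cast hp.pos.ne'
  unfold locT
  simp only
  rw [h1, div_self hp0, sub_self, zero_div]

lemma CT_pos_of_adm {T : Finset ℕ} (hT : ∀ p : ℕ, p.Prime → nuT T p < p) : 0 < CT T := by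
  rw [← CT_en]
  apply Pool.Agent.H386R2.HL.singularSeries_pos (en_inj T)
  intro p hp
  rw [nu_en]
  exact hT p hp

/-- comparison of the predictions at `N = ⌊x⌋` and at `x` -/
lemma ratio_ev (m : ℕ) {A ε : ℝ} (hA : 0 ≤ A) (hε : 0 < ε) : ∀ᶠ N : ℕ in atTop, ∀ x : ℝ, (N : ℝ) ≤ x →
    x ≤ N + 1 → (A + ε / 2) * (N / Real.log N ^ m) ≤ (A + ε) * (x / Real.log x ^ m) := by
  have h1 : Tendsto (fun N : ℕ => (A + ε / 2) * (1 + 1 / Real.log N) ^ m) atTop
      (𝓝 ((A + ε / 2) * (1 + 0) ^ m)) := by
    refine Tendsto.const_mul _ (Tendsto.pow (tendsto_const_nhds.add ?_) m)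
    simp only [one_div]
    exact tendsto_inv_atTop_zero.comp (Real.tendsto_log_atTop.comp tendsto_natCast_atTop_atTop)
  have h2 : (A + ε / 2) * (1 + (0 : ℝ)) ^ m < A + ε := by
    rw [add_zero, one_pow, mul_one]
    linarith
  filter_upwards [h1.eventually (gt_mem_nhds h2), eventually_ge_atTop 3] with N hN hN3 x hx1 hx2
  have hN0 : (3 : ℝ) ≤ N := by exact_mod_cast hN3
  have hL : 0 < Real.log N := Real.log_pos (by linarith)
  have hx0 : 0 < x := by linarith
  have hLx : 0 < Real.log x := Real.log_pos (by linarith)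
  have h3 : Real.log x ≤ (1 + 1 / Real.log N) * Real.log N := by
    rw [add_mul, one_mul, one_div_mul_cancel hL.ne']
    have h4 : Real.log x ≤ Real.log (N * 2) := Real.log_le_log hx0 (by linarith)
    rw [Real.log_mul (by linarith) (by norm_num)] at h4
    have h5 : Real.log 2 < 1 := by
      have := Real.log_two_lt_d9
      linarith
    linarith
  have h4 : Real.log x ^ m ≤ (1 + 1 / Real.log N) ^ m * Real.log N ^ m := by
    rw [← mul_pow]
    exact pow_le_pow_left₀ hLx.le h3 m
  have h5 : (N : ℝ) / Real.log N ^ m ≤ (1 + 1 / Real.log N) ^ m * (x / Real.log x ^ m) := by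
    rw [← mul_div_assoc, div_le_div_iff₀ (by positivity) (by positivity)]
    calc (N : ℝ) * Real.log x ^ m ≤ x * ((1 + 1 / Real.log N) ^ m * Real.log N ^ m) :=
          mul_le_mul hx1 h4 (by positivity) hx0.le
      _ = _ := by ring
  calc (A + ε / 2) * (N / Real.log N ^ m)
      ≤ (A + ε / 2) * ((1 + 1 / Real.log N) ^ m * (x / Real.log x ^ m)) :=
        mul_le_mul_of_nonneg_left h5 (by positivity)
    _ = ((A + ε / 2) * (1 + 1 / Real.log N) ^ m) * (x / Real.log x ^ m) := by ring
    _ ≤ (A + ε) * (x / Real.log x ^ m) := mul_le_mul_of_nonneg_right hN.le (by positivity)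

end Pool.Agent.J4.H38.SR
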