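import Mathlib
import Pool.Agent.J4.H38.SR.Rl
import Pool.Agent.TH891.BD.B8

/-! Translations of patterns; the number of the sets of shifts with too many prime translates. -/

set_option autoImplicit false

namespace Pool.Agent.J4.H38.SR

open Finset Filter Topology
open Pool.Agent.Y822
open Pool.Agent.H387R2.Uni (nuT Adm locT CT CT_nonneg CT_hasProd CT_en en_inj nu_en piT)

/-- the number of `1 ≤ m ≤ N` for which all `m + t`, `t ∈ T`, are prime -/
def cN (N : ℕ) (T : Finset ℕ) : ℕ := ((Icc 1 N).filter (fun m => ∀ t ∈ T, (m + t).Prime)).card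

/-- the positive shifts of a pattern -/
noncomputable def DT (T : Finset ℕ) : Finset ℕ :=
  (T.image (fun t => t - sInf (T : Set ℕ))).erase 0

lemma sInf_mem' {T : Finset ℕ} (hT : T.Nonempty) : sInf (T : Set ℕ) ∈ T := by
  have : sInf (T : Set ℕ) ∈ (T : Set ℕ) := Nat.sInf_mem (by exact_mod_cast hT)
  exact_mod_cast this

lemma sInf_le' {T : Finset ℕ} {t : ℕ} (ht : t ∈ T) : sInf (T : Set ℕ) ≤ t :=
  Nat.sInf_le (by exact_mod_cast ht)

lemma pat_DT {T : Finset ℕ} (hT : T.Nonempty) :
    pat (DT T) = T.image (fun t => t - sInf (T : Set ℕ)) := by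
  unfold pat DT
  rw [insert_erase]
  exact mem_image.2 ⟨_, sInf_mem' hT, Nat.sub_self _⟩

lemma image_pat_DT {T : Finset ℕ} (hT : T.Nonempty) :
    (pat (DT T)).image (· + sInf (T : Set ℕ)) = T := by
  rw [pat_DT hT, image_image]
  ext t
  rw [mem_image]
  constructor
  · rintro ⟨s, hs, rfl⟩
    have := sInf_le' hs
    simp only [Function.comp]
    rwa [Nat.sub_add_cancel this]
  · intro ht
    refine ⟨t, ht, ?_⟩
    simp only [Function.comp]
    exact Nat.sub_add_cancel (sInf_le' ht)

lemma zero_notMem_DT (T : Finset ℕ) : 0 ∉ DT T := by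
  unfold DT
  exact notMem_erase 0 _

lemma CT_DT {T : Finset ℕ} (hT : T.Nonempty) : CT (pat (DT T)) = CT T := by
  conv_rhs => rw [← image_pat_DT hT]
  rw [Pool.Agent.TH891.SG.CT_add]

lemma card_DT {T : Finset ℕ} {k : ℕ} (hT : T.card = k + 1) : (DT T).card = k := by
  have hne : T.Nonempty := card_pos.1 (by omega)
  have h1 : (pat (DT T)).card = T.card := by
    conv_rhs => rw [← image_pat_DT hne]
    rw [Pool.Agent.TH891.SG.card_add]
  rw [card_pat (zero_notMem_DT T)] at h1
  omega

lemma piT_eq {T : Finset ℕ} (hT : T.Nonempty) (hA : Adm T) (N : ℕ) : piT T N = piH (DT T) N := by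
  unfold piT piH
  rw [if_pos hA]
  congr 1
  apply filter_congr
  intro p _
  have h := pat_DT hT
  constructor
  · intro hp
    have h1 : ∀ h ∈ pat (DT T), (p + h).Prime := by
      intro d hd
      rw [h, mem_image] at hd
      obtain ⟨t, ht, rfl⟩ := hd
      exact hp t ht
    refine ⟨?_, fun d hd => h1 d (by unfold pat; exact mem_insert_of_mem hd)⟩
    have := h1 0 (by unfold pat; exact mem_insert_self _ _)
    simpa using this
  · rintro ⟨hp, hd⟩ t ht
    have h1 : t - sInf (T : Set ℕ) ∈ pat (DT T) := by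
      rw [h]
      exact mem_image_of_mem _ ht
    unfold pat at h1
    rw [mem_insert] at h1
    rcases h1 with h1 | h1
    · rw [h1]
      simpa using hp
    · exact hd _ h1

lemma cN_le {T : Finset ℕ} (hA : Adm T) {N H : ℕ} (hH : ∀ t ∈ T, t ≤ H)
    (hT : T.Nonempty) : cN N T ≤ piT T N + H := by
  classical
  have hs : sInf (T : Set ℕ) ≤ H := hH _ (sInf_mem' hT)
  unfold cN piT
  rw [if_pos hA]
  calc ((Icc 1 N).filter (fun m => ∀ t ∈ T, (m + t).Prime)).card
      = (((Icc 1 N).filter (fun m => ∀ t ∈ T, (m + t).Prime)).image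
          (fun m => m + sInf (T : Set ℕ))).card := by
        rw [card_image_of_injective _ (add_left_injective _)]
    _ ≤ (((Icc 1 N).filter (fun p => ∀ t ∈ T, (p + (t - sInf (T : Set ℕ))).Prime)) ∪
          Ioc N (N + H)).card := by
        refine card_le_card fun p hp => ?_
        rw [mem_image] at hp
        obtain ⟨m, hm, rfl⟩ := hp
        rw [mem_filter, mem_Icc] at hm
        rw [mem_union, mem_filter, mem_Icc, mem_Ioc]
        by_cases h : m + sInf (T : Set ℕ) ≤ N
        · refine Or.inl ⟨⟨by omega, h⟩, fun t ht => ?_⟩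
          have h1 := sInf_le' ht
          have h2 : m + sInf (T : Set ℕ) + (t - sInf (T : Set ℕ)) = m + t := by omega
          rw [h2]
          exact hm.2 t ht
        · exact Or.inr ⟨by omega, by omega⟩
    _ ≤ _ := by
        refine (card_union_le _ _).trans ?_
        rw [Nat.card_Ioc]
        omega

lemma le_cN {T : Finset ℕ} {N H : ℕ} (hH : ∀ t ∈ T, t ≤ H)
    (hT : T.Nonempty) : piT T N ≤ cN N T + H := by
  classical
  have hs : sInf (T : Set ℕ) ≤ H := hH _ (sInf_mem' hT)
  unfold cN piT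
  split_ifs with hA
  swap
  · omega
  calc ((Icc 1 N).filter (fun p => ∀ t ∈ T, (p + (t - sInf (T : Set ℕ))).Prime)).card
      ≤ ((((Icc 1 N).filter (fun m => ∀ t ∈ T, (m + t).Prime)).image
          (fun m => m + sInf (T : Set ℕ))) ∪ Icc 1 H).card := by
        refine card_le_card fun p hp => ?_
        rw [mem_filter, mem_Icc] at hp
        rw [mem_union, mem_image, mem_Icc]
        by_cases h : p ≤ H
        · exact Or.inr ⟨hp.1.1, h⟩
        · refine Or.inl ⟨p - sInf (T : Set ℕ), ?_, by omega⟩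
          rw [mem_filter, mem_Icc]
          refine ⟨⟨by omega, by omega⟩, fun t ht => ?_⟩
          have h1 := sInf_le' ht
          have h2 : p - sInf (T : Set ℕ) + t = p + (t - sInf (T : Set ℕ)) := by omega
          rw [h2]
          exact hp.2 t ht
    _ ≤ _ := by
        refine (card_union_le _ _).trans ?_
        rw [Nat.card_Icc, card_image_of_injective _ (add_left_injective _)]
        omega

open Classical in
/-- few patterns in `[1, H]` have too many prime translates -/
lemma badT_card {k N H : ℕ} {a a' X : ℝ} (hsm : ∀ T : Finset ℕ, T.card = k + 1 → Adm T →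
      a * CT T * X + H ≤ a' * CT T * X) {P : ℝ}
    (hP : ∀ Bad : Finset (Finset ℕ), (∀ D ∈ Bad, D ∈ (Icc 1 H).powersetCard k ∧ Adm (pat D) ∧
      a * CT (pat D) * X < piH D N) → (Bad.card : ℝ) ≤ P) :
    ((((Icc 1 H).powersetCard (k + 1)).filter (fun T => Adm T ∧
      a' * CT T * X < (cN N T : ℝ))).card : ℝ) ≤ H * P := by
  set BT := ((Icc 1 H).powersetCard (k + 1)).filter (fun T => Adm T ∧
      a' * CT T * X < (cN N T : ℝ)) with hBT
  have hmem : ∀ T ∈ BT, T.Nonempty ∧ sInf (T : Set ℕ) ∈ Icc 1 H ∧ DT T ∈ (Icc 1 H).powersetCard k ∧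
      Adm (pat (DT T)) ∧ a * CT (pat (DT T)) * X < piH (DT T) N := by
    intro T hT
    rw [hBT, mem_filter, mem_powersetCard] at hT
    obtain ⟨⟨hTH, hTc⟩, hA, hlt⟩ := hT
    have hne : T.Nonempty := card_pos.1 (by omega)
    have hCT : CT (pat (DT T)) = CT T := CT_DT hne
    refine ⟨hne, hTH (sInf_mem' hne), ?_, ?_, ?_⟩
    · rw [mem_powersetCard]
      refine ⟨?_, card_DT hTc⟩
      intro d hd
      unfold DT at hd
      rw [mem_erase, mem_image] at hd
      obtain ⟨hd0, t, ht, rfl⟩ := hd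
      have := mem_Icc.1 (hTH ht)
      rw [mem_Icc]
      omega
    · apply adm_of_ne
      rw [hCT]
      exact (CT_pos_of_adm hA).ne'
    · rw [hCT]
      have h1 := hsm T hTc hA
      have h2 : cN N T ≤ piT T N + H := cN_le hA (fun t ht => (mem_Icc.1 (hTH ht)).2) hne
      rw [piT_eq hne hA] at h2
      have h3 : (cN N T : ℝ) ≤ piH (DT T) N + H := by exact_mod_cast h2
      linarith
  have h1 : BT.card ≤ ((Icc 1 H) ×ˢ (BT.image DT)).card := by
    refine card_le_card_of_injOn (fun T => (sInf (T : Set ℕ), DT T)) ?_ ?_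
    · intro T hT
      have hT' : T ∈ BT := by exact_mod_cast hT
      have : (sInf (T : Set ℕ), DT T) ∈ (Icc 1 H) ×ˢ (BT.image DT) :=
        mem_product.2 ⟨(hmem T hT').2.1, mem_image_of_mem _ hT'⟩
      exact_mod_cast this
    · intro T hT T' hT' he
      have hT1 : T ∈ BT := by exact_mod_cast hT
      have hT2 : T' ∈ BT := by exact_mod_cast hT'
      simp only [Prod.mk.injEq] at he
      rw [← image_pat_DT (hmem T hT1).1, ← image_pat_DT (hmem T' hT2).1, he.1, he.2]
  have h2 := hP (BT.image DT) (fun D hD => by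
    obtain ⟨T, hT, rfl⟩ := mem_image.1 hD
    exact (hmem T hT).2.2)
  rw [card_product, Nat.card_Icc, Nat.add_sub_cancel] at h1
  calc (BT.card : ℝ) ≤ ((H * (BT.image DT).card : ℕ) : ℝ) := by exact_mod_cast h1
    _ = H * ((BT.image DT).card : ℝ) := by push_cast; rfl
    _ ≤ H * P := mul_le_mul_of_nonneg_left h2 (Nat.cast_nonneg _)

/-- the abstract counting argument -/
lemma prop_core {ι : Type*} [DecidableEq ι] (S : Finset ι) (w g : ι → ℝ) {X a θ ε1 B s : ℝ}
    (hw : ∀ i ∈ S, 0 ≤ w i) (hX : 0 < X) (hθ : 0 ≤ θ)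
    (hB : ∀ i ∈ S, g i ≤ B * w i * X)
    (hbad : ∑ i ∈ S.filter (fun i => a * w i * X < g i), w i ≤ s * ∑ i ∈ S, w i) (hB0 : 0 ≤ B)
    (hlow : (1 - ε1) * X * ∑ i ∈ S, w i ≤ ∑ i ∈ S, g i) :
    (1 - ε1 - θ - B * s) * ∑ i ∈ S, w i ≤
      (a - θ) * ∑ i ∈ S.filter (fun i => θ * w i * X ≤ g i ∧ g i ≤ a * w i * X), w i := by
  classical
  have h1 : ∀ i ∈ S, g i ≤ θ * w i * X +
      ((a - θ) * X * (if (θ * w i * X ≤ g i ∧ g i ≤ a * w i * X) then w i else 0) +
      (B - θ) * X * (if a * w i * X < g i then w i else 0)) := by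
    intro i hi
    have hwi := hw i hi
    by_cases c1 : a * w i * X < g i
    · rw [if_neg (fun h => absurd h.2 (not_le.2 c1)), if_pos c1]
      have := hB i hi
      linarith
    · rw [if_neg c1]
      by_cases c2 : θ * w i * X ≤ g i
      · rw [if_pos ⟨c2, not_lt.1 c1⟩]
        have := not_lt.1 c1
        linarith
      · rw [if_neg (fun h => c2 h.1)]
        have := not_le.1 c2
        linarith
  have h2 := sum_le_sum h1
  rw [sum_add_distrib, sum_add_distrib, ← mul_sum, ← mul_sum, ← sum_filter, ← sum_filter] at h2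
  have e1 : ∑ i ∈ S, θ * w i * X = θ * X * ∑ i ∈ S, w i := by
    rw [mul_sum]
    exact sum_congr rfl fun i _ => by ring
  rw [e1] at h2
  set F := ∑ i ∈ S, w i with hF
  set G := ∑ i ∈ S.filter (fun i => θ * w i * X ≤ g i ∧ g i ≤ a * w i * X), w i
  set R := ∑ i ∈ S.filter (fun i => a * w i * X < g i), w i with hR
  have hR0 : 0 ≤ R := sum_nonneg fun i hi => hw i (mem_of_mem_filter i hi)
  have h3 : (1 - ε1) * X * F ≤ θ * X * F + ((a - θ) * X * G + (B - θ) * X * R) := hlow.trans h2
  have h4 : X * ((1 - ε1) * F) ≤ X * (θ * F + (a - θ) * G + (B - θ) * R) := by linarith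
  have h5 := le_of_mul_le_mul_left h4 hX
  have h6 : (B - θ) * R ≤ B * R := by nlinarith
  have h7 : B * R ≤ B * (s * F) := mul_le_mul_of_nonneg_left hbad hB0
  linarith

end Pool.Agent.J4.H38.SR
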