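import Mathlib
import Pool.Agent.J4.H38.SR.Tr

/-! The proportion of the patterns of a dense set between two multiples of the prediction. -/

set_option autoImplicit false

namespace Pool.Agent.J4.H38.SR

open Finset Filter Topology
open Pool.Agent.Y822
open Pool.Agent.H387R2.Uni (nuT Adm locT CT CT_nonneg CT_hasProd CT_en en_inj nu_en piT)

/-- the product in the universal lower bound tends to one -/
lemma PF_ge (k : ℕ) {ε1 : ℝ} (hε1 : 0 < ε1) : ∃ lam : ℝ, (k : ℝ) - 1 / 2 < lam ∧ 0 < lam ∧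
    1 - ε1 < ∏ i ∈ range k, (1 - (i + 1 / 2 : ℝ) / lam) := by
  have h1 : Tendsto (fun lam : ℝ => ∏ i ∈ range k, (1 - (i + 1 / 2 : ℝ) / lam)) atTop
      (𝓝 (∏ i ∈ range k, (1 - (0 : ℝ)))) := by
    refine tendsto_finsetProd _ fun i _ => ?_
    exact tendsto_const_nhds.sub (tendsto_const_nhds.div_atTop tendsto_id)
  have h2 : 1 - ε1 < ∏ i ∈ range k, (1 - (0 : ℝ)) := by
    rw [sub_zero, prod_const_one]
    linarith
  obtain ⟨lam, hl1, hl2⟩ := ((h1.eventually (lt_mem_nhds h2)).and (eventually_ge_atTop ((k : ℝ) + 1))).exists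
  have hk : (0 : ℝ) ≤ k := Nat.cast_nonneg _
  exact ⟨lam, by linarith, by linarith, hl1⟩

/-- a weighted sum over few patterns -/
lemma sum_few {k H : ℕ} {C2 P : ℝ}
    (hmom : ∑ T ∈ (range (H + 1)).powersetCard (k + 1), CT T ^ 2 ≤ C2 * ((H + 1 : ℕ) : ℝ) ^ (k + 1))
    (BT : Finset (Finset ℕ)) (hBT : BT ⊆ (Icc 1 H).powersetCard (k + 1)) (hP : (BT.card : ℝ) ≤ P) :
    ∑ T ∈ BT, CT T ≤ Real.sqrt (P * (C2 * ((H + 1 : ℕ) : ℝ) ^ (k + 1))) := by
  have h1 : BT ⊆ (range (H + 1)).powersetCard (k + 1) := by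
    intro T hT
    have := mem_powersetCard.1 (hBT hT)
    rw [mem_powersetCard]
    refine ⟨fun t ht => ?_, this.2⟩
    have := mem_Icc.1 (this.1 ht)
    rw [mem_range]
    omega
  have h2 : ∑ T ∈ BT, CT T ^ 2 ≤ C2 * ((H + 1 : ℕ) : ℝ) ^ (k + 1) :=
    (sum_le_sum_of_subset_of_nonneg h1 fun T _ _ => sq_nonneg _).trans hmom
  refine Real.le_sqrt_of_sq_le ?_
  have h3 := sum_mul_sq_le_sq_mul_sq BT (fun _ => (1 : ℝ)) CT
  simp only [one_mul, one_pow, sum_const, nsmul_eq_mul, mul_one] at h3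
  refine h3.trans ?_
  exact mul_le_mul hP h2 (sum_nonneg fun _ _ => sq_nonneg _) ((Nat.cast_nonneg _).trans hP)

/-- powers of `log N` against `N / log N ^ m` -/
lemma log_rpow_small (C : ℝ) (m : ℕ) {τ : ℝ} (hτ : 0 < τ) : ∀ᶠ N : ℕ in atTop,
    Real.log N ^ C ≤ τ * (N / Real.log N ^ m) := by
  have h1 := ev_small (m + ⌈|C|⌉₊) (by norm_num : (0 : ℝ) < 1) 1 hτ
  filter_upwards [h1, ev_logN (eventually_ge_atTop (1 : ℝ))] with N hN hL
  have hL0 : 0 < Real.log N := by linarith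
  rw [sub_self, zero_mul, Real.exp_zero, mul_one, pow_add] at hN
  have h2 : Real.log N ^ C ≤ Real.log N ^ (⌈|C|⌉₊ : ℕ) := by
    rw [← Real.rpow_natCast]
    exact Real.rpow_le_rpow_of_exponent_le hL ((le_abs_self C).trans (Nat.le_ceil _))
  refine h2.trans ?_
  have h3 : 0 < Real.log N ^ (⌈|C|⌉₊ : ℕ) := by positivity
  have h4 := mul_le_mul_of_nonneg_right hN h3.le
  rw [one_mul] at h4
  refine h4.trans (le_of_eq ?_)
  field_simp

open Classical in
/-- **the proportion of the patterns between two multiples of the prediction** -/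
theorem prop_N (k : ℕ) (hk : 1 ≤ k) {C η θ ε : ℝ} (hη : 0 < η) (hθ : 0 < θ) (hθ1 : θ < 1)
    (hε : 0 < ε) : ∃ Λ : ℝ, 0 < Λ ∧ ∀ᶠ N : ℕ in atTop, ∀ H : ℕ, Λ * Real.log N ≤ H →
      (H : ℝ) ≤ Real.log N ^ C → ∀ A : Finset ℕ, A ⊆ Icc 1 H → η * H ≤ A.card →
      ((1 - θ) / (4 ^ k - θ) - ε) * ∑ T ∈ A.powersetCard (k + 1), CT T ≤
        ∑ T ∈ (A.powersetCard (k + 1)).filter (fun T =>
          θ * CT T * (N / Real.log N ^ (k + 1)) ≤ (cN N T : ℝ) ∧
          (cN N T : ℝ) ≤ (4 ^ k + ε) * CT T * (N / Real.log N ^ (k + 1))), CT T := by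
  obtain ⟨k', rfl⟩ : ∃ j, k = j + 1 := ⟨k - 1, by omega⟩
  set k := k' + 1 with hkd
  -- the constants
  obtain ⟨ε1, hε1d⟩ : ∃ ε1 : ℝ, ε1 = min (ε / 4) (1 / 2) := ⟨_, rfl⟩
  have hε1 : 0 < ε1 := by rw [hε1d]; positivity
  have hε14 : ε1 ≤ ε / 4 := by rw [hε1d]; exact min_le_left _ _
  have hε12 : ε1 ≤ 1 / 2 := by rw [hε1d]; exact min_le_right _ _
  obtain ⟨lam, hlam1, hlam0, hlam2⟩ := PF_ge k hε1
  obtain ⟨cq, Cq, hcq, hCq, hup⟩ := upper_quant k' (ε / 2) (by positivity)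
  obtain ⟨B, hB, hpi⟩ := Pool.Agent.W218.TX.pi_upper k
  obtain ⟨c0, hc0, hlow⟩ := PT_low k
  obtain ⟨C2, hC2, hmom⟩ := Pool.Agent.TH891.SG.CT_mom k 2
  obtain ⟨κ0, hκ0⟩ : ∃ κ0 : ℝ, κ0 = (1 / 2) ^ (k + 1) / (3 / 2) ^ k / (k + 1).factorial / 2 := ⟨_, rfl⟩
  have hκ00 : 0 < κ0 := by rw [hκ0]; positivity
  obtain ⟨κ1, hκ1⟩ : ∃ κ1 : ℝ, κ1 = κ0 * η ^ (k + 1) := ⟨_, rfl⟩
  have hκ10 : 0 < κ1 := by rw [hκ1]; positivity
  obtain ⟨BB, hBB⟩ : ∃ BB : ℝ, BB = B + 1 := ⟨_, rfl⟩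
  have hBB0 : 0 < BB := by rw [hBB]; positivity
  -- the smallness of the exceptional sets
  obtain ⟨s, hs⟩ : ∃ s : ℝ, s = ε1 / BB := ⟨_, rfl⟩
  have hs0 : 0 < s := by rw [hs]; positivity
  obtain ⟨σ, hσ⟩ : ∃ σ : ℝ, σ = (s * κ1) ^ 2 / (Cq * C2 * 2 ^ (k + 1)) := ⟨_, rfl⟩
  have hσ0 : 0 < σ := by rw [hσ]; positivity
  obtain ⟨ρ0, hρ0⟩ : ∃ ρ0 : ℝ, ρ0 = σ ^ (1 / cq) := ⟨_, rfl⟩
  have hρ00 : 0 < ρ0 := by rw [hρ0]; exact Real.rpow_pos_of_pos hσ0 _
  have hρσ : ρ0 ^ cq = σ := by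
    rw [hρ0, ← Real.rpow_mul hσ0.le, one_div_mul_cancel hcq.ne', Real.rpow_one]
  obtain ⟨N₁, huni⟩ := Pool.Agent.TH891.BD.universal2 k 1 hk le_rfl lam (1 - ε1) C hlam1
    (by linarith) hlam2
  refine ⟨max (lam / η) (1 / ρ0), lt_max_of_lt_left (by positivity), ?_⟩
  filter_upwards [hup, hpi C, Pool.Agent.H387R2.MB.CT_sum_ge k hlam0 1 le_rfl C,
    eventually_ge_atTop N₁, ev_logN (eventually_ge_atTop (max 1 (1 / ρ0))),
    log_rpow_small C (k + 1) hc0, log_rpow_small C (k + 1) (by positivity : 0 < ε / 2 * c0),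
    log_rpow_small C (k + 1) (by positivity : 0 < ε1 / 2 * κ1),
    tendsto_natCast_atTop_atTop.eventually (eventually_ge_atTop (max 4 (4 / ε1))),
    log_rpow_small C 0 one_pos]
    with N g1 g2 g3 g4 g5 g6 g7 g8 g9 g10
  intro H hH1 hHC A hAH hcard
  have hL1 : 1 ≤ Real.log N := (le_max_left _ _).trans g5
  have hLρ : 1 / ρ0 ≤ Real.log N := (le_max_right _ _).trans g5
  have hL0 : 0 < Real.log N := by linarith
  have hN4 : (4 : ℝ) ≤ N := (le_max_left _ _).trans g9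
  have hNε : 4 / ε1 ≤ N := (le_max_right _ _).trans g9
  have hN0 : (0 : ℝ) < N := by linarith
  obtain ⟨X, hX⟩ : ∃ X : ℝ, X = N / Real.log N ^ (k + 1) := ⟨_, rfl⟩
  have hX0 : 0 < X := by rw [hX]; positivity
  rw [← hX] at g6 g7 g8
  have hH0 : (0 : ℝ) < H := by
    refine lt_of_lt_of_le ?_ hH1
    exact mul_pos (lt_max_of_lt_left (by positivity)) hL0
  have hHge1 : 1 ≤ H := by exact_mod_cast hH0
  have hlamH : lam * Real.log N ≤ A.card := by
    have h1 : lam / η * Real.log N ≤ H :=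
      le_trans (mul_le_mul_of_nonneg_right (le_max_left _ _) hL0.le) hH1
    have h2 : η * (lam / η * Real.log N) ≤ η * H := mul_le_mul_of_nonneg_left h1 hη.le
    have h3 : η * (lam / η * Real.log N) = lam * Real.log N := by field_simp
    linarith
  have hρH : 1 / ρ0 * Real.log N ≤ H :=
    le_trans (mul_le_mul_of_nonneg_right (le_max_right _ _) hL0.le) hH1
  have hmax : max (Real.log N / H) (1 / Real.log N) ≤ ρ0 := by
    refine max_le ?_ ?_
    · rw [div_le_iff₀ hH0]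
      rw [div_mul_eq_mul_div, one_mul, div_le_iff₀ hρ00] at hρH
      linarith
    · rw [div_le_iff₀ hL0]
      rw [div_le_iff₀ hρ00] at hLρ
      linarith
  have hmax0 : 0 ≤ max (Real.log N / H) (1 / Real.log N) := le_max_of_le_left (by positivity)
  have hAC : ∀ a ∈ A, (a : ℝ) ≤ Real.log N ^ C := by
    intro a ha
    refine le_trans ?_ hHC
    exact_mod_cast (mem_Icc.1 (hAH ha)).2
  have hHN : H ≤ N := by
    have h1 : (H : ℝ) ≤ N := by
      refine hHC.trans (g10.trans ?_)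
      rw [pow_zero, div_one, one_mul]
    exact_mod_cast h1
  set F := ∑ T ∈ A.powersetCard (k + 1), CT T with hF
  -- the sum of the constants
  have hFlow : κ1 * (H : ℝ) ^ (k + 1) ≤ F := by
    have h1 := g3 0 A (fun a _ => Nat.modEq_one) (fun a ha => Nat.le_floor (hAC a ha))
      (by simpa using hlamH)
    rw [← hκ0] at h1
    simp only [Nat.totient_one, Nat.cast_one, div_one, one_pow, mul_one] at h1
    refine le_trans ?_ h1
    rw [hκ1, mul_assoc, ← mul_pow]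
    exact mul_le_mul_of_nonneg_left (pow_le_pow_left₀ (by positivity) hcard _) hκ00.le
  have hF0 : 0 < F := lt_of_lt_of_le (by positivity) hFlow
  obtain ⟨g, hg⟩ : ∃ g : Finset ℕ → ℝ, ∀ T, g T = if Adm T then (cN N T : ℝ) else 0 :=
    ⟨_, fun _ => rfl⟩
  have hT : ∀ T ∈ A.powersetCard (k + 1), T ⊆ Icc 1 H ∧ T.card = k + 1 ∧ T.Nonempty := by
    intro T hT
    rw [mem_powersetCard] at hT
    exact ⟨hT.1.trans hAH, hT.2, card_pos.1 (by omega)⟩
  have hTH : ∀ T ∈ A.powersetCard (k + 1), ∀ t ∈ T, t ≤ H := fun T h t ht =>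
    (mem_Icc.1 ((hT T h).1 ht)).2
  -- the lower bound of the sum
  have hlowsum : (1 - 2 * ε1) * X * F ≤ ∑ T ∈ A.powersetCard (k + 1), g T := by
    have h1 := huni N g4 0 A (fun a _ => Nat.modEq_one) hAC (by simpa using hlamH)
    have h2 := Pool.Agent.W218.TX.int_low (k + 1) (N := N) (by
      have : (3 : ℝ) ≤ N := by linarith
      exact_mod_cast this)
    have h3 : (1 - ε1 / 2) * X ≤ ∫ t in (2 : ℝ)..N, 1 / Real.log t ^ (k + 1) := by
      refine le_trans ?_ h2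
      rw [hX, ← mul_div_assoc]
      apply div_le_div_of_nonneg_right _ (by positivity)
      rw [div_le_iff₀ hε1] at hNε
      linarith
    have h4 : ∀ T ∈ A.powersetCard (k + 1), (piT T N : ℝ) - H ≤ g T := by
      intro T hT'
      rw [hg]
      split_ifs with hA
      · have := le_cN (N := N) (hTH T hT') (hT T hT').2.2
        have h5 : (piT T N : ℝ) ≤ cN N T + H := by exact_mod_cast this
        linarith
      · have : piT T N = 0 := by
          unfold piT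
          rw [if_neg hA]
        rw [this]
        push_cast
        linarith
    have h5 := sum_le_sum h4
    rw [sum_sub_distrib, sum_const, nsmul_eq_mul] at h5
    have h6 : ((A.powersetCard (k + 1)).card : ℝ) ≤ (H : ℝ) ^ (k + 1) := by
      refine le_trans ?_ (card_pow_le H (k + 1))
      exact_mod_cast card_le_card (powersetCard_mono hAH)
    have h7 : ((A.powersetCard (k + 1)).card : ℝ) * H ≤ ε1 / 2 * X * F := by
      calc ((A.powersetCard (k + 1)).card : ℝ) * H ≤ (H : ℝ) ^ (k + 1) * (ε1 / 2 * κ1 * X) :=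
            mul_le_mul h6 (hHC.trans g8) hH0.le (by positivity)
        _ = ε1 / 2 * X * (κ1 * (H : ℝ) ^ (k + 1)) := by ring
        _ ≤ _ := mul_le_mul_of_nonneg_left hFlow (by positivity)
    have h8 : (1 - ε1) * F * ((1 - ε1 / 2) * X) ≤
        (1 - ε1) * F * ∫ t in (2 : ℝ)..N, 1 / Real.log t ^ (k + 1) :=
      mul_le_mul_of_nonneg_left h3 (mul_nonneg (by linarith) hF0.le)
    have h9 : (1 - 3 / 2 * ε1) * (F * X) ≤ (1 - ε1) * F * ((1 - ε1 / 2) * X) := by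
      have e : (1 - ε1) * F * ((1 - ε1 / 2) * X) = ((1 - ε1) * (1 - ε1 / 2)) * (F * X) := by ring
      rw [e]
      refine mul_le_mul_of_nonneg_right ?_ (by positivity)
      nlinarith
    linarith
  -- the upper bound
  have hBg : ∀ T ∈ A.powersetCard (k + 1), g T ≤ BB * CT T * X := by
    intro T hT'
    rw [hg]
    split_ifs with hA
    · have h1 := cN_le (N := N) hA (hTH T hT') (hT T hT').2.2
      have h2 : (cN N T : ℝ) ≤ piT T N + H := by exact_mod_cast h1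
      have h3 := g2 T (hT T hT').2.1 (fun t ht => le_trans (by exact_mod_cast hTH T hT' t ht) hHC)
      rw [← hX] at h3
      have h4 := (hlow T (hT T hT').2.1 hA).2
      have h5 : (H : ℝ) ≤ CT T * X := by
        refine (hHC.trans g6).trans ?_
        exact mul_le_mul_of_nonneg_right h4 hX0.le
      rw [hBB]
      linarith
    · have := CT_nonneg T
      positivity
  -- the exceptional patterns
  have hBT := badT_card (k := k) (N := N) (H := H) (a := 4 ^ k + ε / 2) (a' := 4 ^ k + ε) (X := X)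
    (P := Cq * ρ0 ^ cq * (H : ℝ) ^ k) (fun T hTc hA => by
      have h4 := (hlow T hTc hA).2
      have h5 : (H : ℝ) ≤ ε / 2 * c0 * X := hHC.trans g7
      have h6 : ε / 2 * c0 * X ≤ ε / 2 * CT T * X :=
        mul_le_mul_of_nonneg_right (mul_le_mul_of_nonneg_left h4 (by positivity)) hX0.le
      linarith) (fun Bad hBad => by
      refine (g1 H hHge1 hHN Bad (fun D hD => ?_)).trans ?_
      · obtain ⟨b1, b2, b3⟩ := hBad D hD
        refine ⟨b1, b2, ?_⟩
        rw [hX] at b3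
        exact b3
      · have : (max (Real.log N / H) (1 / Real.log N)) ^ cq ≤ ρ0 ^ cq :=
          Real.rpow_le_rpow hmax0 hmax hcq.le
        gcongr)
  set BT := ((Icc 1 H).powersetCard (k + 1)).filter (fun T => Adm T ∧
      (4 ^ k + ε) * CT T * X < (cN N T : ℝ)) with hBTd
  have hsumBT := sum_few (k := k) (H := H) (hmom (H + 1)) BT (filter_subset _ _) hBT
  have hsumBT2 : ∑ T ∈ BT, CT T ≤ s * F := by
    refine hsumBT.trans ?_
    have h1 : ((H + 1 : ℕ) : ℝ) ≤ 2 * H := by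
      push_cast
      have : (1 : ℝ) ≤ H := by exact_mod_cast hHge1
      linarith
    have h2 : (H : ℝ) * (Cq * ρ0 ^ cq * (H : ℝ) ^ k) * (C2 * ((H + 1 : ℕ) : ℝ) ^ (k + 1)) ≤
        (s * κ1 * (H : ℝ) ^ (k + 1)) ^ 2 := by
      calc (H : ℝ) * (Cq * ρ0 ^ cq * (H : ℝ) ^ k) * (C2 * ((H + 1 : ℕ) : ℝ) ^ (k + 1))
          ≤ (H : ℝ) * (Cq * ρ0 ^ cq * (H : ℝ) ^ k) * (C2 * (2 * (H : ℝ)) ^ (k + 1)) := by gcongr
        _ = (Cq * C2 * 2 ^ (k + 1) * σ) * ((H : ℝ) ^ (k + 1)) ^ 2 := by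
            rw [hρσ, mul_pow, pow_succ (H : ℝ) k]
            ring
        _ = (s * κ1 * (H : ℝ) ^ (k + 1)) ^ 2 := by
            have e : Cq * C2 * 2 ^ (k + 1) * σ = (s * κ1) ^ 2 := by
              rw [hσ]; field_simp
            rw [e]
            ring
    calc Real.sqrt ((H : ℝ) * (Cq * ρ0 ^ cq * (H : ℝ) ^ k) * (C2 * ((H + 1 : ℕ) : ℝ) ^ (k + 1)))
        ≤ s * κ1 * (H : ℝ) ^ (k + 1) := Real.sqrt_le_iff.2 ⟨by positivity, h2⟩
      _ = s * (κ1 * (H : ℝ) ^ (k + 1)) := by ring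
      _ ≤ s * F := mul_le_mul_of_nonneg_left hFlow hs0.le
  have hbadf : ∑ T ∈ (A.powersetCard (k + 1)).filter (fun T => (4 ^ k + ε) * CT T * X < g T), CT T ≤
      s * F := by
    refine le_trans ?_ hsumBT2
    refine sum_le_sum_of_subset_of_nonneg ?_ fun T _ _ => CT_nonneg T
    intro T hT'
    rw [mem_filter, hg] at hT'
    rw [hBTd, mem_filter]
    obtain ⟨t1, t2⟩ := hT'
    by_cases hA : Adm T
    · rw [if_pos hA] at t2
      exact ⟨powersetCard_mono hAH t1, hA, t2⟩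
    · rw [if_neg hA] at t2
      have h1 := CT_nonneg T
      have h2 : 0 ≤ (4 ^ k + ε) * CT T * X := by positivity
      exact absurd t2 (not_lt.2 h2)
  have hcore := prop_core (A.powersetCard (k + 1)) CT g (X := X) (a := 4 ^ k + ε) (θ := θ)
    (ε1 := 2 * ε1) (B := BB) (s := s) (fun T _ => CT_nonneg T) hX0 hθ.le hBg hbadf hBB0.le hlowsum
  rw [← hF] at hcore
  have hBs : BB * s = ε1 := by rw [hs]; field_simp
  rw [hBs] at hcore
  -- the good patterns
  set G := ∑ T ∈ (A.powersetCard (k + 1)).filter (fun T => θ * CT T * X ≤ g T ∧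
    g T ≤ (4 ^ k + ε) * CT T * X), CT T with hG
  have hGG : G = ∑ T ∈ (A.powersetCard (k + 1)).filter (fun T => θ * CT T * X ≤ g T ∧
    g T ≤ (4 ^ k + ε) * CT T * X ∧ CT T ≠ 0), CT T := by
    rw [hG]
    symm
    refine sum_subset ?_ ?_
    · intro T hT'
      rw [mem_filter] at hT' ⊢
      exact ⟨hT'.1, hT'.2.1, hT'.2.2.1⟩
    · intro T h1 h2
      by_contra hne
      apply h2
      rw [mem_filter] at h1 ⊢
      exact ⟨h1.1, h1.2.1, h1.2.2, hne⟩
  have hGle : G ≤ ∑ T ∈ (A.powersetCard (k + 1)).filter (fun T =>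
      θ * CT T * X ≤ (cN N T : ℝ) ∧ (cN N T : ℝ) ≤ (4 ^ k + ε) * CT T * X), CT T := by
    rw [hGG]
    refine sum_le_sum_of_subset_of_nonneg ?_ fun T _ _ => CT_nonneg T
    intro T hT'
    rw [mem_filter, hg] at hT'
    rw [mem_filter]
    obtain ⟨t1, t2, t3, t4⟩ := hT'
    rw [if_pos (adm_of_ne t4)] at t2 t3
    exact ⟨t1, t2, t3⟩
  rw [← hX]
  refine le_trans ?_ hGle
  have h4k : (4 : ℝ) ≤ 4 ^ k := by
    calc (4 : ℝ) = 4 ^ 1 := (pow_one _).symm
      _ ≤ 4 ^ k := pow_le_pow_right₀ (by norm_num) hk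
  have ha0 : 0 < (4 : ℝ) ^ k - θ := by linarith
  have ha : 0 < (4 : ℝ) ^ k + ε - θ := by linarith
  have hfin : ((1 - θ) / (4 ^ k - θ) - ε) * (4 ^ k + ε - θ) ≤ 1 - 2 * ε1 - θ - ε1 := by
    have e1 : (1 - θ) / ((4 : ℝ) ^ k - θ) * (4 ^ k + ε - θ) = (1 - θ) + (1 - θ) / (4 ^ k - θ) * ε := by
      field_simp
      ring
    have e2 : (1 - θ) / ((4 : ℝ) ^ k - θ) ≤ 1 := by
      rw [div_le_one ha0]
      linarith
    have e3 : (1 - θ) / ((4 : ℝ) ^ k - θ) * ε ≤ 1 * ε := mul_le_mul_of_nonneg_right e2 hε.le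
    rw [sub_mul, e1]
    nlinarith
  have h10 : (4 ^ k + ε - θ) * (((1 - θ) / (4 ^ k - θ) - ε) * F) ≤ (4 ^ k + ε - θ) * G := by
    calc (4 ^ k + ε - θ) * (((1 - θ) / (4 ^ k - θ) - ε) * F)
        = (((1 - θ) / (4 ^ k - θ) - ε) * (4 ^ k + ε - θ)) * F := by ring
      _ ≤ (1 - 2 * ε1 - θ - ε1) * F := mul_le_mul_of_nonneg_right hfin hF0.le
      _ ≤ _ := hcore
  exact le_of_mul_le_mul_left h10 ha

end Pool.Agent.J4.H38.SR
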