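import Mathlib
import Pool.Agent.J4.H38.SR.Kuhn

/-! The linear sieve for a weighted set: both bounds, all levels. -/

set_option autoImplicit false

namespace Pool.Agent.J4.H38.SR

open Finset
open Pool.Agent.Y822
open Pool.Agent.W23
open Pool.Agent.W23.DC (tt pr LL MM Siz Mer SF mem_pr siz ind mem_EE)
open Pool.Agent.Y822.Lin (mer_of)
open Pool.Agent.Y822.F (iu sz_eq)
open Pool.Agent.H373R2.T7 (pz Vz mem_pz)

/-- **the linear sieve** -/
theorem linS {A0 : ℝ} {F f : ℝ → ℝ} (hS : SF A0 F f) {α τ κ η : ℝ} (hα : 0 < α) (hατ : 2 * α ≤ τ)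
    (hτ : τ ≤ 1) (hκ : 0 < κ) (hκα : κ ≤ α) (hη : 0 < η) : ∃ N₀ : ℕ, ∀ N : ℕ, N₀ ≤ N →
      ∀ (Ω : Finset ℕ) (v : ℕ → ℝ) (m : ℕ → ℕ) (X : ℝ), (∀ n ∈ Ω, 0 ≤ v n) → 0 ≤ X →
      (κ / α * f (τ / α) - η) * X - ∑ d ∈ DC.EE (pr N κ α) (tt N) τ α,
          |(∑ n ∈ Ω, v n * ind (m n) d) - X * (1 / (d : ℝ))| ≤ ∑ n ∈ Ω, v n * iu N κ α (m n) ∧
      ∑ n ∈ Ω, v n * iu N κ α (m n) ≤ (κ / α * F (τ / α) + η) * X +
        ∑ d ∈ DC.EE (pr N κ α) (tt N) τ α, |(∑ n ∈ Ω, v n * ind (m n) d) - X * (1 / (d : ℝ))| := by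
  classical
  obtain ⟨η', hη0, HM⟩ := Pool.Agent.W505.DC.MT Pool.Agent.W505.DC.MI A0 F f hS κ η ⌈1 / κ⌉₊ hκ (by linarith)
    hη
  obtain ⟨N₁, hN₁⟩ := mer_of κ α η' hκ (by linarith) hη0
  refine ⟨max N₁ 2, ?_⟩
  intro N hN Ω v m X hv hX
  have hNN₁ : N₁ ≤ N := (le_max_left _ _).trans hN
  have hN2 : 2 ≤ N := (le_max_right _ _).trans hN
  set P := pr N κ α with hP
  set g : ℕ → ℝ := fun p => 1 / (p : ℝ) with hg
  set K := ⌈1 / κ⌉₊ with hK
  set r : ℕ → ℝ := fun e => (∑ n ∈ Ω, v n * ind (m n) e) - X * (1 / (e : ℝ)) with hr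
  have hKε : 1 ≤ (K + 2) * κ := by
    have h1 : 1 / κ ≤ K := Nat.le_ceil _
    have h2 : 1 / κ * κ = 1 := by field_simp
    nlinarith
  have hg0 : ∀ p ∈ P, 0 ≤ g p := fun p _ => by rw [hg]; positivity
  obtain ⟨hup, hlo⟩ := HM P (tt N) g α (by linarith) hg0 (fun p hp => (mem_pr.1 hp).2.2.1)
    (hN₁ N hNN₁) K le_rfl τ α (by linarith) (by linarith) le_rfl (by linarith) hτ
  have hlo := hlo hατ
  have e1 := fun b => Pool.Agent.Y822.F.LL_eq hN2 (ε₁ := κ) (w := α) Ω v m X K b τ α 1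
    (fun p hp _ h => (mem_pr.1 hp).2.1.one_lt.ne' (Nat.dvd_one.1 h))
  have hE : ∀ b, |LL P (tt N) r K b τ α 1| ≤ ∑ d ∈ DC.EE P (tt N) τ α, |r d| := by
    intro b
    have h1 := Pool.Agent.W586.DC.ER P (tt N) (siz hN2 _ _) r K b τ α 1 (by linarith)
      (fun _ => by linarith)
    simp only [one_mul] at h1
    exact h1
  have hpt := fun n => Pool.Agent.W52.DC.PT P (tt N) (siz hN2 _ _) (m n) K τ α 1
      (fun p hp _ h => (mem_pr.1 hp).2.1.one_lt.ne' (Nat.dvd_one.1 h))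
  have hiu : ∀ n, (if 1 ∣ m n ∧ ∀ p ∈ P, tt N p < α → ¬ p ∣ m n then (1 : ℝ) else 0) = iu N κ α (m n) := by
    intro n
    unfold iu
    congr 1
    apply propext
    constructor
    · rintro ⟨-, h⟩ p hp
      exact h p hp (mem_pr.1 hp).2.2.2
    · intro h
      exact ⟨one_dvd _, fun p hp _ => h p hp⟩
  constructor
  · have hsum : ∑ n ∈ Ω, v n * LL P (tt N) (ind (m n)) K false τ α 1 ≤ ∑ n ∈ Ω, v n * iu N κ α (m n) :=
      sum_le_sum fun n hn => mul_le_mul_of_nonneg_left (by rw [← hiu n]; exact (hpt n).2) (hv n hn)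
    rw [e1 false] at hsum
    have hE' := (abs_le.1 (hE false)).1
    have h3 : X * (κ / α * f (τ / α) - η) ≤ X * (1 / ((1 : ℕ) : ℝ) * MM P (tt N) g K false τ α) := by
      apply mul_le_mul_of_nonneg_left _ hX
      norm_num
      linarith
    linarith
  · have hsum : ∑ n ∈ Ω, v n * iu N κ α (m n) ≤ ∑ n ∈ Ω, v n * LL P (tt N) (ind (m n)) K true τ α 1 :=
      sum_le_sum fun n hn => mul_le_mul_of_nonneg_left (by rw [← hiu n]; exact (hpt n).1) (hv n hn)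
    rw [e1 true] at hsum
    have hE' := (abs_le.1 (hE true)).2
    have h3 : X * (1 / ((1 : ℕ) : ℝ) * MM P (tt N) g K true τ α) ≤ X * (κ / α * F (τ / α) + η) := by
      apply mul_le_mul_of_nonneg_left _ hX
      norm_num
      linarith
    linarith

/-- the sifting limits -/
structure Lim (N : ℕ) (κ : ℝ) (y : ℕ) : Prop where
  lt : (y : ℝ) < (N : ℝ) ^ κ
  le : (N : ℝ) ^ κ ≤ y + 1

lemma Lim.iff {N : ℕ} {κ : ℝ} {y : ℕ} (h : Lim N κ y) (p : ℕ) : p ≤ y ↔ (p : ℝ) < (N : ℝ) ^ κ := by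
  constructor
  · intro hp
    have : (p : ℝ) ≤ y := by exact_mod_cast hp
    exact lt_of_le_of_lt this h.lt
  · intro hp
    have h1 : (p : ℝ) < y + 1 := lt_of_lt_of_le hp h.le
    have h2 : p < y + 1 := by exact_mod_cast h1
    omega

lemma exists_lim (N : ℕ) (hN : 1 ≤ N) (κ : ℝ) : ∃ y : ℕ, Lim N κ y := by
  have hN0 : (0 : ℝ) < N := by exact_mod_cast hN
  obtain ⟨y, hy⟩ : ∃ y : ℕ, y + 1 = ⌈(N : ℝ) ^ κ⌉₊ := by
    have : 0 < ⌈(N : ℝ) ^ κ⌉₊ := Nat.ceil_pos.2 (by positivity)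
    exact ⟨⌈(N : ℝ) ^ κ⌉₊ - 1, by omega⟩
  refine ⟨y, Nat.lt_ceil.1 (by omega), ?_⟩
  have := Nat.le_ceil ((N : ℝ) ^ κ)
  rw [← hy] at this
  exact_mod_cast this

lemma Lim.mono {N : ℕ} {κ α : ℝ} {y z : ℕ} (hN : 1 ≤ N) (hκα : κ ≤ α) (hy : Lim N κ y) (hz : Lim N α z) :
    y ≤ z := by
  rw [hz.iff]
  exact hy.lt.trans_le (Real.rpow_le_rpow_of_exponent_le (by exact_mod_cast hN) hκα)

/-- the primes between the limits -/
lemma mem_pr_lim {N : ℕ} (hN : 2 ≤ N) {κ α : ℝ} (hα1 : α ≤ 1) {y z : ℕ} (hy : Lim N κ y)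
    (hz : Lim N α z) (p : ℕ) : p ∈ pr N κ α ↔ p.Prime ∧ y < p ∧ p ≤ z := by
  have hN1 : (1 : ℝ) ≤ N := by exact_mod_cast (by omega : 1 ≤ N)
  rw [mem_pr]
  constructor
  · rintro ⟨_, hp, h1, h2⟩
    rw [DC.le_tt_iff hN hp.pos] at h1
    rw [DC.tt_lt_iff hN hp.pos] at h2
    refine ⟨hp, ?_, (hz.iff p).2 h2⟩
    by_contra h
    have := (hy.iff p).1 (by omega)
    linarith
  · rintro ⟨hp, h1, h2⟩
    have h3 := (hz.iff p).1 h2
    refine ⟨⟨hp.pos, ?_⟩, hp, (DC.le_tt_iff hN hp.pos _).2 ?_, (DC.tt_lt_iff hN hp.pos _).2 h3⟩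
    · have : (p : ℝ) ≤ N := by
        calc (p : ℝ) ≤ (N : ℝ) ^ α := h3.le
          _ ≤ (N : ℝ) ^ (1 : ℝ) := Real.rpow_le_rpow_of_exponent_le hN1 hα1
          _ = N := Real.rpow_one _
      exact_mod_cast this
    · by_contra h
      push Not at h
      have := (hy.iff p).2 h
      omega

lemma ro_iu {N : ℕ} (hN : 2 ≤ N) {κ α : ℝ} (hκα : κ ≤ α) (hα1 : α ≤ 1) {y z : ℕ} (hy : Lim N κ y)
    (hz : Lim N α z) (m : ℕ) : ro z m = ro y m * iu N κ α m := by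
  classical
  have hyz := hy.mono (by omega) hκα hz
  unfold ro iu
  by_cases h1 : Ro z m
  · have h2 : Ro y m := fun p hp hpy => h1 p hp (hpy.trans hyz)
    have h3 : ∀ p ∈ pr N κ α, ¬ p ∣ m := by
      intro p hp
      rw [mem_pr_lim hN hα1 hy hz] at hp
      exact h1 p hp.1 hp.2.2
    rw [if_pos h1, if_pos h2, if_pos h3, one_mul]
  · rw [if_neg h1]
    by_cases h2 : Ro y m
    · have h3 : ¬ ∀ p ∈ pr N κ α, ¬ p ∣ m := by
        intro h3
        apply h1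
        intro p hp hpz
        by_cases hpy : p ≤ y
        · exact h2 p hp hpy
        · exact h3 p ((mem_pr_lim hN hα1 hy hz p).2 ⟨hp, by omega, hpz⟩)
      rw [if_neg h3, mul_zero]
    · rw [if_neg h2, zero_mul]

/-- the products of Mertens -/
theorem Vratio {κ α η : ℝ} (hκ : 0 < κ) (hκα : κ ≤ α) (hα1 : α ≤ 1) (hη : 0 < η) :
    ∃ N₀ : ℕ, ∀ N : ℕ, N₀ ≤ N → ∀ y z : ℕ, Lim N κ y → Lim N α z →
      κ / α * Real.exp (-η) * Vz y ≤ Vz z ∧ Vz z ≤ κ / α * Real.exp η * Vz y := by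
  classical
  obtain ⟨N₀, H0⟩ := Pool.Agent.W378.DC.MP κ η hκ hη
  obtain ⟨N₁, H1⟩ := mer_of κ α η hκ hα1 hη
  have hα : 0 < α := by linarith
  refine ⟨max (max N₀ N₁) 2, fun N hN y z hy hz => ?_⟩
  have hN2 : 2 ≤ N := (le_max_right _ _).trans hN
  have h0 := (abs_le.1 (H0 N (((le_max_left _ _).trans (le_max_left _ _)).trans hN) κ α le_rfl hκα hα1)).2
  have h1 := (abs_le.1 (H1 N (((le_max_right _ _).trans (le_max_left _ _)).trans hN) κ α le_rfl hκα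
    le_rfl)).1
  have e : (pr N κ α).filter (fun p => κ ≤ tt N p ∧ tt N p < α) = pr N κ α := by
    refine filter_true_of_mem fun q hq => ?_
    exact (mem_pr.1 hq).2.2
  rw [e] at h1
  have hyz := hy.mono (by omega) hκα hz
  have hV : Vz z = Vz y * ∏ p ∈ pr N κ α, (1 - 1 / (p : ℝ)) := by
    unfold Vz
    rw [← prod_union]
    · congr 1
      ext p
      rw [mem_union, mem_pz, mem_pz, mem_pr_lim hN2 hα1 hy hz]
      constructor
      · rintro ⟨h2, h3⟩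
        by_cases h4 : p ≤ y
        · exact Or.inl ⟨h4, h3⟩
        · exact Or.inr ⟨h3, by omega, h2⟩
      · rintro (⟨h2, h3⟩ | ⟨h2, h3, h4⟩)
        · exact ⟨h2.trans hyz, h3⟩
        · exact ⟨h4, h2⟩
    · rw [disjoint_left]
      intro p hp hp'
      rw [mem_pz] at hp
      rw [mem_pr_lim hN2 hα1 hy hz] at hp'
      omega
  have hV0 := (Vz_pos' y).le
  have hup : ∏ p ∈ pr N κ α, (1 - 1 / (p : ℝ)) ≤ κ / α * Real.exp η := by
    have h2 : ∏ p ∈ pr N κ α, (1 - 1 / (p : ℝ)) ≤ Real.exp (-∑ p ∈ pr N κ α, 1 / (p : ℝ)) := by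
      rw [← sum_neg_distrib, Real.exp_sum]
      refine prod_le_prod (fun p hp => ?_) fun p _ => ?_
      · have : (1 : ℝ) ≤ p := by exact_mod_cast (mem_pr.1 hp).2.1.one_lt.le
        rw [sub_nonneg, div_le_one (by linarith)]
        exact this
      · have := Real.add_one_le_exp (-(1 / (p : ℝ)))
        linarith
    refine h2.trans ?_
    have h3 : κ / α = Real.exp (-Real.log (α / κ)) := by
      rw [Real.exp_neg, Real.exp_log (by positivity), inv_div]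
    rw [h3, ← Real.exp_add]
    apply Real.exp_le_exp.2
    linarith
  have hlo : κ / α * Real.exp (-η) ≤ ∏ p ∈ pr N κ α, (1 - 1 / (p : ℝ)) := by
    have h2 : Real.exp (-∑ p ∈ pr N κ α, 1 / ((p : ℝ) - 1)) ≤ ∏ p ∈ pr N κ α, (1 - 1 / (p : ℝ)) := by
      rw [← sum_neg_distrib, Real.exp_sum]
      refine prod_le_prod (fun p _ => (Real.exp_pos _).le) fun p hp => ?_
      have hp2 : (2 : ℝ) ≤ p := by exact_mod_cast (mem_pr.1 hp).2.1.two_le
      have h4 := Real.add_one_le_exp (1 / ((p : ℝ) - 1))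
      have h5 : 0 < (p : ℝ) - 1 := by linarith
      have h6 : 1 / ((p : ℝ) - 1) + 1 = p / (p - 1) := by field_simp; ring
      rw [h6] at h4
      have h7 : Real.exp (-(1 / ((p : ℝ) - 1))) = (Real.exp (1 / ((p : ℝ) - 1)))⁻¹ := Real.exp_neg _
      rw [h7]
      calc (Real.exp (1 / ((p : ℝ) - 1)))⁻¹ ≤ ((p : ℝ) / (p - 1))⁻¹ := inv_anti₀ (by positivity) h4
        _ = 1 - 1 / (p : ℝ) := by rw [inv_div]; field_simp
    refine le_trans ?_ h2
    have h3 : κ / α = Real.exp (-Real.log (α / κ)) := by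
      rw [Real.exp_neg, Real.exp_log (by positivity), inv_div]
    rw [h3, ← Real.exp_add]
    apply Real.exp_le_exp.2
    linarith
  rw [hV]
  constructor
  · calc κ / α * Real.exp (-η) * Vz y ≤ (∏ p ∈ pr N κ α, (1 - 1 / (p : ℝ))) * Vz y :=
          mul_le_mul_of_nonneg_right hlo hV0
      _ = _ := mul_comm _ _
  · calc Vz y * ∏ p ∈ pr N κ α, (1 - 1 / (p : ℝ)) ≤ Vz y * (κ / α * Real.exp η) :=
          mul_le_mul_of_nonneg_left hup hV0
      _ = _ := mul_comm _ _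

end Pool.Agent.J4.H38.SR
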