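import Mathlib
import Pool.Agent.J4.H38.SR.LS1
import Pool.Agent.J4.H38.SR.Kuhn4

/-! The constants of the linear sieve for almost all sets of shifts in a short interval. -/

set_option autoImplicit false

namespace Pool.Agent.J4.H38.SR

open Finset Filter
open Pool.Agent.Y822
open Pool.Agent.Y822.Low (step_lower')
open Pool.Agent.W23
open Pool.Agent.W23.DC (tt pr LL MM Siz Mer SF mem_pr siz ind mem_EE)
open Pool.Agent.Y822.F (iu)
open Pool.Agent.H373R2.T7 (pz Vz mem_pz)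
open Pool.Agent.H387R2.Uni (nuT Adm locT CT CT_nonneg)

/-- the error is part of the total discrepancy -/
lemma EE_le_LD {N y : ℕ} {κ α τ : ℝ} (hN : 2 ≤ N) (hτ : 0 ≤ τ) (hy : Lim N κ y) (f : ℕ → ℝ) (t : ℕ) :
    ∑ d ∈ DC.EE (pr N κ α) (tt N) τ α, |(∑ n ∈ Icc 1 N, f n * ro y (n + t) * ind (n + t) d) -
      (∑ n ∈ Icc 1 N, f n * ro y (n + t)) * (1 / (d : ℝ))| ≤ LD y ⌊(N : ℝ) ^ τ⌋₊ N f t := by
  classical
  unfold LD
  have hsub : DC.EE (pr N κ α) (tt N) τ α ⊆ SD y ⌊(N : ℝ) ^ τ⌋₊ := by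
    intro d hd
    obtain ⟨h1, h2, h3, h4⟩ := EEx_facts hN hτ hd
    refine mem_SD.2 ⟨⟨h1, Nat.le_floor h3⟩, h2, fun p hp hpy hpd => ?_⟩
    have h5 := (h4 p (Nat.mem_primeFactors.2 ⟨hp, hpd, by omega⟩)).1
    rw [DC.le_tt_iff hN hp.pos] at h5
    have h6 := (hy.iff p).1 hpy
    linarith
  refine le_trans (sum_le_sum fun d hd => ?_) (sum_le_sum_of_subset_of_nonneg hsub
    fun _ _ _ => mul_nonneg (by positivity) (abs_nonneg _))
  have e : (∑ n ∈ Icc 1 N, f n * ro y (n + t) * ind (n + t) d) -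
      (∑ n ∈ Icc 1 N, f n * ro y (n + t)) * (1 / (d : ℝ)) =
      ∑ n ∈ Icc 1 N, f n * (ro y (n + t) * cen d (n + t)) := by
    rw [sum_mul, ← sum_sub_distrib]
    refine sum_congr rfl fun n _ => ?_
    unfold cen ind
    ring
  rw [e]
  exact le_mul_of_one_le_left (abs_nonneg _) (one_le_pow₀ (by norm_num))

/-- **one shift** -/
theorem stepR {A0 : ℝ} {F f : ℝ → ℝ} (hS : SF A0 F f) {α τ κ e : ℝ} (hα : 0 < α) (hα1 : α ≤ 1)
    (hατ : 2 * α ≤ τ) (hτ : τ ≤ 1) (he : 0 < e) (he1 : e ≤ 1) (hκ : 0 < κ) (hκα : κ ≤ α) :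
    ∃ N₀ : ℕ, ∀ N : ℕ, N₀ ≤ N → ∀ y z : ℕ, Lim N κ y → Lim N α z → ∀ w : ℕ → ℝ, (∀ n, 0 ≤ w n) →
    ∀ t : ℕ, max (f (τ / α) - e) 0 * (Vz z / Vz y) * (∑ n ∈ Icc 1 N, w n * ro y (n + t)) -
        LD y ⌊(N : ℝ) ^ τ⌋₊ N w t ≤ ∑ n ∈ Icc 1 N, w n * ro z (n + t) ∧
      ∑ n ∈ Icc 1 N, w n * ro z (n + t) ≤ (F (τ / α) + e) * (Vz z / Vz y) *
        (∑ n ∈ Icc 1 N, w n * ro y (n + t)) + LD y ⌊(N : ℝ) ^ τ⌋₊ N w t := by
  classical
  have hs1 : 1 ≤ τ / α := by rw [le_div_iff₀ hα]; linarith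
  have hF := hS.F1 _ hs1
  have hf := hS.f1 _ hs1
  set Fs := F (τ / α) with hFs
  set fs := f (τ / α) with hfs
  obtain ⟨η, hη⟩ : ∃ η : ℝ, η = e / (4 * (Fs + 1)) := ⟨_, rfl⟩
  have hη0 : 0 < η := by rw [hη]; positivity
  have hηF : η * (Fs + 1) = e / 4 := by rw [hη]; field_simp
  have hη8 : η ≤ 1 / 8 := by
    rw [hη, div_le_div_iff₀ (by positivity) (by norm_num)]
    nlinarith
  obtain ⟨N₁, H1⟩ := linS hS hα hατ hτ hκ hκα (by positivity : 0 < κ * (e / 4))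
  obtain ⟨N₂, H2⟩ := Vratio hκ hκα hα1 hη0
  refine ⟨max (max N₁ N₂) 2, fun N hN y z hy hz w hw t => ?_⟩
  have hN2 : 2 ≤ N := (le_max_right _ _).trans hN
  obtain ⟨v1, v2⟩ := H2 N (((le_max_right _ _).trans (le_max_left _ _)).trans hN) y z hy hz
  obtain ⟨s1, s2⟩ := H1 N (((le_max_left _ _).trans (le_max_left _ _)).trans hN) (Icc 1 N)
    (fun n => w n * ro y (n + t)) (fun n => n + t) (∑ n ∈ Icc 1 N, w n * ro y (n + t))
    (fun n _ => mul_nonneg (hw n) (ro_nonneg _ _))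
    (sum_nonneg fun n _ => mul_nonneg (hw n) (ro_nonneg _ _))
  have herr := EE_le_LD (α := α) (τ := τ) hN2 (by linarith) hy w t
  have hX : 0 ≤ ∑ n ∈ Icc 1 N, w n * ro y (n + t) := sum_nonneg fun n _ => mul_nonneg (hw n) (ro_nonneg _ _)
  have hLD := LD_nonneg y ⌊(N : ℝ) ^ τ⌋₊ N w t
  have hsum : ∑ n ∈ Icc 1 N, w n * ro y (n + t) * iu N κ α (n + t) = ∑ n ∈ Icc 1 N, w n * ro z (n + t) := by
    refine sum_congr rfl fun n _ => ?_
    rw [ro_iu hN2 hκα hα1 hy hz (n + t)]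
    ring
  rw [hsum] at s1 s2
  have hVy := Vz_pos' y
  have hka : 0 < κ / α := by positivity
  have r1 : κ / α * Real.exp (-η) ≤ Vz z / Vz y := by rw [le_div_iff₀ hVy]; exact v1
  have r2 : Vz z / Vz y ≤ κ / α * Real.exp η := by rw [div_le_iff₀ hVy]; exact v2
  set ρ := Vz z / Vz y with hρ
  have hkη : κ * (e / 4) ≤ κ / α * (e / 4) := by
    apply mul_le_mul_of_nonneg_right _ (by positivity)
    rw [le_div_iff₀ hα]
    nlinarith
  constructor
  · rcases le_or_gt (fs - e) 0 with h0 | h0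
    · rw [max_eq_right h0, zero_mul, zero_mul]
      have : 0 ≤ ∑ n ∈ Icc 1 N, w n * ro z (n + t) := sum_nonneg fun n _ => mul_nonneg (hw n) (ro_nonneg _ _)
      linarith
    · rw [max_eq_left h0.le]
      have h1 : Real.exp η ≤ 1 + 2 * η := by
        have h2 := Real.add_one_le_exp (-η)
        have h3 : Real.exp η * Real.exp (-η) = 1 := by rw [← Real.exp_add]; simp
        have h4 := Real.exp_pos η
        nlinarith
      have h2 : (fs - e) * ρ ≤ κ / α * fs - κ * (e / 4) := by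
        calc (fs - e) * ρ ≤ (fs - e) * (κ / α * (1 + 2 * η)) := by
              apply mul_le_mul_of_nonneg_left _ h0.le
              exact r2.trans (mul_le_mul_of_nonneg_left h1 hka.le)
          _ = κ / α * ((fs - e) * (1 + 2 * η)) := by ring
          _ ≤ κ / α * (fs - e / 4) := by
              apply mul_le_mul_of_nonneg_left _ hka.le
              have h5 : η * (fs - e) ≤ η * (Fs + 1) := mul_le_mul_of_nonneg_left (by linarith) hη0.le
              nlinarith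
          _ = κ / α * fs - κ / α * (e / 4) := by ring
          _ ≤ _ := by linarith
      have h3 := mul_le_mul_of_nonneg_right h2 hX
      linarith
  · have h1 : 1 - η ≤ Real.exp (-η) := by
      have := Real.add_one_le_exp (-η)
      linarith
    have h2 : κ / α * Fs + κ * (e / 4) ≤ (Fs + e) * ρ := by
      calc κ / α * Fs + κ * (e / 4) ≤ κ / α * Fs + κ / α * (e / 4) := by linarith
        _ = κ / α * (Fs + e / 4) := by ring
        _ ≤ κ / α * ((Fs + e) * (1 - η)) := by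
            apply mul_le_mul_of_nonneg_left _ hka.le
            have h5 : η * (Fs + e) ≤ η * (Fs + 1) := mul_le_mul_of_nonneg_left (by linarith) hη0.le
            nlinarith
        _ = (Fs + e) * (κ / α * (1 - η)) := by ring
        _ ≤ (Fs + e) * ρ := by
            apply mul_le_mul_of_nonneg_left _ (by linarith)
            exact (mul_le_mul_of_nonneg_left h1 hka.le).trans r1
    have h3 := mul_le_mul_of_nonneg_right h2 hX
    linarith

/-- the final computation, upper bound -/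
lemma calc_up {k : ℕ} {e Fs M CTy PTy Vy Vz' n L u W E x P : ℝ} (he : 0 ≤ e)
    (hVy : 0 ≤ Vy) (hnL : 0 ≤ n / L) (hu0 : 0 ≤ u) (hu1 : u ≤ 1)
    (huV : u * Vy = (Fs + e) * Vz') (hPT : PTy ≤ (1 + e) * CTy)
    (hW : W ≤ (1 + e) * (n / L * (PTy * Vy ^ (k + 1))) + E) (hE : 0 ≤ E)
    (hM : M = CTy * (n / L) * Vz' ^ (k + 1)) (hx : E + (k + 1) * x ≤ e * M)
    (hP : P ≤ u ^ (k + 1) * W + (k + 1) * x) :
    P ≤ ((1 + e) ^ 2 * (Fs + e) ^ (k + 1) + e) * M := by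
  have g1 : u ^ (k + 1) * W ≤ u ^ (k + 1) * ((1 + e) * (n / L * (PTy * Vy ^ (k + 1))) + E) :=
    mul_le_mul_of_nonneg_left hW (pow_nonneg hu0 _)
  have g2 : u ^ (k + 1) * E ≤ E := mul_le_of_le_one_left hE (pow_le_one₀ hu0 hu1)
  have g3 : u ^ (k + 1) * ((1 + e) * (n / L * (PTy * Vy ^ (k + 1)))) =
      (1 + e) * (n / L) * PTy * (u * Vy) ^ (k + 1) := by
    rw [mul_pow]; ring
  have g4 : (1 + e) * (n / L) * PTy * (u * Vy) ^ (k + 1) ≤
      (1 + e) * (n / L) * ((1 + e) * CTy) * (u * Vy) ^ (k + 1) := by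
    apply mul_le_mul_of_nonneg_right _ (pow_nonneg (mul_nonneg hu0 hVy) _)
    exact mul_le_mul_of_nonneg_left hPT (mul_nonneg (by linarith) hnL)
  have g5 : (1 + e) * (n / L) * ((1 + e) * CTy) * (u * Vy) ^ (k + 1) =
      (1 + e) ^ 2 * (Fs + e) ^ (k + 1) * M := by
    rw [huV, hM, mul_pow]
    ring
  rw [mul_add, g3] at g1
  linarith

/-- the final computation, lower bound -/
lemma calc_low {k : ℕ} {e fs M CTy PTy Vy Vz' n L u W E x P : ℝ} (he1 : e ≤ 1)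
    (hPT0 : 0 ≤ PTy) (hVy : 0 ≤ Vy) (hnL : 0 ≤ n / L) (hu0 : 0 ≤ u) (hu1 : u ≤ 1)
    (huV : u * Vy = fs * Vz') (hPT : CTy ≤ (1 + e) * PTy)
    (hW : (1 - e) * (n / L * (PTy * Vy ^ (k + 1))) - E ≤ W) (hE : 0 ≤ E)
    (hM : M = CTy * (n / L) * Vz' ^ (k + 1)) (hx : E + (k + 1) * x ≤ e * M)
    (hP : u ^ (k + 1) * W - (k + 1) * x ≤ P) :
    ((1 - e) ^ 2 * fs ^ (k + 1) - e) * M ≤ P := by
  have g1 : u ^ (k + 1) * ((1 - e) * (n / L * (PTy * Vy ^ (k + 1))) - E) ≤ u ^ (k + 1) * W :=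
    mul_le_mul_of_nonneg_left hW (pow_nonneg hu0 _)
  have g2 : u ^ (k + 1) * E ≤ E := mul_le_of_le_one_left hE (pow_le_one₀ hu0 hu1)
  have g3 : u ^ (k + 1) * ((1 - e) * (n / L * (PTy * Vy ^ (k + 1)))) =
      (1 - e) * (n / L) * PTy * (u * Vy) ^ (k + 1) := by
    rw [mul_pow]; ring
  have hPT' : (1 - e) * CTy ≤ PTy := by
    have h1 := mul_le_mul_of_nonneg_left hPT (by linarith : 0 ≤ 1 - e)
    have h2 : 0 ≤ e ^ 2 * PTy := by positivity
    nlinarith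
  have g4 : (1 - e) * (n / L) * ((1 - e) * CTy) * (u * Vy) ^ (k + 1) ≤
      (1 - e) * (n / L) * PTy * (u * Vy) ^ (k + 1) := by
    apply mul_le_mul_of_nonneg_right _ (pow_nonneg (mul_nonneg hu0 hVy) _)
    exact mul_le_mul_of_nonneg_left hPT' (mul_nonneg (by linarith) hnL)
  have g5 : (1 - e) * (n / L) * ((1 - e) * CTy) * (u * Vy) ^ (k + 1) =
      (1 - e) ^ 2 * fs ^ (k + 1) * M := by
    rw [huV, hM, mul_pow]
    ring
  rw [mul_sub, g3] at g1
  linarith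

/-- the choice of the parameter -/
lemma exists_e {A0 : ℝ} {F f : ℝ → ℝ} (hS : SF A0 F f) {α : ℝ} (hα : 0 < α) (hα4 : α < 1 / 4) (k : ℕ)
    {ε : ℝ} (hε : 0 < ε) : ∃ e : ℝ, 0 < e ∧ e ≤ 1 / 8 ∧ 2 * α ≤ 1 / 2 - e ∧
      (1 + e) ^ 2 * (F ((1 / 2 - e) / α) + e) ^ (k + 1) + e ≤ F (1 / (2 * α)) ^ (k + 1) + ε ∧
      f (1 / (2 * α)) ^ (k + 1) - ε ≤ (1 - e) ^ 2 * (max (f ((1 / 2 - e) / α) - e) 0) ^ (k + 1) - e := by
  have hs2 : 2 < 1 / (2 * α) := by rw [lt_div_iff₀ (by positivity)]; linarith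
  have hnhds : Set.Ici (1 : ℝ) ∈ nhds (1 / (2 * α)) := Ici_mem_nhds (by linarith)
  have hcF : ContinuousAt F (1 / (2 * α)) := hS.cF.continuousAt hnhds
  have hcf : ContinuousAt f (1 / (2 * α)) := hS.cf.continuousAt hnhds
  have e0 : (1 / 2 - (0 : ℝ)) / α = 1 / (2 * α) := by rw [sub_zero, div_div]
  have hc0 : ContinuousAt (fun e : ℝ => (1 / 2 - e) / α) 0 := by fun_prop
  have hcF' : ContinuousAt (fun e : ℝ => F ((1 / 2 - e) / α)) 0 := by
    apply ContinuousAt.comp (g := F) _ hc0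
    rw [e0]
    exact hcF
  have hcf' : ContinuousAt (fun e : ℝ => f ((1 / 2 - e) / α)) 0 := by
    apply ContinuousAt.comp (g := f) _ hc0
    rw [e0]
    exact hcf
  have hf0 : 0 ≤ f (1 / (2 * α)) := by
    have h1 := hS.ef _ hs2.le
    have h2 : 0 ≤ ∫ x in (2 : ℝ)..(1 / (2 * α)), F (x - 1) := by
      apply intervalIntegral.integral_nonneg hs2.le
      intro x hx
      have := hS.F1 (x - 1) (by linarith [hx.1])
      linarith
    rw [← h1] at h2
    exact nonneg_of_mul_nonneg_right h2 (by linarith)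
  have c1 : ContinuousAt (fun e : ℝ => (1 + e) ^ 2 * (F ((1 / 2 - e) / α) + e) ^ (k + 1) + e) 0 := by
    apply ContinuousAt.add _ continuousAt_id
    apply ContinuousAt.mul (by fun_prop)
    apply ContinuousAt.pow
    exact hcF'.add continuousAt_id
  have c2 : ContinuousAt (fun e : ℝ => (1 - e) ^ 2 * (max (f ((1 / 2 - e) / α) - e) 0) ^ (k + 1) - e) 0 := by
    apply ContinuousAt.sub _ continuousAt_id
    apply ContinuousAt.mul (by fun_prop)
    apply ContinuousAt.pow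
    exact (hcf'.sub continuousAt_id).max continuousAt_const
  have t1 : ∀ᶠ e : ℝ in nhds 0, (1 + e) ^ 2 * (F ((1 / 2 - e) / α) + e) ^ (k + 1) + e <
      F (1 / (2 * α)) ^ (k + 1) + ε := by
    apply c1.eventually_lt continuousAt_const
    rw [e0]
    norm_num
    exact hε
  have t2 : ∀ᶠ e : ℝ in nhds 0, f (1 / (2 * α)) ^ (k + 1) - ε <
      (1 - e) ^ 2 * (max (f ((1 / 2 - e) / α) - e) 0) ^ (k + 1) - e := by
    apply continuousAt_const.eventually_lt c2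
    rw [e0, sub_zero, max_eq_left (by linarith)]
    norm_num
    exact hε
  have t3 : ∀ᶠ e : ℝ in nhdsWithin 0 (Set.Ioi 0), e < min (1 / 8) (1 / 2 - 2 * α) :=
    (Filter.Eventually.filter_mono nhdsWithin_le_nhds
      (gt_mem_nhds (lt_min (by norm_num) (by linarith))))
  obtain ⟨e, ⟨⟨h1, h2⟩, h3⟩, h4⟩ := (((t1.filter_mono nhdsWithin_le_nhds).and
    (t2.filter_mono nhdsWithin_le_nhds)).and t3).and self_mem_nhdsWithin |>.exists
  exact ⟨e, h4, (h3.le.trans (min_le_left _ _)), by have := h3.le.trans (min_le_right _ _); linarith,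
    h1.le, h2.le⟩

end Pool.Agent.J4.H38.SR
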