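import Mathlib
import Pool.Agent.J4.H38.SR.LS2

/-! The constants of the linear sieve for almost all sets of shifts in a short interval: the theorem. -/

set_option autoImplicit false

namespace Pool.Agent.J4.H38.SR

open Finset Filter
open Pool.Agent.Y822
open Pool.Agent.Y822.Low (step_lower')
open Pool.Agent.W23
open Pool.Agent.W23.DC (tt pr LL MM Siz Mer SF mem_pr siz ind mem_EE)
open Pool.Agent.H373R2.T7 (pz Vz mem_pz)
open Pool.Agent.H387R2.Uni (nuT Adm locT CT CT_nonneg)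

/-- the number of the primes `n ≤ N` for which no `n + t`, `t ∈ D`, has a prime factor at most `z` -/
noncomputable def rgh (z N : ℕ) (D : Finset ℕ) : ℝ := ∑ n ∈ Icc 1 N, eP n * ∏ t ∈ D, ro z (n + t)

lemma rgh_eq (z y N : ℕ) (D : Finset ℕ) :
    ∑ n ∈ Icc 1 N, WH eP (ro z) (ro y) D D n = rgh z N D := by
  unfold rgh WH
  refine sum_congr rfl fun n _ => ?_
  rw [sdiff_self, bot_eq_empty, prod_empty, mul_one]

lemma CT_le_PT {e : ℝ} (he : 0 < e) {κ : ℝ} {N y k M : ℕ} {T : Finset ℕ}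
    (hT : ∀ t ∈ T, t ≤ 2 * N) (hTc : T.card = k + 2) (hy2 : 2 ≤ y)
    (hlog : Nat.log y (2 * N) ≤ ⌈2 / κ⌉₊ + 1)
    (hM : 2 * ((k : ℝ) + 2) ^ 3 * (⌈2 / κ⌉₊ + 1) / Real.log (1 + e) ≤ M) (hMy : M ≤ y) :
    CT T ≤ (1 + e) * PT T y := by
  have hy0 : (0 : ℝ) < y := by exact_mod_cast (by omega : 0 < y)
  have hle : 0 < Real.log (1 + e) := Real.log_pos (by linarith)
  have g1 := CT_up T (2 * N) y hT hy2
  refine g1.trans (mul_le_mul_of_nonneg_right ?_ (PT_nonneg _ _))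
  rw [← Real.le_log_iff_exp_le (by linarith), hTc, div_le_iff₀ hy0]
  rw [div_le_iff₀ hle] at hM
  have h1 : (M : ℝ) ≤ y := by exact_mod_cast hMy
  have h2 : ((Nat.log y (2 * N) : ℕ) : ℝ) ≤ ⌈2 / κ⌉₊ + 1 := by exact_mod_cast hlog
  calc 2 * (((k + 2 : ℕ) : ℝ)) ^ 3 * ((Nat.log y (2 * N) : ℕ) : ℝ)
      ≤ 2 * (((k + 2 : ℕ) : ℝ)) ^ 3 * (⌈2 / κ⌉₊ + 1) := mul_le_mul_of_nonneg_left h2 (by positivity)
    _ = 2 * ((k : ℝ) + 2) ^ 3 * (⌈2 / κ⌉₊ + 1) := by push_cast; ring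
    _ ≤ M * Real.log (1 + e) := hM
    _ ≤ y * Real.log (1 + e) := mul_le_mul_of_nonneg_right h1 hle.le
    _ = _ := mul_comm _ _

/-- **rough shifts** for almost all sets of shifts -/
theorem roughN {A0 : ℝ} {F f : ℝ → ℝ} (hS : SF A0 F f) {α : ℝ} (hα : 0 < α) (hα4 : α < 1 / 4) (k : ℕ)
    {ε ε' : ℝ} (hε : 0 < ε) (hε' : 0 < ε') : ∃ Λ : ℝ, 0 < Λ ∧ ∀ᶠ N : ℕ in atTop,
    ∀ z : ℕ, Lim N α z → ∀ H : ℕ, Λ * Real.log N ≤ H → H ≤ N → ∀ Bad : Finset (Finset ℕ),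
    (∀ D ∈ Bad, D ∈ (Icc 1 H).powersetCard (k + 1) ∧ Adm (pat D) ∧
      ¬ ((f (1 / (2 * α)) ^ (k + 1) - ε) * (CT (pat D) * (N / Real.log N) * Vz z ^ (k + 1)) ≤ rgh z N D ∧
        rgh z N D ≤ (F (1 / (2 * α)) ^ (k + 1) + ε) * (CT (pat D) * (N / Real.log N) * Vz z ^ (k + 1)))) →
    (Bad.card : ℝ) ≤ ε' * (H : ℝ) ^ (k + 1) := by
  classical
  obtain ⟨e, he, he8, h2α, hup, hlo⟩ := exists_e hS hα hα4 k hε
  obtain ⟨cz, hcz, VZ⟩ := Vz_sharp
  obtain ⟨cp, hcp, hlow⟩ := Pool.Agent.Y822.PT_low (k + 1)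
  set s := (1 / 2 - e) / α with hs
  have hs1 : 1 ≤ s := by rw [hs, le_div_iff₀ hα]; linarith
  have hF1 := hS.F1 s hs1
  have hf1 := hS.f1 s hs1
  obtain ⟨μ, hμ⟩ : ∃ μ : ℝ, μ = e * cp * cz ^ (k + 1) := ⟨_, rfl⟩
  have hμ0 : 0 < μ := by rw [hμ]; positivity
  obtain ⟨δ, hδ⟩ : ∃ δ : ℝ, δ = μ / (2 * (k + 1)) := ⟨_, rfl⟩
  have hδ0 : 0 < δ := by rw [hδ]; positivity
  obtain ⟨K, hK, hm0⟩ := main0K (k + 1) e he (by linarith)
  obtain ⟨x0, hm0⟩ := hm0 (k + 3)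
  have hK0 : (0 : ℝ) < K := by exact_mod_cast (by omega : 0 < K)
  obtain ⟨κm, hκmd⟩ : ∃ κm : ℝ, κm = min (min α (1 / K)) (α / (2 * (F s + 1))) := ⟨_, rfl⟩
  have hκm0 : 0 < κm := by
    rw [hκmd]
    exact lt_min (lt_min hα (by positivity)) (by positivity)
  obtain ⟨κ, Λ, hκ, hκm, hΛ, hfew⟩ := few_shortLD k (xs := e) (δ := δ) (ε' := ε')
    (κm := κm) he (by linarith) hδ0 hε' hκm0
  rw [hκmd] at hκm
  have hκα : κ ≤ α := hκm.trans ((min_le_left _ _).trans (min_le_left _ _))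
  have hκK : κ ≤ 1 / K := hκm.trans ((min_le_left _ _).trans (min_le_right _ _))
  have hκF : κ ≤ α / (2 * (F s + 1)) := hκm.trans (min_le_right _ _)
  obtain ⟨N₁, STEP⟩ := stepR hS (α := α) (τ := 1 / 2 - e) (κ := κ) (e := e) hα (by linarith) (by linarith)
    (by linarith) he (by linarith) hκ hκα
  obtain ⟨N₂, VR⟩ := Vratio (η := 1 / 2) hκ hκα (by linarith) (by norm_num)
  obtain ⟨M, hM⟩ : ∃ M : ℕ, M = ⌈2 * ((k : ℝ) + 2) ^ 3 * (⌈2 / κ⌉₊ + 1) / Real.log (1 + e)⌉₊ +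
    (⌈((k : ℝ) + 2) ^ 2 * (2 / e)⌉₊ + (x0 + 3)) := ⟨_, rfl⟩
  refine ⟨Λ, hΛ, ?_⟩
  filter_upwards [hm0, hfew, ev_logN (eventually_ge_atTop (max 1 ((M + 2) * (2 / κ)))),
    ev_logN (eventually_ge_atTop (2 / μ)), eventually_ge_atTop (max (max N₁ N₂) 3)]
    with N hm hfew hL1' hLτ hN
  intro z hz H hH1 hHN Bad hBad
  have hNN₁ : N₁ ≤ N := ((le_max_left _ _).trans (le_max_left _ _)).trans hN
  have hNN₂ : N₂ ≤ N := ((le_max_right _ _).trans (le_max_left _ _)).trans hN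
  have hN3 : 3 ≤ N := (le_max_right _ _).trans hN
  have hN2 : 2 ≤ N := by omega
  set L := Real.log N with hLd
  have hL1 : 1 ≤ L := (le_max_left _ _).trans hL1'
  have hLM : (M + 2) * (2 / κ) ≤ L := (le_max_right _ _).trans hL1'
  have hL0 : 0 < L := by linarith
  have hN0 : (0 : ℝ) < N := by positivity
  have hNe : (N : ℝ) = Real.exp L := by rw [hLd, Real.exp_log hN0]
  have hrp : ∀ s : ℝ, (N : ℝ) ^ s = Real.exp (s * L) := by
    intro s
    rw [Real.rpow_def_of_pos hN0, ← hLd, mul_comm]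
  -- the sifting limit
  obtain ⟨y, hy⟩ := exists_lim N (by omega) κ
  have hyz := hy.mono (by omega) hκα hz
  have hya' : (y : ℝ) ≤ Real.exp (κ * L) := by rw [← hrp]; exact hy.lt.le
  have hyb' : Real.exp (κ * L) ≤ y + 1 := by rw [← hrp]; exact hy.le
  have hML : (M : ℝ) + 2 ≤ κ / 2 * L := by
    have h1 : (M : ℝ) + 2 = κ / 2 * ((M + 2) * (2 / κ)) := by field_simp
    rw [h1]
    exact mul_le_mul_of_nonneg_left hLM (by positivity)
  obtain ⟨_, _, y3, y4, _, y6⟩ := y_core (M := M) hκ (by omega : 1 ≤ N) hML hya' hyb'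
  have hyx0 : x0 ≤ y := by omega
  have hy3 : 3 ≤ y := by omega
  have hy0 : (0 : ℝ) < y := by positivity
  have hyK : y ^ K ≤ N := by
    have h1 : ((y : ℝ)) ^ K ≤ N := by
      calc ((y : ℝ)) ^ K ≤ (Real.exp (κ * L)) ^ K := pow_le_pow_left₀ (Nat.cast_nonneg _) hya' K
        _ = Real.exp (κ * K * L) := by rw [← Real.exp_nat_mul]; ring_nf
        _ ≤ Real.exp L := by
            apply Real.exp_le_exp.2
            have : κ * K ≤ 1 := by
              rw [le_div_iff₀ hK0] at hκK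
              exact hκK
            nlinarith
        _ = N := hNe.symm
    exact_mod_cast h1
  -- the factor of one step
  have hVy := Vz_pos' y
  have hVz := Vz_pos' z
  set ρ := Vz z / Vz y with hρ
  have hρ0 : 0 < ρ := by positivity
  have hρ1 : ρ ≤ 2 * (κ / α) := by
    have h1 := (VR N hNN₂ y z hy hz).2
    rw [hρ, div_le_iff₀ hVy]
    refine h1.trans (mul_le_mul_of_nonneg_right ?_ hVy.le)
    have h2 : Real.exp (1 / 2) ≤ 2 := by
      have h6 : Real.exp (1 / 2) * Real.exp (-(1 / 2)) = 1 := by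
        rw [← Real.exp_add]; norm_num
      have h7 := Real.exp_pos (1 / 2)
      have h8 : 1 / 2 ≤ Real.exp (-(1 / 2)) := by
        have := Real.add_one_le_exp (-(1 / 2) : ℝ)
        linarith
      nlinarith
    have h3 : 0 < κ / α := by positivity
    nlinarith
  have hρF : (F s + 1) * ρ ≤ 1 := by
    have h1 : (F s + 1) * (2 * (κ / α)) ≤ 1 := by
      rw [le_div_iff₀ (by positivity)] at hκF
      have : (F s + 1) * (2 * (κ / α)) = κ * (2 * (F s + 1)) / α := by ring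
      rw [this, div_le_one hα]
      exact hκF
    exact (mul_le_mul_of_nonneg_left hρ1 (by linarith)).trans h1
  obtain ⟨u₁, hu₁⟩ : ∃ u : ℝ, u = (F s + e) * ρ := ⟨_, rfl⟩
  obtain ⟨u₂, hu₂⟩ : ∃ u : ℝ, u = max (f s - e) 0 * ρ := ⟨_, rfl⟩
  have hu₁0 : 0 ≤ u₁ := by rw [hu₁]; positivity
  have hu₂0 : 0 ≤ u₂ := by rw [hu₂]; exact mul_nonneg (le_max_right _ _) hρ0.le
  have hu₁1 : u₁ ≤ 1 := by
    rw [hu₁]
    refine le_trans (mul_le_mul_of_nonneg_right ?_ hρ0.le) hρF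
    linarith
  have hu₂1 : u₂ ≤ 1 := by
    rw [hu₂]
    refine le_trans (mul_le_mul_of_nonneg_right ?_ hρ0.le) hρF
    exact max_le (by linarith) (by linarith)
  have huV₁ : u₁ * Vz y = (F s + e) * Vz z := by rw [hu₁, hρ]; field_simp
  have huV₂ : u₂ * Vz y = max (f s - e) 0 * Vz z := by rw [hu₂, hρ]; field_simp
  have hz3 : 3 ≤ z := hy3.trans hyz
  have hz0 : (0 : ℝ) < z := by exact_mod_cast (by omega : 0 < z)
  have hlz : 0 < Real.log z := Real.log_pos (by exact_mod_cast (by omega : 1 < z))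
  have hlzu : Real.log z ≤ L := by
    have h1 : (z : ℝ) ≤ N := by
      calc (z : ℝ) ≤ (N : ℝ) ^ α := hz.lt.le
        _ ≤ (N : ℝ) ^ (1 : ℝ) :=
            Real.rpow_le_rpow_of_exponent_le (by exact_mod_cast (by omega : 1 ≤ N)) (by linarith)
        _ = N := Real.rpow_one _
    exact Real.log_le_log hz0 h1
  have hVzl : cz / L ≤ Vz z := (div_le_div_of_nonneg_left hcz.le hlz hlzu).trans (VZ z hz3)
  -- the error of one step
  obtain ⟨X, hX⟩ : ∃ X : ℝ, X = N / L ^ (k + 2) := ⟨_, rfl⟩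
  have hX0 : 0 < X := by rw [hX]; positivity
  have hx0 : 0 ≤ δ * X := by positivity
  refine hfew y hya' hyb' ⌊(N : ℝ) ^ (1 / 2 - e)⌋₊ ?_ (ro z) ?_ H hH1 hHN Bad ?_
  · refine (Nat.floor_le (by positivity)).trans (le_of_eq ?_)
    rw [hrp]
  · intro n
    exact ⟨ro_nonneg z n, ro_anti hyz n⟩
  · intro D hD
    obtain ⟨b1, b2, b3⟩ := hBad D hD
    refine ⟨b1, fun hg => b3 ?_⟩
    rw [mem_powersetCard] at b1
    have h0 : 0 ∉ D := fun h => by
      have := (mem_Icc.1 (b1.1 h)).1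
      omega
    have hDN : ∀ h ∈ D, h ≤ N := fun h hh => ((mem_Icc.1 (b1.1 hh)).2).trans hHN
    have hpc : (pat D).card = k + 2 := by rw [card_pat h0, b1.2]
    obtain ⟨c1, c2⟩ := hlow (pat D) hpc b2
    have hPT1 : PT (pat D) y ≤ (1 + e) * CT (pat D) := by
      refine PT_le_CT (pat D) e he (by linarith) y ?_ (by omega)
      rw [hpc]
      have g1 : ((k : ℝ) + 2) ^ 2 * (2 / e) ≤ M := by
        rw [hM]
        push_cast
        have h1 := Nat.le_ceil (((k : ℝ) + 2) ^ 2 * (2 / e))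
        have h2 : (0 : ℝ) ≤ (⌈2 * ((k : ℝ) + 2) ^ 3 * (⌈2 / κ⌉₊ + 1) / Real.log (1 + e)⌉₊ : ℝ) :=
          Nat.cast_nonneg _
        have h3 : (0 : ℝ) ≤ (x0 : ℝ) := Nat.cast_nonneg _
        linarith
      have g2 : (M : ℝ) ≤ y := by exact_mod_cast y3
      push_cast
      linarith
    have hPT2 : CT (pat D) ≤ (1 + e) * PT (pat D) y := by
      refine CT_le_PT (κ := κ) (M := M) he (fun t ht => ?_) hpc (by omega) y6 ?_ y3
      · unfold pat at ht
        rw [mem_insert] at ht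
        rcases ht with rfl | ht
        · omega
        · have := hDN t ht
          omega
      · rw [hM]
        push_cast
        have h1 := Nat.le_ceil (2 * ((k : ℝ) + 2) ^ 3 * (⌈2 / κ⌉₊ + 1) / Real.log (1 + e))
        have h2 : (0 : ℝ) ≤ (⌈((k : ℝ) + 2) ^ 2 * (2 / e)⌉₊ : ℝ) := Nat.cast_nonneg _
        have h3 : (0 : ℝ) ≤ (x0 : ℝ) := Nat.cast_nonneg _
        linarith
    -- one step
    have hZ : ∀ t ∈ D, ∀ S1 ⊆ D.erase t,
        (u₂ * ∑ n ∈ Icc 1 N, WH eP (ro z) (ro y) (D.erase t) S1 n * ro y (n + t) - δ * X ≤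
          ∑ n ∈ Icc 1 N, WH eP (ro z) (ro y) (D.erase t) S1 n * ro z (n + t)) := by
      intro t ht S1 hS1
      have hf01 : ∀ n, 0 ≤ WH eP (ro z) (ro y) (D.erase t) S1 n ∧
          WH eP (ro z) (ro y) (D.erase t) S1 n ≤ 1 := WH_bd eP_bd (ro_bd z) (ro_bd y) _ _
      have hgood := hg t ht S1 hS1
      rw [← hX] at hgood
      have hs := (STEP N hNN₁ y z hy hz _ (fun n => (hf01 n).1) t).1
      rw [hu₂]
      linarith
    have hlower := step_lower' (H := D) hx0 hu₂0 hu₂1 hZ D (subset_refl _)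
    have hupper := step_upper (e := eP) (g := ro z) (r := ro y)
      (Z := LD y ⌊(N : ℝ) ^ (1 / 2 - e)⌋₊ N) (N := N) (x := δ * X) (u := u₁) (H := D) hx0 hu₁0 hu₁1
      eP_bd (ro_bd z) (ro_bd y) (fun w hw t hwt => by
        have hs := (STEP N hNN₁ y z hy hz w (fun n => (hw n).1) t).2
        rw [hu₁]
        linarith) (by rw [hX]; exact hg) D (subset_refl _)
    rw [b1.2, rgh_eq] at hlower hupper
    obtain ⟨hm1, hm2⟩ := abs_le.1 (hm y hyx0 hyK (ro z) D h0 b1.2)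
    obtain ⟨Mn, hMn⟩ : ∃ Mn : ℝ, Mn = CT (pat D) * (N / L) * Vz z ^ (k + 1) := ⟨_, rfl⟩
    have hCT0 : 0 ≤ CT (pat D) := CT_nonneg _
    have hMn0 : 0 ≤ Mn := by rw [hMn]; positivity
    have hMlow : μ * X ≤ e * Mn := by
      rw [hMn, hμ, hX]
      have h1 : (cz / L) ^ (k + 1) ≤ Vz z ^ (k + 1) := pow_le_pow_left₀ (by positivity) hVzl _
      calc e * cp * cz ^ (k + 1) * (N / L ^ (k + 2)) = e * (cp * (N / L) * (cz / L) ^ (k + 1)) := by
            rw [div_pow, pow_succ L (k + 1)]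
            field_simp
        _ ≤ e * (CT (pat D) * (N / L) * Vz z ^ (k + 1)) := by gcongr
    have herr : (N : ℝ) / L ^ (k + 3) + (k + 1) * (δ * X) ≤ e * Mn := by
      refine le_trans ?_ hMlow
      have h1 : (N : ℝ) / L ^ (k + 3) = 1 / L * X := by
        rw [hX, pow_succ L (k + 2)]
        field_simp
      have h2 : 1 / L ≤ μ / 2 := by
        rw [div_le_iff₀ hL0]
        rw [div_le_iff₀ hμ0] at hLτ
        linarith
      have h3 : (k + 1) * (δ * X) = μ / 2 * X := by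
        rw [hδ]
        field_simp
      rw [h1, h3]
      have := mul_le_mul_of_nonneg_right h2 hX0.le
      linarith
    have hPTn := PT_nonneg (pat D) y
    rw [← hMn]
    constructor
    · have hfin := calc_low (k := k) (e := e) (fs := max (f s - e) 0) (M := Mn) (CTy := CT (pat D))
        (PTy := PT (pat D) y) (Vy := Vz y) (Vz' := Vz z) (n := N) (L := L) (u := u₂)
        (W := ∑ n ∈ Icc 1 N, WH eP (ro z) (ro y) D ∅ n) (E := N / L ^ (k + 3)) (x := δ * X)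
        (P := rgh z N D) (by linarith) hPTn hVy.le (by positivity) hu₂0 hu₂1 huV₂ hPT2
        (by linarith) (by positivity) hMn herr (by push_cast at hlower; linarith)
      refine le_trans (mul_le_mul_of_nonneg_right hlo hMn0) hfin
    · have hfin := calc_up (k := k) (e := e) (Fs := F s) (M := Mn) (CTy := CT (pat D))
        (PTy := PT (pat D) y) (Vy := Vz y) (Vz' := Vz z) (n := N) (L := L) (u := u₁)
        (W := ∑ n ∈ Icc 1 N, WH eP (ro z) (ro y) D ∅ n) (E := N / L ^ (k + 3)) (x := δ * X)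
        (P := rgh z N D) he.le hVy.le (by positivity) hu₁0 hu₁1 huV₁ hPT1
        (by linarith) (by positivity) hMn herr (by push_cast at hupper; linarith)
      exact hfin.trans (mul_le_mul_of_nonneg_right hup hMn0)

end Pool.Agent.J4.H38.SR
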