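import Mathlib
import Pool.Agent.J4.H38.SR.LS3
import Pool.Agent.W366.DC.SFX

/-! The functions of the linear sieve are unique. -/

set_option autoImplicit false

namespace Pool.Agent.J4.H38.SR

open Set Filter
open Pool.Agent.W23.DC (SF)
open Pool.Agent.W366.DC.SFXaux

/-- the functions of the linear sieve -/
structure LinSv (A : ℝ) (F f : ℝ → ℝ) : Prop where
  contF : ContinuousOn F (Set.Ici 1)
  contf : ContinuousOn f (Set.Ici 1)
  F_small : ∀ s, 1 ≤ s → s ≤ 3 → F s = A / s
  f_small : ∀ s, 1 ≤ s → s ≤ 2 → f s = 0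
  F_eq : ∀ s, 3 ≤ s → s * F s = A + ∫ x in (3 : ℝ)..s, f (x - 1)
  f_eq : ∀ s, 2 ≤ s → s * f s = ∫ x in (2 : ℝ)..s, F (x - 1)
  F_lim : Tendsto F atTop (nhds 1)
  f_lim : Tendsto f atTop (nhds 1)

lemma f1_nonneg {s : ℝ} (hs : 1 ≤ s) : 0 ≤ f1 s := by
  rcases le_total s 2 with h | h
  · rw [f1_le hs h]
  · have := f1_ge (s := 1) le_rfl hs h
    rwa [f1_le le_rfl (by norm_num)] at this

lemma F1_nonneg {s : ℝ} (hs : 1 ≤ s) : 0 ≤ F1 s := (f1_nonneg le_rfl).trans (cross le_rfl hs)

/-- uniqueness -/
theorem LinSv.eq {A : ℝ} {F f : ℝ → ℝ} (h : LinSv A F f) : ∀ n : ℕ, ∀ s : ℝ, 1 ≤ s → s ≤ n + 1 →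
    F s = A * F1 s ∧ f s = A * f1 s := by
  intro n
  induction n with
  | zero =>
    intro s h1 h2
    have hs : s = 1 := le_antisymm (by simpa using h2) h1
    subst hs
    rw [h.F_small 1 le_rfl (by norm_num), h.f_small 1 le_rfl (by norm_num), F1_3 le_rfl (by norm_num),
      f1_le le_rfl (by norm_num)]
    simp
  | succ n ih =>
    intro s h1 h2
    push_cast at h2
    have hs0 : s ≠ 0 := by linarith
    constructor
    · rcases le_total s 3 with h3 | h3
      · rw [h.F_small s h1 h3, F1_3 h1 h3]
        ring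
      · have e1 := h.F_eq s h3
        have e2 : ∫ x in (3 : ℝ)..s, f (x - 1) = A * ∫ x in (3 : ℝ)..s, f1 (x - 1) := by
          rw [← intervalIntegral.integral_const_mul]
          refine intervalIntegral.integral_congr fun x hx => ?_
          rw [uIcc_of_le h3] at hx
          exact (ih (x - 1) (by linarith [hx.1]) (by linarith [hx.2])).2
        have e3 := F1_eq3 h3
        rw [e2] at e1
        have e4 : s * F s = s * (A * F1 s) := by
          rw [e1]
          linear_combination (-A) * e3
        exact mul_left_cancel₀ hs0 e4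
    · rcases le_total s 2 with h3 | h3
      · rw [h.f_small s h1 h3, f1_le h1 h3, mul_zero]
      · have e1 := h.f_eq s h3
        have e2 : ∫ x in (2 : ℝ)..s, F (x - 1) = A * ∫ x in (2 : ℝ)..s, F1 (x - 1) := by
          rw [← intervalIntegral.integral_const_mul]
          refine intervalIntegral.integral_congr fun x hx => ?_
          rw [uIcc_of_le h3] at hx
          exact (ih (x - 1) (by linarith [hx.1]) (by linarith [hx.2])).1
        have e3 := f1_eq h3
        rw [e2] at e1
        have e4 : s * f s = s * (A * f1 s) := by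
          rw [e1]
          linear_combination (-A) * e3
        exact mul_left_cancel₀ hs0 e4

lemma LinSv.eq' {A : ℝ} {F f : ℝ → ℝ} (h : LinSv A F f) {s : ℝ} (hs : 1 ≤ s) :
    F s = A * F1 s ∧ f s = A * f1 s := by
  obtain ⟨n, hn⟩ := exists_nat_ge s
  exact h.eq n s hs (by linarith)

/-- the functions have all the properties needed in the sieve -/
theorem LinSv.sf {A : ℝ} {F f : ℝ → ℝ} (h : LinSv A F f) : SF A F f := by
  have hA : 0 < A := by
    by_contra hn
    push Not at hn
    have h1 : ∀ᶠ s in atTop, F s ≤ 0 := by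
      filter_upwards [eventually_ge_atTop 1] with s hs
      rw [(h.eq' hs).1]
      exact mul_nonpos_of_nonpos_of_nonneg hn (F1_nonneg hs)
    have h2 := le_of_tendsto h.F_lim h1
    norm_num at h2
  refine ⟨hA, h.contF, h.contf, h.F_small, h.f_small, fun s h2 h4 => ?_, fun s hs => ?_, fun s hs => ?_,
    h.F_eq, h.f_eq⟩
  · rw [(h.eq' (by linarith : 1 ≤ s)).2, f1_4 h2 h4]
    ring
  · refine le_of_tendsto h.F_lim ?_
    filter_upwards [eventually_ge_atTop (max s 2)] with t ht
    have ht1 : s ≤ t := (le_max_left _ _).trans ht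
    rw [(h.eq' hs).1, (h.eq' (hs.trans ht1)).1]
    exact mul_le_mul_of_nonneg_left (F1_ge hs ht1 ((le_max_right _ _).trans ht)) hA.le
  · refine ge_of_tendsto h.f_lim ?_
    filter_upwards [eventually_ge_atTop (max s 2)] with t ht
    have ht1 : s ≤ t := (le_max_left _ _).trans ht
    rw [(h.eq' hs).2, (h.eq' (hs.trans ht1)).2]
    exact mul_le_mul_of_nonneg_left (f1_ge hs ht1 ((le_max_right _ _).trans ht)) hA.le

/-- existence -/
theorem exists_linSv : ∃ (A : ℝ) (F f : ℝ → ℝ), LinSv A F f := by
  obtain ⟨L, hL1, hL2⟩ := exists_between_of_forall_le (s := f1 '' Ici 1) (t := F1 '' Ici 1)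
    (nonempty_Ici.image _) (nonempty_Ici.image _) (by
      rintro _ ⟨s, hs, rfl⟩ _ ⟨t, ht, rfl⟩
      exact cross hs ht)
  have hf : ∀ s : ℝ, 1 ≤ s → f1 s ≤ L := fun s hs => hL1 ⟨s, hs, rfl⟩
  have hF : ∀ s : ℝ, 1 ≤ s → L ≤ F1 s := fun s hs => hL2 ⟨s, hs, rfl⟩
  have hL : 0 < L := by
    have h3 := hf 3 (by norm_num)
    rw [f1_4 (by norm_num) (by norm_num)] at h3
    have : 0 < Real.log (3 - 1) / 3 := div_pos (Real.log_pos (by norm_num)) (by norm_num)
    linarith
  -- the difference
  have hQ1 : ∀ s : ℝ, 1 ≤ s → U (-1) s ≤ 1 := by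
    intro s hs
    have e : U (-1) s = F1 s - f1 s := by unfold F1 f1; ring
    have h1 : F1 s ≤ 1 := by
      rcases le_total s 2 with h | h
      · rw [F1_le hs h, div_le_one (by linarith)]
        exact hs
      · have := F1_ge (s := 1) le_rfl hs h
        rwa [F1_le le_rfl (by norm_num), div_one] at this
    have h2 := f1_nonneg hs
    linarith
  have hQ : ∀ s : ℝ, 2 ≤ s → F1 s - f1 s ≤ 1 / (s - 1) := by
    intro s hs
    have e : F1 s - f1 s = U (-1) s := by unfold F1 f1; ring
    rw [e]
    have h1 := Q_int hs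
    have h2 : ∫ x in (s - 1)..s, x * U (-1) x ≤ ∫ _x in (s - 1)..s, s := by
      apply intervalIntegral.integral_mono_on (by linarith)
      · exact ((continuous_id.mul (U_cont _)).intervalIntegrable _ _)
      · exact continuous_const.intervalIntegrable _ _
      · intro x hx
        have h3 := hQ1 x (by linarith [hx.1])
        have h4 : 0 ≤ x := by linarith [hx.1]
        calc x * U (-1) x ≤ x * 1 := mul_le_mul_of_nonneg_left h3 h4
          _ ≤ s := by linarith [hx.2]
    rw [intervalIntegral.integral_const, sub_sub_cancel, one_smul, ← h1] at h2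
    rw [le_div_iff₀ (by linarith)]
    have hs0 : 0 < s := by linarith
    have h3 : s * (U (-1) s * (s - 1)) ≤ s * 1 := by linarith
    exact le_of_mul_le_mul_left h3 hs0
  have ht : Tendsto (fun s : ℝ => 1 / (s - 1)) atTop (nhds 0) := by
    simp only [one_div]
    exact tendsto_inv_atTop_zero.comp (tendsto_atTop_add_const_right _ _ tendsto_id)
  have tF : Tendsto F1 atTop (nhds L) := by
    have h1 : Tendsto (fun s : ℝ => L + 1 / (s - 1)) atTop (nhds L) := by
      have := ht.const_add L
      rwa [add_zero] at this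
    refine tendsto_of_tendsto_of_tendsto_of_le_of_le' tendsto_const_nhds h1 ?_ ?_
    · filter_upwards [eventually_ge_atTop 1] with s hs using hF s hs
    · filter_upwards [eventually_ge_atTop 2] with s hs
      have h2 := hQ s hs
      have h3 := hf s (by linarith)
      linarith
  have tf : Tendsto f1 atTop (nhds L) := by
    have h1 : Tendsto (fun s : ℝ => L - 1 / (s - 1)) atTop (nhds L) := by
      have := ht.const_sub L
      rwa [sub_zero] at this
    refine tendsto_of_tendsto_of_tendsto_of_le_of_le' h1 tendsto_const_nhds ?_ ?_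
    · filter_upwards [eventually_ge_atTop 2] with s hs
      have h2 := hQ s hs
      have h3 := hF s (by linarith)
      linarith
    · filter_upwards [eventually_ge_atTop 1] with s hs using hf s hs
  refine ⟨1 / L, fun s => 1 / L * F1 s, fun s => 1 / L * f1 s, ?_⟩
  constructor
  · exact (continuous_const.mul F1_cont).continuousOn
  · exact (continuous_const.mul f1_cont).continuousOn
  · intro s h1 h3
    change 1 / L * F1 s = 1 / L / s
    rw [F1_3 h1 h3]; ring
  · intro s h1 h2
    change 1 / L * f1 s = 0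
    rw [f1_le h1 h2]; ring
  · intro s h3
    change s * (1 / L * F1 s) = 1 / L + ∫ x in (3 : ℝ)..s, 1 / L * f1 (x - 1)
    rw [intervalIntegral.integral_const_mul]
    have := F1_eq3 h3
    linear_combination (1 / L) * this
  · intro s h2
    change s * (1 / L * f1 s) = ∫ x in (2 : ℝ)..s, 1 / L * F1 (x - 1)
    rw [intervalIntegral.integral_const_mul]
    have := f1_eq h2
    linear_combination (1 / L) * this
  · have := tF.const_mul (1 / L)
    rwa [one_div_mul_cancel hL.ne'] at this
  · have := tf.const_mul (1 / L)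
    rwa [one_div_mul_cancel hL.ne'] at this

end Pool.Agent.J4.H38.SR
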